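import Mathlib

namespace Pool.Agent.Work.MP_af11aa_nt

open scoped NumberTheorySymbols

/-- Shimura's extension `(c/d)` of the Jacobi symbol to odd `d` of either sign. -/
def shimuraSymbol (c d : ℤ) : ℤ :=
  if c < 0 ∧ d < 0 then -(jacobiSym c d.natAbs) else jacobiSym c d.natAbs

lemma jacobi_four_sub_one (k : ℕ) (hk : 0 < k) : jacobiSym (k : ℤ) (4 * k - 1) = 1 := by
  have hodd : Odd (4 * k - 1) := ⟨2 * k - 1, by omega⟩
  have h4 : jacobiSym 4 (4 * k - 1) = 1 := jacobiSym.at_four hodd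
  have h1 : jacobiSym ((4 : ℤ) * k) (4 * k - 1) = 1 := by
    rw [jacobiSym.mod_left' (a₂ := 1)]
    · exact jacobiSym.one_left _
    · have : (4 : ℤ) * k = 1 + ((4 * k - 1 : ℕ) : ℤ) * 1 := by
        have : 1 ≤ 4 * k := by omega
        push_cast [this]
        ring
      rw [this, Int.add_mul_emod_self_left]
  rw [jacobiSym.mul_left, h4, one_mul] at h1
  exact h1

/-- evenness: `(k/n)` only depends on `± n` mod `4k` for `k > 0`. -/
lemma jacobi_opposite (k : ℕ) (hk : 0 < k) {n₁ n₂ : ℕ} (h1 : Odd n₁) (h2 : Odd n₂)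
    (hcop : (k : ℤ).gcd n₁ = 1) (hs : ((n₁ : ℤ) + n₂) % (4 * k) = 0) :
    jacobiSym (k : ℤ) n₁ = jacobiSym (k : ℤ) n₂ := by
  have hodd : Odd (4 * k - 1) := ⟨2 * k - 1, by omega⟩
  have hn1 : NeZero n₁ := ⟨by rintro rfl; simp at h1⟩
  have hn2 : NeZero n₂ := ⟨by rintro rfl; simp at h2⟩
  have hr : NeZero (4 * k - 1) := ⟨by omega⟩
  have hA : jacobiSym (k : ℤ) (n₁ * n₂) = jacobiSym (k : ℤ) ((4 * k - 1) * (n₁ * n₁)) := by
    rw [jacobiSym.mod_right _ (h1.mul h2), jacobiSym.mod_right _ (hodd.mul (h1.mul h1))]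
    congr 1
    have hmod : (n₁ * n₂) ≡ ((4 * k - 1) * (n₁ * n₁)) [MOD 4 * k] := by
      rw [← Int.natCast_modEq_iff]
      have h4k : 1 ≤ 4 * k := by omega
      push_cast [h4k]
      have h0 : ((n₁ : ℤ) + n₂) ≡ 0 [ZMOD 4 * k] := hs
      obtain ⟨t, ht⟩ := (Int.modEq_zero_iff_dvd.1 h0)
      have : (n₂ : ℤ) = 4 * k * t - n₁ := by linarith
      rw [this]
      refine (Int.modEq_iff_dvd.2 ⟨n₁ * n₁ - n₁ * t, ?_⟩)
      ring
    simpa [Nat.ModEq] using hmod
  have hsq : jacobiSym (k : ℤ) n₁ ^ 2 = 1 := jacobiSym.sq_one hcop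
  rw [jacobiSym.mul_right, jacobiSym.mul_right, jacobiSym.mul_right,
    jacobi_four_sub_one k hk, one_mul, ← sq, hsq] at hA
  have h3 : jacobiSym (k : ℤ) n₁ * (jacobiSym (k : ℤ) n₁ * jacobiSym (k : ℤ) n₂)
      = jacobiSym (k : ℤ) n₁ := by rw [hA, mul_one]
  rw [← mul_assoc, ← sq, hsq, one_mul] at h3
  exact h3.symm

lemma natAbs_odd {d : ℤ} (hd : Odd d) : Odd d.natAbs := Int.natAbs_odd.2 hd

lemma jacobi_period (k : ℕ) (hk : 0 < k) {d₁ d₂ : ℤ} (h1 : Odd d₁) (h2 : Odd d₂)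
    (hcop : (k : ℤ).gcd d₁ = 1) (hs : d₁ ≡ d₂ [ZMOD 4 * k]) :
    jacobiSym (k : ℤ) d₁.natAbs = jacobiSym (k : ℤ) d₂.natAbs := by
  have e1 := natAbs_odd h1
  have e2 := natAbs_odd h2
  have hcop' : (k : ℤ).gcd (d₁.natAbs : ℤ) = 1 := by
    unfold Int.gcd at hcop ⊢
    rw [Int.natAbs_natCast d₁.natAbs]
    exact hcop
  obtain ⟨t, ht⟩ := Int.modEq_iff_dvd.1 hs
  have same : ∀ {n₁ n₂ : ℕ}, Odd n₁ → Odd n₂ → (n₁ : ℤ) ≡ n₂ [ZMOD 4 * k] →
      jacobiSym (k : ℤ) n₁ = jacobiSym (k : ℤ) n₂ := by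
    intro n₁ n₂ o1 o2 h
    rw [jacobiSym.mod_right _ o1, jacobiSym.mod_right _ o2]
    congr 1
    have : n₁ ≡ n₂ [MOD 4 * k] := by
      rw [← Int.natCast_modEq_iff]; push_cast; exact h
    simpa [Nat.ModEq] using this
  rcases le_or_gt 0 d₁ with p1 | p1 <;> rcases le_or_gt 0 d₂ with p2 | p2
  · refine same e1 e2 ?_
    rw [Int.natAbs_of_nonneg p1, Int.natAbs_of_nonneg p2]; exact hs
  · refine jacobi_opposite k hk e1 e2 hcop' ?_
    rw [Int.natAbs_of_nonneg p1, Int.ofNat_natAbs_of_nonpos p2.le]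
    rw [show d₁ + -d₂ = 4 * k * (-t) by linarith]
    simp
  · refine jacobi_opposite k hk e1 e2 hcop' ?_
    rw [Int.natAbs_of_nonneg p2, Int.ofNat_natAbs_of_nonpos p1.le]
    rw [show -d₁ + d₂ = 4 * k * t by linarith]
    simp
  · refine same e1 e2 ?_
    rw [Int.ofNat_natAbs_of_nonpos p1.le, Int.ofNat_natAbs_of_nonpos p2.le]
    exact hs.neg

/-- sign part: `(-1/|d|) * sgn(d)` only depends on `d` mod 4. -/
lemma neg_one_period {d₁ d₂ : ℤ} (h1 : Odd d₁) (h2 : Odd d₂) (hs : d₁ ≡ d₂ [ZMOD 4]) :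
    (if d₁ < 0 then -(jacobiSym (-1) d₁.natAbs) else jacobiSym (-1) d₁.natAbs) =
    (if d₂ < 0 then -(jacobiSym (-1) d₂.natAbs) else jacobiSym (-1) d₂.natAbs) := by
  have key : ∀ d : ℤ, Odd d →
      (if d < 0 then -(jacobiSym (-1) d.natAbs) else jacobiSym (-1) d.natAbs) =
        ZMod.χ₄ (d : ZMod 4) := by
    intro d hd
    rw [jacobiSym.at_neg_one (natAbs_odd hd)]
    rcases le_or_gt 0 d with p | p
    · rw [if_neg (not_lt.2 p)]
      conv_rhs => rw [← Int.natAbs_of_nonneg p]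
      simp
    · rw [if_pos p]
      have : (d : ZMod 4) = -((d.natAbs : ℕ) : ZMod 4) := by
        have h := Int.ofNat_natAbs_of_nonpos p.le
        have h2 : ((d.natAbs : ℤ) : ZMod 4) = ((-d : ℤ) : ZMod 4) := by rw [h]
        rw [Int.cast_natCast, Int.cast_neg] at h2
        rw [h2]; ring
      rw [this]
      generalize ((d.natAbs : ℕ) : ZMod 4) = x
      revert x
      decide
  rw [key d₁ h1, key d₂ h2]
  congr 1
  exact (ZMod.intCast_eq_intCast_iff d₁ d₂ 4).2 hs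

/-- Periodicity of the Shimura symbol in the lower entry. -/
lemma shimura_period {m : ℤ} (hm4 : (4 : ℤ) ∣ m) {d₁ d₂ : ℤ} (h1 : Odd d₁) (h2 : Odd d₂)
    (hcop : IsCoprime m d₁) (hs : d₁ ≡ d₂ [ZMOD m]) :
    shimuraSymbol m d₁ = shimuraSymbol m d₂ := by
  obtain ⟨k, rfl⟩ := hm4
  rcases eq_or_ne k 0 with rfl | hk
  · have : d₁ = d₂ := by
      have := Int.modEq_iff_dvd.1 hs
      simp at this
      omega
    rw [this]
  have hk' : 0 < k.natAbs := Int.natAbs_pos.2 hk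
  have s4 : ∀ d : ℤ, Odd d → jacobiSym (4 * k) d.natAbs = jacobiSym k d.natAbs := by
    intro d hd
    rw [jacobiSym.mul_left, jacobiSym.at_four (natAbs_odd hd), one_mul]
  have hcopk : ((k.natAbs : ℕ) : ℤ).gcd d₁ = 1 := by
    have h := (IsCoprime.of_mul_left_right hcop)
    rw [← Int.isCoprime_iff_gcd_eq_one]
    rw [Int.natCast_natAbs]
    exact (IsCoprime.abs_left h)
  have hs' : d₁ ≡ d₂ [ZMOD 4 * (k.natAbs : ℕ)] := by
    rw [Int.natCast_natAbs]
    refine Int.modEq_iff_dvd.2 ?_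
    have := Int.modEq_iff_dvd.1 hs
    rcases abs_choice k with h | h <;> rw [h]
    · exact this
    · rw [mul_neg, neg_dvd]; exact this
  have hP := jacobi_period k.natAbs hk' h1 h2 hcopk hs'
  have hneg := neg_one_period h1 h2 (hs.of_mul_right _)
  unfold shimuraSymbol
  rw [s4 d₁ h1, s4 d₂ h2]
  rcases lt_or_gt_of_ne hk with hkn | hkp
  · have hk4 : 4 * k < 0 := by linarith
    have hkk : k = -1 * (k.natAbs : ℤ) := by
      rw [Int.ofNat_natAbs_of_nonpos hkn.le]; ring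
    have e : ∀ d : ℤ, jacobiSym k d.natAbs = jacobiSym (-1) d.natAbs * jacobiSym (k.natAbs : ℤ) d.natAbs := by
      intro d
      conv_lhs => rw [hkk]
      rw [jacobiSym.mul_left]
    simp only [hk4, true_and]
    rw [e d₁, e d₂, hP]
    split_ifs with a b b
    · simp only [a, b, if_true] at hneg
      rw [← neg_mul, ← neg_mul, hneg]
    · simp only [a, b, if_true, if_false] at hneg
      rw [← neg_mul, hneg]
    · simp only [a, b, if_true, if_false] at hneg
      rw [← neg_mul, hneg]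
    · simp only [a, b, if_false] at hneg
      rw [hneg]
  · have hk4 : ¬ (4 * k < 0) := by linarith
    have hkk : (k.natAbs : ℤ) = k := Int.natAbs_of_nonneg hkp.le
    simp only [hk4, false_and, if_false]
    rw [hkk] at hP
    exact hP

lemma shimura_mul_pos {l m d : ℤ} (hl : 0 < l) :
    shimuraSymbol (l * m) d = jacobiSym l d.natAbs * shimuraSymbol m d := by
  unfold shimuraSymbol
  have : (l * m < 0) ↔ m < 0 := by
    constructor
    · intro h; by_contra h'; push Not at h'; nlinarith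
    · intro h; nlinarith
  simp only [this, jacobiSym.mul_left]
  split_ifs
  · ring
  · rfl

lemma shimura_sq_mul {l m d : ℤ} (hl : 0 < l) (hcop : IsCoprime l d) :
    shimuraSymbol (l * (l * m)) d = shimuraSymbol m d := by
  rw [shimura_mul_pos hl, shimura_mul_pos hl, ← mul_assoc, ← sq, jacobiSym.sq_one, one_mul]
  have := Int.isCoprime_iff_gcd_eq_one.1 hcop
  unfold Int.gcd at this ⊢
  rw [Int.natAbs_natCast d.natAbs]
  exact this

lemma shimura_one_right (m : ℤ) : shimuraSymbol m 1 = 1 := by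
  unfold shimuraSymbol
  simp

/-- reciprocity for the lower entry `d ≡ 1 mod 4` of either sign. -/
lemma jacobi_recip {l : ℕ} (hl : Odd l) {d : ℤ} (hd : d % 4 = 1) :
    jacobiSym (l : ℤ) d.natAbs = jacobiSym d l := by
  have hodd : Odd d := by rw [Int.odd_iff]; omega
  rcases le_or_gt 0 d with p | p
  · have hb : d.natAbs % 4 = 1 := by omega
    rw [jacobiSym.quadratic_reciprocity_one_mod_four' hl hb]
    congr 1
    exact Int.natAbs_of_nonneg p
  · have hb : d.natAbs % 4 = 3 := by omega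
    have hd' : d = -1 * (d.natAbs : ℤ) := by
      rw [Int.ofNat_natAbs_of_nonpos p.le]; ring
    conv_rhs => rw [hd', jacobiSym.mul_left]
    have hl2 : l % 4 = 1 ∨ l % 4 = 3 := by
      rcases hl with ⟨r, hr⟩; omega
    rcases hl2 with h | h
    · rw [jacobiSym.quadratic_reciprocity_one_mod_four h (natAbs_odd hodd),
        jacobiSym.at_neg_one hl, ZMod.χ₄_nat_one_mod_four h, one_mul]
    · rw [jacobiSym.quadratic_reciprocity_three_mod_four h hb,
        jacobiSym.at_neg_one hl, ZMod.χ₄_nat_three_mod_four h]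
      ring

end Pool.Agent.Work.MP_af11aa_nt
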