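import Mathlib
import Pool.Agent.Work.MP_af11aa_nt.Symbol

namespace Pool.Agent.Work.MP_af11aa_nt

open UpperHalfPlane CongruenceSubgroup Complex
open scoped MatrixGroups Manifold Topology

noncomputable section

/-- `ε_d = 1` for `d ≡ 1 mod 4` and `ε_d = i` for `d ≡ 3 mod 4`. -/
def epsilon (d : ℤ) : ℂ := if d % 4 = 1 then 1 else Complex.I

/-- The linear form `c z + d` attached to the lower row of a matrix. -/
def lowerForm (γ : SL(2, ℤ)) (z : ℍ) : ℂ := ((γ 1 0 : ℤ) : ℂ) * (z : ℂ) + ((γ 1 1 : ℤ) : ℂ)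

/-- The automorphy factor `j(γ,z) = ε_d⁻¹ (c/d) (cz+d)^{1/2}` of the theta function. -/
def thetaFactor (γ : SL(2, ℤ)) (z : ℍ) : ℂ :=
  (epsilon (γ 1 1))⁻¹ * ((shimuraSymbol (γ 1 0) (γ 1 1) : ℤ) : ℂ) * lowerForm γ z ^ (1 / 2 : ℂ)

/-- `f` is a holomorphic cusp form of weight `3/2` on `Γ₀(N)` with character `χ`, in Shimura's
normalisation. -/
structure IsCuspForm (N : ℕ) (χ : DirichletCharacter ℂ N) (f : ℍ → ℂ) : Prop where
  holo : MDifferentiable 𝓘(ℂ) 𝓘(ℂ) f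
  transform : ∀ γ ∈ Gamma0 N, ∀ z : ℍ,
    f (γ • z) = χ ((γ 1 1 : ℤ) : ZMod N) * thetaFactor γ z ^ 3 * f z
  cusp : ∀ γ : SL(2, ℤ),
    IsZeroAtImInfty (fun z : ℍ ↦ ‖f (γ • z)‖ / ‖lowerForm γ z‖ ^ (3 / 2 : ℝ))

/-- The `n`-th Fourier coefficient `a_f(n)` of a function of period `1` on `ℍ`. -/
def fourierCoeff (f : ℍ → ℂ) (n : ℕ) : ℂ := (qExpansion 1 f).coeff n

lemma lowerForm_eq_denom (γ : SL(2, ℤ)) (z : ℍ) : lowerForm γ z = denom γ z := rfl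

lemma lowerForm_ne_zero (γ : SL(2, ℤ)) (z : ℍ) : lowerForm γ z ≠ 0 := by
  rw [lowerForm_eq_denom]; exact denom_ne_zero _ _

lemma im_smul_eq (γ : SL(2, ℤ)) (z : ℍ) : (γ • z).im = z.im / ‖lowerForm γ z‖ ^ 2 := by
  rw [ModularGroup.im_smul_eq_div_normSq, ← lowerForm_eq_denom, Complex.normSq_eq_norm_sq]

lemma norm_epsilon (d : ℤ) : ‖epsilon d‖ = 1 := by
  unfold epsilon
  split_ifs <;> simp

lemma gcd_of_mem {γ : SL(2, ℤ)} : IsCoprime (γ 1 0) (γ 1 1) := by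
  have h := γ.det_coe
  rw [Matrix.det_fin_two] at h
  exact ⟨-(γ 0 1), γ 0 0, by linarith⟩

lemma shimura_sq_eq_one {c d : ℤ} (h : IsCoprime c d) : shimuraSymbol c d ^ 2 = 1 := by
  have hg : c.gcd (d.natAbs : ℤ) = 1 := by
    have := Int.isCoprime_iff_gcd_eq_one.1 h
    unfold Int.gcd at this ⊢
    rw [Int.natAbs_natCast d.natAbs]
    exact this
  have := jacobiSym.sq_one hg
  unfold shimuraSymbol
  split_ifs
  · rw [neg_sq]; exact this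
  · exact this

lemma norm_shimura {c d : ℤ} (h : IsCoprime c d) : ‖((shimuraSymbol c d : ℤ) : ℂ)‖ = 1 := by
  have h2 := shimura_sq_eq_one h
  have : ‖((shimuraSymbol c d : ℤ) : ℂ)‖ ^ 2 = 1 := by
    rw [← norm_pow]
    have : ((shimuraSymbol c d : ℤ) : ℂ) ^ 2 = 1 := by exact_mod_cast h2
    rw [this]; simp
  nlinarith [norm_nonneg ((shimuraSymbol c d : ℤ) : ℂ)]

lemma norm_cpow_half (w : ℂ) : ‖w ^ (1 / 2 : ℂ)‖ = ‖w‖ ^ (1 / 2 : ℝ) := by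
  have : (1 / 2 : ℂ) = ((1 / 2 : ℝ) : ℂ) := by push_cast; rfl
  rw [this, Complex.norm_cpow_real]

lemma norm_thetaFactor_pow (γ : SL(2, ℤ)) (z : ℍ) :
    ‖thetaFactor γ z ^ 3‖ = ‖lowerForm γ z‖ ^ (3 / 2 : ℝ) := by
  unfold thetaFactor
  rw [norm_pow, norm_mul, norm_mul, norm_inv, norm_epsilon, norm_shimura gcd_of_mem,
    norm_cpow_half _]
  rw [inv_one, one_mul, one_mul, ← Real.rpow_natCast, ← Real.rpow_mul (norm_nonneg _)]
  norm_num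

lemma norm_char {N : ℕ} [NeZero N] (χ : DirichletCharacter ℂ N) {γ : SL(2, ℤ)} (hγ : γ ∈ Gamma0 N) :
    ‖χ ((γ 1 1 : ℤ) : ZMod N)‖ = 1 := by
  have hu : IsUnit ((γ 1 1 : ℤ) : ZMod N) := by
    rw [Gamma0_mem] at hγ
    have h := γ.det_coe
    rw [Matrix.det_fin_two] at h
    have h2 : ((γ 0 0 * γ 1 1 - γ 0 1 * γ 1 0 : ℤ) : ZMod N) = 1 := by rw [h]; simp
    push_cast at h2
    rw [hγ, mul_zero, sub_zero] at h2
    exact IsUnit.of_mul_eq_one_right _ h2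
  simpa using DirichletCharacter.unit_norm_eq_one χ hu.unit

end

end Pool.Agent.Work.MP_af11aa_nt
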