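import Mathlib
import Pool.Agent.Work.MP_af11aa_nt.Defs

namespace Pool.Agent.Work.MP_af11aa_nt

open UpperHalfPlane CongruenceSubgroup Complex
open scoped MatrixGroups Manifold Topology ComplexConjugate

noncomputable section

/-- the point `(z+b)/q`. -/
def shiftDiv (q : ℕ) [NeZero q] (b : ℤ) (z : ℍ) : ℍ :=
  ⟨((z : ℂ) + b) / q, by
    have hq : (0 : ℝ) < q := Nat.cast_pos.2 (NeZero.pos q)
    have h := z.im_pos
    have : (((z : ℂ) + b) / q).im = z.im / q := by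
      rw [← Complex.ofReal_natCast, Complex.div_ofReal_im]
      simp
    rw [this]; positivity⟩

lemma coe_shiftDiv (q : ℕ) [NeZero q] (b : ℤ) (z : ℍ) :
    ((shiftDiv q b z : ℍ) : ℂ) = ((z : ℂ) + b) / q := rfl

lemma im_shiftDiv (q : ℕ) [NeZero q] (b : ℤ) (z : ℍ) :
    (shiftDiv q b z).im = z.im / q := by
  have : (((z : ℂ) + b) / q).im = z.im / q := by
    rw [← Complex.ofReal_natCast, Complex.div_ofReal_im]
    simp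
  rw [← this]; rfl

lemma coe_sl_smul (γ : SL(2, ℤ)) (z : ℍ) :
    ((γ • z : ℍ) : ℂ) = (((γ 0 0 : ℤ) : ℂ) * z + ((γ 0 1 : ℤ) : ℂ)) / lowerForm γ z := by
  rw [UpperHalfPlane.coe_specialLinearGroup_apply]
  simp [lowerForm]

lemma exists_hecke (q : ℕ) [NeZero q] (γ : SL(2, ℤ)) (b b' : ℤ)
    (h : (q : ℤ) ∣ γ 0 1 + b * γ 1 1 - b' * (γ 0 0 + b * γ 1 0)) :
    ∃ γ' : SL(2, ℤ), γ' 1 0 = q * γ 1 0 ∧ γ' 1 1 = γ 1 1 - b' * γ 1 0 ∧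
      (∀ z : ℍ, shiftDiv q b (γ • z) = γ' • shiftDiv q b' z) ∧
      ∀ z : ℍ, lowerForm γ' (shiftDiv q b' z) = lowerForm γ z := by
  obtain ⟨t, ht⟩ := h
  have hdet := γ.det_coe
  rw [Matrix.det_fin_two] at hdet
  have hq : (q : ℂ) ≠ 0 := by exact_mod_cast NeZero.ne q
  let γ' : SL(2, ℤ) := ⟨!![γ 0 0 + b * γ 1 0, t; q * γ 1 0, γ 1 1 - b' * γ 1 0], by
    rw [Matrix.det_fin_two_of]
    linear_combination hdet + (γ 1 0) * ht⟩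
  have e00 : γ' 0 0 = γ 0 0 + b * γ 1 0 := rfl
  have e01 : γ' 0 1 = t := rfl
  have e10 : γ' 1 0 = q * γ 1 0 := rfl
  have e11 : γ' 1 1 = γ 1 1 - b' * γ 1 0 := rfl
  have hlow : ∀ z : ℍ, lowerForm γ' (shiftDiv q b' z) = lowerForm γ z := by
    intro z
    unfold lowerForm
    rw [e10, e11, coe_shiftDiv]
    push_cast
    field_simp
    ring
  refine ⟨γ', e10, e11, ?_, hlow⟩
  intro z
  ext1
  rw [coe_shiftDiv, coe_sl_smul, coe_sl_smul, hlow, e00, e01, coe_shiftDiv]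
  have hL := lowerForm_ne_zero γ z
  have ht' : (((γ 0 1 : ℤ) : ℂ) + b * ((γ 1 1 : ℤ) : ℂ) -
      b' * (((γ 0 0 : ℤ) : ℂ) + b * ((γ 1 0 : ℤ) : ℂ))) = q * t := by exact_mod_cast ht
  field_simp
  unfold lowerForm
  push_cast
  linear_combination ht'

/-- The cross term `f((z+b)/q) conj f((z+b')/q) y^{3/2}`. -/
def cross (f : ℍ → ℂ) (q : ℕ) [NeZero q] (b b' : ℤ) (z : ℍ) : ℂ :=
  f (shiftDiv q b z) * conj (f (shiftDiv q b' z)) * ((z.im ^ (3 / 2 : ℝ) : ℝ) : ℂ)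

lemma transform_shift {N : ℕ} {χ : DirichletCharacter ℂ N} {f : ℍ → ℂ}
    (hf : IsCuspForm N χ f) (q : ℕ) [NeZero q] {γ : SL(2, ℤ)} (hγ : γ ∈ Gamma0 N) {b b' : ℤ}
    (h : (q : ℤ) ∣ γ 0 1 + b * γ 1 1 - b' * (γ 0 0 + b * γ 1 0)) (z : ℍ) :
    f (shiftDiv q b (γ • z)) = χ ((γ 1 1 : ℤ) : ZMod N) *
      ((epsilon (γ 1 1 - b' * γ 1 0))⁻¹ *
        ((shimuraSymbol (q * γ 1 0) (γ 1 1 - b' * γ 1 0) : ℤ) : ℂ) *
          lowerForm γ z ^ (1 / 2 : ℂ)) ^ 3 * f (shiftDiv q b' z) := by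
  obtain ⟨γ', e10, e11, hz, hl⟩ := exists_hecke q γ b b' h
  rw [Gamma0_mem] at hγ
  have hγ' : γ' ∈ Gamma0 N := by
    rw [Gamma0_mem, e10]
    push_cast
    rw [hγ, mul_zero]
  rw [hz z, hf.transform γ' hγ']
  congr 2
  · congr 1
    rw [e11]; push_cast; rw [hγ, mul_zero, sub_zero]
  · unfold thetaFactor
    rw [hl, e10, e11]

lemma epsilon_congr {d d' : ℤ} (h : d ≡ d' [ZMOD 4]) : epsilon d = epsilon d' := by
  unfold epsilon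
  rw [show d % 4 = d' % 4 from h]

lemma cube_of_sq {x : ℤ} (h : x ^ 2 = 1) : x ^ 3 = x := by
  rw [pow_succ, h, one_mul]

lemma coprime_hecke {q : ℕ} [NeZero q] {γ : SL(2, ℤ)} {b b' : ℤ}
    (h : (q : ℤ) ∣ γ 0 1 + b * γ 1 1 - b' * (γ 0 0 + b * γ 1 0)) :
    IsCoprime ((q : ℤ) * γ 1 0) (γ 1 1 - b' * γ 1 0) := by
  obtain ⟨γ', e10, e11, -, -⟩ := exists_hecke q γ b b' h
  rw [← e10, ← e11]
  exact gcd_of_mem

lemma cross_transform {N : ℕ} [NeZero N] {χ : DirichletCharacter ℂ N} {f : ℍ → ℂ}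
    (hf : IsCuspForm N χ f) (h4 : 4 ∣ N) (q : ℕ) [NeZero q] {γ : SL(2, ℤ)} (hγ : γ ∈ Gamma0 N)
    {b b' c c' : ℤ}
    (h : (q : ℤ) ∣ γ 0 1 + b * γ 1 1 - c * (γ 0 0 + b * γ 1 0))
    (h' : (q : ℤ) ∣ γ 0 1 + b' * γ 1 1 - c' * (γ 0 0 + b' * γ 1 0)) (z : ℍ) :
    cross f q b b' (γ • z) =
      ((shimuraSymbol (q * γ 1 0) (γ 1 1 - c * γ 1 0) *
        shimuraSymbol (q * γ 1 0) (γ 1 1 - c' * γ 1 0) : ℤ) : ℂ) * cross f q c c' z := by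
  have hχ := norm_char χ hγ
  have hc4 : (4 : ℤ) ∣ γ 1 0 := by
    rw [Gamma0_mem, ZMod.intCast_zmod_eq_zero_iff_dvd] at hγ
    exact (Int.natCast_dvd_natCast.2 h4).trans hγ
  have heps : epsilon (γ 1 1 - c * γ 1 0) = epsilon (γ 1 1 - c' * γ 1 0) := by
    apply epsilon_congr
    obtain ⟨k, hk⟩ := hc4
    rw [hk]
    refine Int.modEq_iff_dvd.2 ⟨(c - c') * k, by ring⟩
  unfold cross
  rw [transform_shift hf q hγ h z, transform_shift hf q hγ h' z, heps, im_smul_eq]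
  set L := lowerForm γ z with hL
  have hL0 : L ≠ 0 := lowerForm_ne_zero γ z
  set S1 := shimuraSymbol (q * γ 1 0) (γ 1 1 - c * γ 1 0) with hS1
  set S2 := shimuraSymbol (q * γ 1 0) (γ 1 1 - c' * γ 1 0) with hS2
  have s1 : S1 ^ 2 = 1 := shimura_sq_eq_one (coprime_hecke h)
  have s2 : S2 ^ 2 = 1 := shimura_sq_eq_one (coprime_hecke h')
  set E := epsilon (γ 1 1 - c' * γ 1 0) with hE
  have hE1 : ‖E‖ = 1 := norm_epsilon _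
  set X := χ ((γ 1 1 : ℤ) : ZMod N) with hX
  have hX2 : X * conj X = 1 := by
    rw [Complex.mul_conj, Complex.normSq_eq_norm_sq, hχ]; simp
  have hE2 : E⁻¹ * conj E⁻¹ = 1 := by
    rw [Complex.mul_conj, Complex.normSq_eq_norm_sq, norm_inv, hE1]; simp
  have hLL : (L ^ (1 / 2 : ℂ)) * conj (L ^ (1 / 2 : ℂ)) = ((‖L‖ : ℝ) : ℂ) := by
    rw [Complex.mul_conj, Complex.normSq_eq_norm_sq, norm_cpow_half]
    congr 1
    rw [← Real.rpow_natCast, ← Real.rpow_mul (norm_nonneg _)]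
    norm_num
  have him : ((z.im / ‖L‖ ^ 2) ^ (3 / 2 : ℝ) : ℝ) = z.im ^ (3 / 2 : ℝ) / ‖L‖ ^ 3 := by
    rw [Real.div_rpow z.im_pos.le (by positivity), ← Real.rpow_natCast, ← Real.rpow_mul
      (norm_nonneg _)]
    norm_num
  rw [him]
  have hLn : ((‖L‖ : ℝ) : ℂ) ≠ 0 := by
    exact_mod_cast norm_ne_zero_iff.2 hL0
  have c1 : (S1 : ℂ) ^ 3 = S1 := by exact_mod_cast cube_of_sq s1
  have c2 : (S2 : ℂ) ^ 3 = S2 := by exact_mod_cast cube_of_sq s2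
  have conjS2 : conj (S2 : ℂ) = S2 := by
    rw [← Complex.ofReal_intCast, Complex.conj_ofReal]
  simp only [map_mul, map_pow, conjS2]
  have key : (E⁻¹ * (S1 : ℂ) * L ^ (1 / 2 : ℂ)) ^ 3 *
      (conj E⁻¹ * (S2 : ℂ) * conj (L ^ (1 / 2 : ℂ))) ^ 3 = S1 * S2 * ((‖L‖ : ℝ) : ℂ) ^ 3 := by
    calc _ = (E⁻¹ * conj E⁻¹) ^ 3 * ((S1 : ℂ) ^ 3 * (S2 : ℂ) ^ 3) *
          ((L ^ (1 / 2 : ℂ)) * conj (L ^ (1 / 2 : ℂ))) ^ 3 := by ring
      _ = _ := by rw [hE2, hLL, c1, c2]; ring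
  push_cast
  calc X * (E⁻¹ * ↑S1 * L ^ (1 / 2 : ℂ)) ^ 3 * f (shiftDiv q c z) *
        (conj X * (conj E⁻¹ * ↑S2 * conj (L ^ (1 / 2 : ℂ))) ^ 3 * conj (f (shiftDiv q c' z))) *
      (((z.im ^ (3 / 2 : ℝ) : ℝ) : ℂ) / ((‖L‖ : ℝ) : ℂ) ^ 3)
      = (X * conj X) * ((E⁻¹ * (S1 : ℂ) * L ^ (1 / 2 : ℂ)) ^ 3 *
      (conj E⁻¹ * (S2 : ℂ) * conj (L ^ (1 / 2 : ℂ))) ^ 3) * (f (shiftDiv q c z) *
        conj (f (shiftDiv q c' z))) * (((z.im ^ (3 / 2 : ℝ) : ℝ) : ℂ) / ((‖L‖ : ℝ) : ℂ) ^ 3) := by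
        ring
    _ = _ := by
        rw [hX2, key]
        field_simp

end

end Pool.Agent.Work.MP_af11aa_nt
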