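import Mathlib
import Pool.Agent.Work.MP_af11aa_nt.Cross

namespace Pool.Agent.Work.MP_af11aa_nt

open UpperHalfPlane CongruenceSubgroup
open Complex hiding Gamma
open scoped MatrixGroups Manifold Topology ComplexConjugate

noncomputable section

lemma shimura_sq_congr {q : ℕ} (hq : 0 < q) {m d₁ d₂ : ℤ} (h4 : (4 : ℤ) ∣ m)
    (h1 : IsCoprime ((q : ℤ) * (q * m)) d₁) (h2 : IsCoprime ((q : ℤ) * (q * m)) d₂)
    (hs : d₁ ≡ d₂ [ZMOD m]) :
    shimuraSymbol (q * (q * m)) d₁ = shimuraSymbol (q * (q * m)) d₂ := by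
  have hq' : (0 : ℤ) < q := by exact_mod_cast hq
  rw [shimura_sq_mul hq' h1.of_mul_left_left, shimura_sq_mul hq' h2.of_mul_left_left]
  have hm1 : IsCoprime m d₁ := h1.of_mul_left_right.of_mul_left_right
  have hm2 : IsCoprime m d₂ := h2.of_mul_left_right.of_mul_left_right
  have odd_of : ∀ d : ℤ, IsCoprime m d → Odd d := by
    intro d hd
    have h2 : (2 : ℤ) ∣ m := (by norm_num : (2 : ℤ) ∣ 4).trans h4
    have : IsCoprime (2 : ℤ) d := hd.of_isCoprime_of_dvd_left h2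
    rw [← Int.not_even_iff_odd]
    intro he
    have h3 : (2 : ℤ) ∣ d := he.two_dvd
    have := this.isUnit_of_dvd' (dvd_refl _) h3
    simp [Int.isUnit_iff] at this
  exact shimura_period h4 (odd_of _ hm1) (odd_of _ hm2) hm1 hs

/-- Translation by one. -/
lemma f_T {N : ℕ} {χ : DirichletCharacter ℂ N} {f : ℍ → ℂ}
    (hf : IsCuspForm N χ f) (z : ℍ) : f (ModularGroup.T • z) = f z := by
  have hT : ModularGroup.T ∈ Gamma0 N := by
    rw [Gamma0_mem]; simp [ModularGroup.T]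
  rw [hf.transform _ hT]
  have e10 : (ModularGroup.T : SL(2, ℤ)) 1 0 = 0 := by simp [ModularGroup.T]
  have e11 : (ModularGroup.T : SL(2, ℤ)) 1 1 = 1 := by simp [ModularGroup.T]
  unfold thetaFactor lowerForm
  rw [e10, e11, shimura_one_right]
  simp [epsilon]

lemma f_T_pow {N : ℕ} {χ : DirichletCharacter ℂ N} {f : ℍ → ℂ}
    (hf : IsCuspForm N χ f) (n : ℤ) (z : ℍ) : f (ModularGroup.T ^ n • z) = f z := by
  induction n using Int.induction_on generalizing z with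
  | zero => simp
  | succ i hi => rw [zpow_add_one, mul_smul, hi, f_T hf]
  | pred i hi =>
    rw [zpow_sub_one, mul_smul, hi]
    conv_rhs => rw [← smul_inv_smul (ModularGroup.T) z]
    rw [f_T hf]

lemma shift_congr {N : ℕ} {χ : DirichletCharacter ℂ N} {f : ℍ → ℂ}
    (hf : IsCuspForm N χ f) (q : ℕ) [NeZero q] {b b' : ℤ} (h : (b : ZMod q) = (b' : ZMod q))
    (z : ℍ) : f (shiftDiv q b z) = f (shiftDiv q b' z) := by
  rw [ZMod.intCast_eq_intCast_iff_dvd_sub] at h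
  obtain ⟨k, hk⟩ := h
  have hq : (q : ℂ) ≠ 0 := by exact_mod_cast NeZero.ne q
  have : shiftDiv q b' z = ModularGroup.T ^ k • shiftDiv q b z := by
    ext1
    rw [ModularGroup.coe_T_zpow_smul_eq, coe_shiftDiv, coe_shiftDiv]
    have : (b' : ℂ) = b + q * k := by
      have h2 : b' = b + q * k := by linarith
      rw [h2]; push_cast; ring
    rw [this]
    field_simp
    ring
  rw [this, f_T_pow hf]

lemma cross_congr {N : ℕ} {χ : DirichletCharacter ℂ N} {f : ℍ → ℂ}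
    (hf : IsCuspForm N χ f) (q : ℕ) [NeZero q] {b b' c c' : ℤ} (h : (b : ZMod q) = (b' : ZMod q))
    (h' : (c : ZMod q) = (c' : ZMod q)) (z : ℍ) : cross f q b c z = cross f q b' c' z := by
  unfold cross
  rw [shift_congr hf q h, shift_congr hf q h']

lemma cross_T (f : ℍ → ℂ) (q : ℕ) [NeZero q] (b c k : ℤ) (z : ℍ) :
    cross f q b c (ModularGroup.T ^ k • z) = cross f q (b + k) (c + k) z := by
  have h : ∀ b : ℤ, shiftDiv q b (ModularGroup.T ^ k • z) = shiftDiv q (b + k) z := by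
    intro b
    ext1
    rw [coe_shiftDiv, coe_shiftDiv, ModularGroup.coe_T_zpow_smul_eq]
    push_cast
    ring
  unfold cross
  rw [h, h, ModularGroup.im_T_zpow_smul]

section avg

attribute [local instance] Subgroup.fintypeQuotientOfFiniteIndex

/-- average over `SL(2,ℤ)/Γ(M)` (unnormalised). -/
def avg (M : ℕ) [NeZero M] (Ψ : ℍ → ℂ) (z : ℍ) : ℂ :=
  ∑ x : SL(2, ℤ) ⧸ Gamma M, Ψ ((Quotient.out x)⁻¹ • z)

lemma out_inv_smul {M : ℕ} {E : Type*} {Ψ : ℍ → E} (hΨ : ∀ γ ∈ Gamma M, ∀ z, Ψ (γ • z) = Ψ z)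
    (γ : SL(2, ℤ)) (z : ℍ) :
    Ψ ((Quotient.out (QuotientGroup.mk γ : SL(2, ℤ) ⧸ Gamma M))⁻¹ • z) = Ψ (γ⁻¹ • z) := by
  obtain ⟨h, hh⟩ := QuotientGroup.mk_out_eq_mul (Gamma M) γ
  rw [hh, mul_inv_rev, mul_smul]
  exact hΨ _ (inv_mem h.2) _

lemma avg_comp (M : ℕ) [NeZero M] {Ψ : ℍ → ℂ} (hΨ : ∀ γ ∈ Gamma M, ∀ z, Ψ (γ • z) = Ψ z)
    (δ : SL(2, ℤ)) (z : ℍ) : avg M (fun w ↦ Ψ (δ • w)) z = avg M Ψ z := by
  have hN := Gamma_normal M
  unfold avg
  refine Fintype.sum_equiv (Equiv.mulRight (QuotientGroup.mk δ⁻¹ : SL(2, ℤ) ⧸ Gamma M)) _ _ ?_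
  intro x
  have h1 : (Equiv.mulRight (QuotientGroup.mk δ⁻¹ : SL(2, ℤ) ⧸ Gamma M)) x =
      QuotientGroup.mk (Quotient.out x * δ⁻¹) := by
    rw [Equiv.coe_mulRight, QuotientGroup.mk_mul]
    congr 1
    exact (QuotientGroup.out_eq' x).symm
  rw [h1, out_inv_smul hΨ, mul_inv_rev, inv_inv, mul_smul]

lemma avg_add (M : ℕ) [NeZero M] (Ψ Ψ' : ℍ → ℂ) (z : ℍ) :
    avg M (fun w ↦ Ψ w + Ψ' w) z = avg M Ψ z + avg M Ψ' z := by
  unfold avg; rw [Finset.sum_add_distrib]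

lemma avg_sum {ι : Type*} (s : Finset ι) (M : ℕ) [NeZero M] (Ψ : ι → ℍ → ℂ) (z : ℍ) :
    avg M (fun w ↦ ∑ i ∈ s, Ψ i w) z = ∑ i ∈ s, avg M (Ψ i) z := by
  unfold avg; rw [Finset.sum_comm]

lemma avg_neg (M : ℕ) [NeZero M] (Ψ : ℍ → ℂ) (z : ℍ) :
    avg M (fun w ↦ -Ψ w) z = -avg M Ψ z := by
  unfold avg; rw [Finset.sum_neg_distrib]

end avg

lemma cross_Gamma {N : ℕ} [NeZero N] {χ : DirichletCharacter ℂ N} {f : ℍ → ℂ}
    (hf : IsCuspForm N χ f) (h4 : 4 ∣ N) (q : ℕ) [NeZero q] (b c : ℤ) :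
    ∀ γ ∈ Gamma (N * q), ∀ z, cross f q b c (γ • z) = cross f q b c z := by
  intro γ hγ z
  rw [Gamma_mem] at hγ
  obtain ⟨g00, g01, g10, g11⟩ := hγ
  have g00' : ((N * q : ℕ) : ℤ) ∣ γ 0 0 - 1 := by
    rw [← ZMod.intCast_zmod_eq_zero_iff_dvd]; push_cast; rw [g00]; ring
  have g11' : ((N * q : ℕ) : ℤ) ∣ γ 1 1 - 1 := by
    rw [← ZMod.intCast_zmod_eq_zero_iff_dvd]; push_cast; rw [g11]; ring
  have g01' : ((N * q : ℕ) : ℤ) ∣ γ 0 1 := by
    rwa [ZMod.intCast_zmod_eq_zero_iff_dvd] at g01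
  have g10' : ((N * q : ℕ) : ℤ) ∣ γ 1 0 := by
    rwa [ZMod.intCast_zmod_eq_zero_iff_dvd] at g10
  have hqM : (q : ℤ) ∣ ((N * q : ℕ) : ℤ) := by exact_mod_cast Dvd.intro_left N rfl
  have hNM : (N : ℤ) ∣ ((N * q : ℕ) : ℤ) := by exact_mod_cast Dvd.intro q rfl
  have hγ0 : γ ∈ Gamma0 N := by
    rw [Gamma0_mem, ZMod.intCast_zmod_eq_zero_iff_dvd]
    exact hNM.trans g10'
  have hdiv : ∀ b : ℤ, (q : ℤ) ∣ γ 0 1 + b * γ 1 1 - b * (γ 0 0 + b * γ 1 0) := by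
    intro b
    have e : γ 0 1 + b * γ 1 1 - b * (γ 0 0 + b * γ 1 0) =
      γ 0 1 + b * (γ 1 1 - 1) - b * (γ 0 0 - 1) - b * b * γ 1 0 := by ring
    rw [e]
    exact ((((hqM.trans g01').add ((hqM.trans g11').mul_left _)).sub
      ((hqM.trans g00').mul_left _)).sub ((hqM.trans g10').mul_left _))
  rw [cross_transform hf h4 q hγ0 (hdiv b) (hdiv c)]
  have hcop1 := coprime_hecke (hdiv b)
  have hcop2 := coprime_hecke (hdiv c)
  obtain ⟨m, hm⟩ := g10'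
  have hm' : γ 1 0 = q * (N * m) := by rw [hm]; push_cast; ring
  have hsym : shimuraSymbol (q * γ 1 0) (γ 1 1 - b * γ 1 0) =
      shimuraSymbol (q * γ 1 0) (γ 1 1 - c * γ 1 0) := by
    rw [hm'] at hcop1 hcop2 ⊢
    refine shimura_sq_congr (NeZero.pos q) ?_ hcop1 hcop2 ?_
    · exact Dvd.dvd.mul_right (Int.natCast_dvd_natCast.2 h4) _
    · exact Int.modEq_iff_dvd.2 ⟨(b - c) * q, by ring⟩
  have h1 := shimura_sq_eq_one hcop1
  rw [hsym] at h1 ⊢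
  rw [← sq, h1]
  simp

/-- The key sign flip. -/
lemma cross_flip {N : ℕ} [NeZero N] {χ : DirichletCharacter ℂ N} {f : ℍ → ℂ}
    (hf : IsCuspForm N χ f) (h4 : 4 ∣ N) {l q' : ℕ} [NeZero (l * q')] (hl : l.Prime)
    (hlodd : Odd l) (hlN : Nat.Coprime l N) (hlq : Nat.Coprime l q') {w u h : ℤ}
    (hw : jacobiSym w l = -1) (hu1 : u ≡ w [ZMOD l]) (hu2 : u ≡ 1 [ZMOD q'])
    (hh : ¬ (l : ℤ) ∣ h) :
    ∃ δ : SL(2, ℤ), ∀ z, cross f (l * q') h 0 (δ • z) = -cross f (l * q') (u * h) 0 z := by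
  have hl' : Prime (l : ℤ) := Nat.prime_iff_prime_int.1 hl
  have : Fact l.Prime := ⟨hl⟩
  -- `w` is a unit mod `l`
  have hwl : ¬ (l : ℤ) ∣ w := by
    intro hd
    have : jacobiSym w l = 0 := by
      rw [← jacobiSym.legendreSym.to_jacobiSym, legendreSym.eq_zero_iff]
      exact (ZMod.intCast_zmod_eq_zero_iff_dvd w l).2 hd
    rw [this] at hw; norm_num at hw
  have cop_of : ∀ x : ℤ, ¬ (l : ℤ) ∣ x → IsCoprime (l : ℤ) x := fun x hx ↦
    (Prime.coprime_iff_not_dvd hl').2 hx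
  have cN : IsCoprime (l : ℤ) (N : ℤ) := Nat.isCoprime_iff_coprime.2 hlN
  have cq : IsCoprime (l : ℤ) (q' : ℤ) := Nat.isCoprime_iff_coprime.2 hlq
  -- choose k with  w * (1 + h * N * q' * k) ≡ 1 mod l
  have hcop : IsCoprime (l : ℤ) (w * (h * N * q')) :=
    (cop_of w hwl).mul_right (((cop_of h hh).mul_right cN).mul_right cq)
  obtain ⟨r, s, hrs⟩ := hcop
  -- r * l + s * (w h N q') = 1
  set k : ℤ := s * (1 - w) with hk
  have hk1 : (l : ℤ) ∣ w * (1 + h * (N * q' * k)) - 1 := by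
    refine ⟨-(r * (1 - w)), ?_⟩
    rw [hk]
    linear_combination (1 - w) * hrs
  set c : ℤ := N * q' * k with hc
  let δ : SL(2, ℤ) := ⟨!![1, 0; c, 1], by rw [Matrix.det_fin_two_of]; ring⟩
  have e00 : δ 0 0 = 1 := rfl
  have e01 : δ 0 1 = 0 := rfl
  have e10 : δ 1 0 = c := rfl
  have e11 : δ 1 1 = 1 := rfl
  have hδ : δ ∈ Gamma0 N := by
    rw [Gamma0_mem, e10, ZMod.intCast_zmod_eq_zero_iff_dvd]
    exact ⟨q' * k, by rw [hc]; ring⟩
  have hul : (l : ℤ) ∣ u * (1 + h * c) - 1 := by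
    obtain ⟨t, ht⟩ := Int.modEq_iff_dvd.1 hu1
    obtain ⟨t2, ht2⟩ := hk1
    refine ⟨t2 - t * (1 + h * c), ?_⟩
    linear_combination ht2 - (1 + h * c) * ht
  have h1 : ((l * q' : ℕ) : ℤ) ∣ δ 0 1 + h * δ 1 1 - (u * h) * (δ 0 0 + h * δ 1 0) := by
    rw [e00, e01, e10, e11]
    push_cast
    refine IsCoprime.mul_dvd cq ?_ ?_
    · obtain ⟨t, ht⟩ := hul
      exact ⟨-h * t, by linear_combination (-h) * ht⟩
    · obtain ⟨t, ht⟩ := Int.modEq_iff_dvd.1 hu2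
      exact ⟨h * t - u * h * h * (N * k), by rw [hc]; linear_combination h * ht⟩
  have h2 : ((l * q' : ℕ) : ℤ) ∣ δ 0 1 + 0 * δ 1 1 - 0 * (δ 0 0 + 0 * δ 1 0) := by
    rw [e01]; simp
  refine ⟨δ, fun z ↦ ?_⟩
  rw [cross_transform hf h4 (l * q') hδ h1 h2]
  have hcop1 := coprime_hecke h1
  rw [e10, e11] at hcop1 ⊢
  have hone : shimuraSymbol (((l * q' : ℕ) : ℤ) * c) (1 - 0 * c) = 1 := by
    rw [zero_mul, sub_zero, shimura_one_right]
  rw [hone, mul_one]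
  have hcexp : ((l * q' : ℕ) : ℤ) * c = l * (q' * (q' * (N * k))) := by
    rw [hc]; push_cast; ring
  rw [hcexp] at hcop1 ⊢
  set d : ℤ := 1 - u * h * c with hd
  have hlpos : (0 : ℤ) < l := by exact_mod_cast hl.pos
  have hq'pos : 0 < q' := by
    rcases Nat.eq_zero_or_pos q' with h0 | h0
    · exfalso
      have := NeZero.ne (l * q')
      rw [h0, mul_zero] at this
      exact this rfl
    · exact h0
  have h4Z : (4 : ℤ) ∣ N * k := Dvd.dvd.mul_right (Int.natCast_dvd_natCast.2 h4) _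
  have hS2 : shimuraSymbol (q' * (q' * (N * k))) d = 1 := by
    have : shimuraSymbol (q' * (q' * (N * k))) d = shimuraSymbol (q' * (q' * (N * k))) 1 := by
      refine shimura_sq_congr hq'pos h4Z hcop1.of_mul_left_right isCoprime_one_right ?_
      refine Int.modEq_iff_dvd.2 ⟨u * h * q', ?_⟩
      rw [hd, hc]; ring
    rw [this, shimura_one_right]
  rw [shimura_mul_pos hlpos, hS2, mul_one]
  have hd4 : d % 4 = 1 := by
    obtain ⟨t, ht⟩ := h4Z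
    have : d = 1 + 4 * (-(u * h * q' * t)) := by
      rw [hd, hc]; linear_combination (-(u * h * q')) * ht
    rw [this]; omega
  rw [jacobi_recip hlodd hd4]
  have hdw : jacobiSym d l = jacobiSym w l := by
    apply jacobiSym.mod_left'
    have : d ≡ w [ZMOD l] := by
      refine Int.ModEq.trans ?_ hu1
      obtain ⟨t, ht⟩ := hul
      refine Int.modEq_iff_dvd.2 ⟨t, ?_⟩
      rw [hd]; linear_combination ht
    exact this
  rw [hdw, hw]
  push_cast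
  ring

end

end Pool.Agent.Work.MP_af11aa_nt
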