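import Mathlib
import Pool.Agent.Work.MP_af11aa_nt.Avg

namespace Pool.Agent.Work.MP_af11aa_nt

open UpperHalfPlane CongruenceSubgroup
open Complex hiding Gamma
open scoped MatrixGroups Manifold Topology ComplexConjugate

noncomputable section

/-- averaged cross term attached to a difference class. -/
def cAvg (N : ℕ) [NeZero N] (f : ℍ → ℂ) (q : ℕ) [NeZero q] (z : ℍ) (h : ℤ) : ℂ :=
  avg (N * q) (cross f q h 0) z

lemma cAvg_congr {N : ℕ} [NeZero N] {χ : DirichletCharacter ℂ N} {f : ℍ → ℂ}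
    (hf : IsCuspForm N χ f) (q : ℕ) [NeZero q] (z : ℍ) {h h' : ℤ}
    (hh : (h : ZMod q) = (h' : ZMod q)) : cAvg N f q z h = cAvg N f q z h' := by
  unfold cAvg
  congr 1
  funext w
  exact cross_congr hf q hh rfl w

lemma avg_cross {N : ℕ} [NeZero N] {χ : DirichletCharacter ℂ N} {f : ℍ → ℂ}
    (hf : IsCuspForm N χ f) (h4 : 4 ∣ N) (q : ℕ) [NeZero q] (z : ℍ) (b c : ℤ) :
    avg (N * q) (cross f q b c) z = cAvg N f q z (b - c) := by
  rw [← avg_comp (N * q) (cross_Gamma hf h4 q b c) (ModularGroup.T ^ (-c))]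
  unfold cAvg
  congr 1
  funext w
  rw [cross_T]
  congr 1
  ring

lemma cAvg_flip {N : ℕ} [NeZero N] {χ : DirichletCharacter ℂ N} {f : ℍ → ℂ}
    (hf : IsCuspForm N χ f) (h4 : 4 ∣ N) {l q' : ℕ} [NeZero (l * q')] (hl : l.Prime)
    (hlodd : Odd l) (hlN : Nat.Coprime l N) (hlq : Nat.Coprime l q') {w u h : ℤ}
    (hw : jacobiSym w l = -1) (hu1 : u ≡ w [ZMOD l]) (hu2 : u ≡ 1 [ZMOD q'])
    (hh : ¬ (l : ℤ) ∣ h) (z : ℍ) :
    cAvg N f (l * q') z (u * h) = -cAvg N f (l * q') z h := by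
  obtain ⟨δ, hδ⟩ := cross_flip hf h4 hl hlodd hlN hlq hw hu1 hu2 hh
  have h1 := avg_comp (N * (l * q')) (cross_Gamma hf h4 (l * q') h 0) δ z
  simp only [hδ] at h1
  rw [avg_neg] at h1
  unfold cAvg
  rw [← h1, neg_neg]

lemma exists_nonresidue {l : ℕ} (hl : l.Prime) (hlodd : Odd l) :
    ∃ w : ℤ, jacobiSym w l = -1 := by
  have : Fact l.Prime := ⟨hl⟩
  have h2 : ringChar (ZMod l) ≠ 2 := by
    rw [ZMod.ringChar_zmod_n]
    rintro rfl
    exact absurd hlodd (by decide)
  obtain ⟨a, ha⟩ := FiniteField.exists_nonsquare h2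
  refine ⟨(a.val : ℤ), ?_⟩
  rw [← jacobiSym.legendreSym.to_jacobiSym, legendreSym.eq_neg_one_iff]
  simpa using ha

lemma dvd_zmod_iff {q e : ℕ} [NeZero q] (he : e ∣ q) (x : ZMod q) :
    ((e : ZMod q) ∣ x) ↔ e ∣ x.val := by
  constructor
  · rintro ⟨y, rfl⟩
    rw [ZMod.val_mul, ZMod.val_natCast]
    have h1 : e ∣ (e % q) * y.val := Dvd.dvd.mul_right ((Nat.dvd_mod_iff he).2 dvd_rfl) _
    exact (Nat.dvd_mod_iff he).2 h1
  · rintro ⟨k, hk⟩
    refine ⟨(k : ZMod q), ?_⟩
    rw [← Nat.cast_mul, ← hk, ZMod.natCast_zmod_val]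

open Classical in
/-- partial sums over multiples of `e`. -/
def vSum (N : ℕ) [NeZero N] (f : ℍ → ℂ) (q : ℕ) [NeZero q] (z : ℍ) (e : ℕ) : ℂ :=
  ∑ x : ZMod q with (e : ZMod q) ∣ x, cAvg N f q z (x.val : ℤ)

lemma vSum_step {N : ℕ} [NeZero N] {χ : DirichletCharacter ℂ N} {f : ℍ → ℂ}
    (hf : IsCuspForm N χ f) (h4 : 4 ∣ N) {q : ℕ} [NeZero q] (hsq : Squarefree q)
    (hcop : Nat.Coprime q N) (z : ℍ) {l e : ℕ} (hl : l.Prime) (hle : l * e ∣ q) :
    vSum N f q z (l * e) = vSum N f q z e := by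
  classical
  obtain ⟨r, hr⟩ := hle
  set q' := e * r with hq'
  have hqq : q = l * q' := by rw [hr, hq', mul_assoc]
  subst hqq
  have hlodd : Odd l := by
    rcases hl.eq_two_or_odd' with h | h
    · exfalso
      rw [h] at hcop
      have h2N : 2 ∣ N := (by norm_num : 2 ∣ 4).trans h4
      have : 2 ∣ Nat.gcd (2 * q') N := Nat.dvd_gcd (Dvd.intro _ rfl) h2N
      rw [hcop] at this
      norm_num at this
    · exact h
  have hlN : Nat.Coprime l N := Nat.Coprime.coprime_dvd_left (Dvd.intro _ rfl) hcop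
  have hlq : Nat.Coprime l q' := Nat.coprime_of_squarefree_mul hsq
  obtain ⟨w, hw⟩ := exists_nonresidue hl hlodd
  -- choose u by the Chinese remainder theorem
  obtain ⟨s, t, hst⟩ := (Nat.isCoprime_iff_coprime.2 hlq)
  -- s * l + t * q' = 1
  set u : ℤ := s * l + w * (t * q') with hu
  have hu1 : u ≡ w [ZMOD l] := Int.modEq_iff_dvd.2 ⟨s * (w - 1), by
    rw [hu]; linear_combination (-w) * hst⟩
  have hu2 : u ≡ 1 [ZMOD q'] := Int.modEq_iff_dvd.2 ⟨t * (1 - w), by
    rw [hu]; linear_combination -hst⟩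
  have hunit : IsUnit ((u : ℤ) : ZMod (l * q')) := by
    have hcu : IsCoprime (u : ℤ) ((l * q' : ℕ) : ℤ) := by
      push_cast
      refine IsCoprime.mul_right ?_ ?_
      · have : Fact l.Prime := ⟨hl⟩
        have hul : ¬ (l : ℤ) ∣ u := by
          intro hd
          have h0 : jacobiSym u l = -1 := by
            rw [jacobiSym.mod_left' (hu1 : u % l = w % l), hw]
          have : jacobiSym u l = 0 := by
            rw [← jacobiSym.legendreSym.to_jacobiSym, legendreSym.eq_zero_iff]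
            exact (ZMod.intCast_zmod_eq_zero_iff_dvd u l).2 hd
          rw [this] at h0; norm_num at h0
        exact ((Prime.coprime_iff_not_dvd (Nat.prime_iff_prime_int.1 hl)).2 hul).symm
      · obtain ⟨k, hk⟩ := Int.modEq_iff_dvd.1 hu2
        exact ⟨1, k, by linear_combination -hk⟩
    obtain ⟨a, b, hab⟩ := hcu
    have : ((a : ℤ) : ZMod (l * q')) * ((u : ℤ) : ZMod (l * q')) = 1 := by
      have h1 : ((a * u + b * ((l * q' : ℕ) : ℤ) : ℤ) : ZMod (l * q')) = ((1 : ℤ) : ZMod (l * q')) := by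
        rw [hab]
      push_cast at h1
      have h0 : ((l : ZMod (l * q')) * (q' : ZMod (l * q'))) = 0 := by
        have := ZMod.natCast_self (l * q')
        push_cast at this
        exact this
      rw [h0, mul_zero, add_zero] at h1
      exact h1
    exact IsUnit.of_mul_eq_one_right _ this
  -- the complementary sum vanishes
  have hdiv_e : e ∣ l * q' := ⟨l * r, by rw [hq']; ring⟩
  have hdiv_le : l * e ∣ l * q' := ⟨r, by rw [hq']; ring⟩
  have hcop_le : Nat.Coprime l e := Nat.Coprime.coprime_dvd_right ⟨r, hq'⟩ hlq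
  have hsplit : vSum N f (l * q') z e = vSum N f (l * q') z (l * e) +
      ∑ x : ZMod (l * q') with ((e : ZMod (l * q')) ∣ x ∧ ¬ (((l * e : ℕ) : ZMod (l * q')) ∣ x)),
        cAvg N f (l * q') z (x.val : ℤ) := by
    unfold vSum
    rw [← Finset.sum_filter_add_sum_filter_not (Finset.univ.filter fun x : ZMod (l * q') ↦
      ((e : ZMod (l * q')) ∣ x)) (fun x ↦ (((l * e : ℕ) : ZMod (l * q')) ∣ x))]
    congr 1
    · rw [Finset.filter_filter]
      refine Finset.sum_congr ?_ fun _ _ ↦ rfl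
      ext x
      simp only [Finset.mem_filter, Finset.mem_univ, true_and]
      constructor
      · exact fun h ↦ h.2
      · intro h
        refine ⟨?_, h⟩
        push_cast at h
        exact (Dvd.intro_left _ rfl).trans h
    · rw [Finset.filter_filter]
  rw [hsplit]
  set W := ∑ x : ZMod (l * q') with ((e : ZMod (l * q')) ∣ x ∧ ¬ (((l * e : ℕ) : ZMod (l * q')) ∣ x)),
        cAvg N f (l * q') z (x.val : ℤ) with hW
  have hWneg : W = -W := by
    conv_rhs => rw [hW, ← Finset.sum_neg_distrib]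
    rw [hW]
    symm
    obtain ⟨U, hU⟩ := hunit
    refine Finset.sum_bij' (fun x _ ↦ (U : ZMod (l * q')) * x)
      (fun x _ ↦ ((U⁻¹ : (ZMod (l * q'))ˣ) : ZMod (l * q')) * x) ?_ ?_ ?_ ?_ ?_
    · intro x hx
      simp only [Finset.mem_filter, Finset.mem_univ, true_and] at hx ⊢
      rw [Units.dvd_mul_left, Units.dvd_mul_left]
      exact hx
    · intro x hx
      simp only [Finset.mem_filter, Finset.mem_univ, true_and] at hx ⊢
      rw [Units.dvd_mul_left, Units.dvd_mul_left]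
      exact hx
    · intro x _
      exact Units.inv_mul_cancel_left _ _
    · intro x _
      exact Units.mul_inv_cancel_left _ _
    · intro x hx
      simp only [Finset.mem_filter, Finset.mem_univ, true_and] at hx
      have hnl : ¬ (l : ℤ) ∣ (x.val : ℤ) := by
        intro hd
        apply hx.2
        rw [dvd_zmod_iff hdiv_le]
        have h1 : e ∣ x.val := (dvd_zmod_iff hdiv_e x).1 hx.1
        exact Nat.Coprime.mul_dvd_of_dvd_of_dvd hcop_le (Int.natCast_dvd_natCast.1 hd) h1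
      have hflip := cAvg_flip hf h4 hl hlodd hlN hlq hw hu1 hu2 hnl z
      have hcong : cAvg N f (l * q') z (((U : ZMod (l * q')) * x).val : ℤ) =
          cAvg N f (l * q') z (u * (x.val : ℤ)) := by
        apply cAvg_congr hf
        rw [hU]
        push_cast
        rw [ZMod.natCast_zmod_val, ZMod.natCast_zmod_val]
      rw [hcong, hflip]
  have hW0 : W = 0 := by
    have : W + W = 0 := by nth_rewrite 1 [hWneg]; ring
    have h2 : (2 : ℂ) * W = 0 := by rw [two_mul]; exact this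
    rcases mul_eq_zero.1 h2 with h | h
    · norm_num at h
    · exact h
  rw [hW0, add_zero]

lemma vSum_eq {N : ℕ} [NeZero N] {χ : DirichletCharacter ℂ N} {f : ℍ → ℂ}
    (hf : IsCuspForm N χ f) (h4 : 4 ∣ N) {q : ℕ} [NeZero q] (hsq : Squarefree q)
    (hcop : Nat.Coprime q N) (z : ℍ) (e : ℕ) (he : e ∣ q) :
    vSum N f q z e = vSum N f q z 1 := by
  induction e using induction_on_primes with
  | zero => exact absurd (Nat.eq_zero_of_zero_dvd he) (NeZero.ne q)
  | one => rfl
  | prime_mul p a hp ih =>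
    rw [vSum_step hf h4 hsq hcop z hp he]
    exact ih ((Dvd.intro_left _ rfl).trans he)

lemma sum_cAvg {N : ℕ} [NeZero N] {χ : DirichletCharacter ℂ N} {f : ℍ → ℂ}
    (hf : IsCuspForm N χ f) (h4 : 4 ∣ N) {q : ℕ} [NeZero q] (hsq : Squarefree q)
    (hcop : Nat.Coprime q N) (z : ℍ) :
    ∑ x : ZMod q, cAvg N f q z (x.val : ℤ) = cAvg N f q z 0 := by
  classical
  have h := vSum_eq hf h4 hsq hcop z q dvd_rfl
  have h1 : vSum N f q z 1 = ∑ x : ZMod q, cAvg N f q z (x.val : ℤ) := by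
    unfold vSum
    refine Finset.sum_congr ?_ fun _ _ ↦ rfl
    ext x; simp
  have h2 : vSum N f q z q = cAvg N f q z 0 := by
    unfold vSum
    have : (Finset.univ.filter fun x : ZMod q ↦ ((q : ZMod q) ∣ x)) = {0} := by
      ext x
      simp only [Finset.mem_filter, Finset.mem_univ, true_and, Finset.mem_singleton]
      rw [ZMod.natCast_self, zero_dvd_iff]
    rw [this, Finset.sum_singleton]
    simp
  rw [← h1, ← h, h2]

lemma double_sum {N : ℕ} [NeZero N] {χ : DirichletCharacter ℂ N} {f : ℍ → ℂ}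
    (hf : IsCuspForm N χ f) (h4 : 4 ∣ N) {q : ℕ} [NeZero q] (hsq : Squarefree q)
    (hcop : Nat.Coprime q N) (z : ℍ) :
    ∑ x : ZMod q, ∑ y : ZMod q, avg (N * q) (cross f q (x.val : ℤ) (y.val : ℤ)) z =
      q * cAvg N f q z 0 := by
  rw [Finset.sum_comm]
  have : ∀ y : ZMod q, ∑ x : ZMod q, avg (N * q) (cross f q (x.val : ℤ) (y.val : ℤ)) z =
      cAvg N f q z 0 := by
    intro y
    rw [← sum_cAvg hf h4 hsq hcop z]
    refine Fintype.sum_equiv (Equiv.subRight y) _ _ ?_
    intro x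
    rw [avg_cross hf h4]
    apply cAvg_congr hf
    simp
  rw [Finset.sum_congr rfl fun y _ ↦ this y]
  simp

end

end Pool.Agent.Work.MP_af11aa_nt
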