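import Mathlib
import Pool.Agent.Work.MP_af11aa_nt.Total

namespace Pool.Agent.Work.MP_af11aa_nt

open UpperHalfPlane CongruenceSubgroup
open Complex hiding Gamma
open scoped MatrixGroups Manifold Topology ComplexConjugate ArithmeticFunction.sigma

noncomputable section

lemma Gamma0_mul_le (n l : ℕ) : Gamma0 (n * l) ≤ Gamma0 n := by
  intro γ hγ
  rw [Gamma0_mem, ZMod.intCast_zmod_eq_zero_iff_dvd] at *
  exact (Int.natCast_dvd_natCast.2 (Dvd.intro l rfl)).trans hγ

lemma relIndex_Gamma0_le (n l : ℕ) (hn : 0 < n) (hl : l.Prime) :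
    (Gamma0 (n * l)).relIndex (Gamma0 n) ≤ l + 1 := by
  classical
  have : Fact l.Prime := ⟨hl⟩
  set H := (Gamma0 (n * l)).subgroupOf (Gamma0 n) with hH
  let φ0 : Gamma0 n → Option (ZMod l) := fun γ ↦
    if (l : ℤ) ∣ (γ : SL(2, ℤ)) 0 0 then none
    else some ((((γ : SL(2, ℤ)) 1 0 / n : ℤ) : ZMod l) * ((((γ : SL(2, ℤ)) 0 0 : ℤ) : ZMod l))⁻¹)
  have key : ∀ γ γ' : Gamma0 n, φ0 γ = φ0 γ' → γ⁻¹ * γ' ∈ H := by
    intro γ γ' h
    obtain ⟨k, hk⟩ : (n : ℤ) ∣ (γ : SL(2, ℤ)) 1 0 := by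
      have := γ.2
      rwa [Gamma0_mem, ZMod.intCast_zmod_eq_zero_iff_dvd] at this
    obtain ⟨k', hk'⟩ : (n : ℤ) ∣ (γ' : SL(2, ℤ)) 1 0 := by
      have := γ'.2
      rwa [Gamma0_mem, ZMod.intCast_zmod_eq_zero_iff_dvd] at this
    have hn' : (n : ℤ) ≠ 0 := by exact_mod_cast hn.ne'
    have ek : (γ : SL(2, ℤ)) 1 0 / n = k := by rw [hk, Int.mul_ediv_cancel_left _ hn']
    have ek' : (γ' : SL(2, ℤ)) 1 0 / n = k' := by rw [hk', Int.mul_ediv_cancel_left _ hn']
    have hdvd : (l : ℤ) ∣ (γ : SL(2, ℤ)) 0 0 * k' - k * (γ' : SL(2, ℤ)) 0 0 := by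
      simp only [φ0] at h
      split_ifs at h with h1 h2 h2
      · exact (h1.mul_right _).sub (h2.mul_left _)
      · rw [ek, ek', Option.some.injEq] at h
        have n1 : (((γ : SL(2, ℤ)) 0 0 : ℤ) : ZMod l) ≠ 0 := by
          rwa [Ne, ZMod.intCast_zmod_eq_zero_iff_dvd]
        have n2 : (((γ' : SL(2, ℤ)) 0 0 : ℤ) : ZMod l) ≠ 0 := by
          rwa [Ne, ZMod.intCast_zmod_eq_zero_iff_dvd]
        rw [← ZMod.intCast_zmod_eq_zero_iff_dvd]
        push_cast
        field_simp at h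
        linear_combination -h
    rw [hH, Subgroup.mem_subgroupOf, Gamma0_mem, ZMod.intCast_zmod_eq_zero_iff_dvd]
    have e : ((γ⁻¹ * γ' : Gamma0 n) : SL(2, ℤ)) 1 0 =
        n * ((γ : SL(2, ℤ)) 0 0 * k' - k * (γ' : SL(2, ℤ)) 0 0) := by
      have h1 : ((γ⁻¹ * γ' : Gamma0 n) : SL(2, ℤ)) = (γ : SL(2, ℤ))⁻¹ * (γ' : SL(2, ℤ)) := rfl
      rw [h1, Matrix.SpecialLinearGroup.coe_mul, Matrix.mul_apply, Fin.sum_univ_two,
        Matrix.SpecialLinearGroup.SL2_inv_expl]
      simp only [Matrix.cons_val', Matrix.cons_val_zero, Matrix.cons_val_one,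
        Matrix.cons_val_fin_one]
      rw [hk, hk']
      ring
    rw [e]
    push_cast
    exact mul_dvd_mul_left _ hdvd
  have hinj : Function.Injective (fun x : (Gamma0 n) ⧸ H ↦ φ0 (Quotient.out x)) := by
    intro x y hxy
    have := key _ _ hxy
    rw [← QuotientGroup.out_eq' x, ← QuotientGroup.out_eq' y]
    exact QuotientGroup.eq.2 this
  have hcard := Nat.card_le_card_of_injective _ hinj
  have : Nat.card (Option (ZMod l)) = l + 1 := by
    rw [Nat.card_eq_fintype_card, Fintype.card_option, ZMod.card]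
  rw [this] at hcard
  exact hcard

lemma index_Gamma0_mul_le (n l : ℕ) (hn : 0 < n) (hl : l.Prime) :
    (Gamma0 (n * l)).index ≤ (Gamma0 n).index * (l + 1) := by
  rw [← Subgroup.relIndex_mul_index (Gamma0_mul_le n l), mul_comm]
  exact Nat.mul_le_mul_left _ (relIndex_Gamma0_le n l hn hl)

lemma index_Gamma0_mul_squarefree_le (n : ℕ) (hn : 0 < n) (q : ℕ) (hq : Squarefree q) :
    (Gamma0 (n * q)).index ≤ (Gamma0 n).index * ArithmeticFunction.sigma 1 q := by
  induction q using induction_on_primes with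
  | zero => exact absurd hq (by simp)
  | one => simp
  | prime_mul p a hp ih =>
    have hcop : Nat.Coprime p a := Nat.coprime_of_squarefree_mul hq
    have ha : Squarefree a := hq.of_mul_right
    have hapos : 0 < a := Nat.pos_of_ne_zero ha.ne_zero
    rw [ArithmeticFunction.isMultiplicative_sigma.map_mul_of_coprime hcop]
    have hσ : ArithmeticFunction.sigma 1 p = p + 1 := by
      rw [ArithmeticFunction.sigma_one_apply, hp.sum_divisors]
    rw [hσ, show n * (p * a) = (n * a) * p by ring]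
    calc (Gamma0 (n * a * p)).index ≤ (Gamma0 (n * a)).index * (p + 1) :=
          index_Gamma0_mul_le _ _ (by positivity) hp
      _ ≤ ((Gamma0 n).index * ArithmeticFunction.sigma 1 a) * (p + 1) :=
          Nat.mul_le_mul_right _ (ih ha)
      _ = _ := by ring

lemma index_Gamma0_24p_le (p : ℕ) (hp : p.Prime) : (Gamma0 (24 * p)).index ≤ 162 * p := by
  have h1 : (Gamma0 1).index = 1 := by
    have : Gamma0 1 = ⊤ := by
      ext γ
      rw [Gamma0_mem]
      simp [Subsingleton.elim _ (0 : ZMod 1)]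
    rw [this, Subgroup.index_top]
  have h2 := index_Gamma0_mul_le 1 2 (by norm_num) Nat.prime_two
  have h4 := index_Gamma0_mul_le 2 2 (by norm_num) Nat.prime_two
  have h8 := index_Gamma0_mul_le 4 2 (by norm_num) Nat.prime_two
  have h24 := index_Gamma0_mul_le 8 3 (by norm_num) Nat.prime_three
  have h24p := index_Gamma0_mul_le 24 p (by norm_num) hp
  norm_num at h2 h4 h8 h24 h24p
  have hp2 := hp.two_le
  rw [h1] at h2
  have : (Gamma0 24).index ≤ 108 := by nlinarith
  calc (Gamma0 (24 * p)).index ≤ (Gamma0 24).index * (p + 1) := h24p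
    _ ≤ 108 * (p + 1) := Nat.mul_le_mul_right _ this
    _ ≤ 162 * p := by omega

end

end Pool.Agent.Work.MP_af11aa_nt
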