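import Mathlib

namespace Pool.Agent.Work.MP_af11aa_nt

open MeasureTheory
open scoped ComplexConjugate

noncomputable section

/-- `e(n x) = exp(2 π i n x)`. -/
def eChar (n : ℤ) (x : ℝ) : ℂ := Complex.exp (2 * Real.pi * Complex.I * n * x)

lemma continuous_eChar (n : ℤ) : Continuous (eChar n) := by
  unfold eChar; fun_prop

lemma eChar_mul (m n : ℤ) (x : ℝ) : eChar m x * eChar n x = eChar (m + n) x := by
  unfold eChar
  rw [← Complex.exp_add]; congr 1; push_cast; ring

lemma conj_eChar (n : ℤ) (x : ℝ) : conj (eChar n x) = eChar (-n) x := by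
  unfold eChar
  rw [← Complex.exp_conj]
  congr 1
  simp only [map_mul, Complex.conj_I, Complex.conj_ofReal, map_ofNat, map_intCast]
  push_cast; ring

lemma eChar_zero (x : ℝ) : eChar 0 x = 1 := by unfold eChar; simp

lemma integral_eChar (n : ℤ) : ∫ x in (0 : ℝ)..1, eChar n x = if n = 0 then 1 else 0 := by
  split_ifs with h
  · subst h; simp [eChar_zero]
  · unfold eChar
    have hc : (2 * Real.pi * Complex.I * n : ℂ) ≠ 0 := by
      have h1 : (n : ℂ) ≠ 0 := Int.cast_ne_zero.2 h
      have h2 : (2 * Real.pi * Complex.I : ℂ) ≠ 0 := Complex.two_pi_I_ne_zero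
      exact mul_ne_zero h2 h1
    rw [integral_exp_mul_complex hc]
    have h1 : Complex.exp (2 * Real.pi * Complex.I * n * ((1 : ℝ) : ℂ)) = 1 := by
      rw [Complex.exp_eq_one_iff]
      exact ⟨n, by push_cast; ring⟩
    rw [h1]; simp

/-- finite Bessel inequality on `[0,1]`. -/
lemma bessel_finite {h : ℝ → ℂ} (hc : Continuous h) (s : Finset ℤ) :
    ∑ m ∈ s, ‖∫ x in (0 : ℝ)..1, h x * eChar (-m) x‖ ^ 2 ≤ ∫ x in (0 : ℝ)..1, ‖h x‖ ^ 2 := by
  set c : ℤ → ℂ := fun m ↦ ∫ x in (0 : ℝ)..1, h x * eChar (-m) x with hcdef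
  set P : ℝ → ℂ := fun x ↦ ∑ m ∈ s, c m * eChar m x with hP
  have hPc : Continuous P := by
    rw [hP]; exact continuous_finsetSum _ fun m _ ↦ continuous_const.mul (continuous_eChar m)
  have h0 : 0 ≤ ∫ x in (0 : ℝ)..1, ‖h x - P x‖ ^ 2 := by
    apply intervalIntegral.integral_nonneg (by norm_num)
    intro x _; positivity
  have hnorm : ∀ w : ℂ, ((‖w‖ ^ 2 : ℝ) : ℂ) = w * conj w := by
    intro w
    rw [Complex.mul_conj, Complex.normSq_eq_norm_sq]
  have hS : ∀ m, c m * conj (c m) = ((‖c m‖ ^ 2 : ℝ) : ℂ) := fun m ↦ (hnorm _).symm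
  have hA : ∫ x in (0 : ℝ)..1, h x * conj (P x) = ((∑ m ∈ s, ‖c m‖ ^ 2 : ℝ) : ℂ) := by
    have e : ∀ x, h x * conj (P x) = ∑ m ∈ s, conj (c m) * (h x * eChar (-m) x) := by
      intro x
      rw [hP]
      simp only [map_sum, map_mul, conj_eChar]
      rw [Finset.mul_sum]
      refine Finset.sum_congr rfl fun m _ ↦ by ring
    simp_rw [e]
    rw [intervalIntegral.integral_finsetSum]
    · push_cast
      refine Finset.sum_congr rfl fun m _ ↦ ?_
      rw [intervalIntegral.integral_const_mul]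
      change conj (c m) * c m = _
      have := hS m
      push_cast at this
      rw [← this]; ring
    · intro m _
      exact (continuous_const.mul (hc.mul (continuous_eChar _))).intervalIntegrable _ _
  have hB : ∫ x in (0 : ℝ)..1, P x * conj (h x) = ((∑ m ∈ s, ‖c m‖ ^ 2 : ℝ) : ℂ) := by
    have e : ∀ x, P x * conj (h x) = conj (h x * conj (P x)) := by
      intro x; rw [map_mul, Complex.conj_conj]; ring
    simp_rw [e]
    rw [intervalIntegral.integral_of_le (by norm_num), integral_conj,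
      ← intervalIntegral.integral_of_le (by norm_num), hA, Complex.conj_ofReal]
  have hC : ∫ x in (0 : ℝ)..1, P x * conj (P x) = ((∑ m ∈ s, ‖c m‖ ^ 2 : ℝ) : ℂ) := by
    have e : ∀ x, P x * conj (P x) = ∑ m ∈ s, ∑ n ∈ s, (c m * conj (c n)) * eChar (m - n) x := by
      intro x
      rw [hP]
      simp only [map_sum, map_mul, conj_eChar]
      rw [Finset.sum_mul_sum]
      refine Finset.sum_congr rfl fun m _ ↦ Finset.sum_congr rfl fun n _ ↦ ?_
      rw [sub_eq_add_neg, ← eChar_mul]; ring
    simp_rw [e]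
    rw [intervalIntegral.integral_finsetSum]
    · push_cast
      refine Finset.sum_congr rfl fun m hm ↦ ?_
      rw [intervalIntegral.integral_finsetSum]
      · simp_rw [intervalIntegral.integral_const_mul, integral_eChar, sub_eq_zero]
        simp only [mul_ite, mul_one, mul_zero, Finset.sum_ite_eq, hm, if_true]
        have := hS m
        push_cast at this
        exact this
      · intro n _
        exact (continuous_const.mul (continuous_eChar _)).intervalIntegrable _ _
    · intro m _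
      exact (continuous_finsetSum _ fun n _ ↦
        continuous_const.mul (continuous_eChar _)).intervalIntegrable _ _
  have hD : ((∫ x in (0 : ℝ)..1, ‖h x - P x‖ ^ 2 : ℝ) : ℂ) =
      ((∫ x in (0 : ℝ)..1, ‖h x‖ ^ 2 : ℝ) : ℂ) - ((∑ m ∈ s, ‖c m‖ ^ 2 : ℝ) : ℂ) := by
    rw [← intervalIntegral.integral_ofReal, ← intervalIntegral.integral_ofReal]
    have e : ∀ x, ((‖h x - P x‖ ^ 2 : ℝ) : ℂ) =
        ((‖h x‖ ^ 2 : ℝ) : ℂ) - h x * conj (P x) - P x * conj (h x) + P x * conj (P x) := by
      intro x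
      rw [hnorm, hnorm, map_sub]; ring
    simp_rw [e]
    have hcc : Continuous fun x ↦ conj (h x) := Complex.continuous_conj.comp hc
    have hPcc : Continuous fun x ↦ conj (P x) := Complex.continuous_conj.comp hPc
    have hn : Continuous fun x ↦ ((‖h x‖ ^ 2 : ℝ) : ℂ) :=
      Complex.continuous_ofReal.comp (hc.norm.pow 2)
    rw [intervalIntegral.integral_add, intervalIntegral.integral_sub,
      intervalIntegral.integral_sub, hA, hB, hC]
    · ring
    · exact hn.intervalIntegrable _ _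
    · exact (hc.mul hPcc).intervalIntegrable _ _
    · exact (hn.sub (hc.mul hPcc)).intervalIntegrable _ _
    · exact (hPc.mul hcc).intervalIntegrable _ _
    · exact ((hn.sub (hc.mul hPcc)).sub (hPc.mul hcc)).intervalIntegrable _ _
    · exact (hPc.mul hPcc).intervalIntegrable _ _
  have hD' : (∫ x in (0 : ℝ)..1, ‖h x - P x‖ ^ 2) =
      (∫ x in (0 : ℝ)..1, ‖h x‖ ^ 2) - (∑ m ∈ s, ‖c m‖ ^ 2) := by
    exact_mod_cast hD
  linarith

end

end Pool.Agent.Work.MP_af11aa_nt
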