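import Mathlib
import Pool.Agent.Work.MP_af11aa_nt.Total

namespace Pool.Agent.Work.MP_af11aa_nt

open UpperHalfPlane CongruenceSubgroup
open Complex hiding Gamma
open scoped MatrixGroups Manifold Topology ComplexConjugate

noncomputable section

/-- the sum of the `q` translates `f((z+b)/q)`. -/
def trSum (f : ℍ → ℂ) (q : ℕ) [NeZero q] (z : ℍ) : ℂ :=
  ∑ x : ZMod q, f (shiftDiv q (x.val : ℤ) z)

/-- its invariant square. -/
def gFun (f : ℍ → ℂ) (q : ℕ) [NeZero q] (z : ℍ) : ℝ :=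
  ‖trSum f q z‖ ^ 2 * z.im ^ (3 / 2 : ℝ)

lemma gFun_nonneg (f : ℍ → ℂ) (q : ℕ) [NeZero q] (z : ℍ) : 0 ≤ gFun f q z := by
  unfold gFun; have := z.im_pos; positivity

lemma gFun_eq (f : ℍ → ℂ) (q : ℕ) [NeZero q] (z : ℍ) :
    ((gFun f q z : ℝ) : ℂ) =
      ∑ x : ZMod q, ∑ y : ZMod q, cross f q (x.val : ℤ) (y.val : ℤ) z := by
  unfold gFun trSum cross
  have : ∀ w : ℂ, ((‖w‖ ^ 2 : ℝ) : ℂ) = w * conj w := by
    intro w
    rw [Complex.mul_conj, Complex.normSq_eq_norm_sq]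
  rw [Complex.ofReal_mul, this, map_sum, Finset.sum_mul_sum, Finset.sum_mul]
  refine Finset.sum_congr rfl fun x _ ↦ ?_
  rw [Finset.sum_mul]

section

attribute [local instance] Subgroup.fintypeQuotientOfFiniteIndex

lemma sum_gFun_Gamma {N : ℕ} [NeZero N] {χ : DirichletCharacter ℂ N} {f : ℍ → ℂ}
    (hf : IsCuspForm N χ f) (h4 : 4 ∣ N) {q : ℕ} [NeZero q] (hsq : Squarefree q)
    (hcop : Nat.Coprime q N) (z : ℍ) :
    ∑ x : SL(2, ℤ) ⧸ Gamma (N * q), gFun f q ((Quotient.out x)⁻¹ • z) =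
      q * ∑ x : SL(2, ℤ) ⧸ Gamma (N * q),
        ‖f (shiftDiv q 0 ((Quotient.out x)⁻¹ • z))‖ ^ 2 *
          (((Quotient.out x)⁻¹ • z).im) ^ (3 / 2 : ℝ) := by
  have h1 : (((∑ x : SL(2, ℤ) ⧸ Gamma (N * q), gFun f q ((Quotient.out x)⁻¹ • z) : ℝ)) : ℂ) =
      q * cAvg N f q z 0 := by
    rw [← double_sum hf h4 hsq hcop z]
    push_cast
    rw [show (∑ x : ZMod q, ∑ y : ZMod q, avg (N * q) (cross f q (x.val : ℤ) (y.val : ℤ)) z) =
      avg (N * q) (fun w ↦ ∑ x : ZMod q, ∑ y : ZMod q, cross f q (x.val : ℤ) (y.val : ℤ) w) z by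
        rw [avg_sum]
        refine Finset.sum_congr rfl fun x _ ↦ ?_
        rw [avg_sum]]
    unfold avg
    refine Finset.sum_congr rfl fun x _ ↦ ?_
    rw [gFun_eq]
  have h2 : cAvg N f q z 0 = (((∑ x : SL(2, ℤ) ⧸ Gamma (N * q),
        ‖f (shiftDiv q 0 ((Quotient.out x)⁻¹ • z))‖ ^ 2 *
          (((Quotient.out x)⁻¹ • z).im) ^ (3 / 2 : ℝ) : ℝ)) : ℂ) := by
    unfold cAvg avg cross
    push_cast
    refine Finset.sum_congr rfl fun x _ ↦ ?_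
    rw [Complex.mul_conj, Complex.normSq_eq_norm_sq]
    push_cast
    rfl
  rw [h2] at h1
  exact_mod_cast h1

lemma sum_gFun_Gamma_le {N : ℕ} [NeZero N] {χ : DirichletCharacter ℂ N} {f : ℍ → ℂ}
    (hf : IsCuspForm N χ f) (h4 : 4 ∣ N) {q : ℕ} [NeZero q] (hsq : Squarefree q)
    (hcop : Nat.Coprime q N) {B : ℝ} (hB : ∀ w : ℍ, w.im ^ (3 / 2 : ℝ) * ‖f w‖ ^ 2 ≤ B) (z : ℍ) :
    ∑ x : SL(2, ℤ) ⧸ Gamma (N * q), gFun f q ((Quotient.out x)⁻¹ • z) ≤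
      (q : ℝ) ^ (5 / 2 : ℝ) * B * (Gamma (N * q)).index := by
  rw [sum_gFun_Gamma hf h4 hsq hcop z]
  have hq : (0 : ℝ) < q := Nat.cast_pos.2 (NeZero.pos q)
  have hterm : ∀ w : ℍ, ‖f (shiftDiv q 0 w)‖ ^ 2 * w.im ^ (3 / 2 : ℝ) ≤ (q : ℝ) ^ (3 / 2 : ℝ) * B := by
    intro w
    have h1 := hB (shiftDiv q 0 w)
    rw [im_shiftDiv, Real.div_rpow w.im_pos.le hq.le] at h1
    have h2 : 0 < (q : ℝ) ^ (3 / 2 : ℝ) := Real.rpow_pos_of_pos hq _
    calc ‖f (shiftDiv q 0 w)‖ ^ 2 * w.im ^ (3 / 2 : ℝ)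
        = (q : ℝ) ^ (3 / 2 : ℝ) * (w.im ^ (3 / 2 : ℝ) / (q : ℝ) ^ (3 / 2 : ℝ) * ‖f (shiftDiv q 0 w)‖ ^ 2) := by
          field_simp
      _ ≤ _ := by gcongr
  calc (q : ℝ) * ∑ x : SL(2, ℤ) ⧸ Gamma (N * q),
        ‖f (shiftDiv q 0 ((Quotient.out x)⁻¹ • z))‖ ^ 2 *
          (((Quotient.out x)⁻¹ • z).im) ^ (3 / 2 : ℝ)
      ≤ (q : ℝ) * ∑ x : SL(2, ℤ) ⧸ Gamma (N * q), (q : ℝ) ^ (3 / 2 : ℝ) * B :=
        mul_le_mul_of_nonneg_left (Finset.sum_le_sum fun x _ ↦ hterm _) hq.le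
    _ = (q : ℝ) ^ (5 / 2 : ℝ) * B * (Gamma (N * q)).index := by
        rw [Finset.sum_const, Finset.card_univ, nsmul_eq_mul, ← Nat.card_eq_fintype_card]
        have e : (q : ℝ) ^ (5 / 2 : ℝ) = q * (q : ℝ) ^ (3 / 2 : ℝ) := by
          rw [show (5 / 2 : ℝ) = 1 + 3 / 2 by norm_num, Real.rpow_add hq, Real.rpow_one]
        rw [e]
        unfold Subgroup.index
        ring

/-- The trace sum transforms with a constant of modulus `|cz+d|^{3/2}` under `Γ₀(Nq)`. -/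
lemma gFun_inv {N : ℕ} [NeZero N] {χ : DirichletCharacter ℂ N} {f : ℍ → ℂ}
    (hf : IsCuspForm N χ f) (h4 : 4 ∣ N) {q : ℕ} [NeZero q] {γ : SL(2, ℤ)}
    (hγ : γ ∈ Gamma0 (N * q)) (z : ℍ) : gFun f q (γ • z) = gFun f q z := by
  rw [Gamma0_mem, ZMod.intCast_zmod_eq_zero_iff_dvd] at hγ
  obtain ⟨k, hk⟩ := hγ
  have hγ0 : γ ∈ Gamma0 N := by
    rw [Gamma0_mem, ZMod.intCast_zmod_eq_zero_iff_dvd, hk]
    exact ⟨q * k, by push_cast; ring⟩
  have hdet := γ.det_coe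
  rw [Matrix.det_fin_two] at hdet
  set A : ℂ := χ ((γ 1 1 : ℤ) : ZMod N) *
      ((epsilon (γ 1 1))⁻¹ * ((shimuraSymbol (q * γ 1 0) (γ 1 1) : ℤ) : ℂ) *
          lowerForm γ z ^ (1 / 2 : ℂ)) ^ 3 with hA
  have hc : (q : ℤ) * γ 1 0 = q * (q * (N * k)) := by rw [hk]; push_cast; ring
  have h4k : (4 : ℤ) ∣ N * k := Dvd.dvd.mul_right (Int.natCast_dvd_natCast.2 h4) _
  have hcop0 : IsCoprime ((q : ℤ) * γ 1 0) (γ 1 1) := by
    have h1 : IsCoprime (γ 1 0) (γ 1 1) := gcd_of_mem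
    refine IsCoprime.mul_left ?_ h1
    exact h1.of_isCoprime_of_dvd_left ⟨N * k, by rw [hk]; push_cast; ring⟩
  have hterm : ∀ x : ZMod q, f (shiftDiv q (x.val : ℤ) (γ • z)) =
      A * f (shiftDiv q ((((((γ 0 1 : ℤ) : ZMod q) + x * ((γ 1 1 : ℤ) : ZMod q)) *
        ((γ 1 1 : ℤ) : ZMod q) : ZMod q)).val : ℤ) z) := by
    intro x
    set b' : ℤ := (γ 0 1 + (x.val : ℤ) * γ 1 1) * γ 1 1 with hb'
    have hdiv : (q : ℤ) ∣ γ 0 1 + (x.val : ℤ) * γ 1 1 - b' * (γ 0 0 + (x.val : ℤ) * γ 1 0) := by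
      refine ⟨-((γ 0 1 + (x.val : ℤ) * γ 1 1) * (γ 0 1 * (N * k) + γ 1 1 * (x.val : ℤ) * (N * k))), ?_⟩
      rw [hb', hk] at *
      push_cast at hdet ⊢
      linear_combination (-(γ 0 1 + (x.val : ℤ) * γ 1 1)) * hdet
    rw [transform_shift hf q hγ0 hdiv z]
    have hcop1 := coprime_hecke hdiv
    have hS : shimuraSymbol (q * γ 1 0) (γ 1 1 - b' * γ 1 0) =
        shimuraSymbol (q * γ 1 0) (γ 1 1) := by
      rw [hc] at hcop1 hcop0 ⊢
      refine shimura_sq_congr (NeZero.pos q) h4k hcop1 hcop0 ?_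
      refine Int.modEq_iff_dvd.2 ⟨b' * q, ?_⟩
      rw [hk]; push_cast; ring
    have hE : epsilon (γ 1 1 - b' * γ 1 0) = epsilon (γ 1 1) := by
      apply epsilon_congr
      obtain ⟨t, ht⟩ := h4k
      refine Int.modEq_iff_dvd.2 ⟨b' * q * t, ?_⟩
      rw [hk]; push_cast
      linear_combination (b' * q) * ht
    rw [hS, hE, ← hA]
    congr 1
    apply shift_congr hf
    rw [hb']
    push_cast
    rw [ZMod.natCast_zmod_val, ZMod.natCast_zmod_val]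
  have hsum : trSum f q (γ • z) = A * trSum f q z := by
    unfold trSum
    rw [Finset.mul_sum]
    -- affine bijection
    have hu : ((γ 1 1 : ℤ) : ZMod q) * ((γ 0 0 : ℤ) : ZMod q) = 1 := by
      have h1 : ((γ 0 0 * γ 1 1 - γ 0 1 * γ 1 0 : ℤ) : ZMod q) = 1 := by rw [hdet]; simp
      rw [hk] at h1
      push_cast at h1
      rw [ZMod.natCast_self] at h1
      linear_combination h1
    refine Finset.sum_bij' (fun x _ ↦ ((((γ 0 1 : ℤ) : ZMod q) + x * ((γ 1 1 : ℤ) : ZMod q)) *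
        ((γ 1 1 : ℤ) : ZMod q) : ZMod q))
      (fun y _ ↦ (y * ((γ 0 0 : ℤ) : ZMod q) - ((γ 0 1 : ℤ) : ZMod q)) * ((γ 0 0 : ℤ) : ZMod q))
      (fun _ _ ↦ Finset.mem_univ _) (fun _ _ ↦ Finset.mem_univ _) ?_ ?_ ?_
    · intro x _
      linear_combination ((((γ 0 1 : ℤ) : ZMod q)) * ((γ 0 0 : ℤ) : ZMod q) +
        x * ((γ 1 1 : ℤ) : ZMod q) * ((γ 0 0 : ℤ) : ZMod q) + x) * hu
    · intro y _
      linear_combination (y * (((γ 1 1 : ℤ) : ZMod q) * ((γ 0 0 : ℤ) : ZMod q) + 1) -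
        ((γ 0 1 : ℤ) : ZMod q) * ((γ 1 1 : ℤ) : ZMod q)) * hu
    · intro x _
      exact hterm x
  have hAn : ‖A‖ = ‖lowerForm γ z‖ ^ (3 / 2 : ℝ) := by
    rw [hA, norm_mul, norm_char χ hγ0, one_mul, norm_pow, norm_mul, norm_mul, norm_inv,
      norm_epsilon, norm_shimura hcop0, norm_cpow_half]
    rw [inv_one, one_mul, one_mul, ← Real.rpow_natCast, ← Real.rpow_mul (norm_nonneg _)]
    norm_num
  unfold gFun
  rw [hsum, norm_mul, hAn, im_smul_eq]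
  have hL : 0 < ‖lowerForm γ z‖ := norm_pos_iff.2 (lowerForm_ne_zero γ z)
  rw [Real.div_rpow z.im_pos.le (by positivity), mul_pow]
  have e1 : (‖lowerForm γ z‖ ^ (3 / 2 : ℝ)) ^ 2 = ‖lowerForm γ z‖ ^ 3 := by
    rw [← Real.rpow_natCast, ← Real.rpow_mul hL.le, ← Real.rpow_natCast]; norm_num
  have e2 : (‖lowerForm γ z‖ ^ 2) ^ (3 / 2 : ℝ) = ‖lowerForm γ z‖ ^ 3 := by
    rw [← Real.rpow_natCast, ← Real.rpow_mul hL.le, ← Real.rpow_natCast]; norm_num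
  rw [e1, e2]
  field_simp

/-- fibring a sum over `G/s` over `G/t`. -/
lemma sum_quotient_le {G : Type*} [Group G] {s t : Subgroup G} (h : s ≤ t) [s.FiniteIndex]
    [t.FiniteIndex] (F : G → ℝ) (hF : ∀ g : G, ∀ k ∈ t, F (g * k) = F g) :
    ∑ x : G ⧸ s, F (Quotient.out x) = (s.relIndex t) * ∑ κ : G ⧸ t, F (Quotient.out κ) := by
  classical
  have hfin : (s.subgroupOf t).FiniteIndex := inferInstance
  have hout : ∀ g : G, F (Quotient.out (QuotientGroup.mk g : G ⧸ t)) = F g := by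
    intro g
    obtain ⟨k, hk⟩ := QuotientGroup.mk_out_eq_mul t g
    rw [hk, hF _ _ k.2]
  have h1 : ∑ x : G ⧸ s, F (Quotient.out x) =
      ∑ y : (G ⧸ t) × (t ⧸ s.subgroupOf t), F (Quotient.out y.1) := by
    refine Fintype.sum_equiv (Subgroup.quotientEquivProdOfLE h) _ _ ?_
    intro x
    have : ((Subgroup.quotientEquivProdOfLE h) x).1 = QuotientGroup.mk (Quotient.out x) := by
      conv_lhs => rw [← QuotientGroup.out_eq' x]
      rfl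
    rw [this, hout]
  rw [h1, Fintype.sum_prod_type]
  simp only [Finset.sum_const, Finset.card_univ, nsmul_eq_mul]
  rw [← Finset.mul_sum]
  congr 2
  rw [← Nat.card_eq_fintype_card]
  rfl

lemma sum_gFun_Gamma0_le {N : ℕ} [NeZero N] {χ : DirichletCharacter ℂ N} {f : ℍ → ℂ}
    (hf : IsCuspForm N χ f) (h4 : 4 ∣ N) {q : ℕ} [NeZero q] (hsq : Squarefree q)
    (hcop : Nat.Coprime q N) {B : ℝ} (hB : ∀ w : ℍ, w.im ^ (3 / 2 : ℝ) * ‖f w‖ ^ 2 ≤ B) (z : ℍ) :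
    ∑ x : SL(2, ℤ) ⧸ Gamma0 (N * q), gFun f q ((Quotient.out x)⁻¹ • z) ≤
      (q : ℝ) ^ (5 / 2 : ℝ) * B * (Gamma0 (N * q)).index := by
  have hle : Gamma (N * q) ≤ Gamma0 (N * q) := by
    intro γ hγ
    rw [Gamma_mem] at hγ
    rw [Gamma0_mem]; exact hγ.2.2.1
  have h1 := sum_gFun_Gamma_le hf h4 hsq hcop hB z
  rw [sum_quotient_le hle (fun g ↦ gFun f q (g⁻¹ • z))] at h1
  · have h2 : ((Gamma (N * q)).index : ℝ) =
        (Gamma (N * q)).relIndex (Gamma0 (N * q)) * (Gamma0 (N * q)).index := by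
      rw [← Nat.cast_mul, Subgroup.relIndex_mul_index hle]
    rw [h2] at h1
    have h3 : (0 : ℝ) < (Gamma (N * q)).relIndex (Gamma0 (N * q)) := by
      have : (Gamma (N * q)).relIndex (Gamma0 (N * q)) ≠ 0 := by
        have hfin : ((Gamma (N * q)).subgroupOf (Gamma0 (N * q))).FiniteIndex := inferInstance
        exact hfin.index_ne_zero
      exact_mod_cast Nat.pos_of_ne_zero this
    have h4' : (Gamma (N * q)).relIndex (Gamma0 (N * q)) *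
        (∑ x : SL(2, ℤ) ⧸ Gamma0 (N * q), gFun f q ((Quotient.out x)⁻¹ • z)) ≤
        (Gamma (N * q)).relIndex (Gamma0 (N * q)) *
          ((q : ℝ) ^ (5 / 2 : ℝ) * B * (Gamma0 (N * q)).index) := by
      calc _ ≤ _ := h1
        _ = _ := by ring
    exact le_of_mul_le_mul_left h4' h3
  · intro g k hk
    rw [mul_inv_rev, mul_smul, gFun_inv hf h4 (inv_mem hk)]

end

end

end Pool.Agent.Work.MP_af11aa_nt
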