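import Mathlib
import Pool.Agent.Work.MP_af11aa_nt.GFun
import Pool.Agent.Work.MP_af11aa_nt.Bessel

namespace Pool.Agent.Work.MP_af11aa_nt

open UpperHalfPlane CongruenceSubgroup MeasureTheory
open Complex hiding Gamma
open scoped MatrixGroups Manifold Topology ComplexConjugate

noncomputable section

/-- the point `x + i y`. -/
def pt (x y : ℝ) : ℍ := ofComplex (x + y * Complex.I)

lemma pt_eq {y : ℝ} (hy : 0 < y) (x : ℝ) : pt x y = ⟨x + y * Complex.I, by simpa using hy⟩ := by
  unfold pt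
  exact ofComplex_apply_of_im_pos (by simpa using hy)

lemma coe_pt {y : ℝ} (hy : 0 < y) (x : ℝ) : ((pt x y : ℍ) : ℂ) = x + y * Complex.I := by
  rw [pt_eq hy]

lemma im_pt {y : ℝ} (hy : 0 < y) (x : ℝ) : (pt x y).im = y := by
  have : ((pt x y : ℍ) : ℂ).im = y := by rw [coe_pt hy]; simp
  exact this

lemma re_pt {y : ℝ} (hy : 0 < y) (x : ℝ) : (pt x y).re = x := by
  have : ((pt x y : ℍ) : ℂ).re = x := by rw [coe_pt hy]; simp
  exact this

lemma continuous_pt {y : ℝ} (hy : 0 < y) : Continuous fun x ↦ pt x y := by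
  rw [UpperHalfPlane.isEmbedding_coe.continuous_iff]
  have : (UpperHalfPlane.coe ∘ fun x ↦ pt x y) = fun x : ℝ ↦ (x + y * Complex.I : ℂ) := by
    funext x; exact coe_pt hy x
  rw [this]; fun_prop

section

variable {N : ℕ} {χ : DirichletCharacter ℂ N} {f : ℍ → ℂ}

lemma IsCuspForm.continuous (hf : IsCuspForm N χ f) : Continuous f := hf.holo.continuous

lemma IsCuspForm.periodic (hf : IsCuspForm N χ f) : Function.Periodic (f ∘ ofComplex) 1 := by
  intro w
  by_cases hw : 0 < w.im
  · have hw1 : 0 < (w + 1).im := by simpa using hw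
    simp only [Function.comp_apply]
    rw [ofComplex_apply_of_im_pos hw, ofComplex_apply_of_im_pos hw1, ← f_T hf ⟨w, hw⟩]
    congr 1
    ext1
    rw [coe_sl_smul]
    unfold lowerForm
    simp [ModularGroup.T]
  · have hw1 : ¬ 0 < (w + 1).im := by simpa using hw
    simp only [Function.comp_apply]
    rw [ofComplex_apply_of_im_nonpos (not_lt.1 hw), ofComplex_apply_of_im_nonpos (not_lt.1 hw1)]

lemma IsCuspForm.zeroAt (hf : IsCuspForm N χ f) : IsZeroAtImInfty f := by
  have h := hf.cusp 1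
  unfold lowerForm at h
  simp only [one_smul] at h
  rw [IsZeroAtImInfty, Filter.ZeroAtFilter] at h ⊢
  rw [tendsto_zero_iff_norm_tendsto_zero]
  refine h.congr fun z ↦ ?_
  simp

lemma fourierCoeff_eq (hf : IsCuspForm N χ f) (n : ℕ) {t : ℝ} (ht : 0 < t) :
    fourierCoeff f n = (Real.exp (2 * Real.pi * n * t) : ℂ) *
      ∫ u in (0 : ℝ)..1, f (pt u t) * eChar (-n) u := by
  unfold fourierCoeff
  rw [qExpansion_coeff_eq_intervalIntegral one_pos hf.periodic hf.holo
    hf.zeroAt.isBoundedAtImInfty n ht, Complex.ofReal_one, div_one, one_mul,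
    ← intervalIntegral.integral_const_mul]
  push_cast
  refine intervalIntegral.integral_congr fun u _ ↦ ?_
  rw [← pt_eq ht]
  have h1 : (1 : ℂ) / Function.Periodic.qParam 1 (u + t * Complex.I) ^ n =
      Complex.exp (2 * Real.pi * n * t) * eChar (-n) u := by
    unfold Function.Periodic.qParam eChar
    rw [← Complex.exp_nat_mul, one_div, ← Complex.exp_neg, ← Complex.exp_add]
    congr 1
    push_cast
    have := Complex.I_mul_I
    linear_combination (-2 * Real.pi * n * t) * this
  rw [h1]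
  ring

/-- summing over residues. -/
lemma sum_zmod_val {M : Type*} [AddCommMonoid M] (q : ℕ) [NeZero q] (g : ℕ → M) :
    ∑ x : ZMod q, g x.val = ∑ k ∈ Finset.range q, g k := by
  refine Finset.sum_nbij (fun x ↦ x.val) ?_ ?_ ?_ ?_
  · intro x _; exact Finset.mem_range.2 (ZMod.val_lt x)
  · intro x _ y _ h; exact ZMod.val_injective q h
  · intro k hk
    exact ⟨(k : ZMod q), Finset.mem_coe.2 (Finset.mem_univ _), ZMod.val_cast_of_lt (by simpa using hk)⟩
  · intro x _; rfl

lemma shiftDiv_pt (q : ℕ) [NeZero q] (b : ℕ) {y : ℝ} (hy : 0 < y) (x : ℝ) :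
    shiftDiv q (b : ℤ) (pt x y) = pt ((x + b) / q) (y / q) := by
  have hq : (0 : ℝ) < q := Nat.cast_pos.2 (NeZero.pos q)
  ext1
  rw [coe_shiftDiv, coe_pt hy, coe_pt (by positivity)]
  push_cast
  field_simp
  ring

/-- Fourier coefficients of the trace sum on horizontal lines. -/
lemma trSum_coeff (hf : IsCuspForm N χ f) (q : ℕ) [NeZero q] (m : ℕ) {y : ℝ} (hy : 0 < y) :
    ∫ x in (0 : ℝ)..1, trSum f q (pt x y) * eChar (-m) x =
      q * fourierCoeff f (q * m) * Real.exp (-(2 * Real.pi * m * y)) := by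
  have hq : (0 : ℝ) < q := Nat.cast_pos.2 (NeZero.pos q)
  have hq' : (q : ℝ) ≠ 0 := hq.ne'
  have hyq : 0 < y / q := by positivity
  have hFc : Continuous fun u ↦ f (pt u (y / q)) := hf.continuous.comp (continuous_pt hyq)
  set F : ℝ → ℂ := fun u ↦ f (pt u (y / q)) * eChar (-(q * m : ℕ)) u with hF
  have hFcont : Continuous F := hFc.mul (continuous_eChar _)
  have h1 : ∀ b : ℕ, ∫ x in (0 : ℝ)..1, f (shiftDiv q (b : ℤ) (pt x y)) * eChar (-m) x =
      q * ∫ u in ((b : ℝ) / q)..(((b + 1 : ℕ) : ℝ) / q), F u := by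
    intro b
    have e : ∀ x : ℝ, f (shiftDiv q (b : ℤ) (pt x y)) * eChar (-m) x = F (x / q + b / q) := by
      intro x
      rw [hF]
      simp only
      rw [shiftDiv_pt q b hy]
      have e1 : (x + b) / q = x / q + b / q := by ring
      rw [e1]
      congr 1
      unfold eChar
      rw [Complex.exp_eq_exp_iff_exists_int]
      refine ⟨m * b, ?_⟩
      have hqc : (q : ℂ) ≠ 0 := by exact_mod_cast hq'
      push_cast
      field_simp
      ring
    simp_rw [e]
    rw [intervalIntegral.integral_comp_div_add F hq']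
    simp only [zero_div, zero_add]
    rw [Complex.real_smul]
    have e2 : (1 : ℝ) / q + b / q = ((b + 1 : ℕ) : ℝ) / q := by push_cast; ring
    rw [e2]
    push_cast
    rfl
  have h2 : ∫ x in (0 : ℝ)..1, trSum f q (pt x y) * eChar (-m) x =
      q * ∫ u in (0 : ℝ)..1, F u := by
    unfold trSum
    simp_rw [Finset.sum_mul]
    rw [intervalIntegral.integral_finsetSum]
    · rw [sum_zmod_val q (fun k ↦ ∫ x in (0 : ℝ)..1, f (shiftDiv q (k : ℤ) (pt x y)) * eChar (-m) x)]
      simp_rw [h1]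
      rw [← Finset.mul_sum, intervalIntegral.sum_integral_adjacent_intervals]
      · congr 2
        · simp
        · field_simp
      · intro k _
        exact hFcont.intervalIntegrable _ _
    · intro x _
      have : Continuous fun u ↦ f (shiftDiv q (x.val : ℤ) (pt u y)) := by
        have e : (fun u ↦ f (shiftDiv q (x.val : ℤ) (pt u y))) =
            fun u ↦ f (pt ((u + x.val) / q) (y / q)) := by
          funext u; rw [shiftDiv_pt q x.val hy]
        rw [e]
        have h3 : Continuous fun u : ℝ ↦ ((u + x.val) / q : ℝ) := by fun_prop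
        exact hFc.comp h3
      exact (this.mul (continuous_eChar _)).intervalIntegrable _ _
  rw [h2, fourierCoeff_eq hf (q * m) hyq, hF]
  have e3 : (2 * Real.pi * ((q * m : ℕ) : ℝ) * (y / q)) = 2 * Real.pi * m * y := by
    push_cast; field_simp
  rw [e3]
  have e4 : (Real.exp (2 * Real.pi * m * y) : ℂ) * (Real.exp (-(2 * Real.pi * m * y)) : ℂ) = 1 := by
    rw [← Complex.ofReal_mul, ← Real.exp_add]; simp
  linear_combination (-(q : ℂ) * ∫ u in (0 : ℝ)..1, f (pt u (y / q)) * eChar (-(q * m : ℕ)) u) * e4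

lemma continuous_trSum_pt (hf : IsCuspForm N χ f) (q : ℕ) [NeZero q] {y : ℝ} (hy : 0 < y) :
    Continuous fun x ↦ trSum f q (pt x y) := by
  have hq : (0 : ℝ) < q := Nat.cast_pos.2 (NeZero.pos q)
  have hyq : 0 < y / q := by positivity
  unfold trSum
  refine continuous_finsetSum _ fun x _ ↦ ?_
  have e : (fun u ↦ f (shiftDiv q (x.val : ℤ) (pt u y))) =
      fun u ↦ f (pt ((u + x.val) / q) (y / q)) := by
    funext u; rw [shiftDiv_pt q x.val hy]
  rw [e]
  have h3 : Continuous fun u : ℝ ↦ ((u + x.val) / q : ℝ) := by fun_prop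
  exact (hf.continuous.comp (continuous_pt hyq)).comp h3

/-- mean square on a horizontal line from below. -/
lemma line_lower (hf : IsCuspForm N χ f) (q : ℕ) [NeZero q] {y : ℝ} (hy : 0 < y)
    (s : Finset ℕ) :
    ∑ m ∈ s, (q : ℝ) ^ 2 * ‖fourierCoeff f (q * m)‖ ^ 2 * Real.exp (-(4 * Real.pi * m * y)) ≤
      ∫ x in (0 : ℝ)..1, ‖trSum f q (pt x y)‖ ^ 2 := by
  have h := bessel_finite (continuous_trSum_pt hf q hy) (s.map Nat.castEmbedding)
  rw [Finset.sum_map] at h
  refine le_trans (le_of_eq ?_) h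
  refine Finset.sum_congr rfl fun m _ ↦ ?_
  rw [Nat.castEmbedding_apply, trSum_coeff hf q m hy]
  rw [norm_mul, norm_mul, Complex.norm_natCast, Complex.norm_real, Real.norm_of_nonneg (Real.exp_pos _).le,
    mul_pow, mul_pow, ← Real.exp_nat_mul]
  congr 2
  push_cast; ring

end

end

end Pool.Agent.Work.MP_af11aa_nt
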