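import Mathlib

namespace Pool.Agent.Work.MP_af11aa_nt

open UpperHalfPlane MeasureTheory
open scoped MatrixGroups Topology ENNReal NNReal Modular

noncomputable section

/-- Hyperbolic integrals in the coordinates `x, y`. -/
lemma lintegral_coord {F : ℍ → ℝ≥0∞} (hF : Measurable F) :
    ∫⁻ z, F z = ∫⁻ p : ℝ × ℝ in Set.univ ×ˢ Set.Ioi 0,
      F (ofComplex (p.1 + p.2 * Complex.I)) * ENNReal.ofReal (1 / p.2 ^ 2) := by
  have hmeas : Measurable fun z : ℍ ↦ (((1 / NNReal.mk z.im z.im_pos.le : ℝ≥0) ^ 2 : ℝ≥0) : ℝ≥0∞) := by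
    have : Continuous fun z : ℍ ↦ (((1 / NNReal.mk z.im z.im_pos.le : ℝ≥0) ^ 2 : ℝ≥0)) := by
      refine .pow (.div₀ continuous_const ?_ ?_) _
      · exact continuous_im.subtype_mk _
      · exact fun x ↦ NNReal.ne_iff.mp x.im_ne_zero
    exact this.measurable.coe_nnreal_ennreal
  rw [volume_def, lintegral_withDensity_eq_lintegral_mul _ hmeas hF]
  have hmp : MeasurePreserving UpperHalfPlane.coe (volume.comap UpperHalfPlane.coe)
      (volume.restrict (.range UpperHalfPlane.coe)) :=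
    ⟨measurable_coe, by rw [measurableEmbedding_coe.map_comap]⟩
  have h1 : ∫⁻ z : ℍ, ((fun z : ℍ ↦ (((1 / NNReal.mk z.im z.im_pos.le : ℝ≥0) ^ 2 : ℝ≥0) : ℝ≥0∞)) * F) z
      ∂(volume.comap UpperHalfPlane.coe) =
      ∫⁻ z : ℍ, (fun w : ℂ ↦ F (ofComplex w) * ENNReal.ofReal (1 / w.im ^ 2)) z
      ∂(volume.comap UpperHalfPlane.coe) := by
    congr 1
    funext z
    simp only [Pi.mul_apply, ofComplex_apply]
    rw [mul_comm]
    congr 1
    rw [ENNReal.ofReal, ENNReal.coe_inj]
    ext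
    rw [Real.coe_toNNReal _ (by positivity)]
    push_cast
    simp
  rw [h1, hmp.lintegral_comp_emb measurableEmbedding_coe
    (fun w : ℂ ↦ F (ofComplex w) * ENNReal.ofReal (1 / w.im ^ 2))]
  have h2 : (Set.range UpperHalfPlane.coe) = Complex.measurableEquivRealProd ⁻¹' (Set.univ ×ˢ Set.Ioi 0) := by
    ext w
    simp only [Set.mem_range, Set.mem_preimage, Complex.measurableEquivRealProd_apply, Set.mem_prod,
      Set.mem_univ, true_and, Set.mem_Ioi]
    constructor
    · rintro ⟨z, rfl⟩; exact z.im_pos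
    · intro h; exact ⟨⟨w, h⟩, rfl⟩
  rw [h2]
  have h3 := Complex.volume_preserving_equiv_real_prod
  rw [← h3.setLIntegral_comp_preimage_emb (Complex.measurableEquivRealProd.measurableEmbedding)]
  congr 1
  funext w
  simp [Complex.measurableEquivRealProd_apply]

end

end Pool.Agent.Work.MP_af11aa_nt
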