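import Mathlib
import Pool.Agent.Work.MP_af11aa_nt.Coeff
import Pool.Agent.Work.MP_af11aa_nt.Coord

namespace Pool.Agent.Work.MP_af11aa_nt

open UpperHalfPlane CongruenceSubgroup MeasureTheory
open Complex hiding Gamma
open scoped MatrixGroups Manifold Topology ComplexConjugate ENNReal

noncomputable section

/-- the strip `0 ≤ x < 1`, `1/Y ≤ y ≤ 2/Y`. -/
def strip (Y : ℝ) : Set ℍ := {z | 0 ≤ z.re ∧ z.re < 1 ∧ 1 / Y ≤ z.im ∧ z.im ≤ 2 / Y}

lemma measurable_upper_re : Measurable fun z : ℍ ↦ z.re := UpperHalfPlane.continuous_re.measurable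

lemma measurable_upper_im : Measurable fun z : ℍ ↦ z.im := UpperHalfPlane.continuous_im.measurable

lemma measurableSet_strip (Y : ℝ) : MeasurableSet (strip Y) := by
  unfold strip
  have h1 := measurable_upper_re
  have h2 := measurable_upper_im
  refine MeasurableSet.inter (measurableSet_le measurable_const h1) ?_
  refine MeasurableSet.inter (measurableSet_lt h1 measurable_const) ?_
  exact MeasurableSet.inter (measurableSet_le measurable_const h2)
    (measurableSet_le h2 measurable_const)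

section

variable {N : ℕ} {χ : DirichletCharacter ℂ N} {f : ℍ → ℂ}

lemma continuous_shiftDiv (q : ℕ) [NeZero q] (b : ℤ) : Continuous (shiftDiv q b) := by
  rw [UpperHalfPlane.isEmbedding_coe.continuous_iff]
  have : (UpperHalfPlane.coe ∘ shiftDiv q b) = fun z : ℍ ↦ (((z : ℂ) + b) / q : ℂ) := by
    funext z; rfl
  rw [this]
  have := UpperHalfPlane.continuous_coe
  fun_prop

lemma continuous_trSum (hf : IsCuspForm N χ f) (q : ℕ) [NeZero q] : Continuous (trSum f q) := by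
  unfold trSum
  exact continuous_finsetSum _ fun x _ ↦ hf.continuous.comp (continuous_shiftDiv q _)

lemma continuous_gFun (hf : IsCuspForm N χ f) (q : ℕ) [NeZero q] : Continuous (gFun f q) := by
  unfold gFun
  refine ((continuous_trSum hf q).norm.pow 2).mul ?_
  exact UpperHalfPlane.continuous_im.rpow_const fun z ↦ Or.inl z.im_pos.ne'

lemma continuousOn_pt : ContinuousOn (fun p : ℝ × ℝ ↦ pt p.1 p.2) {p | 0 < p.2} := by
  have h : ContinuousOn (fun p : ℝ × ℝ ↦ ((pt p.1 p.2 : ℍ) : ℂ)) {p | 0 < p.2} := by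
    have h1 : ContinuousOn (fun p : ℝ × ℝ ↦ (p.1 + p.2 * Complex.I : ℂ)) {p | 0 < p.2} := by
      fun_prop
    exact h1.congr fun p hp ↦ coe_pt hp p.1
  exact UpperHalfPlane.isEmbedding_coe.continuousOn_iff.2 h

lemma strip_lower (hf : IsCuspForm N χ f) (q : ℕ) [NeZero q] {Y : ℝ} (hY : 0 < Y)
    (s : Finset ℕ) (hs : ∀ m ∈ s, (m : ℝ) ≤ Y) :
    ENNReal.ofReal ((q : ℝ) ^ 2 * Real.exp (-(8 * Real.pi)) / Real.sqrt (2 * Y) *
      ∑ m ∈ s, ‖fourierCoeff f (q * m)‖ ^ 2) ≤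
      ∫⁻ z in strip Y, ENNReal.ofReal (gFun f q z) := by
  have hG : Measurable fun z ↦ ENNReal.ofReal (gFun f q z) :=
    (continuous_gFun hf q).measurable.ennreal_ofReal
  have hI : MeasurableSet (Set.Ico (0 : ℝ) 1 ×ˢ Set.Icc (1 / Y) (2 / Y)) :=
    measurableSet_Ico.prod measurableSet_Icc
  have h1Y : 0 < 1 / Y := by positivity
  -- pass to coordinates
  have step1 : ∫⁻ p in Set.Ico (0 : ℝ) 1 ×ˢ Set.Icc (1 / Y) (2 / Y),
      ENNReal.ofReal (gFun f q (pt p.1 p.2)) * ENNReal.ofReal (1 / p.2 ^ 2) ≤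
      ∫⁻ z in strip Y, ENNReal.ofReal (gFun f q z) := by
    rw [← lintegral_indicator (measurableSet_strip Y),
      lintegral_coord (hG.indicator (measurableSet_strip Y))]
    calc ∫⁻ p in Set.Ico (0 : ℝ) 1 ×ˢ Set.Icc (1 / Y) (2 / Y),
          ENNReal.ofReal (gFun f q (pt p.1 p.2)) * ENNReal.ofReal (1 / p.2 ^ 2)
        = ∫⁻ p in Set.Ico (0 : ℝ) 1 ×ˢ Set.Icc (1 / Y) (2 / Y),
          (strip Y).indicator (fun z ↦ ENNReal.ofReal (gFun f q z))
            (ofComplex (p.1 + p.2 * Complex.I)) * ENNReal.ofReal (1 / p.2 ^ 2) := by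
          refine setLIntegral_congr_fun hI ?_
          rintro ⟨x, y⟩ ⟨hx, hy⟩
          have hy0 : 0 < y := lt_of_lt_of_le h1Y hy.1
          simp only
          have hmem : pt x y ∈ strip Y := by
            refine ⟨?_, ?_, ?_, ?_⟩
            · rw [re_pt hy0]; exact hx.1
            · rw [re_pt hy0]; exact hx.2
            · rw [im_pt hy0]; exact hy.1
            · rw [im_pt hy0]; exact hy.2
          have : (ofComplex (x + y * Complex.I)) = pt x y := rfl
          rw [this, Set.indicator_of_mem hmem]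
      _ ≤ _ := by
          refine lintegral_mono_set ?_
          rintro ⟨x, y⟩ ⟨hx, hy⟩
          exact ⟨Set.mem_univ _, lt_of_lt_of_le h1Y hy.1⟩
  refine le_trans ?_ step1
  -- Fubini
  have hmeas : AEMeasurable (fun p : ℝ × ℝ ↦
      ENNReal.ofReal (gFun f q (pt p.1 p.2)) * ENNReal.ofReal (1 / p.2 ^ 2))
      ((volume.prod volume).restrict (Set.Ico (0 : ℝ) 1 ×ˢ Set.Icc (1 / Y) (2 / Y))) := by
    have hsub : Set.Ico (0 : ℝ) 1 ×ˢ Set.Icc (1 / Y) (2 / Y) ⊆ {p : ℝ × ℝ | 0 < p.2} := by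
      rintro ⟨x, y⟩ ⟨hx, hy⟩
      exact lt_of_lt_of_le h1Y hy.1
    have hc : ContinuousOn (fun p : ℝ × ℝ ↦ gFun f q (pt p.1 p.2))
        (Set.Ico (0 : ℝ) 1 ×ˢ Set.Icc (1 / Y) (2 / Y)) :=
      (continuous_gFun hf q).comp_continuousOn (continuousOn_pt.mono hsub)
    have h2 : Measurable (fun p : ℝ × ℝ ↦ ENNReal.ofReal (1 / p.2 ^ 2)) := by fun_prop
    exact (hc.aemeasurable hI).ennreal_ofReal.mul h2.aemeasurable
  rw [Measure.volume_eq_prod, ← Measure.prod_restrict] at *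
  rw [lintegral_prod_symm _ hmeas]
  -- inner bound
  have inner : ∀ y ∈ Set.Icc (1 / Y) (2 / Y),
      ENNReal.ofReal ((q : ℝ) ^ 2 * Real.exp (-(8 * Real.pi)) * Real.sqrt (Y / 2) *
        ∑ m ∈ s, ‖fourierCoeff f (q * m)‖ ^ 2) ≤
      ∫⁻ x in Set.Ico (0 : ℝ) 1, ENNReal.ofReal (gFun f q (pt x y)) *
        ENNReal.ofReal (1 / y ^ 2) := by
    intro y hy
    have hy0 : 0 < y := lt_of_lt_of_le h1Y hy.1
    have e1 : ∀ x : ℝ, ENNReal.ofReal (gFun f q (pt x y)) * ENNReal.ofReal (1 / y ^ 2) =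
        ENNReal.ofReal (‖trSum f q (pt x y)‖ ^ 2 * y ^ (-(1 / 2 : ℝ))) := by
      intro x
      rw [← ENNReal.ofReal_mul (gFun_nonneg _ _ _)]
      congr 1
      unfold gFun
      rw [im_pt hy0, mul_assoc]
      congr 1
      rw [show (3 / 2 : ℝ) = -(1 / 2) + 2 by norm_num, Real.rpow_add hy0]
      have : y ^ (2 : ℝ) = y ^ 2 := by norm_cast
      rw [this]
      field_simp
    simp_rw [e1]
    have hcont : Continuous fun x : ℝ ↦ ‖trSum f q (pt x y)‖ ^ 2 * y ^ (-(1 / 2 : ℝ)) :=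
      ((continuous_trSum_pt hf q hy0).norm.pow 2).mul continuous_const
    have e2 : ∫⁻ x in Set.Ico (0 : ℝ) 1, ENNReal.ofReal
        (‖trSum f q (pt x y)‖ ^ 2 * y ^ (-(1 / 2 : ℝ))) =
        ENNReal.ofReal (∫ x in (0 : ℝ)..1, ‖trSum f q (pt x y)‖ ^ 2 * y ^ (-(1 / 2 : ℝ))) := by
      rw [intervalIntegral.integral_of_le (by norm_num), ← integral_Ico_eq_integral_Ioc,
        ofReal_integral_eq_lintegral_ofReal]
      · exact (hcont.integrableOn_Icc).mono_set Set.Ico_subset_Icc_self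
      · exact Filter.Eventually.of_forall fun x ↦ by positivity
    rw [e2]
    apply ENNReal.ofReal_le_ofReal
    rw [intervalIntegral.integral_mul_const]
    have hl := line_lower hf q hy0 s
    have hsq : Real.sqrt (Y / 2) ≤ y ^ (-(1 / 2 : ℝ)) := by
      rw [Real.rpow_neg hy0.le, ← Real.sqrt_eq_rpow, ← Real.sqrt_inv]
      apply Real.sqrt_le_sqrt
      rw [← one_div, le_div_iff₀ hy0]
      have h2 := hy.2
      rw [le_div_iff₀ hY] at h2
      linarith
    have hsum : (q : ℝ) ^ 2 * Real.exp (-(8 * Real.pi)) *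
        ∑ m ∈ s, ‖fourierCoeff f (q * m)‖ ^ 2 ≤
        ∑ m ∈ s, (q : ℝ) ^ 2 * ‖fourierCoeff f (q * m)‖ ^ 2 *
          Real.exp (-(4 * Real.pi * m * y)) := by
      rw [Finset.mul_sum]
      refine Finset.sum_le_sum fun m hm ↦ ?_
      have hexp : Real.exp (-(8 * Real.pi)) ≤ Real.exp (-(4 * Real.pi * m * y)) := by
        apply Real.exp_le_exp.2
        have h1 := hs m hm
        have h2 := hy.2
        rw [le_div_iff₀ hY] at h2
        have h3 : (m : ℝ) * y ≤ 2 := by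
          calc (m : ℝ) * y ≤ Y * y := by gcongr
            _ ≤ 2 := by linarith
        have := Real.pi_pos
        nlinarith
      calc (q : ℝ) ^ 2 * Real.exp (-(8 * Real.pi)) * ‖fourierCoeff f (q * m)‖ ^ 2
          = (q : ℝ) ^ 2 * ‖fourierCoeff f (q * m)‖ ^ 2 * Real.exp (-(8 * Real.pi)) := by ring
        _ ≤ _ := by gcongr
    calc (q : ℝ) ^ 2 * Real.exp (-(8 * Real.pi)) * Real.sqrt (Y / 2) *
        ∑ m ∈ s, ‖fourierCoeff f (q * m)‖ ^ 2
        = ((q : ℝ) ^ 2 * Real.exp (-(8 * Real.pi)) *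
          ∑ m ∈ s, ‖fourierCoeff f (q * m)‖ ^ 2) * Real.sqrt (Y / 2) := by ring
      _ ≤ (∫ x in (0 : ℝ)..1, ‖trSum f q (pt x y)‖ ^ 2) * y ^ (-(1 / 2 : ℝ)) := by
          refine mul_le_mul (hsum.trans hl) hsq (Real.sqrt_nonneg _) ?_
          apply intervalIntegral.integral_nonneg (by norm_num)
          intro x _; positivity
  calc ENNReal.ofReal ((q : ℝ) ^ 2 * Real.exp (-(8 * Real.pi)) / Real.sqrt (2 * Y) *
      ∑ m ∈ s, ‖fourierCoeff f (q * m)‖ ^ 2)
      = ENNReal.ofReal ((q : ℝ) ^ 2 * Real.exp (-(8 * Real.pi)) * Real.sqrt (Y / 2) *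
        ∑ m ∈ s, ‖fourierCoeff f (q * m)‖ ^ 2) * ENNReal.ofReal (1 / Y) := by
        rw [← ENNReal.ofReal_mul (by positivity)]
        congr 1
        have e : Real.sqrt (Y / 2) / Y = 1 / Real.sqrt (2 * Y) := by
          rw [div_eq_div_iff hY.ne' (by positivity), ← Real.sqrt_mul (by positivity), one_mul]
          rw [show Y / 2 * (2 * Y) = Y ^ 2 by ring, Real.sqrt_sq hY.le]
        calc (q : ℝ) ^ 2 * Real.exp (-(8 * Real.pi)) / Real.sqrt (2 * Y) *
            ∑ m ∈ s, ‖fourierCoeff f (q * m)‖ ^ 2 = (q : ℝ) ^ 2 * Real.exp (-(8 * Real.pi)) *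
            (1 / Real.sqrt (2 * Y)) * ∑ m ∈ s, ‖fourierCoeff f (q * m)‖ ^ 2 := by ring
          _ = _ := by rw [← e]; ring
    _ = ∫⁻ _ in Set.Icc (1 / Y) (2 / Y),
        ENNReal.ofReal ((q : ℝ) ^ 2 * Real.exp (-(8 * Real.pi)) * Real.sqrt (Y / 2) *
        ∑ m ∈ s, ‖fourierCoeff f (q * m)‖ ^ 2) := by
        rw [setLIntegral_const, Real.volume_Icc]
        congr 2
        ring
    _ ≤ _ := setLIntegral_mono' measurableSet_Icc inner

end

end

end Pool.Agent.Work.MP_af11aa_nt
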