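import Mathlib
import Pool.Agent.Work.MP_af11aa_nt.Strip

namespace Pool.Agent.Work.MP_af11aa_nt

open UpperHalfPlane CongruenceSubgroup MeasureTheory
open Complex hiding Gamma
open scoped MatrixGroups Manifold Topology ComplexConjugate ENNReal

noncomputable section

lemma normSq_lowerForm (g : SL(2, ℤ)) (w : ℍ) :
    ‖lowerForm g w‖ ^ 2 = (g 1 0 * w.re + g 1 1) ^ 2 + (g 1 0 * w.im) ^ 2 := by
  unfold lowerForm
  rw [← Complex.normSq_eq_norm_sq, Complex.normSq_apply]
  simp [pow_two]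

/-- two matrices with the same lower row which move `w` to points with real parts in `[0,1)` are
equal. -/
lemma eq_of_row {g g' : SL(2, ℤ)} {w : ℍ} (hc : g 1 0 = g' 1 0) (hd : g 1 1 = g' 1 1)
    (h1 : 0 ≤ (g • w).re) (h2 : (g • w).re < 1) (h3 : 0 ≤ (g' • w).re) (h4 : (g' • w).re < 1) :
    g = g' := by
  have hdet := g.det_coe
  have hdet' := g'.det_coe
  rw [Matrix.det_fin_two] at hdet hdet'
  set n : ℤ := (g' 0 1 - g 0 1) * g 0 0 - (g' 0 0 - g 0 0) * g 0 1 with hn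
  rw [← hc, ← hd] at hdet'
  have e0 : g' 0 0 - g 0 0 = n * g 1 0 := by
    rw [hn]
    linear_combination (g' 0 0 - g 0 0) * (-1 : ℤ) * hdet - (g 0 0) * (hdet - hdet')
  have e1 : g' 0 1 - g 0 1 = n * g 1 1 := by
    rw [hn]
    linear_combination (g' 0 1 - g 0 1) * (-1 : ℤ) * hdet - (g 0 1) * (hdet - hdet')
  have hl : lowerForm g' w = lowerForm g w := by unfold lowerForm; rw [hc, hd]
  have hz : ((g' • w : ℍ) : ℂ) = ((g • w : ℍ) : ℂ) + n := by
    rw [coe_sl_smul, coe_sl_smul, hl]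
    have h0 := lowerForm_ne_zero g w
    field_simp
    unfold lowerForm
    have e0' : ((g' 0 0 : ℤ) : ℂ) = ((g 0 0 : ℤ) : ℂ) + n * ((g 1 0 : ℤ) : ℂ) := by
      exact_mod_cast (by linarith : g' 0 0 = g 0 0 + n * g 1 0)
    have e1' : ((g' 0 1 : ℤ) : ℂ) = ((g 0 1 : ℤ) : ℂ) + n * ((g 1 1 : ℤ) : ℂ) := by
      exact_mod_cast (by linarith : g' 0 1 = g 0 1 + n * g 1 1)
    rw [e0', e1']; ring
  have hre : (g' • w).re = (g • w).re + n := by
    have := congrArg Complex.re hz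
    simpa using this
  have hn0 : n = 0 := by
    have a1 : (n : ℝ) < 1 := by linarith
    have a2 : (-1 : ℝ) < n := by linarith
    have a1' : n < 1 := by exact_mod_cast a1
    have a2' : -1 < n := by exact_mod_cast a2
    omega
  rw [hn0, zero_mul] at e0 e1
  ext i j
  fin_cases i <;> fin_cases j
  · change g 0 0 = g' 0 0; linarith
  · change g 0 1 = g' 0 1; linarith
  · exact hc
  · exact hd

lemma row_bound {Y : ℝ} (hY : 0 < Y) {w : ℍ} (hw : w ∈ strip Y) {g : SL(2, ℤ)}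
    (hg : g • w ∈ strip Y) :
    |(g 1 0 : ℝ)| ≤ Real.sqrt 2 * Y ∧ |(g 1 0 : ℝ) * w.re + g 1 1| < 3 / 2 := by
  obtain ⟨-, -, hw1, hw2⟩ := hw
  obtain ⟨-, -, hg1, -⟩ := hg
  have hv := w.im_pos
  have hL : 0 < ‖lowerForm g w‖ ^ 2 := by
    have := norm_pos_iff.2 (lowerForm_ne_zero g w); positivity
  rw [im_smul_eq, div_le_div_iff₀ hY hL] at hg1
  rw [le_div_iff₀ hY] at hw2
  rw [div_le_iff₀ hY] at hw1
  have hN : ‖lowerForm g w‖ ^ 2 ≤ 2 := by linarith
  rw [normSq_lowerForm] at hN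
  have h2 : Real.sqrt 2 ^ 2 = 2 := Real.sq_sqrt (by norm_num)
  constructor
  · have h3 : (|(g 1 0 : ℝ)| * w.im) ^ 2 ≤ Real.sqrt 2 ^ 2 := by
      rw [h2, mul_pow, sq_abs, ← mul_pow]
      nlinarith [sq_nonneg ((g 1 0 : ℝ) * w.re + g 1 1)]
    have h4 : |(g 1 0 : ℝ)| * w.im ≤ Real.sqrt 2 :=
      (pow_le_pow_iff_left₀ (by positivity) (Real.sqrt_nonneg _) (by norm_num)).1 h3
    calc |(g 1 0 : ℝ)| = |(g 1 0 : ℝ)| * 1 := (mul_one _).symm
      _ ≤ |(g 1 0 : ℝ)| * (w.im * Y) := by gcongr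
      _ = (|(g 1 0 : ℝ)| * w.im) * Y := by ring
      _ ≤ _ := by gcongr
  · apply abs_lt_of_sq_lt_sq _ (by norm_num)
    nlinarith [sq_nonneg ((g 1 0 : ℝ) * w.im)]

lemma count_strip {M : ℕ} [NeZero M] {Y : ℝ} (hY : 0 < Y) {w : ℍ} (hw : w ∈ strip Y)
    (s : Finset SL(2, ℤ)) (hs : ∀ g ∈ s, g ∈ Gamma0 M ∧ g • w ∈ strip Y) :
    (s.card : ℝ) ≤ 3 * (2 * (Real.sqrt 2 * Y / M) + 1) := by
  have hM : (0 : ℝ) < M := Nat.cast_pos.2 (NeZero.pos M)
  set B : ℕ := ⌊Real.sqrt 2 * Y / M⌋₊ with hB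
  have hBle : (B : ℝ) ≤ Real.sqrt 2 * Y / M := Nat.floor_le (by positivity)
  have hcard : s.card ≤ ((Finset.Icc (-(B : ℤ)) B) ×ˢ (Finset.Ico (0 : ℤ) 3)).card := by
    refine Finset.card_le_card_of_injOn
      (fun g ↦ (g 1 0 / (M : ℤ), g 1 1 - ⌈-((g 1 0 : ℝ) * w.re) - 3 / 2⌉)) ?_ ?_
    · intro g hg
      obtain ⟨hg0, hgs⟩ := hs g hg
      obtain ⟨h1, h2⟩ := row_bound hY hw hgs
      rw [Gamma0_mem, ZMod.intCast_zmod_eq_zero_iff_dvd] at hg0
      obtain ⟨t, ht⟩ := hg0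
      have hMi : (M : ℤ) ≠ 0 := by exact_mod_cast NeZero.ne M
      rw [Finset.mem_coe, Finset.mem_product]
      constructor
      · simp only
        rw [ht, Int.mul_ediv_cancel_left _ hMi, Finset.mem_Icc]
        rw [ht] at h1
        push_cast at h1
        rw [abs_mul, abs_of_pos hM] at h1
        have h3 : |(t : ℝ)| ≤ Real.sqrt 2 * Y / M := by
          rw [le_div_iff₀ hM]; linarith
        have h4 : t.natAbs ≤ B := by
          apply Nat.le_floor
          have e : ((t.natAbs : ℕ) : ℝ) = |(t : ℝ)| := by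
            rw [← Int.cast_natCast, Int.natCast_natAbs, Int.cast_abs]
          rw [e]; exact h3
        omega
      · simp only
        rw [Finset.mem_Ico]
        rw [abs_lt] at h2
        constructor
        · have : ⌈-((g 1 0 : ℝ) * w.re) - 3 / 2⌉ ≤ g 1 1 := by
            rw [Int.ceil_le]; linarith
          omega
        · have : g 1 1 - 3 < ⌈-((g 1 0 : ℝ) * w.re) - 3 / 2⌉ := by
            rw [Int.lt_ceil]; push_cast; linarith
          omega
    · intro g hg g' hg' he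
      simp only [Prod.mk.injEq] at he
      obtain ⟨he1, he2⟩ := he
      obtain ⟨hg0, hgs⟩ := hs g hg
      obtain ⟨hg0', hgs'⟩ := hs g' hg'
      rw [Gamma0_mem, ZMod.intCast_zmod_eq_zero_iff_dvd] at hg0 hg0'
      have hc : g 1 0 = g' 1 0 := by
        rw [← Int.mul_ediv_cancel' hg0, ← Int.mul_ediv_cancel' hg0', he1]
      rw [hc] at he2
      have hd : g 1 1 = g' 1 1 := by omega
      exact eq_of_row hc hd hgs.1 hgs.2.1 hgs'.1 hgs'.2.1
  have hcard2 : (s.card : ℝ) ≤ (2 * B + 1) * 3 := by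
    rw [Finset.card_product, Int.card_Icc, Int.card_Ico] at hcard
    have : s.card ≤ (2 * B + 1) * 3 := by
      refine hcard.trans (le_of_eq ?_)
      congr 1
      omega
    exact_mod_cast this
  nlinarith

lemma tsum_strip_le (M : ℕ) [NeZero M] {Y : ℝ} (hY : 0 < Y) (z : ℍ) :
    ∑' k : Gamma0 M, (strip Y).indicator (1 : ℍ → ℝ≥0∞) ((k : SL(2, ℤ))⁻¹ • z) ≤
      ENNReal.ofReal (3 * (2 * (Real.sqrt 2 * Y / M) + 1)) := by
  classical
  rw [ENNReal.tsum_eq_iSup_sum]
  refine iSup_le fun (t : Finset (Gamma0 M)) ↦ ?_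
  have h1 : ∑ k ∈ t, (strip Y).indicator (1 : ℍ → ℝ≥0∞) ((k : SL(2, ℤ))⁻¹ • z) =
      ((t.filter fun k : Gamma0 M ↦ (k : SL(2, ℤ))⁻¹ • z ∈ strip Y).card : ℝ≥0∞) := by
    rw [Finset.card_filter]
    push_cast
    refine Finset.sum_congr rfl fun k _ ↦ ?_
    rw [Set.indicator_apply]
    simp
  rw [h1]
  rcases (t.filter fun k : Gamma0 M ↦ (k : SL(2, ℤ))⁻¹ • z ∈ strip Y).eq_empty_or_nonempty with h | h
  · rw [h]; simp
  · obtain ⟨k0, hk0⟩ := h
    rw [Finset.mem_filter] at hk0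
    have h2 := count_strip (M := M) hY hk0.2
      ((t.filter fun k : Gamma0 M ↦ (k : SL(2, ℤ))⁻¹ • z ∈ strip Y).image
        fun k : Gamma0 M ↦ (k : SL(2, ℤ))⁻¹ * (k0 : SL(2, ℤ))) ?_
    · rw [Finset.card_image_of_injective] at h2
      · rw [← ENNReal.ofReal_natCast]
        exact ENNReal.ofReal_le_ofReal h2
      · intro a b hab
        simp only [mul_left_inj, inv_inj] at hab
        exact Subtype.ext hab
    · intro g hg
      rw [Finset.mem_image] at hg
      obtain ⟨k, hk, rfl⟩ := hg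
      rw [Finset.mem_filter] at hk
      refine ⟨mul_mem (inv_mem k.2) k0.2, ?_⟩
      rw [mul_smul, smul_inv_smul]
      exact hk.2

/-- the hyperbolic area of the standard fundamental domain is at most `2`. -/
lemma volume_fd_le : volume (ModularGroup.fd : Set ℍ) ≤ 2 := by
  have h𝒟 : MeasurableSet (ModularGroup.fd : Set ℍ) := ModularGroup.isClosed_fd.measurableSet
  rw [← lintegral_indicator_one h𝒟, lintegral_coord (measurable_one.indicator h𝒟)]
  have hb : ∀ p ∈ (Set.univ ×ˢ Set.Ioi 0 : Set (ℝ × ℝ)),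
      (ModularGroup.fd : Set ℍ).indicator (1 : ℍ → ℝ≥0∞) (ofComplex (p.1 + p.2 * Complex.I)) *
        ENNReal.ofReal (1 / p.2 ^ 2) ≤
      (Set.Icc (-(1 / 2 : ℝ)) (1 / 2)).indicator 1 p.1 *
        (Set.Ioi (1 / 2 : ℝ)).indicator (fun y ↦ ENNReal.ofReal (1 / y ^ 2)) p.2 := by
    rintro ⟨x, y⟩ ⟨-, hy⟩
    have hy0 : 0 < y := hy
    simp only
    have e : (ofComplex (x + y * Complex.I)) = pt x y := rfl
    rw [e]
    by_cases hm : pt x y ∈ (ModularGroup.fd : Set ℍ)
    · have h1 : x ∈ Set.Icc (-(1 / 2 : ℝ)) (1 / 2) := by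
        have := hm.2
        rw [re_pt hy0, abs_le] at this
        exact this
      have h2 : y ∈ Set.Ioi (1 / 2 : ℝ) := by
        have := ModularGroup.three_le_four_mul_im_sq_of_mem_fd hm
        rw [im_pt hy0] at this
        rw [Set.mem_Ioi]
        nlinarith
      rw [Set.indicator_of_mem hm, Set.indicator_of_mem h1, Set.indicator_of_mem h2]
      exact le_rfl
    · rw [Set.indicator_of_notMem hm, zero_mul]; exact zero_le
  calc _ ≤ ∫⁻ p : ℝ × ℝ in Set.univ ×ˢ Set.Ioi 0,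
        (Set.Icc (-(1 / 2 : ℝ)) (1 / 2)).indicator 1 p.1 *
        (Set.Ioi (1 / 2 : ℝ)).indicator (fun y ↦ ENNReal.ofReal (1 / y ^ 2)) p.2 :=
        setLIntegral_mono' (MeasurableSet.univ.prod measurableSet_Ioi) hb
    _ ≤ ∫⁻ p : ℝ × ℝ,
        (Set.Icc (-(1 / 2 : ℝ)) (1 / 2)).indicator 1 p.1 *
        (Set.Ioi (1 / 2 : ℝ)).indicator (fun y ↦ ENNReal.ofReal (1 / y ^ 2)) p.2 :=
        setLIntegral_le_lintegral _ _
    _ = 2 := by
        rw [Measure.volume_eq_prod, lintegral_prod_mul]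
        · rw [lintegral_indicator_one measurableSet_Icc, lintegral_indicator measurableSet_Ioi,
            Real.volume_Icc]
          have : ∫⁻ y in Set.Ioi (1 / 2 : ℝ), ENNReal.ofReal (1 / y ^ 2) = ENNReal.ofReal 2 := by
            have hint : IntegrableOn (fun y : ℝ ↦ y ^ (-2 : ℝ)) (Set.Ioi (1 / 2)) :=
              integrableOn_Ioi_rpow_of_lt (by norm_num) (by norm_num)
            have e : ∫ y in Set.Ioi (1 / 2 : ℝ), y ^ (-2 : ℝ) = 2 := by
              rw [integral_Ioi_rpow_of_lt (by norm_num) (by norm_num)]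
              norm_num
            have e' : ENNReal.ofReal 2 = ENNReal.ofReal (∫ y in Set.Ioi (1 / 2 : ℝ), y ^ (-2 : ℝ)) := by
              rw [e]
            rw [e', ofReal_integral_eq_lintegral_ofReal hint]
            · refine setLIntegral_congr_fun measurableSet_Ioi fun y hy ↦ ?_
              have hy0 : 0 < y := lt_trans (by norm_num) hy
              congr 1
              rw [Real.rpow_neg hy0.le]
              norm_num
            · refine (ae_restrict_iff' measurableSet_Ioi).2 (Filter.Eventually.of_forall fun y hy ↦ ?_)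
              have hy0 : 0 < y := lt_trans (by norm_num) hy
              exact (Real.rpow_pos_of_pos hy0 _).le
          rw [this]
          norm_num
        · exact (measurable_one.indicator measurableSet_Icc).aemeasurable
        · refine (Measurable.indicator ?_ measurableSet_Ioi).aemeasurable
          fun_prop

end

end Pool.Agent.Work.MP_af11aa_nt
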