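import Mathlib

namespace Pool.Agent.Work.MP_af11aa_nt

open UpperHalfPlane MeasureTheory
open scoped MatrixGroups Topology ENNReal Modular

noncomputable section

instance countable_SL : Countable SL(2, ℤ) := by
  have : Function.Injective (fun (γ : SL(2, ℤ)) ↦ (fun i j ↦ γ i j : Fin 2 → Fin 2 → ℤ)) := by
    intro a b h
    ext i j
    exact congrFun (congrFun h i) j
  exact this.countable

lemma mp_smul (γ : SL(2, ℤ)) :
    MeasurePreserving (fun z : ℍ ↦ γ • z) volume volume :=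
  measurePreserving_smul (γ : GL (Fin 2) ℝ) (volume : Measure ℍ)

lemma measurableEmb_smul (γ : SL(2, ℤ)) : MeasurableEmbedding (fun z : ℍ ↦ γ • z) :=
  measurableEmbedding_const_smul (γ : GL (Fin 2) ℝ)

lemma lintegral_smul_eq' (γ : SL(2, ℤ)) (F : ℍ → ℝ≥0∞) :
    ∫⁻ z, F (γ • z) = ∫⁻ z, F z :=
  (mp_smul γ).lintegral_comp_emb (measurableEmb_smul γ) F

lemma measurable_smul_comp {F : ℍ → ℝ≥0∞} (hF : Measurable F) (γ : SL(2, ℤ)) :
    Measurable (fun z ↦ F (γ • z)) := hF.comp (measurableEmb_smul γ).measurable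

/-- the product decomposition `(κ, k) ↦ out κ * k`. -/
def cosetEquiv (K : Subgroup SL(2, ℤ)) : (SL(2, ℤ) ⧸ K) × K ≃ SL(2, ℤ) where
  toFun p := Quotient.out p.1 * (p.2 : SL(2, ℤ))
  invFun g := ⟨QuotientGroup.mk g, ⟨(Quotient.out (QuotientGroup.mk g : SL(2, ℤ) ⧸ K))⁻¹ * g, by
    rw [← QuotientGroup.eq]
    exact QuotientGroup.out_eq' _⟩⟩
  left_inv p := by
    obtain ⟨κ, k⟩ := p
    have h : (QuotientGroup.mk (Quotient.out κ * (k : SL(2, ℤ))) : SL(2, ℤ) ⧸ K) = κ := by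
      rw [QuotientGroup.mk_mul_of_mem _ k.2]
      exact QuotientGroup.out_eq' _
    ext1
    · exact h
    · ext1
      simp only [h]
      group
  right_inv g := by simp

/-- Unfolding inequality for a function invariant under the subgroup `K`. -/
theorem unfold_le (K : Subgroup SL(2, ℤ)) [K.FiniteIndex] [Fintype (SL(2, ℤ) ⧸ K)]
    {G : ℍ → ℝ≥0∞} (hG : Measurable G)
    (hGK : ∀ k ∈ K, ∀ z, G (k • z) = G z) {S : Set ℍ} (hS : MeasurableSet S) :
    ∫⁻ z in S, G z ≤ ∫⁻ z in 𝒟, ∑ κ : SL(2, ℤ) ⧸ K, G ((Quotient.out κ)⁻¹ • z) *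
      ∑' k : K, S.indicator 1 ((k : SL(2, ℤ))⁻¹ • (Quotient.out κ)⁻¹ • z) := by
  have h𝒟 : MeasurableSet (𝒟 : Set ℍ) := ModularGroup.isClosed_fd.measurableSet
  have hSG : Measurable (S.indicator G) := hG.indicator hS
  have h𝒟1 : Measurable ((𝒟 : Set ℍ).indicator (1 : ℍ → ℝ≥0∞)) := measurable_one.indicator h𝒟
  calc ∫⁻ z in S, G z = ∫⁻ z, S.indicator G z := (lintegral_indicator hS G).symm
    _ ≤ ∫⁻ z, ∑' γ : SL(2, ℤ), S.indicator G z * (𝒟 : Set ℍ).indicator 1 (γ • z) := by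
        refine lintegral_mono fun z ↦ ?_
        rw [ENNReal.tsum_mul_left]
        obtain ⟨γ, hγ⟩ := ModularGroup.exists_smul_mem_fd z
        have h1 : (1 : ℝ≥0∞) ≤ ∑' γ : SL(2, ℤ), (𝒟 : Set ℍ).indicator 1 (γ • z) := by
          refine le_trans ?_ (ENNReal.le_tsum γ)
          rw [Set.indicator_of_mem hγ]
          exact le_rfl
        calc S.indicator G z = S.indicator G z * 1 := (mul_one _).symm
          _ ≤ _ := by gcongr
    _ = ∑' γ : SL(2, ℤ), ∫⁻ z, S.indicator G z * (𝒟 : Set ℍ).indicator 1 (γ • z) := by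
        rw [lintegral_tsum]
        intro γ
        exact (hSG.mul (measurable_smul_comp h𝒟1 γ)).aemeasurable
    _ = ∑' γ : SL(2, ℤ), ∫⁻ z, S.indicator G (γ⁻¹ • z) * (𝒟 : Set ℍ).indicator 1 z := by
        congr 1
        funext γ
        rw [← lintegral_smul_eq' γ⁻¹]
        simp only [smul_inv_smul]
    _ = ∫⁻ z, ∑' γ : SL(2, ℤ), S.indicator G (γ⁻¹ • z) * (𝒟 : Set ℍ).indicator 1 z := by
        rw [lintegral_tsum]
        intro γ
        exact ((measurable_smul_comp hSG γ⁻¹).mul h𝒟1).aemeasurable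
    _ = ∫⁻ z in 𝒟, ∑' γ : SL(2, ℤ), S.indicator G (γ⁻¹ • z) := by
        rw [← lintegral_indicator h𝒟]
        congr 1
        funext z
        rw [ENNReal.tsum_mul_right]
        by_cases hz : z ∈ (𝒟 : Set ℍ)
        · rw [Set.indicator_of_mem hz, Set.indicator_of_mem hz]; simp
        · rw [Set.indicator_of_notMem hz, Set.indicator_of_notMem hz]; simp
    _ = _ := by
        congr 1
        funext z
        rw [← (cosetEquiv K).tsum_eq (fun γ ↦ S.indicator G (γ⁻¹ • z)), ENNReal.tsum_prod', tsum_fintype]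
        refine Finset.sum_congr rfl fun κ _ ↦ ?_
        rw [← ENNReal.tsum_mul_left]
        congr 1
        funext k
        have e : ((cosetEquiv K) (κ, k))⁻¹ • z = (k : SL(2, ℤ))⁻¹ • (Quotient.out κ)⁻¹ • z := by
          change (Quotient.out κ * (k : SL(2, ℤ)))⁻¹ • z = _
          rw [mul_inv_rev, mul_smul]
        rw [e]
        by_cases hz : (k : SL(2, ℤ))⁻¹ • (Quotient.out κ)⁻¹ • z ∈ S
        · rw [Set.indicator_of_mem hz, Set.indicator_of_mem hz, hGK _ (inv_mem k.2)]; simp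
        · rw [Set.indicator_of_notMem hz, Set.indicator_of_notMem hz]; simp

end

end Pool.Agent.Work.MP_af11aa_nt
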