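import Mathlib
import Pool.Agent.Work.MP_af11aa_nt.Unfold

namespace Pool.Agent.Work.MP_af11aa_nt

open UpperHalfPlane MeasureTheory
open scoped MatrixGroups Topology ENNReal Modular

noncomputable section

/-- number of elements of the modular group moving `z` into the standard domain. -/
def multi (z : ℍ) : ℝ≥0∞ := ∑' γ : SL(2, ℤ), (𝒟 : Set ℍ).indicator 1 (γ • z)

lemma multi_smul (g : SL(2, ℤ)) (z : ℍ) : multi (g • z) = multi z := by
  unfold multi
  rw [← (Equiv.mulRight g).tsum_eq (fun γ : SL(2, ℤ) ↦ (𝒟 : Set ℍ).indicator (1 : ℍ → ℝ≥0∞) (γ • z))]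
  refine tsum_congr fun γ ↦ ?_
  rw [Equiv.coe_mulRight, mul_smul]

lemma one_le_multi (z : ℍ) : 1 ≤ multi z := by
  obtain ⟨γ, hγ⟩ := ModularGroup.exists_smul_mem_fd z
  refine le_trans ?_ (ENNReal.le_tsum γ)
  rw [Set.indicator_of_mem hγ]
  exact le_rfl

lemma multi_ne_top (z : ℍ) : multi z ≠ ⊤ := by
  obtain ⟨γ, hγ⟩ := ModularGroup.exists_smul_mem_fd z
  rw [← multi_smul γ z]
  set w := γ • z with hw
  have hfin : {g : SL(2, ℤ) | g • w ∈ (𝒟 : Set ℍ)}.Finite := by
    refine Set.Finite.subset (s := {1, -1, ModularGroup.T, -ModularGroup.T, ModularGroup.T⁻¹,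
      -ModularGroup.T⁻¹, ModularGroup.S, -ModularGroup.S, ModularGroup.T * ModularGroup.S,
      -(ModularGroup.T * ModularGroup.S), ModularGroup.T⁻¹ * ModularGroup.S * ModularGroup.T⁻¹,
      -(ModularGroup.T⁻¹ * ModularGroup.S * ModularGroup.T⁻¹), ModularGroup.S * ModularGroup.T⁻¹,
      -(ModularGroup.S * ModularGroup.T⁻¹), ModularGroup.S * ModularGroup.T,
      -(ModularGroup.S * ModularGroup.T), ModularGroup.T * ModularGroup.S * ModularGroup.T,
      -(ModularGroup.T * ModularGroup.S * ModularGroup.T), ModularGroup.T⁻¹ * ModularGroup.S,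
      -(ModularGroup.T⁻¹ * ModularGroup.S)}) (Set.toFinite _) ?_
    intro g hg
    have h := ModularGroup.cases_of_mem_fd_smul_mem_fd hγ hg
    simp only [Set.mem_insert_iff, Set.mem_singleton_iff]
    rcases h with (rfl | rfl) | ⟨rfl | rfl, -⟩ | ⟨rfl | rfl, -⟩ | ⟨rfl | rfl, -⟩ | ⟨rfl | rfl, -⟩ |
      ⟨rfl | rfl, -⟩ | ⟨rfl | rfl, -⟩ | ⟨rfl | rfl, -⟩ | ⟨rfl | rfl, -⟩ | ⟨rfl | rfl, -⟩ <;>
    simp only [true_or, or_true]
  unfold multi
  have e : ∀ g : SL(2, ℤ), (𝒟 : Set ℍ).indicator (1 : ℍ → ℝ≥0∞) (g • w) =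
      {g : SL(2, ℤ) | g • w ∈ (𝒟 : Set ℍ)}.indicator (fun _ ↦ (1 : ℝ≥0∞)) g := by
    intro g
    classical
    rw [Set.indicator_apply, Set.indicator_apply]
    rfl
  simp_rw [e]
  rw [← tsum_subtype, ENNReal.tsum_set_one]
  simpa using hfin

/-- a nonnegative weight whose translates under the modular group add up to `1`. -/
def wt (z : ℍ) : ℝ≥0∞ := (𝒟 : Set ℍ).indicator 1 z / multi z

lemma tsum_wt (z : ℍ) : ∑' γ : SL(2, ℤ), wt (γ • z) = 1 := by
  unfold wt
  simp_rw [multi_smul, div_eq_mul_inv]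
  rw [ENNReal.tsum_mul_right]
  exact ENNReal.mul_inv_cancel (zero_lt_one.trans_le (one_le_multi z)).ne' (multi_ne_top z)

lemma measurable_fd_ind : Measurable ((𝒟 : Set ℍ).indicator (1 : ℍ → ℝ≥0∞)) :=
  measurable_one.indicator ModularGroup.isClosed_fd.measurableSet

lemma measurable_multi : Measurable multi := by
  unfold multi
  exact Measurable.tsum fun γ ↦ measurable_smul_comp measurable_fd_ind γ

lemma measurable_wt : Measurable wt := measurable_fd_ind.div measurable_multi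

lemma wt_le (z : ℍ) : wt z ≤ (𝒟 : Set ℍ).indicator 1 z := by
  unfold wt
  exact ENNReal.div_le_of_le_mul (le_mul_of_one_le_right' (one_le_multi z))

lemma wt_eq_zero {z : ℍ} (hz : z ∉ (𝒟 : Set ℍ)) : wt z = 0 := by
  unfold wt
  rw [Set.indicator_of_notMem hz, ENNReal.zero_div]

/-- exact unfolding. -/
theorem unfold_eq (K : Subgroup SL(2, ℤ)) [K.FiniteIndex] [Fintype (SL(2, ℤ) ⧸ K)]
    {G : ℍ → ℝ≥0∞} (hG : Measurable G)
    (hGK : ∀ k ∈ K, ∀ z, G (k • z) = G z) {S : Set ℍ} (hS : MeasurableSet S) :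
    ∫⁻ z in S, G z = ∫⁻ z, wt z * ∑ κ : SL(2, ℤ) ⧸ K, G ((Quotient.out κ)⁻¹ • z) *
      ∑' k : K, S.indicator 1 ((k : SL(2, ℤ))⁻¹ • (Quotient.out κ)⁻¹ • z) := by
  have hSG : Measurable (S.indicator G) := hG.indicator hS
  calc ∫⁻ z in S, G z = ∫⁻ z, S.indicator G z := (lintegral_indicator hS G).symm
    _ = ∫⁻ z, ∑' γ : SL(2, ℤ), S.indicator G z * wt (γ • z) := by
        refine lintegral_congr fun z ↦ ?_
        rw [ENNReal.tsum_mul_left, tsum_wt, mul_one]
    _ = ∑' γ : SL(2, ℤ), ∫⁻ z, S.indicator G z * wt (γ • z) := by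
        rw [lintegral_tsum]
        intro γ
        exact (hSG.mul (measurable_smul_comp measurable_wt γ)).aemeasurable
    _ = ∑' γ : SL(2, ℤ), ∫⁻ z, S.indicator G (γ⁻¹ • z) * wt z := by
        congr 1
        funext γ
        rw [← lintegral_smul_eq' γ⁻¹]
        simp only [smul_inv_smul]
    _ = ∫⁻ z, ∑' γ : SL(2, ℤ), S.indicator G (γ⁻¹ • z) * wt z := by
        rw [lintegral_tsum]
        intro γ
        exact ((measurable_smul_comp hSG γ⁻¹).mul measurable_wt).aemeasurable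
    _ = _ := by
        refine lintegral_congr fun z ↦ ?_
        rw [ENNReal.tsum_mul_right, mul_comm]
        congr 1
        rw [← (cosetEquiv K).tsum_eq (fun γ ↦ S.indicator G (γ⁻¹ • z)), ENNReal.tsum_prod',
          tsum_fintype]
        refine Finset.sum_congr rfl fun κ _ ↦ ?_
        rw [← ENNReal.tsum_mul_left]
        congr 1
        funext k
        have e : ((cosetEquiv K) (κ, k))⁻¹ • z = (k : SL(2, ℤ))⁻¹ • (Quotient.out κ)⁻¹ • z := by
          change (Quotient.out κ * (k : SL(2, ℤ)))⁻¹ • z = _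
          rw [mul_inv_rev, mul_smul]
        rw [e]
        by_cases hz : (k : SL(2, ℤ))⁻¹ • (Quotient.out κ)⁻¹ • z ∈ S
        · rw [Set.indicator_of_mem hz, Set.indicator_of_mem hz, hGK _ (inv_mem k.2)]; simp
        · rw [Set.indicator_of_notMem hz, Set.indicator_of_notMem hz]; simp

end

end Pool.Agent.Work.MP_af11aa_nt
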