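import Mathlib
import Pool.Agent.Work.MP_af11aa_nt.Weight
import Pool.Agent.Work.MP_af11aa_nt.Count

namespace Pool.Agent.Work.MP_af11aa_nt

open UpperHalfPlane CongruenceSubgroup MeasureTheory
open scoped MatrixGroups Topology ENNReal Modular

noncomputable section

/-- product decomposition in a general group. -/
def cosetEquivG {G : Type*} [Group G] (K : Subgroup G) : (G ⧸ K) × K ≃ G where
  toFun p := Quotient.out p.1 * (p.2 : G)
  invFun g := ⟨QuotientGroup.mk g, ⟨(Quotient.out (QuotientGroup.mk g : G ⧸ K))⁻¹ * g, by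
    rw [← QuotientGroup.eq]
    exact QuotientGroup.out_eq' _⟩⟩
  left_inv p := by
    obtain ⟨κ, k⟩ := p
    have h : (QuotientGroup.mk (Quotient.out κ * (k : G)) : G ⧸ K) = κ := by
      rw [QuotientGroup.mk_mul_of_mem _ k.2]
      exact QuotientGroup.out_eq' _
    ext1
    · exact h
    · ext1
      simp only [h]
      group
  right_inv g := by simp

/-- weight for a finite index subgroup. -/
def wtSub (K : Subgroup SL(2, ℤ)) [Fintype (SL(2, ℤ) ⧸ K)] (z : ℍ) : ℝ≥0∞ :=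
  ∑ κ : SL(2, ℤ) ⧸ K, wt (Quotient.out κ • z)

lemma measurable_wtSub (K : Subgroup SL(2, ℤ)) [Fintype (SL(2, ℤ) ⧸ K)] :
    Measurable (wtSub K) := by
  unfold wtSub
  exact Finset.measurable_sum _ fun κ _ ↦ measurable_smul_comp measurable_wt _

lemma tsum_wtSub (K : Subgroup SL(2, ℤ)) [Fintype (SL(2, ℤ) ⧸ K)] (z : ℍ) :
    ∑' k : K, wtSub K ((k : SL(2, ℤ)) • z) = 1 := by
  unfold wtSub
  simp_rw [← tsum_fintype (L := SummationFilter.unconditional _)]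
  rw [ENNReal.tsum_comm, ← tsum_wt z, ← (cosetEquiv K).tsum_eq (fun γ ↦ wt (γ • z)),
    ENNReal.tsum_prod']
  refine tsum_congr fun κ ↦ tsum_congr fun k ↦ ?_
  change wt (Quotient.out κ • (k : SL(2, ℤ)) • z) = wt ((Quotient.out κ * (k : SL(2, ℤ))) • z)
  rw [mul_smul]

lemma lintegral_wtSub (K : Subgroup SL(2, ℤ)) [Fintype (SL(2, ℤ) ⧸ K)] {F : ℍ → ℝ≥0∞}
    (hF : Measurable F) :
    ∫⁻ z, wtSub K z * F z = ∫⁻ z, wt z * ∑ κ : SL(2, ℤ) ⧸ K, F ((Quotient.out κ)⁻¹ • z) := by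
  unfold wtSub
  simp_rw [Finset.sum_mul, Finset.mul_sum]
  rw [lintegral_finsetSum, lintegral_finsetSum]
  · refine Finset.sum_congr rfl fun κ _ ↦ ?_
    rw [← lintegral_smul_eq' (Quotient.out κ)⁻¹]
    simp only [smul_inv_smul]
  · intro κ _
    exact measurable_wt.mul (measurable_smul_comp hF _)
  · intro κ _
    exact (measurable_smul_comp measurable_wt _).mul hF

/-- comparison of weights for a group and a subgroup. -/
lemma weight_compare {L K : Subgroup SL(2, ℤ)} (hKL : K ≤ L) {Ψ ω F : ℍ → ℝ≥0∞}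
    (hΨm : Measurable Ψ) (hωm : Measurable ω) (hFm : Measurable F)
    (hΨ : ∀ z, ∑' k : K, Ψ ((k : SL(2, ℤ)) • z) = 1)
    (hω : ∀ z, ∑' l : L, ω ((l : SL(2, ℤ)) • z) = 1)
    (hF : ∀ l ∈ L, ∀ z, F (l • z) = F z) :
    ∫⁻ z, Ψ z * F z = (∑' _ : L ⧸ K.subgroupOf L, (1 : ℝ≥0∞)) * ∫⁻ z, ω z * F z := by
  have hsum : ∀ z, ∑' l : L, Ψ ((l : SL(2, ℤ))⁻¹ • z) = ∑' _ : L ⧸ K.subgroupOf L, (1 : ℝ≥0∞) := by
    intro z
    rw [← (cosetEquivG (K.subgroupOf L)).tsum_eq (fun l : L ↦ Ψ ((l : SL(2, ℤ))⁻¹ • z)),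
      ENNReal.tsum_prod']
    refine tsum_congr fun x ↦ ?_
    rw [← hΨ (((Quotient.out x : L) : SL(2, ℤ))⁻¹ • z)]
    let e : (K.subgroupOf L) ≃ K :=
      ((Subgroup.subgroupOfEquivOfLe hKL).toEquiv).trans (Equiv.inv K)
    rw [← e.tsum_eq (fun k : K ↦ Ψ ((k : SL(2, ℤ)) • ((Quotient.out x : L) : SL(2, ℤ))⁻¹ • z))]
    refine tsum_congr fun k ↦ ?_
    change Ψ ((((Quotient.out x * (k : L) : L)) : SL(2, ℤ))⁻¹ • z) =
      Ψ ((((k : L) : SL(2, ℤ)))⁻¹ • ((Quotient.out x : L) : SL(2, ℤ))⁻¹ • z)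
    rw [← mul_smul, ← mul_inv_rev]
    rfl
  calc ∫⁻ z, Ψ z * F z = ∫⁻ z, ∑' l : L, Ψ z * F z * ω ((l : SL(2, ℤ)) • z) := by
        refine lintegral_congr fun z ↦ ?_
        rw [ENNReal.tsum_mul_left, hω, mul_one]
    _ = ∑' l : L, ∫⁻ z, Ψ z * F z * ω ((l : SL(2, ℤ)) • z) := by
        rw [lintegral_tsum]
        intro l
        exact ((hΨm.mul hFm).mul (measurable_smul_comp hωm _)).aemeasurable
    _ = ∑' l : L, ∫⁻ z, Ψ ((l : SL(2, ℤ))⁻¹ • z) * (ω z * F z) := by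
        congr 1
        funext l
        rw [← lintegral_smul_eq' (l : SL(2, ℤ))⁻¹]
        refine lintegral_congr fun z ↦ ?_
        rw [smul_inv_smul, hF _ (inv_mem l.2)]
        ring
    _ = ∫⁻ z, ∑' l : L, Ψ ((l : SL(2, ℤ))⁻¹ • z) * (ω z * F z) := by
        rw [lintegral_tsum]
        intro l
        exact ((measurable_smul_comp hΨm _).mul (hωm.mul hFm)).aemeasurable
    _ = ∫⁻ z, (∑' _ : L ⧸ K.subgroupOf L, (1 : ℝ≥0∞)) * (ω z * F z) := by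
        refine lintegral_congr fun z ↦ ?_
        rw [ENNReal.tsum_mul_right, hsum]
    _ = _ := lintegral_const_mul _ (hωm.mul hFm)

/-- multiplication by `d` on the upper half plane. -/
def scaleUp (d : ℕ) [NeZero d] (z : ℍ) : ℍ :=
  ⟨(d : ℂ) * z, by
    have hd : (0 : ℝ) < d := Nat.cast_pos.2 (NeZero.pos d)
    have h := z.im_pos
    have : ((d : ℂ) * z).im = d * z.im := by simp
    rw [this]; positivity⟩

lemma shiftDiv_scaleUp (d : ℕ) [NeZero d] (z : ℍ) : shiftDiv d 0 (scaleUp d z) = z := by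
  have hd : (d : ℂ) ≠ 0 := by exact_mod_cast NeZero.ne d
  ext1
  rw [coe_shiftDiv]
  change (((d : ℂ) * z) + ((0 : ℤ) : ℂ)) / d = z
  field_simp
  simp

lemma scaleUp_shiftDiv (d : ℕ) [NeZero d] (z : ℍ) : scaleUp d (shiftDiv d 0 z) = z := by
  have hd : (d : ℂ) ≠ 0 := by exact_mod_cast NeZero.ne d
  ext1
  change (d : ℂ) * (((z : ℂ) + ((0 : ℤ) : ℂ)) / d) = z
  field_simp
  simp

lemma continuous_scaleUp (d : ℕ) [NeZero d] : Continuous (scaleUp d) := by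
  rw [UpperHalfPlane.isEmbedding_coe.continuous_iff]
  have : (UpperHalfPlane.coe ∘ scaleUp d) = fun z : ℍ ↦ ((d : ℂ) * z : ℂ) := by
    funext z; rfl
  rw [this]
  have := UpperHalfPlane.continuous_coe
  fun_prop

/-- the matrix with diagonal `(1, d)`. -/
def dMat (d : ℕ) [NeZero d] : GL (Fin 2) ℝ :=
  Matrix.GeneralLinearGroup.mkOfDetNeZero !![1, 0; 0, (d : ℝ)] (by
    rw [Matrix.det_fin_two_of]
    have : (d : ℝ) ≠ 0 := by exact_mod_cast NeZero.ne d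
    simpa using this)

lemma dMat_smul (d : ℕ) [NeZero d] (z : ℍ) : dMat d • z = shiftDiv d 0 z := by
  have hd : (0 : ℝ) < d := Nat.cast_pos.2 (NeZero.pos d)
  ext1
  rw [UpperHalfPlane.coe_smul_of_det_pos]
  · rw [coe_shiftDiv]
    simp [num, denom, dMat, Matrix.GeneralLinearGroup.mkOfDetNeZero]
  · simp [dMat, Matrix.GeneralLinearGroup.mkOfDetNeZero, Matrix.det_fin_two_of, hd]

lemma lintegral_shiftDiv (d : ℕ) [NeZero d] (F : ℍ → ℝ≥0∞) :
    ∫⁻ z, F (shiftDiv d 0 z) = ∫⁻ z, F z := by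
  have h := (measurePreserving_smul (dMat d) (volume : Measure ℍ)).lintegral_comp_emb
    (measurableEmbedding_const_smul (dMat d)) F
  rw [← h]
  refine lintegral_congr fun z ↦ ?_
  rw [dMat_smul]

/-- the relation `δ γ' = γ δ` with `δ = diag(1,d)`. -/
def HeckeRel (d : ℕ) (γ' γ : SL(2, ℤ)) : Prop :=
  γ' 0 0 = γ 0 0 ∧ γ' 0 1 = d * γ 0 1 ∧ (d : ℤ) * γ' 1 0 = γ 1 0 ∧ γ' 1 1 = γ 1 1

lemma HeckeRel.mul {d : ℕ} [NeZero d] {a' a b' b : SL(2, ℤ)} (h1 : HeckeRel d a' a)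
    (h2 : HeckeRel d b' b) : HeckeRel d (a' * b') (a * b) := by
  obtain ⟨h11, h12, h13, h14⟩ := h1
  obtain ⟨h21, h22, h23, h24⟩ := h2
  have e : ∀ (x y : SL(2, ℤ)) (i j : Fin 2), (x * y) i j = x i 0 * y 0 j + x i 1 * y 1 j := by
    intro x y i j
    rw [Matrix.SpecialLinearGroup.coe_mul, Matrix.mul_apply, Fin.sum_univ_two]
  refine ⟨?_, ?_, ?_, ?_⟩
  · rw [e, e, h11, h21, h12, ← h23]; ring
  · rw [e, e, h11, h22, h12, h24]; ring
  · rw [e, e, ← h13, h21, h14, ← h23]; ring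
  · rw [e, e, h22, h14, h24, ← h13]; ring

lemma HeckeRel.inv {d : ℕ} {a' a : SL(2, ℤ)} (h1 : HeckeRel d a' a) :
    HeckeRel d a'⁻¹ a⁻¹ := by
  obtain ⟨h11, h12, h13, h14⟩ := h1
  have e00 : ∀ x : SL(2, ℤ), x⁻¹ 0 0 = x 1 1 := by intro x; simp [Matrix.SpecialLinearGroup.SL2_inv_expl]
  have e01 : ∀ x : SL(2, ℤ), x⁻¹ 0 1 = -x 0 1 := by intro x; simp [Matrix.SpecialLinearGroup.SL2_inv_expl]
  have e10 : ∀ x : SL(2, ℤ), x⁻¹ 1 0 = -x 1 0 := by intro x; simp [Matrix.SpecialLinearGroup.SL2_inv_expl]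
  have e11 : ∀ x : SL(2, ℤ), x⁻¹ 1 1 = x 0 0 := by intro x; simp [Matrix.SpecialLinearGroup.SL2_inv_expl]
  refine ⟨?_, ?_, ?_, ?_⟩
  · rw [e00, e00, h14]
  · rw [e01, e01, h12]; ring
  · rw [e10, e10, ← h13]; ring
  · rw [e11, e11, h11]

lemma HeckeRel.move {d : ℕ} [NeZero d] {a' a : SL(2, ℤ)} (h : HeckeRel d a' a) (z : ℍ) :
    shiftDiv d 0 (a' • z) = a • shiftDiv d 0 z := by
  obtain ⟨h1, h2, h3, h4⟩ := h
  have hd : (d : ℂ) ≠ 0 := by exact_mod_cast NeZero.ne d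
  have hl : lowerForm a (shiftDiv d 0 z) = lowerForm a' z := by
    unfold lowerForm
    rw [← h3, ← h4, coe_shiftDiv]
    push_cast
    field_simp
    ring
  ext1
  rw [coe_shiftDiv, coe_sl_smul, coe_sl_smul, hl, coe_shiftDiv, h1, h2]
  have hL := lowerForm_ne_zero a' z
  push_cast
  field_simp
  ring

lemma HeckeRel.left_unique {d : ℕ} [NeZero d] {a' b' a : SL(2, ℤ)} (h1 : HeckeRel d a' a)
    (h2 : HeckeRel d b' a) : a' = b' := by
  obtain ⟨h11, h12, h13, h14⟩ := h1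
  obtain ⟨h21, h22, h23, h24⟩ := h2
  have hd : (d : ℤ) ≠ 0 := by exact_mod_cast NeZero.ne d
  ext i j
  fin_cases i <;> fin_cases j
  · change a' 0 0 = b' 0 0; rw [h11, h21]
  · change a' 0 1 = b' 0 1; rw [h12, h22]
  · change a' 1 0 = b' 1 0
    exact mul_left_cancel₀ hd (h13.trans h23.symm)
  · change a' 1 1 = b' 1 1; rw [h14, h24]

lemma HeckeRel.right_unique {d : ℕ} [NeZero d] {a' a b : SL(2, ℤ)} (h1 : HeckeRel d a' a)
    (h2 : HeckeRel d a' b) : a = b := by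
  obtain ⟨h11, h12, h13, h14⟩ := h1
  obtain ⟨h21, h22, h23, h24⟩ := h2
  have hd : (d : ℤ) ≠ 0 := by exact_mod_cast NeZero.ne d
  ext i j
  fin_cases i <;> fin_cases j
  · change a 0 0 = b 0 0; rw [← h11, h21]
  · change a 0 1 = b 0 1
    exact mul_left_cancel₀ hd (h12.symm.trans h22)
  · change a 1 0 = b 1 0; rw [← h13, h23]
  · change a 1 1 = b 1 1; rw [← h14, h24]

/-- the conjugate of `Γ(Nd)` by `diag(1,d)`. -/
def conjSub (N d : ℕ) [NeZero d] : Subgroup SL(2, ℤ) where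
  carrier := {γ | ∃ γ' ∈ Gamma (N * d), HeckeRel d γ' γ}
  mul_mem' := by
    rintro a b ⟨a', ha', h1⟩ ⟨b', hb', h2⟩
    exact ⟨a' * b', mul_mem ha' hb', h1.mul h2⟩
  one_mem' := ⟨1, one_mem _, by refine ⟨rfl, ?_, ?_, rfl⟩ <;> simp⟩
  inv_mem' := by
    rintro a ⟨a', ha', h1⟩
    exact ⟨a'⁻¹, inv_mem ha', h1.inv⟩

lemma exists_heckeRel {N d : ℕ} [NeZero d] {γ' : SL(2, ℤ)} (h : γ' ∈ Gamma (N * d)) :
    ∃ γ, HeckeRel d γ' γ := by
  rw [Gamma_mem] at h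
  have h1 := h.2.1
  rw [ZMod.intCast_zmod_eq_zero_iff_dvd] at h1
  obtain ⟨t, ht⟩ := h1
  have hdet := γ'.det_coe
  rw [Matrix.det_fin_two] at hdet
  refine ⟨⟨!![γ' 0 0, N * t; d * γ' 1 0, γ' 1 1], by
    rw [Matrix.det_fin_two_of]
    rw [ht] at hdet
    push_cast at hdet
    linear_combination hdet⟩, rfl, ?_, rfl, rfl⟩
  change γ' 0 1 = d * (N * t)
  rw [ht]; push_cast; ring

lemma conjSub_le (N d : ℕ) [NeZero d] : conjSub N d ≤ Gamma0 N := by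
  rintro γ ⟨γ', hγ', h1, h2, h3, h4⟩
  rw [Gamma_mem] at hγ'
  have h5 := hγ'.2.2.1
  rw [ZMod.intCast_zmod_eq_zero_iff_dvd] at h5
  rw [Gamma0_mem, ZMod.intCast_zmod_eq_zero_iff_dvd, ← h3]
  have : (N : ℤ) ∣ ((N * d : ℕ) : ℤ) := ⟨d, by push_cast; ring⟩
  exact (this.trans h5).mul_left _

/-- the bijection between the two subgroups. -/
def conjEquiv (N d : ℕ) [NeZero d] : conjSub N d ≃ Gamma (N * d) :=
  Equiv.ofBijective (fun γ ↦ ⟨γ.2.choose, γ.2.choose_spec.1⟩) (by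
    constructor
    · intro a b hab
      have h1 := a.2.choose_spec.2
      have h2 := b.2.choose_spec.2
      have h3 : a.2.choose = b.2.choose := congrArg Subtype.val hab
      rw [h3] at h1
      exact Subtype.ext (h1.right_unique h2)
    · rintro ⟨γ', hγ'⟩
      obtain ⟨γ, hγ⟩ := exists_heckeRel hγ'
      have hmem : γ ∈ conjSub N d := ⟨γ', hγ', hγ⟩
      refine ⟨⟨γ, hmem⟩, ?_⟩
      apply Subtype.ext
      exact hmem.choose_spec.2.left_unique hγ)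

lemma conjEquiv_rel (N d : ℕ) [NeZero d] (γ : conjSub N d) :
    HeckeRel d (conjEquiv N d γ : SL(2, ℤ)) γ := γ.2.choose_spec.2

section

attribute [local instance] Subgroup.fintypeQuotientOfFiniteIndex

/-- the weight transported by `diag(1,d)`. -/
lemma tsum_transport (N d : ℕ) [NeZero N] [NeZero d] (z : ℍ) :
    ∑' k : conjSub N d, wtSub (Gamma (N * d)) (scaleUp d ((k : SL(2, ℤ)) • z)) = 1 := by
  rw [← tsum_wtSub (Gamma (N * d)) (scaleUp d z), ← (conjEquiv N d).tsum_eq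
    (fun k : Gamma (N * d) ↦ wtSub (Gamma (N * d)) ((k : SL(2, ℤ)) • scaleUp d z))]
  refine tsum_congr fun k ↦ ?_
  congr 1
  have h := (conjEquiv_rel N d k).move (scaleUp d z)
  rw [shiftDiv_scaleUp] at h
  rw [← h, scaleUp_shiftDiv]

lemma main_identity_aux (N d : ℕ) [NeZero N] [NeZero d] {F : ℍ → ℝ≥0∞} (hFm : Measurable F)
    (hF : ∀ l ∈ Gamma0 N, ∀ z, F (l • z) = F z) :
    ∫⁻ z, wt z * ∑ x : SL(2, ℤ) ⧸ Gamma (N * d), F (shiftDiv d 0 ((Quotient.out x)⁻¹ • z)) =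
      (∑' _ : Gamma0 N ⧸ (conjSub N d).subgroupOf (Gamma0 N), (1 : ℝ≥0∞)) *
        ∫⁻ z, wt z * ∑ κ : SL(2, ℤ) ⧸ Gamma0 N, F ((Quotient.out κ)⁻¹ • z) := by
  have hFD : Measurable fun z ↦ F (shiftDiv d 0 z) := hFm.comp (continuous_shiftDiv d 0).measurable
  rw [← lintegral_wtSub (Gamma (N * d)) hFD, ← lintegral_wtSub (Gamma0 N) hFm]
  have h1 : ∫⁻ z, wtSub (Gamma (N * d)) z * F (shiftDiv d 0 z) =
      ∫⁻ z, wtSub (Gamma (N * d)) (scaleUp d z) * F z := by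
    rw [← lintegral_shiftDiv d (fun z ↦ wtSub (Gamma (N * d)) (scaleUp d z) * F z)]
    refine lintegral_congr fun z ↦ ?_
    rw [scaleUp_shiftDiv]
  rw [h1]
  exact weight_compare (conjSub_le N d)
    ((measurable_wtSub _).comp (continuous_scaleUp d).measurable) (measurable_wtSub _) hFm
    (tsum_transport N d) (tsum_wtSub _) hF

lemma lintegral_wt_ne_top : ∫⁻ z, wt z ≠ ⊤ := by
  have h1 : ∫⁻ z, wt z ≤ ∫⁻ z, (ModularGroup.fd : Set ℍ).indicator 1 z :=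
    lintegral_mono fun z ↦ wt_le z
  rw [lintegral_indicator_one ModularGroup.isClosed_fd.measurableSet] at h1
  exact ne_top_of_le_ne_top (by norm_num) (h1.trans volume_fd_le)

lemma lintegral_wt_ne_zero : ∫⁻ z, wt z ≠ 0 := by
  intro h0
  have h1 : ∫⁻ _ : ℍ, (1 : ℝ≥0∞) = 0 := by
    calc ∫⁻ _ : ℍ, (1 : ℝ≥0∞) = ∫⁻ z : ℍ, ∑' γ : SL(2, ℤ), wt (γ • z) := by
          refine lintegral_congr fun z ↦ ?_
          rw [tsum_wt]
      _ = ∑' γ : SL(2, ℤ), ∫⁻ z : ℍ, wt (γ • z) :=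
          lintegral_tsum fun γ ↦ (measurable_smul_comp measurable_wt γ).aemeasurable
      _ = 0 := by
          simp_rw [lintegral_smul_eq', h0]
          simp
  rw [lintegral_coord measurable_const] at h1
  have h2 : Measurable fun p : ℝ × ℝ ↦ (1 : ℝ≥0∞) * ENNReal.ofReal (1 / p.2 ^ 2) := by fun_prop
  rw [lintegral_eq_zero_iff h2] at h1
  have h3 : ∀ᵐ p : ℝ × ℝ ∂(volume.restrict (Set.univ ×ˢ Set.Ioi 0)), False := by
    have hm : MeasurableSet (Set.univ ×ˢ Set.Ioi 0 : Set (ℝ × ℝ)) :=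
      MeasurableSet.univ.prod measurableSet_Ioi
    filter_upwards [h1, ae_restrict_mem hm] with p hp hp2
    have hp0 : 0 < p.2 := hp2.2
    simp only [one_mul, Pi.zero_apply, ENNReal.ofReal_eq_zero] at hp
    have : 0 < 1 / p.2 ^ 2 := by positivity
    linarith
  have h4 : volume (Set.univ ×ˢ Set.Ioi 0 : Set (ℝ × ℝ)) = 0 := by
    have := ae_iff.1 h3
    simpa using this
  rw [Measure.volume_eq_prod, Measure.prod_prod] at h4
  simp at h4

/-- the index relation. -/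
lemma index_relation (N d : ℕ) [NeZero N] [NeZero d] :
    ((Gamma (N * d)).index : ℝ≥0∞) =
      (∑' _ : Gamma0 N ⧸ (conjSub N d).subgroupOf (Gamma0 N), (1 : ℝ≥0∞)) *
        ((Gamma0 N).index : ℝ≥0∞) := by
  have h := main_identity_aux N d (F := fun _ ↦ 1) measurable_const (fun _ _ _ ↦ rfl)
  simp only [Finset.sum_const, Finset.card_univ, nsmul_eq_mul, mul_one] at h
  rw [lintegral_mul_const _ measurable_wt, lintegral_mul_const _ measurable_wt] at h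
  have hV0 := lintegral_wt_ne_zero
  have hVt := lintegral_wt_ne_top
  have e1 : ((Fintype.card (SL(2, ℤ) ⧸ Gamma (N * d)) : ℕ) : ℝ≥0∞) = (Gamma (N * d)).index := by
    rw [← Nat.card_eq_fintype_card]; rfl
  have e2 : ((Fintype.card (SL(2, ℤ) ⧸ Gamma0 N) : ℕ) : ℝ≥0∞) = (Gamma0 N).index := by
    rw [← Nat.card_eq_fintype_card]; rfl
  rw [e1, e2] at h
  have h' : (∫⁻ z, wt z) * ((Gamma (N * d)).index : ℝ≥0∞) = (∫⁻ z, wt z) *
      ((∑' _ : Gamma0 N ⧸ (conjSub N d).subgroupOf (Gamma0 N), (1 : ℝ≥0∞)) *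
        ((Gamma0 N).index : ℝ≥0∞)) := by
    rw [h]; ring
  exact (ENNReal.mul_right_inj hV0 hVt).1 h'

/-- the main term identity. -/
theorem main_identity (N d : ℕ) [NeZero N] [NeZero d] {F : ℍ → ℝ≥0∞} (hFm : Measurable F)
    (hF : ∀ l ∈ Gamma0 N, ∀ z, F (l • z) = F z) :
    ((Gamma0 N).index : ℝ≥0∞) *
      ∫⁻ z, wt z * ∑ x : SL(2, ℤ) ⧸ Gamma (N * d), F (shiftDiv d 0 ((Quotient.out x)⁻¹ • z)) =
    ((Gamma (N * d)).index : ℝ≥0∞) *
        ∫⁻ z, wt z * ∑ κ : SL(2, ℤ) ⧸ Gamma0 N, F ((Quotient.out κ)⁻¹ • z) := by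
  rw [main_identity_aux N d hFm hF, index_relation N d]
  ring

end

end

end Pool.Agent.Work.MP_af11aa_nt
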