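import Mathlib

namespace Pool.Agent.Work.MP_af11aa_nt

open MeasureTheory

noncomputable section

/-- the profile `√(ρ² - a² x²)`. -/
def prof (ρ a x : ℝ) : ℝ := Real.sqrt (ρ ^ 2 - (a * x) ^ 2)

lemma continuous_prof (ρ a : ℝ) : Continuous (prof ρ a) := by unfold prof; fun_prop

lemma prof_nonneg (ρ a x : ℝ) : 0 ≤ prof ρ a x := Real.sqrt_nonneg _

lemma prof_anti {ρ a : ℝ} (ha : 0 < a) {x y : ℝ} (hx : 0 ≤ x) (hxy : x ≤ y) :
    prof ρ a y ≤ prof ρ a x := by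
  unfold prof
  apply Real.sqrt_le_sqrt
  have : (a * x) ^ 2 ≤ (a * y) ^ 2 := by gcongr
  linarith

lemma integral_quarter : ∫ x in (0 : ℝ)..1, Real.sqrt (1 - x ^ 2) = Real.pi / 4 := by
  have h := integral_sqrt_one_sub_sq
  have hc : Continuous fun x : ℝ ↦ Real.sqrt (1 - x ^ 2) := by fun_prop
  rw [← intervalIntegral.integral_add_adjacent_intervals (b := 0)
    (hc.intervalIntegrable _ _) (hc.intervalIntegrable _ _)] at h
  have h2 : ∫ x in (-1 : ℝ)..0, Real.sqrt (1 - x ^ 2) = ∫ x in (0 : ℝ)..1, Real.sqrt (1 - x ^ 2) := by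
    have := intervalIntegral.integral_comp_neg (a := 0) (b := 1) (fun x : ℝ ↦ Real.sqrt (1 - x ^ 2))
    simp only [neg_sq, neg_zero] at this
    exact this.symm
  rw [h2] at h
  linarith

lemma integral_prof {ρ a : ℝ} (hρ : 0 < ρ) (ha : 0 < a) :
    ∫ x in (0 : ℝ)..(ρ / a), prof ρ a x = Real.pi * ρ ^ 2 / (4 * a) := by
  have e : ∀ x, prof ρ a x = ρ * Real.sqrt (1 - ((a / ρ) * x) ^ 2) := by
    intro x
    unfold prof
    rw [← Real.sqrt_sq hρ.le, ← Real.sqrt_mul (by positivity), Real.sqrt_sq hρ.le]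
    congr 1
    field_simp
  simp_rw [e]
  rw [intervalIntegral.integral_const_mul,
    intervalIntegral.integral_comp_mul_left (fun x ↦ Real.sqrt (1 - x ^ 2)) (by positivity)]
  have e1 : a / ρ * (ρ / a) = 1 := by field_simp
  rw [e1, mul_zero, integral_quarter, smul_eq_mul]
  field_simp

lemma integral_prof_tail {ρ a : ℝ} (hρ : 0 < ρ) (ha : 0 < a) {T : ℝ} (hT : ρ / a ≤ T) :
    ∫ x in (0 : ℝ)..T, prof ρ a x = Real.pi * ρ ^ 2 / (4 * a) := by
  rw [← integral_prof hρ ha, ← intervalIntegral.integral_add_adjacent_intervals (b := ρ / a)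
    ((continuous_prof ρ a).intervalIntegrable _ _) ((continuous_prof ρ a).intervalIntegrable _ _)]
  have : ∫ x in (ρ / a)..T, prof ρ a x = ∫ x in (ρ / a)..T, (0 : ℝ) := by
    refine intervalIntegral.integral_congr fun x hx ↦ ?_
    rw [Set.uIcc_of_le hT] at hx
    unfold prof
    apply Real.sqrt_eq_zero_of_nonpos
    have h1 : ρ ≤ a * x := by
      have := hx.1
      rw [div_le_iff₀ ha] at this
      linarith
    nlinarith
  rw [this]
  simp

/-- sum of the profile over the integers. -/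
lemma sum_prof {ρ a : ℝ} (hρ : 0 < ρ) (ha : 0 < a) :
    |∑ s ∈ Finset.Icc (-(⌊ρ / a⌋₊ : ℤ)) ⌊ρ / a⌋₊, prof ρ a s - Real.pi * ρ ^ 2 / (2 * a)| ≤ ρ := by
  set S := ⌊ρ / a⌋₊ with hS
  have hSle : (S : ℝ) ≤ ρ / a := Nat.floor_le (by positivity)
  have hSlt : ρ / a < (S : ℝ) + 1 := Nat.lt_floor_add_one _
  have heven : ∀ s : ℤ, prof ρ a ((-s : ℤ) : ℝ) = prof ρ a s := by
    intro s
    unfold prof
    push_cast
    congr 1
    ring
  have hsplit : ∀ S : ℕ, ∑ s ∈ Finset.Icc (-(S : ℤ)) S, prof ρ a s =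
      prof ρ a 0 + 2 * ∑ i ∈ Finset.range S, prof ρ a ((i : ℝ) + 1) := by
    intro S
    induction S with
    | zero => simp
    | succ n ih =>
      have e : Finset.Icc (-((n + 1 : ℕ) : ℤ)) ((n + 1 : ℕ) : ℤ) =
          insert (-((n + 1 : ℕ) : ℤ)) (insert ((n + 1 : ℕ) : ℤ) (Finset.Icc (-(n : ℤ)) n)) := by
        ext x
        simp only [Finset.mem_Icc, Finset.mem_insert]
        push_cast
        omega
      rw [e, Finset.sum_insert, Finset.sum_insert, ih, Finset.sum_range_succ, heven]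
      · push_cast; ring
      · rw [Finset.mem_Icc]; push_cast; omega
      · rw [Finset.mem_insert, Finset.mem_Icc]; push_cast; omega
  have hanti : AntitoneOn (prof ρ a) (Set.Icc 0 (0 + (S : ℝ))) := fun x hx y hy hxy ↦
    prof_anti ha hx.1 hxy
  have hanti' : AntitoneOn (prof ρ a) (Set.Icc 0 (0 + ((S + 1 : ℕ) : ℝ))) := fun x hx y hy hxy ↦
    prof_anti ha hx.1 hxy
  have h1 := hanti.sum_le_integral
  have h2 := hanti'.integral_le_sum
  simp only [zero_add] at h1 h2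
  have h3 : ∫ x in (0 : ℝ)..S, prof ρ a x ≤ Real.pi * ρ ^ 2 / (4 * a) := by
    rw [← integral_prof hρ ha, ← intervalIntegral.integral_add_adjacent_intervals (b := (S : ℝ))
      (c := ρ / a) ((continuous_prof ρ a).intervalIntegrable _ _)
      ((continuous_prof ρ a).intervalIntegrable _ _)]
    have : 0 ≤ ∫ x in (S : ℝ)..(ρ / a), prof ρ a x :=
      intervalIntegral.integral_nonneg hSle fun x _ ↦ prof_nonneg _ _ _
    linarith
  rw [integral_prof_tail hρ ha (by push_cast; linarith)] at h2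
  rw [Finset.sum_range_succ'] at h2
  push_cast at h1 h2
  have h0 : prof ρ a 0 = ρ := by
    unfold prof; rw [mul_zero]; simp [Real.sqrt_sq hρ.le]
  rw [h0] at h2
  rw [hsplit S, h0]
  have e : Real.pi * ρ ^ 2 / (2 * a) = 2 * (Real.pi * ρ ^ 2 / (4 * a)) := by field_simp; ring
  rw [abs_le]
  constructor <;> linarith

/-- integers of an arithmetic progression in an interval. -/
lemma card_Icc_approx {A B : ℝ} (h : A ≤ B) :
    |((Finset.Icc ⌈A⌉ ⌊B⌋).card : ℝ) - (B - A)| ≤ 1 := by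
  rw [Int.card_Icc]
  have h1 : (⌈A⌉ : ℝ) < A + 1 := Int.ceil_lt_add_one A
  have h2 : A ≤ ⌈A⌉ := Int.le_ceil A
  have h3 : (⌊B⌋ : ℝ) ≤ B := Int.floor_le B
  have h4 : B < ⌊B⌋ + 1 := Int.lt_floor_add_one B
  have h5 : 0 ≤ ⌊B⌋ + 1 - ⌈A⌉ := by
    have : (⌈A⌉ : ℝ) < (⌊B⌋ : ℝ) + 1 + 1 := by linarith
    have : ⌈A⌉ < ⌊B⌋ + 1 + 1 := by exact_mod_cast this
    omega
  have h6 : (((⌊B⌋ + 1 - ⌈A⌉).toNat : ℕ) : ℝ) = (⌊B⌋ : ℝ) + 1 - ⌈A⌉ := by
    have : (((⌊B⌋ + 1 - ⌈A⌉).toNat : ℕ) : ℤ) = ⌊B⌋ + 1 - ⌈A⌉ := Int.toNat_of_nonneg h5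
    exact_mod_cast this
  rw [h6, abs_le]
  constructor <;> linarith

/-- lattice points of index `m` in an ellipse. -/
def ptSet (u y : ℝ) (r1 r2 : ℤ) (m : ℕ) (ρ : ℝ) : Set (ℤ × ℤ) :=
  {v | (m : ℤ) ∣ v.1 * r2 - v.2 * r1 ∧ (v.1 * u + v.2) ^ 2 + (v.1 * y) ^ 2 ≤ ρ ^ 2}

lemma exists_residue {r1 r2 : ℤ} (hr : IsCoprime r1 r2) {m : ℕ} (hm : 0 < m) :
    ∃ (g δ : ℕ) (w : ℤ), 0 < g ∧ 0 < δ ∧ g * δ = m ∧
      ∀ c d : ℤ, (m : ℤ) ∣ c * r2 - d * r1 ↔ ∃ s : ℤ, c = g * s ∧ (δ : ℤ) ∣ d - s * w := by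
  set g : ℕ := Int.gcd r1 m with hg
  have hg0 : 0 < g := Int.gcd_pos_of_ne_zero_right _ (by exact_mod_cast hm.ne')
  obtain ⟨r', hr'⟩ : (g : ℤ) ∣ r1 := Int.gcd_dvd_left _ _
  obtain ⟨δ', hδ'⟩ : (g : ℤ) ∣ (m : ℤ) := Int.gcd_dvd_right _ _
  have hδ'pos : 0 < δ' := by
    have h1 : (0 : ℤ) < m := by exact_mod_cast hm
    rw [hδ'] at h1
    have h2 : (0 : ℤ) < g := by exact_mod_cast hg0
    exact (pos_iff_pos_of_mul_pos h1).1 h2
  obtain ⟨δ, rfl⟩ := Int.eq_ofNat_of_zero_le hδ'pos.le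
  have hδ : 0 < δ := by exact_mod_cast hδ'pos
  have hgδ : g * δ = m := by exact_mod_cast hδ'.symm
  have hcop : IsCoprime r' (δ : ℤ) := by
    rw [Int.isCoprime_iff_gcd_eq_one]
    have h1 : (g : ℤ) * (Int.gcd r' δ) = g := by
      have : Int.gcd (g * r') (g * δ) = g * Int.gcd r' δ := by
        rw [Int.gcd_mul_left]; simp
      rw [← hr', ← hδ', ← hg] at this
      exact_mod_cast this.symm
    have h2 : (g : ℤ) ≠ 0 := by exact_mod_cast hg0.ne'
    have h3 : ((Int.gcd r' δ : ℕ) : ℤ) = 1 := by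
      have : (g : ℤ) * (Int.gcd r' δ) = g * 1 := by rw [h1, mul_one]
      exact mul_left_cancel₀ h2 this
    exact_mod_cast h3
  obtain ⟨w0, t0, hw0⟩ := hcop
  have hgz : (g : ℤ) ≠ 0 := by exact_mod_cast hg0.ne'
  refine ⟨g, δ, r2 * w0, hg0, hδ, hgδ, fun c d ↦ ?_⟩
  have hmz : (m : ℤ) = g * δ := hδ'
  constructor
  · intro hdvd
    have hgc : (g : ℤ) ∣ c := by
      have h1 : (g : ℤ) ∣ c * r2 - d * r1 := (Dvd.intro _ hmz.symm).trans hdvd
      have h2 : (g : ℤ) ∣ c * r2 := by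
        have : c * r2 = (c * r2 - d * r1) + d * r1 := by ring
        rw [this]
        exact dvd_add h1 ((Dvd.intro _ hr'.symm).mul_left _)
      have h3 : IsCoprime (g : ℤ) r2 := by
        rw [hr'] at hr
        exact hr.of_mul_left_left
      exact h3.dvd_of_dvd_mul_right h2
    obtain ⟨s, hs⟩ := hgc
    refine ⟨s, hs, ?_⟩
    rw [hs, hr', hmz] at hdvd
    have h1 : (g : ℤ) * δ ∣ g * (s * r2 - d * r') := by
      convert hdvd using 1; ring
    have h2 : (δ : ℤ) ∣ s * r2 - d * r' := (mul_dvd_mul_iff_left hgz).1 h1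
    obtain ⟨q, hq⟩ := h2
    refine ⟨d * t0 - q * w0, ?_⟩
    linear_combination (-w0) * hq - d * hw0
  · rintro ⟨s, hs, hd⟩
    obtain ⟨q, hq⟩ := hd
    rw [hs, hr', hmz]
    have h2 : (δ : ℤ) ∣ s * r2 - d * r' := by
      refine ⟨s * r2 * t0 - q * r', ?_⟩
      linear_combination (-r') * hq - (s * r2) * hw0
    have : (g : ℤ) * s * r2 - d * (g * r') = g * (s * r2 - d * r') := by ring
    rw [this]
    exact mul_dvd_mul_left _ h2

/-- counting lattice points. -/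
lemma ptSet_card {u y : ℝ} (hy : 0 < y) {r1 r2 : ℤ} (hr : IsCoprime r1 r2) {m : ℕ} (hm : 0 < m)
    {ρ : ℝ} (hρ : 0 < ρ) :
    (ptSet u y r1 r2 m ρ).Finite ∧
      |((ptSet u y r1 r2 m ρ).ncard : ℝ) - Real.pi * ρ ^ 2 / (m * y)| ≤ 2 * ρ + 2 * ρ / y + 1 := by
  obtain ⟨g, δ, w, hg, hδ, hgδ, hres⟩ := exists_residue hr hm
  have hgR : (0 : ℝ) < g := by exact_mod_cast hg
  have hg1 : (1 : ℝ) ≤ g := by exact_mod_cast hg
  have hδR : (0 : ℝ) < δ := by exact_mod_cast hδ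
  have hδ1 : (1 : ℝ) ≤ δ := by exact_mod_cast hδ
  set a : ℝ := g * y with ha
  have ha0 : 0 < a := by rw [ha]; positivity
  set S := ⌊ρ / a⌋₊ with hS
  set A : ℤ → ℝ := fun s ↦ (-(a / y * s * u) - prof ρ a s - s * w) / δ with hA
  set B : ℤ → ℝ := fun s ↦ (-(a / y * s * u) + prof ρ a s - s * w) / δ with hB
  have hay : a / y = g := by rw [ha]; field_simp
  have hAB : ∀ s, B s - A s = 2 * prof ρ a s / δ := by
    intro s; rw [hA, hB]; field_simp; ring
  have hABle : ∀ s, A s ≤ B s := by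
    intro s
    have := hAB s
    have h2 : 0 ≤ 2 * prof ρ a s / δ := by have := prof_nonneg ρ a s; positivity
    linarith
  set F : Finset (Σ _ : ℤ, ℤ) :=
    (Finset.Icc (-(S : ℤ)) S).sigma fun s ↦ Finset.Icc ⌈A s⌉ ⌊B s⌋ with hF
  set φ : (Σ _ : ℤ, ℤ) → ℤ × ℤ := fun p ↦ ((g : ℤ) * p.1, p.1 * w + δ * p.2) with hφ
  have hφinj : Function.Injective φ := by
    rintro ⟨s, k⟩ ⟨s', k'⟩ h
    simp only [hφ, Prod.mk.injEq] at h
    have h1 : s = s' := mul_left_cancel₀ (by exact_mod_cast hg.ne') h.1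
    subst h1
    have h2 : (δ : ℤ) * k = δ * k' := by linarith [h.2]
    have h3 : k = k' := mul_left_cancel₀ (by exact_mod_cast hδ.ne') h2
    rw [h3]
  have hset : ptSet u y r1 r2 m ρ = φ '' (F : Set (Σ _ : ℤ, ℤ)) := by
    ext ⟨c, d⟩
    simp only [ptSet, Set.mem_ofPred_eq, Set.mem_image, Finset.mem_coe]
    rw [hres]
    constructor
    · rintro ⟨⟨s, hs, k, hk⟩, hq⟩
      have hc : (c : ℝ) = g * s := by exact_mod_cast hs
      have hd : (d : ℝ) = s * w + δ * k := by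
        have : d = s * w + δ * k := by linarith
        exact_mod_cast this
      rw [hc, hd] at hq
      have hrad : ρ ^ 2 - (a * s) ^ 2 ≥ 0 := by
        rw [ha]; nlinarith [sq_nonneg ((g : ℝ) * s * u + (s * w + δ * k))]
      have hpr : prof ρ a s ^ 2 = ρ ^ 2 - (a * s) ^ 2 := by
        unfold prof; exact Real.sq_sqrt hrad
      have habs : |(g : ℝ) * s * u + (s * w + δ * k)| ≤ prof ρ a s := by
        apply abs_le_of_sq_le_sq _ (prof_nonneg _ _ _)
        rw [hpr, ha]; nlinarith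
      rw [abs_le] at habs
      refine ⟨⟨s, k⟩, ?_, ?_⟩
      · rw [hF, Finset.mem_sigma, Finset.mem_Icc, Finset.mem_Icc]
        refine ⟨?_, ?_, ?_⟩
        · simp only
          have h1 : |(s : ℝ)| ≤ ρ / a := by
            rw [le_div_iff₀ ha0]
            have h2 : (|(s : ℝ)| * a) ^ 2 ≤ ρ ^ 2 := by
              rw [mul_pow, sq_abs]; nlinarith
            exact (pow_le_pow_iff_left₀ (by positivity) hρ.le (by norm_num)).1 h2
          have h4 : s.natAbs ≤ S := by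
            apply Nat.le_floor
            have e : ((s.natAbs : ℕ) : ℝ) = |(s : ℝ)| := by
              rw [← Int.cast_natCast, Int.natCast_natAbs, Int.cast_abs]
            rw [e]; exact h1
          omega
        · simp only
          rw [Int.ceil_le, hA]
          simp only
          rw [div_le_iff₀ hδR, hay]
          linarith [habs.1]
        · simp only
          rw [Int.le_floor, hB]
          simp only
          rw [le_div_iff₀ hδR, hay]
          linarith [habs.2]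
      · rw [hφ]
        simp only [Prod.mk.injEq]
        exact ⟨hs.symm, by linarith⟩
    · rintro ⟨⟨s, k⟩, hmem, heq⟩
      rw [hφ] at heq
      simp only [Prod.mk.injEq] at heq
      obtain ⟨hc', hd'⟩ := heq
      rw [hF, Finset.mem_sigma, Finset.mem_Icc, Finset.mem_Icc] at hmem
      obtain ⟨hs, hk1, hk2⟩ := hmem
      simp only at hs hk1 hk2
      rw [Int.ceil_le, hA] at hk1
      rw [Int.le_floor, hB] at hk2
      simp only at hk1 hk2
      rw [div_le_iff₀ hδR, hay] at hk1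
      rw [le_div_iff₀ hδR, hay] at hk2
      refine ⟨⟨s, hc'.symm, ⟨k, by linarith⟩⟩, ?_⟩
      have hc : (c : ℝ) = g * s := by exact_mod_cast hc'.symm
      have hd : (d : ℝ) = s * w + δ * k := by exact_mod_cast hd'.symm
      rw [hc, hd]
      have h1 : |(s : ℝ)| ≤ ρ / a := by
        have h4 : s.natAbs ≤ S := by omega
        have e : ((s.natAbs : ℕ) : ℝ) = |(s : ℝ)| := by
          rw [← Int.cast_natCast, Int.natCast_natAbs, Int.cast_abs]
        rw [← e]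
        exact (Nat.le_floor_iff (by positivity)).1 h4
      have hrad : 0 ≤ ρ ^ 2 - (a * s) ^ 2 := by
        rw [le_div_iff₀ ha0] at h1
        have : (a * s) ^ 2 = (|(s : ℝ)| * a) ^ 2 := by
          rw [← sq_abs (a * (s : ℝ)), abs_mul, abs_of_pos ha0, mul_comm]
        rw [this]
        have : (|(s : ℝ)| * a) ^ 2 ≤ ρ ^ 2 := by gcongr
        linarith
      have hpr : prof ρ a s ^ 2 = ρ ^ 2 - (a * s) ^ 2 := by
        unfold prof; exact Real.sq_sqrt hrad
      have habs : |(g : ℝ) * s * u + (s * w + δ * k)| ≤ prof ρ a s := by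
        rw [abs_le]; constructor <;> linarith
      have h5 : ((g : ℝ) * s * u + (s * w + δ * k)) ^ 2 ≤ prof ρ a s ^ 2 := by
        rw [← sq_abs ((g : ℝ) * s * u + (s * w + δ * k))]
        gcongr
      rw [hpr, ha] at h5
      nlinarith
  have hfin : (ptSet u y r1 r2 m ρ).Finite := by
    rw [hset]; exact F.finite_toSet.image _
  refine ⟨hfin, ?_⟩
  have hcard : (ptSet u y r1 r2 m ρ).ncard = ∑ s ∈ Finset.Icc (-(S : ℤ)) S,
      (Finset.Icc ⌈A s⌉ ⌊B s⌋).card := by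
    rw [hset, Set.ncard_image_of_injective _ hφinj, Set.ncard_coe_finset, hF, Finset.card_sigma]
  have hsum := sum_prof hρ ha0
  rw [← hS] at hsum
  have hdiff : |((ptSet u y r1 r2 m ρ).ncard : ℝ) -
      (2 / δ) * ∑ s ∈ Finset.Icc (-(S : ℤ)) S, prof ρ a s| ≤ 2 * S + 1 := by
    rw [hcard, Finset.mul_sum]
    push_cast
    rw [← Finset.sum_sub_distrib]
    calc |∑ s ∈ Finset.Icc (-(S : ℤ)) S,
          (((Finset.Icc ⌈A s⌉ ⌊B s⌋).card : ℝ) - 2 / δ * prof ρ a s)|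
        ≤ ∑ s ∈ Finset.Icc (-(S : ℤ)) S,
          |((Finset.Icc ⌈A s⌉ ⌊B s⌋).card : ℝ) - 2 / δ * prof ρ a s| :=
          Finset.abs_sum_le_sum_abs _ _
      _ ≤ ∑ s ∈ Finset.Icc (-(S : ℤ)) S, (1 : ℝ) := by
          refine Finset.sum_le_sum fun s _ ↦ ?_
          have h1 := card_Icc_approx (hABle s)
          rw [hAB s] at h1
          have e : 2 / δ * prof ρ a s = 2 * prof ρ a s / δ := by ring
          rw [e]; exact h1
      _ = 2 * S + 1 := by
          rw [Finset.sum_const, Int.card_Icc, nsmul_eq_mul, mul_one]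
          have : ((S : ℤ) + 1 - -(S : ℤ)).toNat = 2 * S + 1 := by omega
          rw [this]; push_cast; ring
  have hmain : |(2 / δ) * ∑ s ∈ Finset.Icc (-(S : ℤ)) S, prof ρ a s -
      Real.pi * ρ ^ 2 / (m * y)| ≤ 2 * ρ := by
    have hmR : (m : ℝ) = g * δ := by exact_mod_cast hgδ.symm
    have e : (2 / δ) * ∑ s ∈ Finset.Icc (-(S : ℤ)) S, prof ρ a s - Real.pi * ρ ^ 2 / (m * y) =
        (2 / δ) * (∑ s ∈ Finset.Icc (-(S : ℤ)) S, prof ρ a s - Real.pi * ρ ^ 2 / (2 * a)) := by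
      rw [hmR, ha]; field_simp
    rw [e, abs_mul, abs_of_pos (by positivity)]
    calc 2 / (δ : ℝ) * _ ≤ 2 / 1 * ρ := by gcongr
      _ = 2 * ρ := by ring
  have hSle : (S : ℝ) ≤ ρ / y := by
    calc (S : ℝ) ≤ ρ / a := Nat.floor_le (by positivity)
      _ ≤ ρ / y := by
        apply div_le_div_of_nonneg_left hρ.le hy
        rw [ha]; nlinarith
  calc |((ptSet u y r1 r2 m ρ).ncard : ℝ) - Real.pi * ρ ^ 2 / (m * y)|
      ≤ |((ptSet u y r1 r2 m ρ).ncard : ℝ) -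
        (2 / δ) * ∑ s ∈ Finset.Icc (-(S : ℤ)) S, prof ρ a s| +
        |(2 / δ) * ∑ s ∈ Finset.Icc (-(S : ℤ)) S, prof ρ a s - Real.pi * ρ ^ 2 / (m * y)| :=
        abs_sub_le _ _ _
    _ ≤ (2 * S + 1) + 2 * ρ := add_le_add hdiff hmain
    _ ≤ 2 * ρ + 2 * ρ / y + 1 := by
        have : 2 * ρ / y = 2 * (ρ / y) := by ring
        rw [this]; linarith

end

end Pool.Agent.Work.MP_af11aa_nt
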