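import Mathlib
import Pool.Agent.Work.MP_af11aa_nt.Lattice

namespace Pool.Agent.Work.MP_af11aa_nt

open MeasureTheory ArithmeticFunction
open scoped ArithmeticFunction.Moebius ArithmeticFunction.zeta

noncomputable section

/-- lattice points in an annulus. -/
def annSet (u y : ℝ) (r1 r2 : ℤ) (m : ℕ) (R1 R2 : ℝ) : Set (ℤ × ℤ) :=
  ptSet u y r1 r2 m R2 \ ptSet u y r1 r2 m R1

lemma annSet_card {u y : ℝ} (hy : 0 < y) {r1 r2 : ℤ} (hr : IsCoprime r1 r2) {m : ℕ} (hm : 0 < m)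
    {R1 R2 : ℝ} (h1 : 0 < R1) (h2 : R1 ≤ R2) :
    (annSet u y r1 r2 m R1 R2).Finite ∧
      |((annSet u y r1 r2 m R1 R2).ncard : ℝ) - Real.pi * (R2 ^ 2 - R1 ^ 2) / (m * y)| ≤
        2 * (2 * R2 + 2 * R2 / y + 1) := by
  obtain ⟨f1, c1⟩ := ptSet_card (u := u) hy hr hm h1
  obtain ⟨f2, c2⟩ := ptSet_card (u := u) hy hr hm (h1.trans_le h2)
  have hsub : ptSet u y r1 r2 m R1 ⊆ ptSet u y r1 r2 m R2 := by
    rintro v ⟨hv1, hv2⟩
    refine ⟨hv1, hv2.trans ?_⟩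
    gcongr
  refine ⟨f2.subset Set.sdiff_subset, ?_⟩
  have hc : ((annSet u y r1 r2 m R1 R2).ncard : ℝ) =
      (ptSet u y r1 r2 m R2).ncard - (ptSet u y r1 r2 m R1).ncard := by
    have := Set.ncard_sdiff_add_ncard_of_subset hsub f2
    have h3 : ((ptSet u y r1 r2 m R2 \ ptSet u y r1 r2 m R1).ncard : ℝ) +
        (ptSet u y r1 r2 m R1).ncard = (ptSet u y r1 r2 m R2).ncard := by exact_mod_cast this
    unfold annSet
    linarith
  rw [hc]
  have e : Real.pi * (R2 ^ 2 - R1 ^ 2) / (m * y) =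
      Real.pi * R2 ^ 2 / (m * y) - Real.pi * R1 ^ 2 / (m * y) := by ring
  rw [e]
  have h4 : 2 * R1 + 2 * R1 / y + 1 ≤ 2 * R2 + 2 * R2 / y + 1 := by gcongr
  rw [abs_le] at c1 c2 ⊢
  constructor <;> linarith [c1.1, c1.2, c2.1, c2.2]

/-- the multiples of `e` in an annulus. -/
lemma annSet_multiples {u y : ℝ} {r1 r2 : ℤ} {M : ℕ} {e : ℕ} (he : 0 < e)
    {R1 R2 : ℝ} :
    {v ∈ annSet u y r1 r2 M R1 R2 | (e : ℤ) ∣ v.1 ∧ (e : ℤ) ∣ v.2} =
      (fun v : ℤ × ℤ ↦ ((e : ℤ) * v.1, (e : ℤ) * v.2)) ''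
        annSet u y r1 r2 (M / e.gcd M) (R1 / e) (R2 / e) := by
  have heR : (0 : ℝ) < e := by exact_mod_cast he
  have hez : (e : ℤ) ≠ 0 := by exact_mod_cast he.ne'
  set g := e.gcd M with hg
  have hg0 : 0 < g := Nat.gcd_pos_of_pos_left _ he
  have hdvd : ∀ x : ℤ, (M : ℤ) ∣ e * x ↔ ((M / g : ℕ) : ℤ) ∣ x := by
    intro x
    obtain ⟨e', he'⟩ : g ∣ e := Nat.gcd_dvd_left _ _
    obtain ⟨M', hM'⟩ : g ∣ M := Nat.gcd_dvd_right _ _
    have hcop : Nat.Coprime M' e' := by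
      have := Nat.coprime_div_gcd_div_gcd (m := e) (n := M) hg0
      rw [← hg] at this
      rw [he', hM', Nat.mul_div_cancel_left _ hg0, Nat.mul_div_cancel_left _ hg0] at this
      exact this.symm
    have hdiv : M / g = M' := by rw [hM', Nat.mul_div_cancel_left _ hg0]
    have hgz : (g : ℤ) ≠ 0 := by exact_mod_cast hg0.ne'
    rw [hdiv]
    have e1 : (M : ℤ) = g * M' := by exact_mod_cast hM'
    have e2 : (e : ℤ) * x = g * (e' * x) := by
      have : (e : ℤ) = g * e' := by exact_mod_cast he'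
      rw [this]; ring
    rw [e1, e2, mul_dvd_mul_iff_left hgz]
    constructor
    · intro h
      exact (Nat.isCoprime_iff_coprime.2 hcop).dvd_of_dvd_mul_left h
    · intro h; exact h.mul_left _
  have hmem : ∀ (v : ℤ × ℤ) (R : ℝ), ((e : ℤ) * v.1, (e : ℤ) * v.2) ∈ ptSet u y r1 r2 M R ↔
      v ∈ ptSet u y r1 r2 (M / g) (R / e) := by
    intro v R
    simp only [ptSet, Set.mem_ofPred_eq]
    have e1 : (e : ℤ) * v.1 * r2 - (e : ℤ) * v.2 * r1 = e * (v.1 * r2 - v.2 * r1) := by ring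
    rw [e1, hdvd]
    have e2 : ((((e : ℤ) * v.1 : ℤ) : ℝ) * u + (((e : ℤ) * v.2 : ℤ) : ℝ)) ^ 2 +
        ((((e : ℤ) * v.1 : ℤ) : ℝ) * y) ^ 2 = e ^ 2 * ((v.1 * u + v.2) ^ 2 + (v.1 * y) ^ 2) := by
      push_cast; ring
    rw [e2, div_pow, le_div_iff₀ (by positivity), mul_comm (_ + _) ((e : ℝ) ^ 2)]
  ext v
  constructor
  · rintro ⟨⟨h1, h2⟩, ⟨a, ha⟩, ⟨b, hb⟩⟩
    refine ⟨(a, b), ⟨?_, ?_⟩, ?_⟩
    · rw [← hmem]
      have : ((e : ℤ) * (a, b).1, (e : ℤ) * (a, b).2) = v := by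
        ext
        · exact ha.symm
        · exact hb.symm
      rw [this]; exact h1
    · rw [← hmem]
      have : ((e : ℤ) * (a, b).1, (e : ℤ) * (a, b).2) = v := by
        ext
        · exact ha.symm
        · exact hb.symm
      rw [this]; exact h2
    · ext
      · exact ha.symm
      · exact hb.symm
  · rintro ⟨w, ⟨h1, h2⟩, rfl⟩
    exact ⟨⟨(hmem w R2).2 h1, fun h ↦ h2 ((hmem w R1).1 h)⟩, ⟨_, rfl⟩, ⟨_, rfl⟩⟩

/-- the arithmetic constant. -/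
def cTerm (M e : ℕ) : ℝ := (μ e : ℝ) / (e ^ 2 * (M / e.gcd M : ℕ))

lemma abs_cTerm_le {M : ℕ} (hM : 0 < M) (e : ℕ) : |cTerm M e| ≤ ((e : ℝ) ^ 2)⁻¹ := by
  unfold cTerm
  rcases Nat.eq_zero_or_pos e with h | h
  · subst h; simp
  · have hq : 1 ≤ M / e.gcd M :=
      (Nat.one_le_div_iff (Nat.gcd_pos_of_pos_left _ h)).2 (Nat.gcd_le_right _ hM)
    have hqR : (1 : ℝ) ≤ ((M / e.gcd M : ℕ) : ℝ) := by exact_mod_cast hq
    have heR : (0 : ℝ) < e := by exact_mod_cast h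
    rw [abs_div]
    have h1 : |((μ e : ℤ) : ℝ)| ≤ 1 := by exact_mod_cast abs_moebius_le_one (n := e)
    have h2 : |((e : ℝ) ^ 2 * ((M / e.gcd M : ℕ) : ℝ))| = (e : ℝ) ^ 2 * ((M / e.gcd M : ℕ) : ℝ) :=
      abs_of_pos (by positivity)
    rw [h2, inv_eq_one_div]
    gcongr
    nlinarith [sq_nonneg (e : ℝ)]

lemma summable_cTerm {M : ℕ} (hM : 0 < M) : Summable (cTerm M) := by
  refine Summable.of_norm_bounded (g := fun e : ℕ ↦ ((e : ℝ) ^ 2)⁻¹) ?_ fun e ↦ ?_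
  · exact Real.summable_nat_pow_inv.2 (by norm_num)
  · exact abs_cTerm_le hM e

/-- the density constant. -/
def cDens (M : ℕ) : ℝ := Real.pi / 2 * ∑' e, cTerm M e

lemma tail_cTerm {M : ℕ} (hM : 0 < M) (E : ℕ) :
    |∑' e, cTerm M e - ∑ e ∈ Finset.Icc 1 E, cTerm M e| ≤ 2 / (E + 1) := by
  have hlim := (summable_cTerm hM).hasSum.tendsto_sum_nat
  have h1 : ∀ n, E + 1 ≤ n → |∑ e ∈ Finset.range n, cTerm M e - ∑ e ∈ Finset.Icc 1 E, cTerm M e| ≤
      2 / (E + 1) := by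
    intro n hn
    have hsub : Finset.Icc 1 E ⊆ Finset.range n := by
      intro x hx
      rw [Finset.mem_Icc] at hx
      rw [Finset.mem_range]; omega
    rw [← Finset.sum_sdiff hsub, add_sub_cancel_right]
    calc |∑ e ∈ Finset.range n \ Finset.Icc 1 E, cTerm M e|
        ≤ ∑ e ∈ Finset.range n \ Finset.Icc 1 E, |cTerm M e| := Finset.abs_sum_le_sum_abs _ _
      _ ≤ ∑ e ∈ Finset.range n \ Finset.Icc 1 E, ((e : ℝ) ^ 2)⁻¹ :=
          Finset.sum_le_sum fun e _ ↦ abs_cTerm_le hM e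
      _ = ∑ e ∈ Finset.Ioo E n, ((e : ℝ) ^ 2)⁻¹ := by
          symm
          refine Finset.sum_subset ?_ ?_
          · intro x hx
            rw [Finset.mem_Ioo] at hx
            rw [Finset.mem_sdiff, Finset.mem_range, Finset.mem_Icc]; omega
          · intro x hx hx2
            rw [Finset.mem_sdiff, Finset.mem_range, Finset.mem_Icc] at hx
            rw [Finset.mem_Ioo] at hx2
            have : x = 0 := by omega
            subst this; simp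
      _ ≤ 2 / (E + 1) := sum_Ioo_inv_sq_le E n
  have h2 : Filter.Tendsto (fun n ↦ |∑ e ∈ Finset.range n, cTerm M e -
      ∑ e ∈ Finset.Icc 1 E, cTerm M e|) Filter.atTop
      (nhds |∑' e, cTerm M e - ∑ e ∈ Finset.Icc 1 E, cTerm M e|) :=
    (hlim.sub_const _).abs
  exact le_of_tendsto h2 (Filter.eventually_atTop.2 ⟨E + 1, fun n hn ↦ h1 n hn⟩)

lemma sum_divisors_moebius (n : ℕ) (hn : n ≠ 0) :
    ∑ d ∈ n.divisors, μ d = if n = 1 then 1 else 0 := by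
  have h := congrArg (fun f : ArithmeticFunction ℤ ↦ f n) moebius_mul_coe_zeta
  rw [coe_mul_zeta_apply, one_apply] at h
  exact h

lemma harmonic_le_sqrt (E : ℕ) : ∑ e ∈ Finset.Icc 1 E, (1 : ℝ) / e ≤ 2 * Real.sqrt E := by
  induction E with
  | zero => simp
  | succ n ih =>
    rw [Finset.sum_Icc_succ_top (by omega)]
    have h1 : (1 : ℝ) / ((n + 1 : ℕ) : ℝ) ≤ 2 * Real.sqrt ((n + 1 : ℕ) : ℝ) - 2 * Real.sqrt n := by
      set a := Real.sqrt ((n + 1 : ℕ) : ℝ) with ha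
      set b := Real.sqrt (n : ℝ) with hb
      have ha2 : a ^ 2 = n + 1 := by rw [ha, Real.sq_sqrt (by positivity)]; push_cast; ring
      have hb2 : b ^ 2 = n := Real.sq_sqrt (by positivity)
      have ha1 : 1 ≤ a := by
        rw [ha, Real.one_le_sqrt]; push_cast; linarith [(Nat.cast_nonneg n : (0 : ℝ) ≤ n)]
      have hb0 : 0 ≤ b := Real.sqrt_nonneg _
      have hba : b ≤ a := by
        rw [ha, hb]; apply Real.sqrt_le_sqrt; push_cast; linarith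
      have e1 : (((n + 1 : ℕ) : ℕ) : ℝ) = a ^ 2 := by rw [ha2]; push_cast; ring
      rw [e1, div_le_iff₀ (by positivity)]
      have h3 : (a - b) * (a + b) = 1 := by ring_nf; linarith
      have h4 : a + b ≤ 2 * a := by linarith
      have h5 : 1 ≤ (a - b) * (2 * a) := by
        rw [← h3]
        exact mul_le_mul_of_nonneg_left h4 (by linarith)
      nlinarith
    linarith

/-- primitive points in an annulus. -/
def primSet (u y : ℝ) (r1 r2 : ℤ) (M : ℕ) (R1 R2 : ℝ) : Set (ℤ × ℤ) :=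
  {v ∈ annSet u y r1 r2 M R1 R2 | IsCoprime v.1 v.2}

/-- the quadratic form takes values at least one on nonzero integral vectors. -/
lemma one_le_form {u y : ℝ} (hu : |u| ≤ 1 / 2) (huy : 1 ≤ u ^ 2 + y ^ 2) {a b : ℤ}
    (h : a ≠ 0 ∨ b ≠ 0) : 1 ≤ (a * u + b) ^ 2 + (a * y) ^ 2 := by
  rw [abs_le] at hu
  have h1 : (1 : ℝ) ≤ (a : ℝ) ^ 2 - |(a : ℝ) * b| + b ^ 2 := by
    have h2 : (1 : ℤ) ≤ a ^ 2 - |a * b| + b ^ 2 := by
      have h3 : 0 ≤ (|a| - |b|) ^ 2 := sq_nonneg _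
      have h4 : (|a| - |b|) ^ 2 = a ^ 2 - 2 * |a * b| + b ^ 2 := by
        rw [abs_mul, sub_sq, sq_abs, sq_abs]; ring
      rcases eq_or_ne (a * b) 0 with h0 | h0
      · rw [h0, abs_zero]
        rcases h with h | h
        · have : 0 < a ^ 2 := by positivity
          nlinarith [sq_nonneg b]
        · have : 0 < b ^ 2 := by positivity
          nlinarith [sq_nonneg a]
      · have h5 : 1 ≤ |a * b| := Int.one_le_abs h0
        nlinarith
    have h6 : ((1 : ℤ) : ℝ) ≤ ((a ^ 2 - |a * b| + b ^ 2 : ℤ) : ℝ) := by exact_mod_cast h2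
    push_cast at h6
    exact h6
  have h7 : -|(a : ℝ) * b| ≤ 2 * (a * u) * b := by
    have h8 : |2 * ((a : ℝ) * u) * b| ≤ |(a : ℝ) * b| := by
      have : 2 * ((a : ℝ) * u) * b = (2 * u) * (a * b) := by ring
      rw [this, abs_mul]
      have h9 : |2 * u| ≤ 1 := by rw [abs_le]; constructor <;> linarith
      calc |2 * u| * |(a : ℝ) * b| ≤ 1 * |(a : ℝ) * b| := by gcongr
        _ = _ := one_mul _
    linarith [(abs_le.1 h8).1]
  have h10 : (a : ℝ) ^ 2 ≤ a ^ 2 * (u ^ 2 + y ^ 2) := by nlinarith [sq_nonneg (a : ℝ)]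
  nlinarith

theorem primSet_card {u y : ℝ} (hy : 0 < y) (hu : |u| ≤ 1 / 2) (huy : 1 ≤ u ^ 2 + y ^ 2)
    {r1 r2 : ℤ} (hr : IsCoprime r1 r2) {M : ℕ} (hM : 0 < M)
    {R1 R2 : ℝ} (h1 : 0 < R1) (h2 : R1 ≤ R2) :
    (primSet u y r1 r2 M R1 R2).Finite ∧
      |((primSet u y r1 r2 M R1 R2).ncard : ℝ) -
        Real.pi * (R2 ^ 2 - R1 ^ 2) / y * ∑ e ∈ Finset.Icc 1 ⌊R2⌋₊, cTerm M e| ≤
        ∑ e ∈ Finset.Icc 1 ⌊R2⌋₊, 2 * (2 * (R2 / e) + 2 * (R2 / e) / y + 1) := by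
  classical
  have hR2 : 0 < R2 := h1.trans_le h2
  obtain ⟨hfin, -⟩ := annSet_card (u := u) hy hr hM h1 h2
  have hPfin : (primSet u y r1 r2 M R1 R2).Finite := hfin.subset fun v hv ↦ hv.1
  refine ⟨hPfin, ?_⟩
  set W : Finset (ℤ × ℤ) := hfin.toFinset with hW
  have hWmem : ∀ v, v ∈ W ↔ v ∈ annSet u y r1 r2 M R1 R2 := fun v ↦ Set.Finite.mem_toFinset _
  -- nonzero vectors and bound for the gcd
  have hne : ∀ v ∈ W, v.1 ≠ 0 ∨ v.2 ≠ 0 := by
    intro v hv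
    rw [hWmem] at hv
    by_contra hcon
    push Not at hcon
    apply hv.2
    refine ⟨hv.1.1, ?_⟩
    rw [hcon.1, hcon.2]
    simp only [Int.cast_zero, zero_mul, add_zero, ne_eq, OfNat.ofNat_ne_zero, not_false_eq_true,
      zero_pow]
    positivity
  have hgpos : ∀ v ∈ W, Int.gcd v.1 v.2 ≠ 0 := by
    intro v hv h0
    rw [Int.gcd_eq_zero_iff] at h0
    rcases hne v hv with h | h
    · exact h h0.1
    · exact h h0.2
  have hgle : ∀ v ∈ W, Int.gcd v.1 v.2 ≤ ⌊R2⌋₊ := by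
    intro v hv
    have hg0 := hgpos v hv
    set g := Int.gcd v.1 v.2 with hg
    obtain ⟨a, ha⟩ : (g : ℤ) ∣ v.1 := Int.gcd_dvd_left _ _
    obtain ⟨b, hb⟩ : (g : ℤ) ∣ v.2 := Int.gcd_dvd_right _ _
    have hab : a ≠ 0 ∨ b ≠ 0 := by
      rcases hne v hv with h | h
      · left; rintro rfl; apply h; rw [ha, mul_zero]
      · right; rintro rfl; apply h; rw [hb, mul_zero]
    have hq := one_le_form hu huy hab
    rw [hWmem] at hv
    have hv2 := hv.1.2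
    have ha' : (v.1 : ℝ) = g * a := by exact_mod_cast ha
    have hb' : (v.2 : ℝ) = g * b := by exact_mod_cast hb
    rw [ha', hb'] at hv2
    apply Nat.le_floor
    have h3 : (g : ℝ) ^ 2 ≤ R2 ^ 2 := by
      calc (g : ℝ) ^ 2 = g ^ 2 * 1 := by ring
        _ ≤ g ^ 2 * ((a * u + b) ^ 2 + (a * y) ^ 2) := by gcongr
        _ = (g * a * u + g * b) ^ 2 + (g * a * y) ^ 2 := by ring
        _ ≤ R2 ^ 2 := hv2
    exact (pow_le_pow_iff_left₀ (by positivity) hR2.le (by norm_num)).1 h3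
  -- Moebius
  have hcount : ((primSet u y r1 r2 M R1 R2).ncard : ℝ) =
      ∑ e ∈ Finset.Icc 1 ⌊R2⌋₊, (μ e : ℝ) *
        ((W.filter fun v ↦ (e : ℤ) ∣ v.1 ∧ (e : ℤ) ∣ v.2).card : ℝ) := by
    have e1 : primSet u y r1 r2 M R1 R2 = ((W.filter fun v ↦ IsCoprime v.1 v.2 : Finset (ℤ × ℤ)) :
        Set (ℤ × ℤ)) := by
      ext v
      rw [Finset.mem_coe, Finset.mem_filter, hWmem]
      rfl
    rw [e1, Set.ncard_coe_finset, Finset.card_filter]
    push_cast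
    have e2 : ∀ v ∈ W, (if IsCoprime v.1 v.2 then (1 : ℝ) else 0) =
        ∑ e ∈ Finset.Icc 1 ⌊R2⌋₊, if ((e : ℤ) ∣ v.1 ∧ (e : ℤ) ∣ v.2) then (μ e : ℝ) else 0 := by
      intro v hv
      have h3 := sum_divisors_moebius (Int.gcd v.1 v.2) (hgpos v hv)
      have h4 : (if IsCoprime v.1 v.2 then (1 : ℝ) else 0) =
          ((∑ d ∈ (Int.gcd v.1 v.2).divisors, μ d : ℤ) : ℝ) := by
        rw [h3]
        by_cases hcp : IsCoprime v.1 v.2
        · rw [if_pos hcp, if_pos (Int.isCoprime_iff_gcd_eq_one.1 hcp)]; simp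
        · rw [if_neg hcp, if_neg (fun h ↦ hcp (Int.isCoprime_iff_gcd_eq_one.2 h))]; simp
      rw [h4, ← Finset.sum_filter]
      push_cast
      refine Finset.sum_congr ?_ fun _ _ ↦ rfl
      ext e
      rw [Nat.mem_divisors, Finset.mem_filter, Finset.mem_Icc]
      have h5 : e ∣ Int.gcd v.1 v.2 ↔ (e : ℤ) ∣ v.1 ∧ (e : ℤ) ∣ v.2 := by
        rw [← Int.natCast_dvd_natCast]; exact Int.dvd_coe_gcd_iff
      constructor
      · rintro ⟨h6, h7⟩
        refine ⟨⟨Nat.pos_of_dvd_of_pos h6 (Nat.pos_of_ne_zero h7), ?_⟩, h5.1 h6⟩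
        exact (Nat.le_of_dvd (Nat.pos_of_ne_zero h7) h6).trans (hgle v hv)
      · rintro ⟨h6, h7⟩
        exact ⟨h5.2 h7, hgpos v hv⟩
    rw [Finset.sum_congr rfl e2, Finset.sum_comm]
    refine Finset.sum_congr rfl fun e _ ↦ ?_
    rw [← Finset.sum_filter, Finset.sum_const, nsmul_eq_mul, mul_comm]
  rw [hcount, Finset.mul_sum, ← Finset.sum_sub_distrib]
  refine (Finset.abs_sum_le_sum_abs _ _).trans (Finset.sum_le_sum fun e he ↦ ?_)
  rw [Finset.mem_Icc] at he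
  have he0 : 0 < e := he.1
  have heR : (0 : ℝ) < e := by exact_mod_cast he0
  have hq : 0 < M / e.gcd M :=
    Nat.div_pos (Nat.gcd_le_right _ hM) (Nat.gcd_pos_of_pos_left _ he0)
  have hqR : (0 : ℝ) < ((M / e.gcd M : ℕ) : ℝ) := by exact_mod_cast hq
  have hcard : ((W.filter fun v ↦ (e : ℤ) ∣ v.1 ∧ (e : ℤ) ∣ v.2).card : ℝ) =
      ((annSet u y r1 r2 (M / e.gcd M) (R1 / e) (R2 / e)).ncard : ℝ) := by
    congr 1
    have e3 : ((W.filter fun v ↦ (e : ℤ) ∣ v.1 ∧ (e : ℤ) ∣ v.2 : Finset (ℤ × ℤ)) : Set (ℤ × ℤ)) =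
        {v ∈ annSet u y r1 r2 M R1 R2 | (e : ℤ) ∣ v.1 ∧ (e : ℤ) ∣ v.2} := by
      ext v
      rw [Finset.mem_coe, Finset.mem_filter, hWmem]
      rfl
    rw [← Set.ncard_coe_finset, e3, annSet_multiples he0, Set.ncard_image_of_injective]
    intro v v' h
    simp only [Prod.mk.injEq] at h
    have hez : (e : ℤ) ≠ 0 := by exact_mod_cast he0.ne'
    ext
    · exact mul_left_cancel₀ hez h.1
    · exact mul_left_cancel₀ hez h.2
  obtain ⟨-, hc⟩ := annSet_card (u := u) hy hr hq (R1 := R1 / e) (R2 := R2 / e) (by positivity)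
    (by gcongr)
  rw [hcard]
  have hterm : Real.pi * (R2 ^ 2 - R1 ^ 2) / y * cTerm M e =
      (μ e : ℝ) * (Real.pi * ((R2 / e) ^ 2 - (R1 / e) ^ 2) / (((M / e.gcd M : ℕ) : ℝ) * y)) := by
    unfold cTerm
    field_simp
  rw [hterm, ← mul_sub, abs_mul]
  have h3 : |((μ e : ℤ) : ℝ)| ≤ 1 := by exact_mod_cast abs_moebius_le_one (n := e)
  calc |((μ e : ℤ) : ℝ)| * _ ≤ 1 * _ := by gcongr
    _ ≤ _ := by rw [one_mul]; exact hc

end

end Pool.Agent.Work.MP_af11aa_nt
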