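import Mathlib
import Pool.Agent.Work.MP_af11aa_nt.Count
import Pool.Agent.Work.MP_af11aa_nt.Primitive
import Pool.Agent.Work.MP_af11aa_nt.Unfold

namespace Pool.Agent.Work.MP_af11aa_nt

open UpperHalfPlane CongruenceSubgroup MeasureTheory
open scoped MatrixGroups Topology ENNReal Modular

noncomputable section

/-- the half open strip. -/
def hstrip (Y : ℝ) : Set ℍ := {z | 0 ≤ z.re ∧ z.re < 1 ∧ 1 / Y ≤ z.im ∧ z.im < 2 / Y}

lemma measurableSet_hstrip (Y : ℝ) : MeasurableSet (hstrip Y) := by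
  unfold hstrip
  have h1 := measurable_upper_re
  have h2 := measurable_upper_im
  refine MeasurableSet.inter (measurableSet_le measurable_const h1) ?_
  refine MeasurableSet.inter (measurableSet_lt h1 measurable_const) ?_
  exact MeasurableSet.inter (measurableSet_le measurable_const h2)
    (measurableSet_lt h2 measurable_const)

lemma im_range_iff {Y y Q : ℝ} (hY : 0 < Y) (hQ : 0 < Q) :
    (1 / Y ≤ y / Q ∧ y / Q < 2 / Y) ↔ (Q ≤ Y * y ∧ Y * y / 2 < Q) := by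
  rw [div_le_div_iff₀ hY hQ, div_lt_div_iff₀ hQ hY]
  constructor
  · rintro ⟨h1, h2⟩
    constructor <;> linarith
  · rintro ⟨h1, h2⟩
    constructor <;> linarith

lemma mul_apply_two (x y : SL(2, ℤ)) (i j : Fin 2) :
    (x * y) i j = x i 0 * y 0 j + x i 1 * y 1 j := by
  rw [Matrix.SpecialLinearGroup.coe_mul, Matrix.mul_apply, Fin.sum_univ_two]

/-- counting translates in the strip by primitive lattice points. -/
theorem tsum_hstrip_eq (M : ℕ) [NeZero M] {Y : ℝ} (hY : 0 < Y) (g0 : SL(2, ℤ)) {z : ℍ}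
    (hz : z ∈ (𝒟 : Set ℍ)) :
    ∑' k : Gamma0 M, (hstrip Y).indicator (1 : ℍ → ℝ≥0∞) ((k : SL(2, ℤ))⁻¹ • g0 • z) =
      ((primSet z.re z.im (g0 1 0) (g0 1 1) M (Real.sqrt (Y * z.im / 2))
        (Real.sqrt (Y * z.im))).ncard : ℝ≥0∞) := by
  classical
  have hy := z.im_pos
  have hM : 0 < M := NeZero.pos M
  set R1 := Real.sqrt (Y * z.im / 2) with hR1
  set R2 := Real.sqrt (Y * z.im) with hR2
  have hR1s : R1 ^ 2 = Y * z.im / 2 := Real.sq_sqrt (by positivity)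
  have hR2s : R2 ^ 2 = Y * z.im := Real.sq_sqrt (by positivity)
  have hR1pos : 0 < R1 := Real.sqrt_pos.2 (by positivity)
  have hR12 : R1 ≤ R2 := Real.sqrt_le_sqrt (by linarith [mul_pos hY hy])
  have hfin : (primSet z.re z.im (g0 1 0) (g0 1 1) M R1 R2).Finite :=
    (annSet_card (u := z.re) hy (gcd_of_mem (γ := g0)) hM hR1pos hR12).1.subset fun v hv ↦ hv.1
  set A : Set (Gamma0 M) := {k | (k : SL(2, ℤ))⁻¹ • g0 • z ∈ hstrip Y} with hA
  have e1 : ∀ k : Gamma0 M, (hstrip Y).indicator (1 : ℍ → ℝ≥0∞) ((k : SL(2, ℤ))⁻¹ • g0 • z) =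
      A.indicator (fun _ ↦ (1 : ℝ≥0∞)) k := by
    intro k
    rw [Set.indicator_apply, Set.indicator_apply]
    rfl
  simp_rw [e1]
  rw [← tsum_subtype, ENNReal.tsum_set_one]
  set row : Gamma0 M → ℤ × ℤ := fun k ↦ (((k : SL(2, ℤ))⁻¹ * g0) 1 0, ((k : SL(2, ℤ))⁻¹ * g0) 1 1)
    with hrow
  have hdet := g0.det_coe
  rw [Matrix.det_fin_two] at hdet
  have hbij : Set.BijOn row A (primSet z.re z.im (g0 1 0) (g0 1 1) M R1 R2) := by
    refine ⟨?_, ?_, ?_⟩
    · intro k hk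
      rw [hA, Set.mem_ofPred_eq, ← mul_smul] at hk
      obtain ⟨hk1, hk2, hk3, hk4⟩ := hk
      set g := (k : SL(2, ℤ))⁻¹ * g0 with hg
      have hL : 0 < ‖lowerForm g z‖ ^ 2 := by
        have := norm_pos_iff.2 (lowerForm_ne_zero g z); positivity
      rw [im_smul_eq] at hk3 hk4
      have h5 := (im_range_iff hY hL).1 ⟨hk3, hk4⟩
      rw [normSq_lowerForm] at h5
      have hkmem : (k : SL(2, ℤ))⁻¹ ∈ Gamma0 M := inv_mem k.2
      rw [Gamma0_mem, ZMod.intCast_zmod_eq_zero_iff_dvd] at hkmem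
      have hlin : (g 1 0) * (g0 1 1) - (g 1 1) * (g0 1 0) = (k : SL(2, ℤ))⁻¹ 1 0 := by
        rw [hg, mul_apply_two, mul_apply_two]
        linear_combination ((k : SL(2, ℤ))⁻¹ 1 0) * hdet
      refine ⟨⟨⟨?_, ?_⟩, ?_⟩, (gcd_of_mem (γ := g))⟩
      · change (M : ℤ) ∣ (g 1 0) * (g0 1 1) - (g 1 1) * (g0 1 0)
        rw [hlin]; exact hkmem
      · change ((g 1 0 : ℤ) * z.re + (g 1 1 : ℤ)) ^ 2 + ((g 1 0 : ℤ) * z.im) ^ 2 ≤ R2 ^ 2
        rw [hR2s]; exact h5.1
      · rintro ⟨-, h6⟩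
        change ((g 1 0 : ℤ) * z.re + (g 1 1 : ℤ)) ^ 2 + ((g 1 0 : ℤ) * z.im) ^ 2 ≤ R1 ^ 2 at h6
        rw [hR1s] at h6
        linarith [h5.2]
    · intro k hk k' hk' h
      rw [hA, Set.mem_ofPred_eq, ← mul_smul] at hk hk'
      simp only [hrow, Prod.mk.injEq] at h
      have h2 := eq_of_row h.1 h.2 hk.1 hk.2.1 hk'.1 hk'.2.1
      have h3 : (k : SL(2, ℤ))⁻¹ = (k' : SL(2, ℤ))⁻¹ := mul_right_cancel h2
      exact Subtype.ext (inv_injective h3)
    · rintro ⟨c, d⟩ ⟨⟨⟨h1, h2⟩, h3⟩, h4⟩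
      simp only at h1 h2 h4
      obtain ⟨g, -, hg⟩ := ModularGroup.bottom_row_surj (R := ℤ) (show
        (![c, d] : Fin 2 → ℤ) ∈ {cd : Fin 2 → ℤ | IsCoprime (cd 0) (cd 1)} from h4)
      have hg10 : g 1 0 = c := congrFun hg 0
      have hg11 : g 1 1 = d := congrFun hg 1
      set n : ℤ := -⌊(g • z).re⌋ with hn
      set g' := ModularGroup.T ^ n * g with hg'
      have hT10 : (ModularGroup.T ^ n) 1 0 = 0 := by
        rw [ModularGroup.coe_T_zpow]; simp
      have hT11 : (ModularGroup.T ^ n) 1 1 = 1 := by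
        rw [ModularGroup.coe_T_zpow]; simp
      have hg'10 : g' 1 0 = c := by
        rw [hg', mul_apply_two, hT10, hT11, hg10]; ring
      have hg'11 : g' 1 1 = d := by
        rw [hg', mul_apply_two, hT10, hT11, hg11]; ring
      have hre : (g' • z).re = (g • z).re - ⌊(g • z).re⌋ := by
        rw [hg', mul_smul, ModularGroup.re_T_zpow_smul, hn]; push_cast; ring
      have hfl1 := Int.floor_le (g • z).re
      have hfl2 := Int.lt_floor_add_one (g • z).re
      have hkm : g' * g0⁻¹ ∈ Gamma0 M := by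
        rw [Gamma0_mem, ZMod.intCast_zmod_eq_zero_iff_dvd, mul_apply_two, hg'10, hg'11]
        have i00 : g0⁻¹ 0 0 = g0 1 1 := by simp [Matrix.SpecialLinearGroup.SL2_inv_expl]
        have i10 : g0⁻¹ 1 0 = -g0 1 0 := by simp [Matrix.SpecialLinearGroup.SL2_inv_expl]
        rw [i00, i10]
        have : c * g0 1 1 + d * -g0 1 0 = c * g0 1 1 - d * g0 1 0 := by ring
        rw [this]; exact h1
      refine ⟨⟨(g' * g0⁻¹)⁻¹, inv_mem hkm⟩, ?_, ?_⟩
      · rw [hA, Set.mem_ofPred_eq]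
        simp only [inv_inv]
        rw [← mul_smul, inv_mul_cancel_right]
        have hL : 0 < ‖lowerForm g' z‖ ^ 2 := by
          have := norm_pos_iff.2 (lowerForm_ne_zero g' z); positivity
        have h6 : ‖lowerForm g' z‖ ^ 2 ≤ Y * z.im ∧ Y * z.im / 2 < ‖lowerForm g' z‖ ^ 2 := by
          rw [normSq_lowerForm, hg'10, hg'11]
          refine ⟨by rw [← hR2s]; exact h2, ?_⟩
          by_contra hcon
          push Not at hcon
          exact h3 ⟨h1, by rw [hR1s]; exact hcon⟩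
        have h7 := (im_range_iff (y := z.im) hY hL).2 h6
        rw [← im_smul_eq] at h7
        exact ⟨by rw [hre]; linarith, by rw [hre]; linarith, h7.1, h7.2⟩
      · simp only [hrow, inv_inv]
        rw [inv_mul_cancel_right, hg'10, hg'11]
  have h5 : A.encard = (primSet z.re z.im (g0 1 0) (g0 1 1) M R1 R2).encard := by
    rw [← hbij.image_eq, hbij.injOn.encard_image]
  rw [h5, ← hfin.cast_ncard_eq]
  simp

/-- the counting function as a real number. -/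
def nCount (M : ℕ) (Y : ℝ) (g0 : SL(2, ℤ)) (z : ℍ) : ℕ :=
  (primSet z.re z.im (g0 1 0) (g0 1 1) M (Real.sqrt (Y * z.im / 2)) (Real.sqrt (Y * z.im))).ncard

lemma four_fifths_le {z : ℍ} (hz : z ∈ (𝒟 : Set ℍ)) : 4 / 5 ≤ z.im := by
  have h := ModularGroup.three_le_four_mul_im_sq_of_mem_fd hz
  have := z.im_pos
  nlinarith

/-- the asymptotic formula for the counting function. -/
theorem nCount_asymp {M : ℕ} (hM : 0 < M) {Y : ℝ} (hY : 1 ≤ Y) (g0 : SL(2, ℤ)) {z : ℍ}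
    (hz : z ∈ (𝒟 : Set ℍ)) :
    |(nCount M Y g0 z : ℝ) - cDens M * Y| ≤ 25 * (Y * z.im) ^ (3 / 4 : ℝ) := by
  have hy := z.im_pos
  have hy45 := four_fifths_le hz
  have hY0 : 0 < Y := by linarith
  set R1 := Real.sqrt (Y * z.im / 2) with hR1
  set R2 := Real.sqrt (Y * z.im) with hR2
  have hR1s : R1 ^ 2 = Y * z.im / 2 := Real.sq_sqrt (by positivity)
  have hR2s : R2 ^ 2 = Y * z.im := Real.sq_sqrt (by positivity)
  have hR1pos : 0 < R1 := Real.sqrt_pos.2 (by positivity)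
  have hR2pos : 0 < R2 := Real.sqrt_pos.2 (by positivity)
  have hR12 : R1 ≤ R2 := Real.sqrt_le_sqrt (by linarith [mul_pos hY0 hy])
  have hu : |z.re| ≤ 1 / 2 := hz.2
  have huy : 1 ≤ z.re ^ 2 + z.im ^ 2 := by
    have := hz.1
    rw [Complex.normSq_apply] at this
    have e : (z : ℂ).re = z.re := rfl
    have e2 : (z : ℂ).im = z.im := rfl
    rw [e, e2] at this
    nlinarith
  obtain ⟨-, h1⟩ := primSet_card hy hu huy (gcd_of_mem (γ := g0)) hM hR1pos hR12
  have hmain : Real.pi * (R2 ^ 2 - R1 ^ 2) / z.im = Real.pi * Y / 2 := by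
    rw [hR1s, hR2s]; field_simp; ring
  rw [hmain] at h1
  set E := ⌊R2⌋₊ with hE
  have hEle : (E : ℝ) ≤ R2 := Nat.floor_le hR2pos.le
  have hElt : R2 < (E : ℝ) + 1 := Nat.lt_floor_add_one _
  have h2 := tail_cTerm hM E
  have hyinv : 1 / z.im ≤ 5 / 4 := by
    rw [div_le_div_iff₀ hy (by norm_num)]; linarith
  -- first error
  have herr1 : ∑ e ∈ Finset.Icc 1 E, 2 * (2 * (R2 / e) + 2 * (R2 / e) / z.im + 1) ≤
      18 * (R2 * Real.sqrt R2) + 2 * R2 := by
    have hh := harmonic_le_sqrt E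
    have hsq : Real.sqrt E ≤ Real.sqrt R2 := Real.sqrt_le_sqrt hEle
    calc ∑ e ∈ Finset.Icc 1 E, 2 * (2 * (R2 / e) + 2 * (R2 / e) / z.im + 1)
        ≤ ∑ e ∈ Finset.Icc 1 E, (9 * R2 * (1 / (e : ℝ)) + 2) := by
          refine Finset.sum_le_sum fun e he ↦ ?_
          have he0 : (0 : ℝ) < e := by
            rw [Finset.mem_Icc] at he; exact_mod_cast he.1
          have e1 : 2 * (2 * (R2 / e) + 2 * (R2 / e) / z.im + 1) =
              (4 + 4 * (1 / z.im)) * R2 * (1 / (e : ℝ)) + 2 := by field_simp; ring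
          rw [e1]
          have : (4 + 4 * (1 / z.im)) ≤ 9 := by linarith
          gcongr
      _ = 9 * R2 * ∑ e ∈ Finset.Icc 1 E, (1 / (e : ℝ)) + 2 * E := by
          rw [Finset.sum_add_distrib, ← Finset.mul_sum]
          simp [mul_comm]
      _ ≤ 9 * R2 * (2 * Real.sqrt R2) + 2 * R2 := by
          have : ∑ e ∈ Finset.Icc 1 E, (1 / (e : ℝ)) ≤ 2 * Real.sqrt R2 := by linarith
          gcongr
      _ = _ := by ring
  have herr2 : |Real.pi * Y / 2 * ∑ e ∈ Finset.Icc 1 E, cTerm M e - cDens M * Y| ≤ 4 * R2 := by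
    unfold cDens
    have e1 : Real.pi * Y / 2 * ∑ e ∈ Finset.Icc 1 E, cTerm M e -
        Real.pi / 2 * (∑' e, cTerm M e) * Y =
        -(Real.pi * Y / 2) * (∑' e, cTerm M e - ∑ e ∈ Finset.Icc 1 E, cTerm M e) := by ring
    rw [e1, abs_mul, abs_neg, abs_of_pos (by positivity)]
    have hYR : Y = R2 ^ 2 * (1 / z.im) := by rw [hR2s]; field_simp
    have h3 : 2 / ((E : ℝ) + 1) ≤ 2 / R2 := by gcongr
    calc Real.pi * Y / 2 * |∑' e, cTerm M e - ∑ e ∈ Finset.Icc 1 E, cTerm M e|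
        ≤ Real.pi * Y / 2 * (2 / R2) := by gcongr; linarith
      _ = Real.pi * R2 * (1 / z.im) := by rw [hYR]; field_simp
      _ ≤ 3.15 * R2 * (5 / 4) := by
          have := Real.pi_lt_d2
          gcongr
      _ ≤ 4 * R2 := by nlinarith
  have hR2ge : 36 / 49 ≤ R2 := by
    have h4 : (36 / 49 : ℝ) ^ 2 ≤ R2 ^ 2 := by rw [hR2s]; nlinarith
    exact (pow_le_pow_iff_left₀ (by norm_num) hR2pos.le (by norm_num)).1 h4
  have hsqR : 6 / 7 ≤ Real.sqrt R2 := by
    apply Real.le_sqrt_of_sq_le; linarith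
  have hpow : (Y * z.im) ^ (3 / 4 : ℝ) = R2 * Real.sqrt R2 := by
    rw [← hR2s, Real.sqrt_eq_rpow, ← Real.rpow_natCast, ← Real.rpow_mul hR2pos.le]
    nth_rewrite 2 [← Real.rpow_one R2]
    rw [← Real.rpow_add hR2pos]
    norm_num
  have hR2le : R2 ≤ 7 / 6 * (R2 * Real.sqrt R2) := by nlinarith
  rw [hpow]
  have hfinal : |(nCount M Y g0 z : ℝ) - cDens M * Y| ≤
      (18 * (R2 * Real.sqrt R2) + 2 * R2) + 4 * R2 := by
    calc |(nCount M Y g0 z : ℝ) - cDens M * Y|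
        ≤ |(nCount M Y g0 z : ℝ) - Real.pi * Y / 2 * ∑ e ∈ Finset.Icc 1 E, cTerm M e| +
          |Real.pi * Y / 2 * ∑ e ∈ Finset.Icc 1 E, cTerm M e - cDens M * Y| := abs_sub_le _ _ _
      _ ≤ _ := add_le_add (h1.trans herr1) herr2
  linarith

end

end Pool.Agent.Work.MP_af11aa_nt
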