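import Mathlib
import Pool.Agent.Work.MP_af11aa_nt.Strip
import Pool.Agent.Work.MP_af11aa_nt.Rows

namespace Pool.Agent.Work.MP_af11aa_nt

open UpperHalfPlane CongruenceSubgroup MeasureTheory
open Complex hiding Gamma
open scoped MatrixGroups Manifold Topology ComplexConjugate ENNReal

noncomputable section

lemma hasSum_of_eq {ι α : Type*} [AddCommMonoid α] [TopologicalSpace α] {f g : ι → α} {a : α}
    (h : HasSum f a) (e : ∀ n, f n = g n) : HasSum g a := by
  have : f = g := funext e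
  rwa [← this]

/-- Parseval for absolutely convergent Fourier series. -/
lemma parseval_summable {b : ℕ → ℂ} (hb : Summable fun m ↦ ‖b m‖) {g : ℝ → ℂ}
    (hg : Continuous g) (hgb : ∀ x, HasSum (fun m : ℕ ↦ b m * eChar m x) (g x))
    (hc : ∀ m : ℕ, ∫ x in (0 : ℝ)..1, g x * eChar (-m) x = b m) :
    HasSum (fun m ↦ ‖b m‖ ^ 2) (∫ x in (0 : ℝ)..1, ‖g x‖ ^ 2) := by
  have hgm : ∃ C, ∀ x ∈ Set.Icc (0 : ℝ) 1, ‖g x‖ ≤ C :=
    isCompact_Icc.exists_bound_of_continuousOn hg.continuousOn
  obtain ⟨C, hC⟩ := hgm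
  have hnE : ∀ (m : ℤ) (x : ℝ), ‖eChar m x‖ = 1 := by
    intro m x
    unfold eChar
    rw [Complex.norm_exp]
    have : (2 * (Real.pi : ℂ) * Complex.I * m * x).re = 0 := by
      have : (2 * (Real.pi : ℂ) * Complex.I * m * x) = ((2 * Real.pi * m * x : ℝ) : ℂ) * Complex.I := by
        push_cast; ring
      rw [this]; simp
    rw [this, Real.exp_zero]
  set F : ℕ → ℝ → ℂ := fun m x ↦ (b m * eChar m x) * conj (g x) with hF
  have hFc : ∀ m, Continuous (F m) := fun m ↦
    (continuous_const.mul (continuous_eChar _)).mul (Complex.continuous_conj.comp hg)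
  have hint : ∀ m, Integrable (F m) (volume.restrict (Set.Ioc (0 : ℝ) 1)) := fun m ↦
    ((hFc m).integrableOn_Icc (a := (0 : ℝ)) (b := 1)).mono_set Set.Ioc_subset_Icc_self
  have hsum : Summable fun m ↦ ∫ x in Set.Ioc (0 : ℝ) 1, ‖F m x‖ := by
    refine Summable.of_nonneg_of_le (fun m ↦ integral_nonneg fun x ↦ norm_nonneg _) (fun m ↦ ?_)
      (hb.mul_right C)
    calc ∫ x in Set.Ioc (0 : ℝ) 1, ‖F m x‖ ≤ ∫ x in Set.Ioc (0 : ℝ) 1, ‖b m‖ * C := by
          refine setIntegral_mono_on (hint m).norm (integrable_const _) measurableSet_Ioc fun x hx ↦ ?_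
          rw [hF]
          simp only [norm_mul, hnE, mul_one, RCLike.norm_conj]
          exact mul_le_mul_of_nonneg_left (hC x ⟨hx.1.le, hx.2⟩) (norm_nonneg _)
      _ = ‖b m‖ * C := by simp
  have h1 := hasSum_integral_of_summable_integral_norm hint hsum
  have h2 : ∀ x, ∑' m, F m x = ((‖g x‖ ^ 2 : ℝ) : ℂ) := by
    intro x
    rw [hF]
    simp only
    rw [tsum_mul_right, (hgb x).tsum_eq, Complex.mul_conj, Complex.normSq_eq_norm_sq]
  have h3 : ∀ m : ℕ, ∫ x in Set.Ioc (0 : ℝ) 1, F m x = ((‖b m‖ ^ 2 : ℝ) : ℂ) := by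
    intro m
    have e : ∀ x, F m x = b m * conj (g x * eChar (-m) x) := by
      intro x
      rw [hF, map_mul, conj_eChar]
      simp only [neg_neg]
      ring
    simp_rw [e]
    rw [integral_const_mul, integral_conj, ← intervalIntegral.integral_of_le (by norm_num), hc m,
      Complex.mul_conj, Complex.normSq_eq_norm_sq]
  simp_rw [h2, h3] at h1
  rw [integral_complex_ofReal] at h1
  rw [intervalIntegral.integral_of_le (by norm_num)]
  exact_mod_cast h1

section

variable {N : ℕ} {χ : DirichletCharacter ℂ N} {f : ℍ → ℂ}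

lemma hasSum_f (hf : IsCuspForm N χ f) (z : ℍ) :
    HasSum (fun n : ℕ ↦ fourierCoeff f n * Complex.exp (2 * Real.pi * Complex.I * n * z)) (f z) := by
  have h := hasSum_qExpansion one_pos hf.periodic hf.holo hf.zeroAt.isBoundedAtImInfty z
  refine hasSum_of_eq h fun n ↦ ?_
  unfold fourierCoeff Function.Periodic.qParam
  rw [smul_eq_mul, ← Complex.exp_nat_mul]
  congr 2
  push_cast
  ring

/-- geometric sum over residues. -/
lemma sum_residue_exp (d : ℕ) [NeZero d] (n : ℕ) :
    ∑ x : ZMod d, Complex.exp (2 * Real.pi * Complex.I * n * (x.val : ℤ) / d) =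
      if d ∣ n then (d : ℂ) else 0 := by
  have hd : (d : ℂ) ≠ 0 := by exact_mod_cast NeZero.ne d
  rw [sum_zmod_val d (fun k ↦ Complex.exp (2 * Real.pi * Complex.I * n * ((k : ℕ) : ℤ) / d))]
  set ζ : ℂ := Complex.exp (2 * Real.pi * Complex.I * n / d) with hζ
  have e : ∀ k : ℕ, Complex.exp (2 * Real.pi * Complex.I * n * ((k : ℕ) : ℤ) / d) = ζ ^ k := by
    intro k
    rw [hζ, ← Complex.exp_nat_mul]
    congr 1
    push_cast
    ring
  simp_rw [e]
  have hζd : ζ ^ d = 1 := by
    rw [hζ, ← Complex.exp_nat_mul, Complex.exp_eq_one_iff]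
    refine ⟨n, ?_⟩
    field_simp
    push_cast
    ring
  split_ifs with hdn
  · have hζ1 : ζ = 1 := by
      obtain ⟨k, hk⟩ := hdn
      rw [hζ, Complex.exp_eq_one_iff]
      refine ⟨k, ?_⟩
      rw [hk]
      push_cast
      field_simp
    rw [hζ1]; simp
  · have hζ1 : ζ ≠ 1 := by
      intro h
      rw [hζ, Complex.exp_eq_one_iff] at h
      obtain ⟨k, hk⟩ := h
      apply hdn
      have h2 : (n : ℂ) = d * k := by
        have hpi : (2 * Real.pi * Complex.I : ℂ) ≠ 0 := Complex.two_pi_I_ne_zero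
        have h3 : (2 * Real.pi * Complex.I : ℂ) * n = (2 * Real.pi * Complex.I) * (d * k) := by
          rw [div_eq_iff hd] at hk
          rw [hk]; ring
        exact mul_left_cancel₀ hpi h3
      have h4 : (n : ℤ) = d * k := by exact_mod_cast h2
      have h5 : (d : ℤ) ∣ (n : ℤ) := ⟨k, h4⟩
      exact_mod_cast h5
    rw [geom_sum_eq hζ1, hζd]; simp

/-- the expansion of the trace sum. -/
lemma hasSum_trSum (hf : IsCuspForm N χ f) (d : ℕ) [NeZero d] {y : ℝ} (hy : 0 < y) (x : ℝ) :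
    HasSum (fun m : ℕ ↦ (d * fourierCoeff f (d * m) * Real.exp (-(2 * Real.pi * m * y))) *
      eChar m x) (trSum f d (pt x y)) := by
  have hd : (d : ℂ) ≠ 0 := by exact_mod_cast NeZero.ne d
  have h1 : HasSum (fun n : ℕ ↦ ∑ b : ZMod d, fourierCoeff f n *
      Complex.exp (2 * Real.pi * Complex.I * n * (shiftDiv d (b.val : ℤ) (pt x y) : ℍ)))
      (trSum f d (pt x y)) := by
    unfold trSum
    exact hasSum_sum fun b _ ↦ hasSum_f hf _
  have h2 : ∀ n : ℕ, ∑ b : ZMod d, fourierCoeff f n *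
      Complex.exp (2 * Real.pi * Complex.I * n * (shiftDiv d (b.val : ℤ) (pt x y) : ℍ)) =
      if d ∣ n then d * fourierCoeff f n *
        Complex.exp (2 * Real.pi * Complex.I * n * (x + y * Complex.I) / d) else 0 := by
    intro n
    have e : ∀ b : ZMod d, fourierCoeff f n *
      Complex.exp (2 * Real.pi * Complex.I * n * (shiftDiv d (b.val : ℤ) (pt x y) : ℍ)) =
      (fourierCoeff f n * Complex.exp (2 * Real.pi * Complex.I * n * (x + y * Complex.I) / d)) *
      Complex.exp (2 * Real.pi * Complex.I * n * (b.val : ℤ) / d) := by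
      intro b
      rw [coe_shiftDiv, coe_pt hy, mul_assoc (fourierCoeff f n), ← Complex.exp_add]
      congr 2
      ring
    simp_rw [e]
    rw [← Finset.mul_sum, sum_residue_exp]
    split_ifs <;> ring
  simp_rw [h2] at h1
  have hinj : Function.Injective fun m : ℕ ↦ d * m := by
    intro a b hab
    exact Nat.eq_of_mul_eq_mul_left (NeZero.pos d) hab
  rw [← hinj.hasSum_iff] at h1
  · refine hasSum_of_eq h1 fun m ↦ ?_
    simp only [Function.comp_apply, dvd_mul_right, if_true]
    unfold eChar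
    rw [mul_assoc ((d : ℂ) * fourierCoeff f (d * m)), Complex.ofReal_exp, ← Complex.exp_add]
    congr 2
    push_cast
    field_simp
    ring_nf
    rw [Complex.I_sq]
    ring
  · intro n hn
    rw [if_neg]
    rintro ⟨m, hm⟩
    exact hn ⟨m, hm.symm⟩

/-- Parseval on horizontal lines. -/
lemma line_eq (hf : IsCuspForm N χ f) (d : ℕ) [NeZero d] {y : ℝ} (hy : 0 < y) :
    HasSum (fun m : ℕ ↦ (d : ℝ) ^ 2 * ‖fourierCoeff f (d * m)‖ ^ 2 *
      Real.exp (-(4 * Real.pi * m * y))) (∫ x in (0 : ℝ)..1, ‖trSum f d (pt x y)‖ ^ 2) := by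
  set b : ℕ → ℂ := fun m ↦ d * fourierCoeff f (d * m) * Real.exp (-(2 * Real.pi * m * y)) with hb
  have hsum0 : Summable fun m : ℕ ↦ ‖b m‖ := by
    have h := (hasSum_trSum hf d hy 0).summable.norm
    refine h.congr fun m ↦ ?_
    rw [norm_mul]
    have : ‖eChar m 0‖ = 1 := by unfold eChar; simp
    rw [this, mul_one]
  have h := parseval_summable hsum0 (continuous_trSum_pt hf d hy) (hasSum_trSum hf d hy)
    (fun m ↦ trSum_coeff hf d m hy)
  refine hasSum_of_eq h fun m ↦ ?_
  rw [hb]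
  simp only
  rw [norm_mul, norm_mul, Complex.norm_natCast, Complex.norm_real,
    Real.norm_of_nonneg (Real.exp_pos _).le, mul_pow, mul_pow, ← Real.exp_nat_mul]
  congr 2
  push_cast; ring

end

end

end Pool.Agent.Work.MP_af11aa_nt
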