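import Mathlib
import Pool.Agent.Work.MP_af11aa_nt.Parseval

namespace Pool.Agent.Work.MP_af11aa_nt

open UpperHalfPlane CongruenceSubgroup MeasureTheory
open Complex hiding Gamma
open scoped MatrixGroups Manifold Topology ComplexConjugate ENNReal

noncomputable section

/-- the weight attached to `n`. -/
def wInt (X : ℝ) (n : ℕ) : ℝ :=
  ∫ u in (1 / X)..(2 / X), u ^ (-(1 / 2 : ℝ)) * Real.exp (-(4 * Real.pi * n * u))

lemma continuousOn_wInt {X : ℝ} (hX : 0 < X) (n : ℕ) :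
    ContinuousOn (fun u : ℝ ↦ u ^ (-(1 / 2 : ℝ)) * Real.exp (-(4 * Real.pi * n * u)))
      (Set.Icc (1 / X) (2 / X)) := by
  refine ContinuousOn.mul ?_ ?_
  · refine ContinuousOn.rpow_const continuousOn_id fun u hu ↦ Or.inl ?_
    have : 0 < 1 / X := by positivity
    exact (this.trans_le hu.1).ne'
  · fun_prop

lemma one_div_le_two_div {X : ℝ} (hX : 0 < X) : 1 / X ≤ 2 / X := by
  gcongr; norm_num

lemma wInt_nonneg {X : ℝ} (hX : 0 < X) (n : ℕ) : 0 ≤ wInt X n := by
  unfold wInt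
  refine intervalIntegral.integral_nonneg (one_div_le_two_div hX) fun u hu ↦ ?_
  have h0 : 0 < 1 / X := by positivity
  have : 0 < u := h0.trans_le hu.1
  positivity

/-- scaling of the weights. -/
lemma wInt_scale {X : ℝ} (d : ℕ) (hd : 0 < d) (m : ℕ) :
    wInt (X / d) m = Real.sqrt d * wInt X (d * m) := by
  have hdR : (0 : ℝ) < d := by exact_mod_cast hd
  unfold wInt
  have h := intervalIntegral.integral_comp_mul_left (a := 1 / X) (b := 2 / X)
    (fun u : ℝ ↦ u ^ (-(1 / 2 : ℝ)) * Real.exp (-(4 * Real.pi * m * u))) hdR.ne'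
  have e1 : (d : ℝ) * (1 / X) = 1 / (X / d) := by
    rw [one_div_div]; ring
  have e2 : (d : ℝ) * (2 / X) = 2 / (X / d) := by
    rw [div_div_eq_mul_div]; ring
  rw [e1, e2, smul_eq_mul] at h
  have h2 : ∫ y in (1 / (X / d))..(2 / (X / d)), y ^ (-(1 / 2 : ℝ)) * Real.exp (-(4 * Real.pi * m * y)) =
      d * ∫ x in (1 / X)..(2 / X), (d * x) ^ (-(1 / 2 : ℝ)) * Real.exp (-(4 * Real.pi * m * (d * x))) := by
    rw [h]; field_simp
  rw [h2, ← intervalIntegral.integral_const_mul, ← intervalIntegral.integral_const_mul]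
  refine intervalIntegral.integral_congr_ae ?_
  refine Filter.Eventually.of_forall fun x _ ↦ ?_
  rcases le_or_gt 0 x with hx | hx
  · rw [Real.mul_rpow hdR.le hx]
    have e3 : (d : ℝ) * (d : ℝ) ^ (-(1 / 2 : ℝ)) = Real.sqrt d := by
      rw [Real.sqrt_eq_rpow]
      nth_rewrite 1 [← Real.rpow_one (d : ℝ)]
      rw [← Real.rpow_add hdR]
      norm_num
    have e4 : (4 * Real.pi * m * (d * x)) = 4 * Real.pi * ((d * m : ℕ) : ℝ) * x := by
      push_cast; ring
    rw [e4, ← e3]; ring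
  · rw [Real.rpow_def_of_neg hx, Real.rpow_def_of_neg (by nlinarith : (d : ℝ) * x < 0),
      Real.log_mul hdR.ne' hx.ne, add_mul, Real.exp_add]
    have e3 : (d : ℝ) * Real.exp (Real.log d * (-(1 / 2 : ℝ))) = Real.sqrt d := by
      rw [← Real.rpow_def_of_pos hdR, Real.sqrt_eq_rpow]
      nth_rewrite 1 [← Real.rpow_one (d : ℝ)]
      rw [← Real.rpow_add hdR]
      norm_num
    have e4 : (4 * Real.pi * m * (d * x)) = 4 * Real.pi * ((d * m : ℕ) : ℝ) * x := by
      push_cast; ring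
    rw [e4, ← e3]; ring

section

variable {N : ℕ} {χ : DirichletCharacter ℂ N} {f : ℍ → ℂ}

theorem strip_eq (hf : IsCuspForm N χ f) (d : ℕ) [NeZero d] {Y : ℝ} (hY : 0 < Y) :
    ∫⁻ z in hstrip Y, ENNReal.ofReal (gFun f d z) =
      ∑' m : ℕ, ENNReal.ofReal ((d : ℝ) ^ 2 * ‖fourierCoeff f (d * m)‖ ^ 2 * wInt Y m) := by
  have hG : Measurable fun z ↦ ENNReal.ofReal (gFun f d z) :=
    (continuous_gFun hf d).measurable.ennreal_ofReal
  have hI : MeasurableSet (Set.Ico (0 : ℝ) 1 ×ˢ Set.Ico (1 / Y) (2 / Y)) :=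
    measurableSet_Ico.prod measurableSet_Ico
  have h1Y : 0 < 1 / Y := by positivity
  have step1 : ∫⁻ z in hstrip Y, ENNReal.ofReal (gFun f d z) =
      ∫⁻ p in Set.Ico (0 : ℝ) 1 ×ˢ Set.Ico (1 / Y) (2 / Y),
        ENNReal.ofReal (gFun f d (pt p.1 p.2)) * ENNReal.ofReal (1 / p.2 ^ 2) := by
    rw [← lintegral_indicator (measurableSet_hstrip Y),
      lintegral_coord (hG.indicator (measurableSet_hstrip Y))]
    have hsub : Set.Ico (0 : ℝ) 1 ×ˢ Set.Ico (1 / Y) (2 / Y) ⊆ Set.univ ×ˢ Set.Ioi 0 := by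
      rintro ⟨x, y⟩ ⟨hx, hy⟩
      exact ⟨Set.mem_univ _, lt_of_lt_of_le h1Y hy.1⟩
    calc _ = ∫⁻ p in Set.univ ×ˢ Set.Ioi 0,
          (Set.Ico (0 : ℝ) 1 ×ˢ Set.Ico (1 / Y) (2 / Y)).indicator (fun p : ℝ × ℝ ↦
            ENNReal.ofReal (gFun f d (pt p.1 p.2)) * ENNReal.ofReal (1 / p.2 ^ 2)) p := by
          refine setLIntegral_congr_fun (MeasurableSet.univ.prod measurableSet_Ioi) ?_
          rintro ⟨x, y⟩ ⟨-, hy⟩
          have hy0 : 0 < y := hy
          have e : (ofComplex (x + y * Complex.I)) = pt x y := rfl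
          have hiff : pt x y ∈ hstrip Y ↔ (x, y) ∈ Set.Ico (0 : ℝ) 1 ×ˢ Set.Ico (1 / Y) (2 / Y) := by
            unfold hstrip
            rw [Set.mem_ofPred_eq, re_pt hy0, im_pt hy0, Set.mem_prod, Set.mem_Ico, Set.mem_Ico]
            simp only
            tauto
          simp only
          rw [e]
          by_cases hm : pt x y ∈ hstrip Y
          · rw [Set.indicator_of_mem hm, Set.indicator_of_mem (hiff.1 hm)]
          · rw [Set.indicator_of_notMem hm, Set.indicator_of_notMem (fun h ↦ hm (hiff.2 h)), zero_mul]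
      _ = _ := by
          rw [lintegral_indicator hI, Measure.restrict_restrict hI,
            Set.inter_eq_self_of_subset_left hsub]
  rw [step1]
  have hmeas : AEMeasurable (fun p : ℝ × ℝ ↦
      ENNReal.ofReal (gFun f d (pt p.1 p.2)) * ENNReal.ofReal (1 / p.2 ^ 2))
      ((volume.prod volume).restrict (Set.Ico (0 : ℝ) 1 ×ˢ Set.Ico (1 / Y) (2 / Y))) := by
    have hsub : Set.Ico (0 : ℝ) 1 ×ˢ Set.Ico (1 / Y) (2 / Y) ⊆ {p : ℝ × ℝ | 0 < p.2} := by
      rintro ⟨x, y⟩ ⟨hx, hy⟩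
      exact lt_of_lt_of_le h1Y hy.1
    have hc : ContinuousOn (fun p : ℝ × ℝ ↦ gFun f d (pt p.1 p.2))
        (Set.Ico (0 : ℝ) 1 ×ˢ Set.Ico (1 / Y) (2 / Y)) :=
      (continuous_gFun hf d).comp_continuousOn (continuousOn_pt.mono hsub)
    have h2 : Measurable (fun p : ℝ × ℝ ↦ ENNReal.ofReal (1 / p.2 ^ 2)) := by fun_prop
    exact (hc.aemeasurable hI).ennreal_ofReal.mul h2.aemeasurable
  rw [Measure.volume_eq_prod, setLIntegral_prod_symm _ hmeas]
  -- inner integral
  have inner : ∀ y ∈ Set.Ico (1 / Y) (2 / Y),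
      ∫⁻ x in Set.Ico (0 : ℝ) 1, ENNReal.ofReal (gFun f d (pt x y)) *
        ENNReal.ofReal (1 / y ^ 2) =
      ∑' m : ℕ, ENNReal.ofReal ((d : ℝ) ^ 2 * ‖fourierCoeff f (d * m)‖ ^ 2) *
        ENNReal.ofReal (y ^ (-(1 / 2 : ℝ)) * Real.exp (-(4 * Real.pi * m * y))) := by
    intro y hy
    have hy0 : 0 < y := lt_of_lt_of_le h1Y hy.1
    have e1 : ∀ x : ℝ, ENNReal.ofReal (gFun f d (pt x y)) * ENNReal.ofReal (1 / y ^ 2) =
        ENNReal.ofReal (‖trSum f d (pt x y)‖ ^ 2 * y ^ (-(1 / 2 : ℝ))) := by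
      intro x
      rw [← ENNReal.ofReal_mul (gFun_nonneg _ _ _)]
      congr 1
      unfold gFun
      rw [im_pt hy0, mul_assoc]
      congr 1
      rw [show (3 / 2 : ℝ) = -(1 / 2) + 2 by norm_num, Real.rpow_add hy0]
      have : y ^ (2 : ℝ) = y ^ 2 := by norm_cast
      rw [this]
      field_simp
    simp_rw [e1]
    have hcont : Continuous fun x : ℝ ↦ ‖trSum f d (pt x y)‖ ^ 2 * y ^ (-(1 / 2 : ℝ)) :=
      ((continuous_trSum_pt hf d hy0).norm.pow 2).mul continuous_const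
    have e2 : ∫⁻ x in Set.Ico (0 : ℝ) 1, ENNReal.ofReal
        (‖trSum f d (pt x y)‖ ^ 2 * y ^ (-(1 / 2 : ℝ))) =
        ENNReal.ofReal (∫ x in (0 : ℝ)..1, ‖trSum f d (pt x y)‖ ^ 2 * y ^ (-(1 / 2 : ℝ))) := by
      rw [intervalIntegral.integral_of_le (by norm_num), ← integral_Ico_eq_integral_Ioc,
        ofReal_integral_eq_lintegral_ofReal]
      · exact (hcont.integrableOn_Icc).mono_set Set.Ico_subset_Icc_self
      · exact Filter.Eventually.of_forall fun x ↦ by positivity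
    rw [e2, intervalIntegral.integral_mul_const]
    have hs := (line_eq hf d hy0).mul_right (y ^ (-(1 / 2 : ℝ)))
    rw [← hs.tsum_eq, ENNReal.ofReal_tsum_of_nonneg]
    · refine tsum_congr fun m ↦ ?_
      rw [← ENNReal.ofReal_mul (by positivity)]
      congr 1
      ring
    · intro m
      have : 0 ≤ y ^ (-(1 / 2 : ℝ)) := by positivity
      positivity
    · exact hs.summable
  rw [setLIntegral_congr_fun measurableSet_Ico inner, lintegral_tsum]
  · refine tsum_congr fun m ↦ ?_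
    rw [lintegral_const_mul']
    · have hw : ∫⁻ y in Set.Ico (1 / Y) (2 / Y),
          ENNReal.ofReal (y ^ (-(1 / 2 : ℝ)) * Real.exp (-(4 * Real.pi * m * y))) =
          ENNReal.ofReal (wInt Y m) := by
        unfold wInt
        rw [intervalIntegral.integral_of_le (one_div_le_two_div hY), ← integral_Ico_eq_integral_Ioc,
          ofReal_integral_eq_lintegral_ofReal]
        · exact ((continuousOn_wInt hY m).integrableOn_Icc).mono_set Set.Ico_subset_Icc_self
        · refine (ae_restrict_iff' measurableSet_Ico).2 (Filter.Eventually.of_forall fun y hy ↦ ?_)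
          have hy0 : 0 < y := lt_of_lt_of_le h1Y hy.1
          have : 0 ≤ y ^ (-(1 / 2 : ℝ)) * Real.exp (-(4 * Real.pi * m * y)) := by positivity
          exact this
      rw [hw, ← ENNReal.ofReal_mul (by positivity)]
    · exact ENNReal.ofReal_ne_top
  · intro m
    have h2 : Measurable fun y : ℝ ↦ ENNReal.ofReal (y ^ (-(1 / 2 : ℝ)) *
        Real.exp (-(4 * Real.pi * m * y))) := by fun_prop
    exact (h2.const_mul _).aemeasurable

end

end

end Pool.Agent.Work.MP_af11aa_nt
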