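import Mathlib
import Pool.Agent.Work.MP_af11aa_nt.Coeff

namespace Pool.Agent.Work.MP_af11aa_nt

open UpperHalfPlane CongruenceSubgroup MeasureTheory Filter
open Complex hiding Gamma
open scoped MatrixGroups Manifold Topology ComplexConjugate ENNReal ModularForm

noncomputable section

variable {N : ℕ} {χ : DirichletCharacter ℂ N} {f : ℍ → ℂ}

lemma epsilon_pow_four (d : ℤ) : epsilon d ^ 4 = 1 := by
  unfold epsilon
  split_ifs
  · simp
  · exact Complex.I_pow_four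

lemma thetaFactor_pow_twelve (γ : SL(2, ℤ)) (z : ℍ) :
    (thetaFactor γ z ^ 3) ^ 4 = lowerForm γ z ^ 6 := by
  unfold thetaFactor
  have h1 := shimura_sq_eq_one (gcd_of_mem (γ := γ))
  have h1' : (((shimuraSymbol (γ 1 0) (γ 1 1) : ℤ) : ℂ)) ^ 2 = 1 := by exact_mod_cast h1
  have h2 := epsilon_pow_four (γ 1 1)
  have h3 : (lowerForm γ z ^ (1 / 2 : ℂ)) ^ 2 = lowerForm γ z := by
    have := Complex.cpow_nat_inv_pow (lowerForm γ z) (two_ne_zero)
    rw [one_div]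
    exact_mod_cast this
  calc (((epsilon (γ 1 1))⁻¹ * ((shimuraSymbol (γ 1 0) (γ 1 1) : ℤ) : ℂ) *
        lowerForm γ z ^ (1 / 2 : ℂ)) ^ 3) ^ 4
      = ((epsilon (γ 1 1) ^ 4)⁻¹) ^ 3 * ((((shimuraSymbol (γ 1 0) (γ 1 1) : ℤ) : ℂ)) ^ 2) ^ 6 *
        ((lowerForm γ z ^ (1 / 2 : ℂ)) ^ 2) ^ 6 := by ring
    _ = _ := by rw [h1', h2, h3]; simp

/-- `f⁴` is modular of weight `6` on `Γ(N)`. -/
lemma fourth_slash (hf : IsCuspForm N χ f) {γ : SL(2, ℤ)} (hγ : γ ∈ Gamma N) :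
    (fun z : ℍ ↦ f z ^ 4) ∣[(6 : ℤ)] γ = fun z : ℍ ↦ f z ^ 4 := by
  funext z
  rw [ModularForm.SL_slash_apply]
  rw [Gamma_mem] at hγ
  have h0 : γ ∈ Gamma0 N := by rw [Gamma0_mem]; exact hγ.2.2.1
  rw [hf.transform γ h0, hγ.2.2.2, map_one, one_mul, mul_pow, thetaFactor_pow_twelve,
    ← lowerForm_eq_denom]
  have := lowerForm_ne_zero γ z
  have e : lowerForm γ z ^ (-6 : ℤ) = (lowerForm γ z ^ 6)⁻¹ := by
    rw [zpow_neg]; norm_cast
  rw [e]
  field_simp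

lemma mdiff_fourth (hf : IsCuspForm N χ f) : MDifferentiable 𝓘(ℂ) 𝓘(ℂ) (fun z : ℍ ↦ f z ^ 4) := by
  have h := hf.holo
  have h2 : MDifferentiable 𝓘(ℂ) 𝓘(ℂ) (fun z : ℍ ↦ (f z * f z) * (f z * f z)) := by
    exact (h.mul h).mul (h.mul h)
  convert h2 using 2
  ring

/-- the function `f⁴` seen from the cusp `g ∞`. -/
def atCusp (f : ℍ → ℂ) (g : SL(2, ℤ)) : ℍ → ℂ := (fun z : ℍ ↦ f z ^ 4) ∣[(6 : ℤ)] g

lemma mdiff_atCusp (hf : IsCuspForm N χ f) (g : SL(2, ℤ)) :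
    MDifferentiable 𝓘(ℂ) 𝓘(ℂ) (atCusp f g) := by
  unfold atCusp
  exact (mdiff_fourth hf).slash 6 g

lemma norm_atCusp (g : SL(2, ℤ)) (z : ℍ) :
    ‖atCusp f g z‖ = (‖f (g • z)‖ / ‖lowerForm g z‖ ^ (3 / 2 : ℝ)) ^ 4 := by
  unfold atCusp
  rw [ModularForm.SL_slash_apply, ← lowerForm_eq_denom, norm_mul, norm_pow, norm_zpow, div_pow]
  have hL : 0 < ‖lowerForm g z‖ := norm_pos_iff.2 (lowerForm_ne_zero g z)
  have e : (‖lowerForm g z‖ ^ (3 / 2 : ℝ)) ^ 4 = ‖lowerForm g z‖ ^ 6 := by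
    rw [← Real.rpow_natCast, ← Real.rpow_mul hL.le, ← Real.rpow_natCast]; norm_num
  rw [e, zpow_neg, div_eq_mul_inv]
  norm_cast

lemma zero_atCusp (hf : IsCuspForm N χ f) (g : SL(2, ℤ)) : IsZeroAtImInfty (atCusp f g) := by
  have h := hf.cusp g
  rw [IsZeroAtImInfty, Filter.ZeroAtFilter] at h ⊢
  rw [tendsto_zero_iff_norm_tendsto_zero]
  have h2 := h.pow 4
  rw [zero_pow (by norm_num)] at h2
  exact h2.congr fun z ↦ (norm_atCusp g z).symm

lemma periodic_atCusp [NeZero N] (hf : IsCuspForm N χ f) (g : SL(2, ℤ)) :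
    Function.Periodic (atCusp f g ∘ ofComplex) (N : ℝ) := by
  have hT : ModularGroup.T ^ (N : ℤ) ∈ Gamma N := by
    rw [Gamma_mem, ModularGroup.coe_T_zpow]
    simp
  have hgT : g * ModularGroup.T ^ (N : ℤ) * g⁻¹ ∈ Gamma N :=
    (Gamma_normal N).conj_mem _ hT g
  have h1 : atCusp f g ∣[(6 : ℤ)] (ModularGroup.T ^ (N : ℤ)) = atCusp f g := by
    unfold atCusp
    rw [← SlashAction.slash_mul]
    have e : g * ModularGroup.T ^ (N : ℤ) = (g * ModularGroup.T ^ (N : ℤ) * g⁻¹) * g := by group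
    rw [e, SlashAction.slash_mul, fourth_slash hf hgT]
  have h2 : ∀ z : ℍ, atCusp f g (ModularGroup.T ^ (N : ℤ) • z) = atCusp f g z := by
    intro z
    conv_rhs => rw [← h1]
    rw [ModularForm.SL_slash_apply, ← lowerForm_eq_denom]
    have : lowerForm (ModularGroup.T ^ (N : ℤ)) z = 1 := by
      unfold lowerForm
      rw [ModularGroup.coe_T_zpow]
      simp
    rw [this]; simp
  intro w
  by_cases hw : 0 < w.im
  · have hw1 : 0 < (w + (N : ℝ)).im := by simpa using hw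
    simp only [Function.comp_apply]
    rw [ofComplex_apply_of_im_pos hw, ofComplex_apply_of_im_pos hw1, ← h2 ⟨w, hw⟩]
    congr 1
    ext1
    rw [coe_sl_smul]
    unfold lowerForm
    rw [ModularGroup.coe_T_zpow]
    simp
  · have hw1 : ¬ 0 < (w + (N : ℝ)).im := by simpa using hw
    simp only [Function.comp_apply]
    rw [ofComplex_apply_of_im_nonpos (not_lt.1 hw), ofComplex_apply_of_im_nonpos (not_lt.1 hw1)]

/-- `y³ |f|⁴`. -/
def quartic (f : ℍ → ℂ) (z : ℍ) : ℝ := z.im ^ 3 * ‖f z‖ ^ 4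

lemma quartic_smul (g : SL(2, ℤ)) (z : ℍ) : quartic f (g • z) = z.im ^ 3 * ‖atCusp f g z‖ := by
  unfold quartic
  rw [norm_atCusp, im_smul_eq, div_pow, div_pow]
  have hL : 0 < ‖lowerForm g z‖ := norm_pos_iff.2 (lowerForm_ne_zero g z)
  have e : (‖lowerForm g z‖ ^ (3 / 2 : ℝ)) ^ 4 = (‖lowerForm g z‖ ^ 2) ^ 3 := by
    rw [← Real.rpow_natCast, ← Real.rpow_mul hL.le, ← pow_mul, ← Real.rpow_natCast]; norm_num
  rw [e]
  field_simp

lemma tendsto_pow_mul_exp {c : ℝ} (hc : 0 < c) :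
    (fun z : ℍ ↦ z.im ^ 3 * Real.exp (-c * z.im)) =O[atImInfty] fun _ ↦ (1 : ℝ) := by
  have h1 : Tendsto (fun y : ℝ ↦ y ^ 3 * Real.exp (-c * y)) atTop (𝓝 0) := by
    have h2 := (Real.tendsto_pow_mul_exp_neg_atTop_nhds_zero 3).comp
      (tendsto_id.const_mul_atTop hc)
    have h3 := h2.const_mul (c ^ 3)⁻¹
    rw [mul_zero] at h3
    refine h3.congr fun y ↦ ?_
    simp only [Function.comp_apply, id_eq]
    field_simp
  have h2 : Tendsto (fun z : ℍ ↦ z.im ^ 3 * Real.exp (-c * z.im)) atImInfty (𝓝 0) :=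
    h1.comp tendsto_comap
  exact h2.isBigO_one ℝ

theorem exists_sup_bound [NeZero N] (hf : IsCuspForm N χ f) :
    ∃ B : ℝ, ∀ z : ℍ, z.im ^ (3 / 2 : ℝ) * ‖f z‖ ^ 2 ≤ B := by
  have hN : (0 : ℝ) < N := Nat.cast_pos.2 (NeZero.pos N)
  have hc : Continuous (quartic f) := by
    unfold quartic
    exact (UpperHalfPlane.continuous_im.pow 3).mul (hf.continuous.norm.pow 4)
  have hinf : ∀ g : SL(2, ℤ), (fun z : ℍ ↦ quartic f (g • z)) =O[atImInfty]
      fun z : ℍ ↦ z.im ^ (0 : ℝ) := by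
    intro g
    have h1 := (zero_atCusp hf g).exp_decay_atImInfty hN (periodic_atCusp hf g)
      (mdiff_atCusp hf g) (zero_atCusp hf g).isBoundedAtImInfty
    have h2 : (fun z : ℍ ↦ quartic f (g • z)) =O[atImInfty]
        fun z : ℍ ↦ z.im ^ 3 * Real.exp (-(2 * Real.pi / N) * z.im) := by
      simp_rw [quartic_smul]
      refine (Asymptotics.isBigO_refl _ _).mul ?_
      refine h1.norm_left.trans (Asymptotics.isBigO_of_le _ fun z ↦ ?_)
      apply le_of_eq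
      congr 2
      ring
    simp_rw [Real.rpow_zero]
    exact h2.trans (tendsto_pow_mul_exp (by positivity))
  have hinv : ∀ g ∈ Gamma0 N, ∀ z, quartic f (g • z) = quartic f z := by
    intro g hg z
    rw [quartic_smul, norm_atCusp, hf.transform g hg z, norm_mul, norm_mul, norm_char χ hg,
      one_mul, norm_thetaFactor_pow]
    have hL : 0 < ‖lowerForm g z‖ := norm_pos_iff.2 (lowerForm_ne_zero g z)
    have : ‖lowerForm g z‖ ^ (3 / 2 : ℝ) ≠ 0 := (Real.rpow_pos_of_pos hL _).ne'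
    rw [mul_div_cancel_left₀ _ this]
    rfl
  obtain ⟨C, hC⟩ := ModularGroup.exists_bound_of_subgroup_invariant_of_isBigO hc le_rfl hinf hinv
  simp only [Real.rpow_zero, mul_one] at hC
  refine ⟨Real.sqrt C, fun z ↦ ?_⟩
  apply Real.le_sqrt_of_sq_le
  refine le_trans (le_of_eq ?_) (hC z)
  have hz := z.im_pos
  have h0 : 0 ≤ quartic f z := by unfold quartic; positivity
  rw [Real.norm_of_nonneg h0, mul_pow, ← Real.rpow_natCast, ← Real.rpow_mul hz.le]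
  unfold quartic
  norm_num
  left
  ring

end

end Pool.Agent.Work.MP_af11aa_nt
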