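import Mathlib
import Pool.Agent.Work.MP_af11aa_nt.StripEq
import Pool.Agent.Work.MP_af11aa_nt.MainTerm
import Pool.Agent.Work.MP_af11aa_nt.SupBound

namespace Pool.Agent.Work.MP_af11aa_nt

open UpperHalfPlane CongruenceSubgroup MeasureTheory Filter
open Complex hiding Gamma
open scoped MatrixGroups Manifold Topology ComplexConjugate ENNReal Modular

noncomputable section

section

attribute [local instance] Subgroup.fintypeQuotientOfFiniteIndex

/-- sum over the cosets of the counting functions. -/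
lemma sum_nCount (M : ℕ) [NeZero M] {Y : ℝ} (hY : 0 < Y) {z : ℍ} (hz : z ∈ (𝒟 : Set ℍ)) :
    ∑ κ : SL(2, ℤ) ⧸ Gamma0 M, nCount M Y (Quotient.out κ)⁻¹ z = nCount 1 Y 1 z := by
  have h1 : ∀ κ : SL(2, ℤ) ⧸ Gamma0 M, ((nCount M Y (Quotient.out κ)⁻¹ z : ℕ) : ℝ≥0∞) =
      ∑' k : Gamma0 M, (hstrip Y).indicator (1 : ℍ → ℝ≥0∞)
        ((k : SL(2, ℤ))⁻¹ • (Quotient.out κ)⁻¹ • z) :=
    fun κ ↦ (tsum_hstrip_eq M hY (Quotient.out κ)⁻¹ hz).symm
  have h2 : ((nCount 1 Y 1 z : ℕ) : ℝ≥0∞) =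
      ∑' k : Gamma0 1, (hstrip Y).indicator (1 : ℍ → ℝ≥0∞)
        ((k : SL(2, ℤ))⁻¹ • (1 : SL(2, ℤ)) • z) := (tsum_hstrip_eq 1 hY 1 hz).symm
  have htop : Gamma0 1 = ⊤ := by
    ext γ
    rw [Gamma0_mem]
    simp [Subsingleton.elim _ (0 : ZMod 1)]
  have h3 : ∑' k : Gamma0 1, (hstrip Y).indicator (1 : ℍ → ℝ≥0∞)
        ((k : SL(2, ℤ))⁻¹ • (1 : SL(2, ℤ)) • z) =
      ∑' γ : SL(2, ℤ), (hstrip Y).indicator (1 : ℍ → ℝ≥0∞) (γ⁻¹ • z) := by
    let e : SL(2, ℤ) ≃ Gamma0 1 :=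
      { toFun := fun γ ↦ ⟨γ, by rw [htop]; trivial⟩
        invFun := fun k ↦ k
        left_inv := fun _ ↦ rfl
        right_inv := fun _ ↦ rfl }
    rw [← e.tsum_eq]
    refine tsum_congr fun γ ↦ ?_
    rw [one_smul]
    rfl
  have h4 : ((∑ κ : SL(2, ℤ) ⧸ Gamma0 M, nCount M Y (Quotient.out κ)⁻¹ z : ℕ) : ℝ≥0∞) =
      ((nCount 1 Y 1 z : ℕ) : ℝ≥0∞) := by
    rw [h2, h3]
    push_cast
    simp_rw [h1]
    rw [← (cosetEquiv (Gamma0 M)).tsum_eq
      (fun γ ↦ (hstrip Y).indicator (1 : ℍ → ℝ≥0∞) (γ⁻¹ • z)), ENNReal.tsum_prod', tsum_fintype]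
    refine Finset.sum_congr rfl fun κ _ ↦ tsum_congr fun k ↦ ?_
    have e : ((cosetEquiv (Gamma0 M)) (κ, k))⁻¹ • z =
        (k : SL(2, ℤ))⁻¹ • (Quotient.out κ)⁻¹ • z := by
      change (Quotient.out κ * (k : SL(2, ℤ)))⁻¹ • z = _
      rw [mul_inv_rev, mul_smul]
    rw [e]
  exact_mod_cast h4

lemma eq_zero_of_growth {a C : ℝ} (h : ∀ Y : ℝ, 1 ≤ Y → |a * Y| ≤ C * Y ^ (3 / 4 : ℝ)) : a = 0 := by
  by_contra ha
  have h1 : ∀ Y : ℝ, 1 ≤ Y → |a| * Y ^ (1 / 4 : ℝ) ≤ C := by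
    intro Y hY
    have hY0 : 0 < Y := by linarith
    have h2 := h Y hY
    rw [abs_mul, abs_of_pos hY0] at h2
    have h3 : Y = Y ^ (1 / 4 : ℝ) * Y ^ (3 / 4 : ℝ) := by
      rw [← Real.rpow_add hY0]; norm_num
    have h4 : 0 < Y ^ (3 / 4 : ℝ) := Real.rpow_pos_of_pos hY0 _
    have h5 : |a| * Y ^ (1 / 4 : ℝ) * Y ^ (3 / 4 : ℝ) ≤ C * Y ^ (3 / 4 : ℝ) := by
      rw [mul_assoc, ← h3]; exact h2
    exact le_of_mul_le_mul_right h5 h4
  have h2 : Tendsto (fun Y : ℝ ↦ |a| * Y ^ (1 / 4 : ℝ)) atTop atTop :=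
    (tendsto_rpow_atTop (by norm_num)).const_mul_atTop (abs_pos.2 ha)
  obtain ⟨Y, hY1, hY2⟩ := ((h2.eventually (eventually_gt_atTop C)).and (eventually_ge_atTop 1)).exists
  linarith [h1 Y hY2]

lemma I_mem_fd' : (UpperHalfPlane.I) ∈ (𝒟 : Set ℍ) := ModularGroup.I_mem_fd

/-- relation between the density constants. -/
lemma cDens_index (M : ℕ) [NeZero M] :
    ((Gamma0 M).index : ℝ) * cDens M = cDens 1 := by
  have hz : UpperHalfPlane.I ∈ (𝒟 : Set ℍ) := ModularGroup.I_mem_fd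
  have key : ((Gamma0 M).index : ℝ) * cDens M - cDens 1 = 0 := by
    refine eq_zero_of_growth (C := 25 * (((Gamma0 M).index : ℝ) + 1)) fun Y hY ↦ ?_
    have hY0 : 0 < Y := by linarith
    have h1 := sum_nCount M hY0 hz
    have h2 := nCount_asymp (M := 1) (by norm_num) hY 1 hz
    have h3 : |(∑ κ : SL(2, ℤ) ⧸ Gamma0 M, (nCount M Y (Quotient.out κ)⁻¹ UpperHalfPlane.I : ℝ)) -
        ((Gamma0 M).index : ℝ) * (cDens M * Y)| ≤
        ((Gamma0 M).index : ℝ) * (25 * (Y * (UpperHalfPlane.I).im) ^ (3 / 4 : ℝ)) := by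
      have e : ((Gamma0 M).index : ℝ) * (cDens M * Y) =
          ∑ κ : SL(2, ℤ) ⧸ Gamma0 M, cDens M * Y := by
        rw [Finset.sum_const, Finset.card_univ, nsmul_eq_mul, ← Nat.card_eq_fintype_card]; rfl
      have e' : ((Gamma0 M).index : ℝ) * (25 * (Y * (UpperHalfPlane.I).im) ^ (3 / 4 : ℝ)) =
          ∑ κ : SL(2, ℤ) ⧸ Gamma0 M, 25 * (Y * (UpperHalfPlane.I).im) ^ (3 / 4 : ℝ) := by
        rw [Finset.sum_const, Finset.card_univ, nsmul_eq_mul, ← Nat.card_eq_fintype_card]; rfl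
      rw [e, e', ← Finset.sum_sub_distrib]
      exact (Finset.abs_sum_le_sum_abs _ _).trans
        (Finset.sum_le_sum fun κ _ ↦ nCount_asymp (NeZero.pos M) hY _ hz)
    have h4 : (∑ κ : SL(2, ℤ) ⧸ Gamma0 M, (nCount M Y (Quotient.out κ)⁻¹ UpperHalfPlane.I : ℝ)) =
        nCount 1 Y 1 UpperHalfPlane.I := by exact_mod_cast h1
    have hI : (UpperHalfPlane.I).im = 1 := by simp
    rw [h4, hI, mul_one] at h3
    rw [hI, mul_one] at h2
    calc |(((Gamma0 M).index : ℝ) * cDens M - cDens 1) * Y|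
        = |((nCount 1 Y 1 UpperHalfPlane.I : ℝ) - cDens 1 * Y) -
          ((nCount 1 Y 1 UpperHalfPlane.I : ℝ) - ((Gamma0 M).index : ℝ) * (cDens M * Y))| := by
          congr 1; ring
      _ ≤ |(nCount 1 Y 1 UpperHalfPlane.I : ℝ) - cDens 1 * Y| +
          |(nCount 1 Y 1 UpperHalfPlane.I : ℝ) - ((Gamma0 M).index : ℝ) * (cDens M * Y)| :=
          abs_sub _ _
      _ ≤ 25 * Y ^ (3 / 4 : ℝ) + ((Gamma0 M).index : ℝ) * (25 * Y ^ (3 / 4 : ℝ)) := add_le_add h2 h3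
      _ = _ := by ring
  linarith

lemma cDens_nonneg {M : ℕ} (hM : 0 < M) : 0 ≤ cDens M := by
  by_contra hneg
  push Not at hneg
  have hz : UpperHalfPlane.I ∈ (𝒟 : Set ℍ) := ModularGroup.I_mem_fd
  have hI : (UpperHalfPlane.I).im = 1 := by simp
  have : cDens M = 0 := by
    refine eq_zero_of_growth (C := 25) fun Y hY ↦ ?_
    have hY0 : 0 < Y := by linarith
    have h2 := nCount_asymp hM hY 1 hz
    rw [hI, mul_one] at h2
    have h3 : (0 : ℝ) ≤ nCount M Y 1 UpperHalfPlane.I := Nat.cast_nonneg _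
    have h4 : cDens M * Y < 0 := mul_neg_of_neg_of_pos hneg hY0
    rw [abs_of_neg h4]
    have h5 := (abs_le.1 h2).2
    linarith
  linarith

lemma lintegral_fd_rpow : ∫⁻ z in (𝒟 : Set ℍ), ENNReal.ofReal (z.im ^ (3 / 4 : ℝ)) ≤
    ENNReal.ofReal 5 := by
  have h𝒟 : MeasurableSet (ModularGroup.fd : Set ℍ) := ModularGroup.isClosed_fd.measurableSet
  have hm : Measurable fun z : ℍ ↦ ENNReal.ofReal (z.im ^ (3 / 4 : ℝ)) := by
    have := measurable_upper_im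
    fun_prop
  rw [← lintegral_indicator h𝒟, lintegral_coord (hm.indicator h𝒟)]
  have hb : ∀ p ∈ (Set.univ ×ˢ Set.Ioi 0 : Set (ℝ × ℝ)),
      (ModularGroup.fd : Set ℍ).indicator (fun z : ℍ ↦ ENNReal.ofReal (z.im ^ (3 / 4 : ℝ)))
        (ofComplex (p.1 + p.2 * Complex.I)) * ENNReal.ofReal (1 / p.2 ^ 2) ≤
      (Set.Icc (-(1 / 2 : ℝ)) (1 / 2)).indicator 1 p.1 *
        (Set.Ioi (1 / 2 : ℝ)).indicator (fun y ↦ ENNReal.ofReal (y ^ (-(5 / 4) : ℝ))) p.2 := by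
    rintro ⟨x, y⟩ ⟨-, hy⟩
    have hy0 : 0 < y := hy
    simp only
    have e : (ofComplex (x + y * Complex.I)) = pt x y := rfl
    rw [e]
    by_cases hm : pt x y ∈ (ModularGroup.fd : Set ℍ)
    · have h1 : x ∈ Set.Icc (-(1 / 2 : ℝ)) (1 / 2) := by
        have := hm.2
        rw [re_pt hy0, abs_le] at this
        exact this
      have h2 : y ∈ Set.Ioi (1 / 2 : ℝ) := by
        have := ModularGroup.three_le_four_mul_im_sq_of_mem_fd hm
        rw [im_pt hy0] at this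
        rw [Set.mem_Ioi]
        nlinarith
      rw [Set.indicator_of_mem hm, Set.indicator_of_mem h1, Set.indicator_of_mem h2, im_pt hy0,
        ← ENNReal.ofReal_mul (by positivity), Pi.one_apply, one_mul]
      apply le_of_eq
      congr 1
      rw [show (-(5 / 4) : ℝ) = 3 / 4 - 2 by norm_num, Real.rpow_sub hy0]
      have : y ^ (2 : ℝ) = y ^ 2 := by norm_cast
      rw [this]; field_simp
    · rw [Set.indicator_of_notMem hm, zero_mul]; exact zero_le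
  calc _ ≤ ∫⁻ p : ℝ × ℝ in Set.univ ×ˢ Set.Ioi 0,
        (Set.Icc (-(1 / 2 : ℝ)) (1 / 2)).indicator 1 p.1 *
        (Set.Ioi (1 / 2 : ℝ)).indicator (fun y ↦ ENNReal.ofReal (y ^ (-(5 / 4) : ℝ))) p.2 :=
        setLIntegral_mono' (MeasurableSet.univ.prod measurableSet_Ioi) hb
    _ ≤ ∫⁻ p : ℝ × ℝ,
        (Set.Icc (-(1 / 2 : ℝ)) (1 / 2)).indicator 1 p.1 *
        (Set.Ioi (1 / 2 : ℝ)).indicator (fun y ↦ ENNReal.ofReal (y ^ (-(5 / 4) : ℝ))) p.2 :=
        setLIntegral_le_lintegral _ _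
    _ ≤ ENNReal.ofReal 5 := by
        rw [Measure.volume_eq_prod, lintegral_prod_mul]
        · rw [lintegral_indicator_one measurableSet_Icc, lintegral_indicator measurableSet_Ioi,
            Real.volume_Icc]
          have : ∫⁻ y in Set.Ioi (1 / 2 : ℝ), ENNReal.ofReal (y ^ (-(5 / 4) : ℝ)) ≤
              ENNReal.ofReal 5 := by
            have hint : IntegrableOn (fun y : ℝ ↦ y ^ (-(5 / 4) : ℝ)) (Set.Ioi (1 / 2)) :=
              integrableOn_Ioi_rpow_of_lt (by norm_num) (by norm_num)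
            have e : ∫ y in Set.Ioi (1 / 2 : ℝ), y ^ (-(5 / 4) : ℝ) ≤ 5 := by
              rw [integral_Ioi_rpow_of_lt (by norm_num) (by norm_num)]
              have h1 : (1 / 2 : ℝ) ^ (-(5 / 4) + 1 : ℝ) ≤ 5 / 4 := by
                rw [show (-(5 / 4) + 1 : ℝ) = -(1 / 4) by norm_num, one_div, Real.inv_rpow (by norm_num),
                  Real.rpow_neg (by norm_num), inv_inv]
                have h2 : (2 : ℝ) ≤ (5 / 4) ^ (4 : ℕ) := by norm_num
                calc (2 : ℝ) ^ (1 / 4 : ℝ) ≤ ((5 / 4 : ℝ) ^ (4 : ℕ)) ^ (1 / 4 : ℝ) := by gcongr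
                  _ = 5 / 4 := by
                    rw [← Real.rpow_natCast, ← Real.rpow_mul (by norm_num)]; norm_num
              have e2 : -(1 / 2 : ℝ) ^ (-(5 / 4) + 1 : ℝ) / (-(5 / 4) + 1) =
                  4 * (1 / 2 : ℝ) ^ (-(5 / 4) + 1 : ℝ) := by
                field_simp; ring
              rw [e2]; linarith
            rw [← ofReal_integral_eq_lintegral_ofReal hint]
            · exact ENNReal.ofReal_le_ofReal e
            · refine (ae_restrict_iff' measurableSet_Ioi).2 (Filter.Eventually.of_forall fun y hy ↦ ?_)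
              have hy0 : 0 < y := lt_trans (by norm_num) hy
              exact (Real.rpow_pos_of_pos hy0 _).le
          calc _ ≤ ENNReal.ofReal (1 / 2 - -(1 / 2)) * ENNReal.ofReal 5 := by gcongr
            _ = ENNReal.ofReal 5 := by norm_num
        · exact (measurable_one.indicator measurableSet_Icc).aemeasurable
        · refine (Measurable.indicator ?_ measurableSet_Ioi).aemeasurable
          fun_prop

end

end

end Pool.Agent.Work.MP_af11aa_nt
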