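import Mathlib
import Pool.Agent.Work.MP_af11aa_nt.Level

namespace Pool.Agent.Work.MP_af11aa_nt

open UpperHalfPlane CongruenceSubgroup MeasureTheory Filter
open Complex hiding Gamma
open scoped MatrixGroups Manifold Topology ComplexConjugate ENNReal Modular

noncomputable section

section

attribute [local instance] Subgroup.fintypeQuotientOfFiniteIndex

variable {N : ℕ} {χ : DirichletCharacter ℂ N} {f : ℍ → ℂ}

/-- the invariant function `y^{3/2} |f|²`. -/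
def hFun (f : ℍ → ℂ) (z : ℍ) : ℝ := ‖f z‖ ^ 2 * z.im ^ (3 / 2 : ℝ)

lemma hFun_nonneg (f : ℍ → ℂ) (z : ℍ) : 0 ≤ hFun f z := by
  unfold hFun; have := z.im_pos; positivity

lemma continuous_hFun (hf : IsCuspForm N χ f) : Continuous (hFun f) := by
  unfold hFun
  refine (hf.continuous.norm.pow 2).mul ?_
  exact UpperHalfPlane.continuous_im.rpow_const fun z ↦ Or.inl z.im_pos.ne'

lemma hFun_inv [NeZero N] (hf : IsCuspForm N χ f) {γ : SL(2, ℤ)} (hγ : γ ∈ Gamma0 N) (z : ℍ) :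
    hFun f (γ • z) = hFun f z := by
  unfold hFun
  rw [hf.transform γ hγ z, norm_mul, norm_mul, norm_char χ hγ, one_mul, norm_thetaFactor_pow,
    im_smul_eq]
  have hL : 0 < ‖lowerForm γ z‖ := norm_pos_iff.2 (lowerForm_ne_zero γ z)
  rw [Real.div_rpow z.im_pos.le (by positivity), mul_pow]
  have e1 : (‖lowerForm γ z‖ ^ (3 / 2 : ℝ)) ^ 2 = ‖lowerForm γ z‖ ^ 3 := by
    rw [← Real.rpow_natCast, ← Real.rpow_mul hL.le, ← Real.rpow_natCast]; norm_num
  have e2 : (‖lowerForm γ z‖ ^ 2) ^ (3 / 2 : ℝ) = ‖lowerForm γ z‖ ^ 3 := by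
    rw [← Real.rpow_natCast, ← Real.rpow_mul hL.le, ← Real.rpow_natCast]; norm_num
  rw [e1, e2]
  field_simp

/-- the main integral. -/
def iInt (f : ℍ → ℂ) (N d : ℕ) [NeZero N] [NeZero d] : ℝ≥0∞ :=
  ∫⁻ z, wt z * ∑ κ : SL(2, ℤ) ⧸ Gamma0 (N * d), ENNReal.ofReal (gFun f d ((Quotient.out κ)⁻¹ • z))

/-- the base integral. -/
def iBase (f : ℍ → ℂ) (N : ℕ) [NeZero N] : ℝ≥0∞ :=
  ∫⁻ z, wt z * ∑ κ : SL(2, ℤ) ⧸ Gamma0 N, ENNReal.ofReal (hFun f ((Quotient.out κ)⁻¹ • z))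

lemma iInt_eq [NeZero N] (hf : IsCuspForm N χ f) (h4 : 4 ∣ N) {d : ℕ} [NeZero d]
    (hsq : Squarefree d) (hcop : Nat.Coprime d N) :
    ((Gamma0 N).index : ℝ≥0∞) * iInt f N d =
      ENNReal.ofReal ((d : ℝ) ^ (5 / 2 : ℝ)) * ((Gamma0 (N * d)).index : ℝ≥0∞) * iBase f N := by
  have hd : (0 : ℝ) < d := Nat.cast_pos.2 (NeZero.pos d)
  have hle : Gamma (N * d) ≤ Gamma0 (N * d) := by
    intro γ hγ
    rw [Gamma_mem] at hγ
    rw [Gamma0_mem]; exact hγ.2.2.1
  set r : ℕ := (Gamma (N * d)).relIndex (Gamma0 (N * d)) with hr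
  have hr0 : r ≠ 0 := by
    have hfin : ((Gamma (N * d)).subgroupOf (Gamma0 (N * d))).FiniteIndex := inferInstance
    exact hfin.index_ne_zero
  have hpt : ∀ z : ℍ, (r : ℝ≥0∞) * ∑ κ : SL(2, ℤ) ⧸ Gamma0 (N * d),
      ENNReal.ofReal (gFun f d ((Quotient.out κ)⁻¹ • z)) =
      ENNReal.ofReal ((d : ℝ) ^ (5 / 2 : ℝ)) * ∑ x : SL(2, ℤ) ⧸ Gamma (N * d),
        ENNReal.ofReal (hFun f (shiftDiv d 0 ((Quotient.out x)⁻¹ • z))) := by
    intro z
    have h1 := sum_quotient_le hle (fun g ↦ gFun f d (g⁻¹ • z)) (by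
      intro g k hk
      rw [mul_inv_rev, mul_smul, gFun_inv hf h4 (inv_mem hk)])
    have h2 := sum_gFun_Gamma hf h4 hsq hcop z
    have h3 : (r : ℝ) * ∑ κ : SL(2, ℤ) ⧸ Gamma0 (N * d), gFun f d ((Quotient.out κ)⁻¹ • z) =
        (d : ℝ) ^ (5 / 2 : ℝ) * ∑ x : SL(2, ℤ) ⧸ Gamma (N * d),
          hFun f (shiftDiv d 0 ((Quotient.out x)⁻¹ • z)) := by
      have h4 : ∑ x : SL(2, ℤ) ⧸ Gamma (N * d), gFun f d ((Quotient.out x)⁻¹ • z) =
          (r : ℝ) * ∑ κ : SL(2, ℤ) ⧸ Gamma0 (N * d), gFun f d ((Quotient.out κ)⁻¹ • z) := h1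
      rw [← h4, h2]
      have e : (d : ℝ) ^ (5 / 2 : ℝ) = d * (d : ℝ) ^ (3 / 2 : ℝ) := by
        rw [show (5 / 2 : ℝ) = 1 + 3 / 2 by norm_num, Real.rpow_add hd, Real.rpow_one]
      rw [e, mul_assoc, Finset.mul_sum (a := (d : ℝ) ^ (3 / 2 : ℝ))]
      congr 1
      refine Finset.sum_congr rfl fun x _ ↦ ?_
      unfold hFun
      rw [im_shiftDiv, Real.div_rpow (UpperHalfPlane.im_pos _).le hd.le]
      have : (d : ℝ) ^ (3 / 2 : ℝ) ≠ 0 := (Real.rpow_pos_of_pos hd _).ne'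
      field_simp
    calc (r : ℝ≥0∞) * ∑ κ : SL(2, ℤ) ⧸ Gamma0 (N * d),
          ENNReal.ofReal (gFun f d ((Quotient.out κ)⁻¹ • z))
        = ENNReal.ofReal ((r : ℝ) * ∑ κ : SL(2, ℤ) ⧸ Gamma0 (N * d),
            gFun f d ((Quotient.out κ)⁻¹ • z)) := by
          rw [ENNReal.ofReal_mul (by positivity), ENNReal.ofReal_natCast,
            ENNReal.ofReal_sum_of_nonneg fun κ _ ↦ gFun_nonneg f d _]
      _ = ENNReal.ofReal ((d : ℝ) ^ (5 / 2 : ℝ) * ∑ x : SL(2, ℤ) ⧸ Gamma (N * d),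
          hFun f (shiftDiv d 0 ((Quotient.out x)⁻¹ • z))) := by rw [h3]
      _ = _ := by
          rw [ENNReal.ofReal_mul (by positivity),
            ENNReal.ofReal_sum_of_nonneg fun κ _ ↦ hFun_nonneg f _]
  have hhm : Measurable fun z ↦ ENNReal.ofReal (hFun f z) :=
    (continuous_hFun hf).measurable.ennreal_ofReal
  have hint : (r : ℝ≥0∞) * iInt f N d = ENNReal.ofReal ((d : ℝ) ^ (5 / 2 : ℝ)) *
      ∫⁻ z, wt z * ∑ x : SL(2, ℤ) ⧸ Gamma (N * d),
        ENNReal.ofReal (hFun f (shiftDiv d 0 ((Quotient.out x)⁻¹ • z))) := by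
    unfold iInt
    rw [← lintegral_const_mul' _ _ (ENNReal.natCast_ne_top r),
      ← lintegral_const_mul' _ _ ENNReal.ofReal_ne_top]
    refine lintegral_congr fun z ↦ ?_
    rw [mul_left_comm, hpt z]
    ring
  have hmain := main_identity N d hhm (fun l hl z ↦ by rw [hFun_inv hf hl])
  have hidx : ((Gamma (N * d)).index : ℝ≥0∞) = r * ((Gamma0 (N * d)).index : ℝ≥0∞) := by
    rw [← Nat.cast_mul, hr, Subgroup.relIndex_mul_index hle]
  have hfinal : (r : ℝ≥0∞) * (((Gamma0 N).index : ℝ≥0∞) * iInt f N d) =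
      (r : ℝ≥0∞) * (ENNReal.ofReal ((d : ℝ) ^ (5 / 2 : ℝ)) * ((Gamma0 (N * d)).index : ℝ≥0∞) *
        iBase f N) := by
    calc (r : ℝ≥0∞) * (((Gamma0 N).index : ℝ≥0∞) * iInt f N d)
        = ((Gamma0 N).index : ℝ≥0∞) * ((r : ℝ≥0∞) * iInt f N d) := by ring
      _ = ENNReal.ofReal ((d : ℝ) ^ (5 / 2 : ℝ)) * (((Gamma0 N).index : ℝ≥0∞) *
          ∫⁻ z, wt z * ∑ x : SL(2, ℤ) ⧸ Gamma (N * d),
        ENNReal.ofReal (hFun f (shiftDiv d 0 ((Quotient.out x)⁻¹ • z)))) := by rw [hint]; ring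
      _ = _ := by rw [hmain, hidx]; unfold iBase; ring
  exact (ENNReal.mul_right_inj (by exact_mod_cast hr0) (ENNReal.natCast_ne_top r)).1 hfinal

/-- the integral over the strip in terms of the counting function. -/
lemma strip_count [NeZero N] (hf : IsCuspForm N χ f) (h4 : 4 ∣ N) {d : ℕ} [NeZero d] {Y : ℝ}
    (hY : 0 < Y) :
    ∫⁻ z in hstrip Y, ENNReal.ofReal (gFun f d z) =
      ∫⁻ z, wt z * ∑ κ : SL(2, ℤ) ⧸ Gamma0 (N * d),
        ENNReal.ofReal (gFun f d ((Quotient.out κ)⁻¹ • z)) *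
          (nCount (N * d) Y (Quotient.out κ)⁻¹ z : ℝ≥0∞) := by
  have hG : Measurable fun z ↦ ENNReal.ofReal (gFun f d z) :=
    (continuous_gFun hf d).measurable.ennreal_ofReal
  have hK : ∀ k ∈ Gamma0 (N * d), ∀ z : ℍ,
      ENNReal.ofReal (gFun f d (k • z)) = ENNReal.ofReal (gFun f d z) := by
    intro k hk z
    rw [gFun_inv hf h4 hk]
  rw [unfold_eq (Gamma0 (N * d)) hG hK (measurableSet_hstrip Y)]
  refine lintegral_congr fun z ↦ ?_
  by_cases hz : z ∈ (𝒟 : Set ℍ)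
  · congr 1
    refine Finset.sum_congr rfl fun κ _ ↦ ?_
    rw [tsum_hstrip_eq (N * d) hY (Quotient.out κ)⁻¹ hz]
    rfl
  · rw [wt_eq_zero hz, zero_mul, zero_mul]

lemma errInt_le [NeZero N] (hf : IsCuspForm N χ f) (h4 : 4 ∣ N) {d : ℕ} [NeZero d]
    (hsq : Squarefree d) (hcop : Nat.Coprime d N) {B : ℝ}
    (hB : ∀ w : ℍ, w.im ^ (3 / 2 : ℝ) * ‖f w‖ ^ 2 ≤ B) {Y : ℝ} (hY : 0 < Y) :
    ∫⁻ z, wt z * ∑ κ : SL(2, ℤ) ⧸ Gamma0 (N * d),
        ENNReal.ofReal (gFun f d ((Quotient.out κ)⁻¹ • z)) *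
          ENNReal.ofReal (25 * (Y * z.im) ^ (3 / 4 : ℝ)) ≤
      ENNReal.ofReal ((d : ℝ) ^ (5 / 2 : ℝ) * B * (Gamma0 (N * d)).index *
        (125 * Y ^ (3 / 4 : ℝ))) := by
  have hB0 : 0 ≤ B := by
    refine le_trans ?_ (hB UpperHalfPlane.I)
    have := (UpperHalfPlane.I).im_pos
    positivity
  set A : ℝ := (d : ℝ) ^ (5 / 2 : ℝ) * B * (Gamma0 (N * d)).index with hA
  have hA0 : 0 ≤ A := by rw [hA]; positivity
  have h𝒟 : MeasurableSet (ModularGroup.fd : Set ℍ) := ModularGroup.isClosed_fd.measurableSet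
  calc ∫⁻ z, wt z * ∑ κ : SL(2, ℤ) ⧸ Gamma0 (N * d),
        ENNReal.ofReal (gFun f d ((Quotient.out κ)⁻¹ • z)) *
          ENNReal.ofReal (25 * (Y * z.im) ^ (3 / 4 : ℝ))
      ≤ ∫⁻ z, (𝒟 : Set ℍ).indicator (fun z : ℍ ↦ ENNReal.ofReal (A * (25 * Y ^ (3 / 4 : ℝ))) *
          ENNReal.ofReal (z.im ^ (3 / 4 : ℝ))) z := by
        refine lintegral_mono fun z ↦ ?_
        by_cases hz : z ∈ (𝒟 : Set ℍ)
        · rw [Set.indicator_of_mem hz]
          have hw := wt_le z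
          rw [Set.indicator_of_mem hz, Pi.one_apply] at hw
          rw [← Finset.sum_mul]
          have h1 : ∑ κ : SL(2, ℤ) ⧸ Gamma0 (N * d),
              ENNReal.ofReal (gFun f d ((Quotient.out κ)⁻¹ • z)) ≤ ENNReal.ofReal A := by
            rw [← ENNReal.ofReal_sum_of_nonneg fun κ _ ↦ gFun_nonneg f d _]
            exact ENNReal.ofReal_le_ofReal (sum_gFun_Gamma0_le hf h4 hsq hcop hB z)
          have h2 : ENNReal.ofReal (25 * (Y * z.im) ^ (3 / 4 : ℝ)) =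
              ENNReal.ofReal (25 * Y ^ (3 / 4 : ℝ)) * ENNReal.ofReal (z.im ^ (3 / 4 : ℝ)) := by
            rw [← ENNReal.ofReal_mul (by positivity), Real.mul_rpow hY.le z.im_pos.le]
            congr 1; ring
          rw [h2, ENNReal.ofReal_mul hA0]
          calc wt z * ((∑ κ : SL(2, ℤ) ⧸ Gamma0 (N * d),
                ENNReal.ofReal (gFun f d ((Quotient.out κ)⁻¹ • z))) *
                (ENNReal.ofReal (25 * Y ^ (3 / 4 : ℝ)) * ENNReal.ofReal (z.im ^ (3 / 4 : ℝ))))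
              ≤ 1 * (ENNReal.ofReal A *
                (ENNReal.ofReal (25 * Y ^ (3 / 4 : ℝ)) * ENNReal.ofReal (z.im ^ (3 / 4 : ℝ)))) := by
                gcongr
            _ = _ := by ring
        · rw [wt_eq_zero hz, zero_mul]; exact zero_le
    _ = ENNReal.ofReal (A * (25 * Y ^ (3 / 4 : ℝ))) *
          ∫⁻ z in (𝒟 : Set ℍ), ENNReal.ofReal (z.im ^ (3 / 4 : ℝ)) := by
        rw [lintegral_indicator h𝒟, lintegral_const_mul' _ _ ENNReal.ofReal_ne_top]
    _ ≤ ENNReal.ofReal (A * (25 * Y ^ (3 / 4 : ℝ))) * ENNReal.ofReal 5 := by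
        gcongr
        exact lintegral_fd_rpow
    _ = _ := by
        rw [← ENNReal.ofReal_mul (by positivity)]
        congr 1; ring

/-- two sided estimate for the strip integral, in extended nonnegative reals. -/
lemma strip_two_sided [NeZero N] (hf : IsCuspForm N χ f) (h4 : 4 ∣ N) {d : ℕ} [NeZero d]
    (hsq : Squarefree d) (hcop : Nat.Coprime d N) {B : ℝ}
    (hB : ∀ w : ℍ, w.im ^ (3 / 2 : ℝ) * ‖f w‖ ^ 2 ≤ B) {Y : ℝ} (hY : 1 ≤ Y) :
    ∫⁻ z in hstrip Y, ENNReal.ofReal (gFun f d z) ≤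
      ENNReal.ofReal (cDens (N * d) * Y) * iInt f N d +
      ENNReal.ofReal ((d : ℝ) ^ (5 / 2 : ℝ) * B * (Gamma0 (N * d)).index *
        (125 * Y ^ (3 / 4 : ℝ))) ∧
    ENNReal.ofReal (cDens (N * d) * Y) * iInt f N d ≤
      (∫⁻ z in hstrip Y, ENNReal.ofReal (gFun f d z)) +
      ENNReal.ofReal ((d : ℝ) ^ (5 / 2 : ℝ) * B * (Gamma0 (N * d)).index *
        (125 * Y ^ (3 / 4 : ℝ))) := by
  have hY0 : 0 < Y := by linarith
  have hM : 0 < N * d := NeZero.pos (N * d)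
  have hcd := cDens_nonneg hM
  have herr := errInt_le hf h4 hsq hcop hB hY0
  have hGm : ∀ κ : SL(2, ℤ) ⧸ Gamma0 (N * d), Measurable fun z : ℍ ↦
      ENNReal.ofReal (gFun f d ((Quotient.out κ)⁻¹ • z)) := fun κ ↦
    measurable_smul_comp (F := fun z ↦ ENNReal.ofReal (gFun f d z))
      ((continuous_gFun hf d).measurable.ennreal_ofReal) (Quotient.out κ)⁻¹
  have him := measurable_upper_im
  have hEm : Measurable fun z : ℍ ↦ ENNReal.ofReal (25 * (Y * z.im) ^ (3 / 4 : ℝ)) := by fun_prop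
  rw [strip_count hf h4 hY0]
  constructor
  · calc ∫⁻ z, wt z * ∑ κ : SL(2, ℤ) ⧸ Gamma0 (N * d),
        ENNReal.ofReal (gFun f d ((Quotient.out κ)⁻¹ • z)) *
          (nCount (N * d) Y (Quotient.out κ)⁻¹ z : ℝ≥0∞)
        ≤ ∫⁻ z, (ENNReal.ofReal (cDens (N * d) * Y) * (wt z * ∑ κ : SL(2, ℤ) ⧸ Gamma0 (N * d),
            ENNReal.ofReal (gFun f d ((Quotient.out κ)⁻¹ • z))) +
          wt z * ∑ κ : SL(2, ℤ) ⧸ Gamma0 (N * d),
            ENNReal.ofReal (gFun f d ((Quotient.out κ)⁻¹ • z)) *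
              ENNReal.ofReal (25 * (Y * z.im) ^ (3 / 4 : ℝ))) := by
          refine lintegral_mono fun z ↦ ?_
          by_cases hz : z ∈ (𝒟 : Set ℍ)
          · have e : ENNReal.ofReal (cDens (N * d) * Y) * (wt z * ∑ κ : SL(2, ℤ) ⧸ Gamma0 (N * d),
                ENNReal.ofReal (gFun f d ((Quotient.out κ)⁻¹ • z))) +
              wt z * ∑ κ : SL(2, ℤ) ⧸ Gamma0 (N * d),
                ENNReal.ofReal (gFun f d ((Quotient.out κ)⁻¹ • z)) *
                  ENNReal.ofReal (25 * (Y * z.im) ^ (3 / 4 : ℝ)) =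
              wt z * ∑ κ : SL(2, ℤ) ⧸ Gamma0 (N * d),
                ENNReal.ofReal (gFun f d ((Quotient.out κ)⁻¹ • z)) *
                  (ENNReal.ofReal (cDens (N * d) * Y) +
                    ENNReal.ofReal (25 * (Y * z.im) ^ (3 / 4 : ℝ))) := by
              simp_rw [mul_add, Finset.sum_add_distrib, mul_add]
              rw [← Finset.sum_mul, ← Finset.sum_mul]
              ring
            rw [e]
            gcongr with κ
            rw [← ENNReal.ofReal_natCast, ← ENNReal.ofReal_add (by positivity) (by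
              have := z.im_pos; positivity)]
            apply ENNReal.ofReal_le_ofReal
            have h5 := (abs_le.1 (nCount_asymp hM hY (Quotient.out κ)⁻¹ hz)).2
            linarith
          · rw [wt_eq_zero hz]; simp
      _ = ENNReal.ofReal (cDens (N * d) * Y) * iInt f N d +
          ∫⁻ z, wt z * ∑ κ : SL(2, ℤ) ⧸ Gamma0 (N * d),
            ENNReal.ofReal (gFun f d ((Quotient.out κ)⁻¹ • z)) *
              ENNReal.ofReal (25 * (Y * z.im) ^ (3 / 4 : ℝ)) := by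
          rw [lintegral_add_left, lintegral_const_mul' _ _ ENNReal.ofReal_ne_top]
          · rfl
          · exact (measurable_wt.mul (Finset.measurable_sum _ fun κ _ ↦ hGm κ)).const_mul _
      _ ≤ _ := by gcongr
  · calc ENNReal.ofReal (cDens (N * d) * Y) * iInt f N d
        = ∫⁻ z, ENNReal.ofReal (cDens (N * d) * Y) * (wt z * ∑ κ : SL(2, ℤ) ⧸ Gamma0 (N * d),
            ENNReal.ofReal (gFun f d ((Quotient.out κ)⁻¹ • z))) := by
          rw [lintegral_const_mul' _ _ ENNReal.ofReal_ne_top]; rfl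
      _ ≤ ∫⁻ z, (wt z * ∑ κ : SL(2, ℤ) ⧸ Gamma0 (N * d),
            ENNReal.ofReal (gFun f d ((Quotient.out κ)⁻¹ • z)) *
              (nCount (N * d) Y (Quotient.out κ)⁻¹ z : ℝ≥0∞) +
          wt z * ∑ κ : SL(2, ℤ) ⧸ Gamma0 (N * d),
            ENNReal.ofReal (gFun f d ((Quotient.out κ)⁻¹ • z)) *
              ENNReal.ofReal (25 * (Y * z.im) ^ (3 / 4 : ℝ))) := by
          refine lintegral_mono fun z ↦ ?_
          by_cases hz : z ∈ (𝒟 : Set ℍ)
          · have e : ENNReal.ofReal (cDens (N * d) * Y) * (wt z * ∑ κ : SL(2, ℤ) ⧸ Gamma0 (N * d),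
                ENNReal.ofReal (gFun f d ((Quotient.out κ)⁻¹ • z))) =
              wt z * ∑ κ : SL(2, ℤ) ⧸ Gamma0 (N * d),
                ENNReal.ofReal (gFun f d ((Quotient.out κ)⁻¹ • z)) *
                  ENNReal.ofReal (cDens (N * d) * Y) := by
              rw [← Finset.sum_mul]; ring
            rw [e, ← mul_add, ← Finset.sum_add_distrib]
            simp_rw [← mul_add]
            gcongr with κ
            rw [← ENNReal.ofReal_natCast, ← ENNReal.ofReal_add (by positivity) (by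
              have := z.im_pos; positivity)]
            apply ENNReal.ofReal_le_ofReal
            have h5 := (abs_le.1 (nCount_asymp hM hY (Quotient.out κ)⁻¹ hz)).1
            linarith
          · rw [wt_eq_zero hz]; simp
      _ = (∫⁻ z, wt z * ∑ κ : SL(2, ℤ) ⧸ Gamma0 (N * d),
            ENNReal.ofReal (gFun f d ((Quotient.out κ)⁻¹ • z)) *
              (nCount (N * d) Y (Quotient.out κ)⁻¹ z : ℝ≥0∞)) +
          ∫⁻ z, wt z * ∑ κ : SL(2, ℤ) ⧸ Gamma0 (N * d),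
            ENNReal.ofReal (gFun f d ((Quotient.out κ)⁻¹ • z)) *
              ENNReal.ofReal (25 * (Y * z.im) ^ (3 / 4 : ℝ)) := by
          rw [lintegral_add_right]
          exact measurable_wt.mul (Finset.measurable_sum _ fun κ _ ↦ (hGm κ).mul hEm)
      _ ≤ _ := by gcongr

/-- the base integral is finite. -/
lemma iBase_ne_top [NeZero N] (hf : IsCuspForm N χ f) : iBase f N ≠ ⊤ := by
  obtain ⟨B, hB⟩ := exists_sup_bound hf
  have h1 : iBase f N ≤ (∫⁻ z, wt z) * ENNReal.ofReal ((Gamma0 N).index * B) := by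
    unfold iBase
    rw [← lintegral_mul_const' _ _ ENNReal.ofReal_ne_top]
    refine lintegral_mono fun z ↦ ?_
    gcongr
    rw [← ENNReal.ofReal_sum_of_nonneg fun κ _ ↦ hFun_nonneg f _]
    apply ENNReal.ofReal_le_ofReal
    calc ∑ κ : SL(2, ℤ) ⧸ Gamma0 N, hFun f ((Quotient.out κ)⁻¹ • z)
        ≤ ∑ κ : SL(2, ℤ) ⧸ Gamma0 N, B := by
          refine Finset.sum_le_sum fun κ _ ↦ ?_
          unfold hFun
          rw [mul_comm]; exact hB _
      _ = _ := by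
          rw [Finset.sum_const, Finset.card_univ, nsmul_eq_mul, ← Nat.card_eq_fintype_card]; rfl
  exact ne_top_of_le_ne_top (ENNReal.mul_ne_top lintegral_wt_ne_top ENNReal.ofReal_ne_top) h1

/-- the constant in the main term. -/
def kConst (f : ℍ → ℂ) (N : ℕ) [NeZero N] : ℝ :=
  cDens 1 * (iBase f N).toReal / (Gamma0 N).index

/-- the coefficient sums over multiples of `d`. -/
def aSum (f : ℍ → ℂ) (X : ℝ) (d : ℕ) : ℝ :=
  ∑' m : ℕ, ‖fourierCoeff f (d * m)‖ ^ 2 * wInt X (d * m)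

theorem level_distribution [NeZero N] (hf : IsCuspForm N χ f) (h4 : 4 ∣ N) {d : ℕ} (hd : 0 < d)
    (hsq : Squarefree d) (hcop : Nat.Coprime d N) {B : ℝ}
    (hB : ∀ w : ℍ, w.im ^ (3 / 2 : ℝ) * ‖f w‖ ^ 2 ≤ B) {X : ℝ} (hX : d ≤ X) :
    Summable (fun m : ℕ ↦ ‖fourierCoeff f (d * m)‖ ^ 2 * wInt X (d * m)) ∧
    |aSum f X d - kConst f N * (X / d)| ≤
      125 * B * (Gamma0 (N * d)).index * (X / d) ^ (3 / 4 : ℝ) := by
  have : NeZero d := ⟨hd.ne'⟩
  have hdR : (0 : ℝ) < d := by exact_mod_cast hd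
  have hX0 : 0 < X := hdR.trans_le hX
  have hY : 1 ≤ X / d := by rw [le_div_iff₀ hdR]; linarith
  have hY0 : 0 < X / d := by linarith
  have hB0 : 0 ≤ B := by
    refine le_trans ?_ (hB UpperHalfPlane.I)
    have := (UpperHalfPlane.I).im_pos
    positivity
  obtain ⟨h1, h2⟩ := strip_two_sided hf h4 hsq hcop hB hY
  have hM : 0 < N * d := NeZero.pos (N * d)
  have hcd := cDens_nonneg hM
  -- finiteness of iInt and its value
  have hIeq := iInt_eq hf h4 hsq hcop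
  have hidxN : (0 : ℝ) < ((Gamma0 N).index : ℝ) := by
    have : (Gamma0 N).index ≠ 0 := (inferInstance : (Gamma0 N).FiniteIndex).index_ne_zero
    exact_mod_cast Nat.pos_of_ne_zero this
  have hidxN' : ((Gamma0 N).index : ℝ≥0∞) ≠ 0 := by
    have : (Gamma0 N).index ≠ 0 := (inferInstance : (Gamma0 N).FiniteIndex).index_ne_zero
    exact_mod_cast this
  have hItop : iInt f N d ≠ ⊤ := by
    intro htop
    rw [htop, ENNReal.mul_top hidxN'] at hIeq
    exact ENNReal.mul_ne_top (ENNReal.mul_ne_top ENNReal.ofReal_ne_top (ENNReal.natCast_ne_top _))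
      (iBase_ne_top hf) hIeq.symm
  have hIreal : ((Gamma0 N).index : ℝ) * (iInt f N d).toReal =
      (d : ℝ) ^ (5 / 2 : ℝ) * (Gamma0 (N * d)).index * (iBase f N).toReal := by
    have := congrArg ENNReal.toReal hIeq
    rw [ENNReal.toReal_mul, ENNReal.toReal_mul, ENNReal.toReal_mul, ENNReal.toReal_natCast,
      ENNReal.toReal_natCast, ENNReal.toReal_ofReal (by positivity)] at this
    exact this
  have hmainterm : cDens (N * d) * (X / d) * (iInt f N d).toReal =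
      (d : ℝ) ^ (5 / 2 : ℝ) * (kConst f N * (X / d)) := by
    have h3 := cDens_index (N * d)
    unfold kConst
    rw [← h3]
    have h4' : (iInt f N d).toReal =
        (d : ℝ) ^ (5 / 2 : ℝ) * (Gamma0 (N * d)).index * (iBase f N).toReal /
          (Gamma0 N).index := by
      rw [eq_div_iff hidxN.ne', ← hIreal]; ring
    rw [h4']
    field_simp
  -- the strip integral
  have hS := strip_eq hf d hY0
  set S : ℝ≥0∞ := ∫⁻ z in hstrip (X / d), ENNReal.ofReal (gFun f d z) with hSdef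
  have hStop : S ≠ ⊤ := by
    refine ne_top_of_le_ne_top ?_ h1
    exact ENNReal.add_ne_top.2 ⟨ENNReal.mul_ne_top ENNReal.ofReal_ne_top hItop, ENNReal.ofReal_ne_top⟩
  have hterm : ∀ m : ℕ, (d : ℝ) ^ 2 * ‖fourierCoeff f (d * m)‖ ^ 2 * wInt (X / d) m =
      (d : ℝ) ^ (5 / 2 : ℝ) * (‖fourierCoeff f (d * m)‖ ^ 2 * wInt X (d * m)) := by
    intro m
    rw [wInt_scale d hd m]
    have e : (d : ℝ) ^ (5 / 2 : ℝ) = (d : ℝ) ^ 2 * Real.sqrt d := by
      rw [Real.sqrt_eq_rpow, ← Real.rpow_natCast, ← Real.rpow_add hdR]; norm_num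
    rw [e]; ring
  have hd52 : 0 < (d : ℝ) ^ (5 / 2 : ℝ) := Real.rpow_pos_of_pos hdR _
  have hnn : ∀ m : ℕ, 0 ≤ ‖fourierCoeff f (d * m)‖ ^ 2 * wInt X (d * m) := fun m ↦ by
    have := wInt_nonneg hX0 (d * m); positivity
  simp_rw [hterm] at hS
  have hsum1 : Summable fun m : ℕ ↦
      (d : ℝ) ^ (5 / 2 : ℝ) * (‖fourierCoeff f (d * m)‖ ^ 2 * wInt X (d * m)) := by
    have hne : ∑' m : ℕ, ENNReal.ofReal
        ((d : ℝ) ^ (5 / 2 : ℝ) * (‖fourierCoeff f (d * m)‖ ^ 2 * wInt X (d * m))) ≠ ⊤ := by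
      rw [← hS]; exact hStop
    have h3 := ENNReal.summable_toReal hne
    refine h3.congr fun m ↦ ?_
    rw [ENNReal.toReal_ofReal]
    exact mul_nonneg hd52.le (hnn m)
  have hsum2 : Summable fun m : ℕ ↦ ‖fourierCoeff f (d * m)‖ ^ 2 * wInt X (d * m) :=
    (summable_mul_left_iff hd52.ne').1 hsum1
  refine ⟨hsum2, ?_⟩
  have hSreal : S.toReal = (d : ℝ) ^ (5 / 2 : ℝ) * aSum f X d := by
    rw [hS, ← ENNReal.ofReal_tsum_of_nonneg (fun m ↦ mul_nonneg hd52.le (hnn m)) hsum1,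
      ENNReal.toReal_ofReal (tsum_nonneg fun m ↦ mul_nonneg hd52.le (hnn m)), tsum_mul_left]
    rfl
  set E : ℝ := (d : ℝ) ^ (5 / 2 : ℝ) * B * (Gamma0 (N * d)).index *
        (125 * (X / d) ^ (3 / 4 : ℝ)) with hE
  have hE0 : 0 ≤ E := by rw [hE]; positivity
  have h1' : S.toReal ≤ cDens (N * d) * (X / d) * (iInt f N d).toReal + E := by
    have h3 := ENNReal.toReal_mono (ENNReal.add_ne_top.2
      ⟨ENNReal.mul_ne_top ENNReal.ofReal_ne_top hItop, ENNReal.ofReal_ne_top⟩) h1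
    rw [ENNReal.toReal_add (ENNReal.mul_ne_top ENNReal.ofReal_ne_top hItop) ENNReal.ofReal_ne_top,
      ENNReal.toReal_mul, ENNReal.toReal_ofReal (by positivity), ENNReal.toReal_ofReal hE0] at h3
    exact h3
  have h2' : cDens (N * d) * (X / d) * (iInt f N d).toReal ≤ S.toReal + E := by
    have h3 := ENNReal.toReal_mono (ENNReal.add_ne_top.2 ⟨hStop, ENNReal.ofReal_ne_top⟩) h2
    rw [ENNReal.toReal_add hStop ENNReal.ofReal_ne_top,
      ENNReal.toReal_mul, ENNReal.toReal_ofReal (by positivity), ENNReal.toReal_ofReal hE0] at h3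
    exact h3
  rw [hmainterm, hSreal] at h1' h2'
  have hkey : |(d : ℝ) ^ (5 / 2 : ℝ) * (aSum f X d - kConst f N * (X / d))| ≤ E := by
    rw [abs_le]; constructor <;> linarith
  rw [abs_mul, abs_of_pos hd52] at hkey
  have hE2 : E = (d : ℝ) ^ (5 / 2 : ℝ) * (125 * B * (Gamma0 (N * d)).index *
      (X / d) ^ (3 / 4 : ℝ)) := by rw [hE]; ring
  rw [hE2] at hkey
  exact le_of_mul_le_mul_left hkey hd52

end

end

end Pool.Agent.Work.MP_af11aa_nt
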