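import Mathlib
import Pool.Agent.Work.MP_af11aa_nt.Count
import Pool.Agent.Work.MP_af11aa_nt.SupBound
import Pool.Agent.Work.MP_af11aa_nt.Unfold
import Pool.Agent.Work.MP_af11aa_nt.Index

namespace Pool.Agent.Work.MP_af11aa_nt

open UpperHalfPlane CongruenceSubgroup MeasureTheory Filter
open Complex hiding Gamma
open scoped MatrixGroups Manifold Topology ComplexConjugate ENNReal ModularForm

noncomputable section

section

attribute [local instance] Subgroup.fintypeQuotientOfFiniteIndex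

variable {N : ℕ} {χ : DirichletCharacter ℂ N} {f : ℍ → ℂ}

/-- the basic inequality for `q` squarefree and coprime to the level. -/
theorem coprime_case [NeZero N] (hf : IsCuspForm N χ f) (h4 : 4 ∣ N) {q : ℕ} [NeZero q]
    (hsq : Squarefree q) (hcop : Nat.Coprime q N) {B : ℝ}
    (hB : ∀ w : ℍ, w.im ^ (3 / 2 : ℝ) * ‖f w‖ ^ 2 ≤ B) {Y : ℝ} (hY : 0 < Y)
    (s : Finset ℕ) (hs : ∀ m ∈ s, (m : ℝ) ≤ Y) :
    (q : ℝ) ^ 2 * Real.exp (-(8 * Real.pi)) / Real.sqrt (2 * Y) *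
      ∑ m ∈ s, ‖fourierCoeff f (q * m)‖ ^ 2 ≤
      2 * ((q : ℝ) ^ (5 / 2 : ℝ) * B * (Gamma0 (N * q)).index *
        (3 * (2 * (Real.sqrt 2 * Y / ((N * q : ℕ) : ℝ)) + 1))) := by
  have hB0 : 0 ≤ B := by
    refine le_trans ?_ (hB UpperHalfPlane.I)
    have := (UpperHalfPlane.I).im_pos
    positivity
  have hG : Measurable fun z ↦ ENNReal.ofReal (gFun f q z) :=
    (continuous_gFun hf q).measurable.ennreal_ofReal
  have hK : ∀ k ∈ Gamma0 (N * q), ∀ z : ℍ,
      ENNReal.ofReal (gFun f q (k • z)) = ENNReal.ofReal (gFun f q z) := by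
    intro k hk z
    rw [gFun_inv hf h4 hk]
  have h1 := strip_lower hf q hY s hs
  have h2 := unfold_le (Gamma0 (N * q)) hG hK (measurableSet_strip Y)
  set M : ℝ := 3 * (2 * (Real.sqrt 2 * Y / ((N * q : ℕ) : ℝ)) + 1) with hM
  have hM0 : 0 ≤ M := by rw [hM]; positivity
  set A : ℝ := (q : ℝ) ^ (5 / 2 : ℝ) * B * (Gamma0 (N * q)).index with hA
  have hA0 : 0 ≤ A := by rw [hA]; positivity
  have h3 : ∫⁻ z in ModularGroup.fd, ∑ κ : SL(2, ℤ) ⧸ Gamma0 (N * q),
      ENNReal.ofReal (gFun f q ((Quotient.out κ)⁻¹ • z)) *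
      ∑' k : Gamma0 (N * q), (strip Y).indicator 1 ((k : SL(2, ℤ))⁻¹ • (Quotient.out κ)⁻¹ • z) ≤
      ∫⁻ z in ModularGroup.fd, ENNReal.ofReal (A * M) := by
    refine lintegral_mono fun z ↦ ?_
    calc ∑ κ : SL(2, ℤ) ⧸ Gamma0 (N * q),
        ENNReal.ofReal (gFun f q ((Quotient.out κ)⁻¹ • z)) *
        ∑' k : Gamma0 (N * q), (strip Y).indicator 1 ((k : SL(2, ℤ))⁻¹ • (Quotient.out κ)⁻¹ • z)
        ≤ ∑ κ : SL(2, ℤ) ⧸ Gamma0 (N * q),
        ENNReal.ofReal (gFun f q ((Quotient.out κ)⁻¹ • z)) * ENNReal.ofReal M := by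
          refine Finset.sum_le_sum fun κ _ ↦ ?_
          gcongr
          exact tsum_strip_le (N * q) hY _
      _ = ENNReal.ofReal (∑ κ : SL(2, ℤ) ⧸ Gamma0 (N * q),
          gFun f q ((Quotient.out κ)⁻¹ • z)) * ENNReal.ofReal M := by
          rw [← Finset.sum_mul, ENNReal.ofReal_sum_of_nonneg fun κ _ ↦ gFun_nonneg f q _]
      _ = ENNReal.ofReal ((∑ κ : SL(2, ℤ) ⧸ Gamma0 (N * q),
          gFun f q ((Quotient.out κ)⁻¹ • z)) * M) := by
          refine (ENNReal.ofReal_mul ?_).symm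
          exact Finset.sum_nonneg fun κ _ ↦ gFun_nonneg f q _
      _ ≤ _ := by
          apply ENNReal.ofReal_le_ofReal
          exact mul_le_mul_of_nonneg_right (sum_gFun_Gamma0_le hf h4 hsq hcop hB z) hM0
  have h4' : ∫⁻ z in (ModularGroup.fd : Set ℍ), ENNReal.ofReal (A * M) ≤
      ENNReal.ofReal (2 * (A * M)) := by
    rw [setLIntegral_const, ENNReal.ofReal_mul (by norm_num : (0 : ℝ) ≤ 2), mul_comm]
    refine mul_le_mul' ?_ le_rfl
    refine volume_fd_le.trans ?_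
    norm_num
  have h5 := ((h1.trans h2).trans h3).trans h4'
  exact (ENNReal.ofReal_le_ofReal_iff (mul_nonneg (by norm_num) (mul_nonneg hA0 hM0))).1 h5

end

end

end Pool.Agent.Work.MP_af11aa_nt
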