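import Mathlib
import Pool.Agent.Work.MP_af11aa_nt.Defs

namespace Pool.Agent.Work.MP_af11aa_nt

open UpperHalfPlane CongruenceSubgroup MeasureTheory
open Complex hiding Gamma
open scoped MatrixGroups Manifold Topology ComplexConjugate

noncomputable section

/-- The Petersson inner product `∫_{Γ₀(N)\ℍ} f(z) conj(g(z)) y^{3/2} dx dy / y²` of weight `3/2`,
written as an integral over the standard fundamental domain `𝒟` of `SL(2,ℤ)` of the sum over the
cosets of `Γ₀(N)`; `volume` is the hyperbolic measure `dx dy / y²`. -/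
def peterssonInner (N : ℕ) (f g : ℍ → ℂ) : ℂ :=
  ∫ z in (ModularGroup.fd : Set ℍ), ∑' κ : SL(2, ℤ) ⧸ Gamma0 N,
    f ((Quotient.out κ)⁻¹ • z) * conj (g ((Quotient.out κ)⁻¹ • z)) *
      ((((Quotient.out κ)⁻¹ • z).im ^ (3 / 2 : ℝ) : ℝ) : ℂ)

end

end Pool.Agent.Work.MP_af11aa_nt
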