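import Mathlib
import Pool.Agent.Work.MP_af11aa_nt.PeterssonInner
import Pool.Agent.Work.MP_af11aa_nt.Level2
import Pool.Agent.Work.MP_af11aa_nt.Main

namespace Pool.Agent.Work.MP_af11aa_nt

open UpperHalfPlane CongruenceSubgroup MeasureTheory Filter
open Complex hiding Gamma
open scoped MatrixGroups Manifold Topology ComplexConjugate ENNReal Modular

noncomputable section

section

attribute [local instance] Subgroup.fintypeQuotientOfFiniteIndex

variable {N : ℕ} {χ : DirichletCharacter ℂ N} {f g : ℍ → ℂ}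

/-- the integrand of the inner product. -/
def petF (N : ℕ) (f g : ℍ → ℂ) (z : ℍ) : ℂ :=
  ∑' κ : SL(2, ℤ) ⧸ Gamma0 N,
    f ((Quotient.out κ)⁻¹ • z) * conj (g ((Quotient.out κ)⁻¹ • z)) *
      ((((Quotient.out κ)⁻¹ • z).im ^ (3 / 2 : ℝ) : ℝ) : ℂ)

lemma petF_eq [NeZero N] (f g : ℍ → ℂ) (z : ℍ) :
    petF N f g z = ∑ κ : SL(2, ℤ) ⧸ Gamma0 N,
    f ((Quotient.out κ)⁻¹ • z) * conj (g ((Quotient.out κ)⁻¹ • z)) *
      ((((Quotient.out κ)⁻¹ • z).im ^ (3 / 2 : ℝ) : ℝ) : ℂ) := tsum_fintype _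

lemma peterssonInner_eq (N : ℕ) (f g : ℍ → ℂ) :
    peterssonInner N f g = ∫ z in (ModularGroup.fd : Set ℍ), petF N f g z := rfl

lemma continuous_smul_sl (γ : SL(2, ℤ)) : Continuous fun z : ℍ ↦ γ • z :=
  continuous_const_smul (γ : GL (Fin 2) ℝ)

lemma continuous_petF [NeZero N] (hf : IsCuspForm N χ f) (hg : IsCuspForm N χ g) :
    Continuous (petF N f g) := by
  have : petF N f g = fun z ↦ ∑ κ : SL(2, ℤ) ⧸ Gamma0 N,
    f ((Quotient.out κ)⁻¹ • z) * conj (g ((Quotient.out κ)⁻¹ • z)) *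
      ((((Quotient.out κ)⁻¹ • z).im ^ (3 / 2 : ℝ) : ℝ) : ℂ) := by
    funext z; exact petF_eq f g z
  rw [this]
  refine continuous_finsetSum _ fun κ _ ↦ ?_
  have hc := continuous_smul_sl (Quotient.out κ)⁻¹
  refine ((hf.continuous.comp hc).mul (Complex.continuous_conj.comp (hg.continuous.comp hc))).mul ?_
  have h1 : Continuous fun w : ℍ ↦ ((w.im ^ (3 / 2 : ℝ) : ℝ) : ℂ) :=
    Complex.continuous_ofReal.comp
      (UpperHalfPlane.continuous_im.rpow_const fun z ↦ Or.inl z.im_pos.ne')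
  exact h1.comp hc

lemma norm_petF_le [NeZero N] {B B' : ℝ} (hB : ∀ w : ℍ, w.im ^ (3 / 2 : ℝ) * ‖f w‖ ^ 2 ≤ B)
    (hB' : ∀ w : ℍ, w.im ^ (3 / 2 : ℝ) * ‖g w‖ ^ 2 ≤ B') (z : ℍ) :
    ‖petF N f g z‖ ≤ (Gamma0 N).index * ((B + B') / 2) := by
  rw [petF_eq]
  refine (norm_sum_le _ _).trans ?_
  have hterm : ∀ w : ℍ, ‖f w * conj (g w) * ((w.im ^ (3 / 2 : ℝ) : ℝ) : ℂ)‖ ≤ (B + B') / 2 := by
    intro w
    have hw : 0 < w.im ^ (3 / 2 : ℝ) := Real.rpow_pos_of_pos w.im_pos _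
    rw [norm_mul, norm_mul, Complex.norm_conj, Complex.norm_real, Real.norm_of_nonneg hw.le]
    have h1 := hB w
    have h2 := hB' w
    nlinarith [sq_nonneg (‖f w‖ - ‖g w‖)]
  calc ∑ κ : SL(2, ℤ) ⧸ Gamma0 N, ‖f ((Quotient.out κ)⁻¹ • z) * conj (g ((Quotient.out κ)⁻¹ • z)) *
      ((((Quotient.out κ)⁻¹ • z).im ^ (3 / 2 : ℝ) : ℝ) : ℂ)‖
      ≤ ∑ _κ : SL(2, ℤ) ⧸ Gamma0 N, (B + B') / 2 := Finset.sum_le_sum fun κ _ ↦ hterm _
    _ = _ := by
        rw [Finset.sum_const, Finset.card_univ, nsmul_eq_mul, ← Nat.card_eq_fintype_card]; rfl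

lemma integrable_petF [NeZero N] (hf : IsCuspForm N χ f) (hg : IsCuspForm N χ g) :
    IntegrableOn (petF N f g) (ModularGroup.fd : Set ℍ) := by
  obtain ⟨B, hB⟩ := exists_sup_bound hf
  obtain ⟨B', hB'⟩ := exists_sup_bound hg
  have hfin : volume (ModularGroup.fd : Set ℍ) < ⊤ :=
    lt_of_le_of_lt volume_fd_le (by norm_num)
  exact Measure.integrableOn_of_bounded hfin.ne (continuous_petF hf hg).aestronglyMeasurable
    (Filter.Eventually.of_forall fun z ↦ norm_petF_le hB hB' z)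

lemma petF_self [NeZero N] (f : ℍ → ℂ) (z : ℍ) :
    petF N f f z = ((∑ κ : SL(2, ℤ) ⧸ Gamma0 N, hFun f ((Quotient.out κ)⁻¹ • z) : ℝ) : ℂ) := by
  rw [petF_eq, Complex.ofReal_sum]
  refine Finset.sum_congr rfl fun κ _ ↦ ?_
  unfold hFun
  rw [Complex.mul_conj, Complex.normSq_eq_norm_sq]
  push_cast
  rfl

/-- the square of the Petersson norm. -/
def petNorm (N : ℕ) (f : ℍ → ℂ) : ℝ := (peterssonInner N f f).re

lemma peterssonInner_self [NeZero N] (f : ℍ → ℂ) :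
    peterssonInner N f f = ((∫ z in (ModularGroup.fd : Set ℍ),
      ∑ κ : SL(2, ℤ) ⧸ Gamma0 N, hFun f ((Quotient.out κ)⁻¹ • z) : ℝ) : ℂ) := by
  rw [peterssonInner_eq]
  simp_rw [petF_self]
  exact integral_ofReal

lemma petNorm_eq [NeZero N] (f : ℍ → ℂ) :
    petNorm N f = ∫ z in (ModularGroup.fd : Set ℍ),
      ∑ κ : SL(2, ℤ) ⧸ Gamma0 N, hFun f ((Quotient.out κ)⁻¹ • z) := by
  unfold petNorm
  rw [peterssonInner_self, Complex.ofReal_re]

lemma petNorm_nonneg [NeZero N] (f : ℍ → ℂ) : 0 ≤ petNorm N f := by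
  rw [petNorm_eq]
  exact integral_nonneg fun z ↦ Finset.sum_nonneg fun κ _ ↦ hFun_nonneg f _

lemma iBase_le_petNorm [NeZero N] (hf : IsCuspForm N χ f) :
    iBase f N ≤ ENNReal.ofReal (petNorm N f) := by
  have hint := integrable_petF hf hf
  have hint2 : IntegrableOn (fun z ↦ ∑ κ : SL(2, ℤ) ⧸ Gamma0 N, hFun f ((Quotient.out κ)⁻¹ • z))
      (ModularGroup.fd : Set ℍ) := by
    have h1 := hint.re
    refine h1.congr (Filter.Eventually.of_forall fun z ↦ ?_)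
    simp only
    rw [petF_self]
    exact Complex.ofReal_re _
  rw [petNorm_eq, ofReal_integral_eq_lintegral_ofReal hint2
    (Filter.Eventually.of_forall fun z ↦ Finset.sum_nonneg fun κ _ ↦ hFun_nonneg f _)]
  rw [← lintegral_indicator ModularGroup.isClosed_fd.measurableSet]
  unfold iBase
  refine lintegral_mono fun z ↦ ?_
  by_cases hz : z ∈ (ModularGroup.fd : Set ℍ)
  · rw [Set.indicator_of_mem hz, ENNReal.ofReal_sum_of_nonneg fun κ _ ↦ hFun_nonneg f _]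
    have h1 := wt_le z
    rw [Set.indicator_of_mem hz, Pi.one_apply] at h1
    calc wt z * ∑ κ : SL(2, ℤ) ⧸ Gamma0 N, ENNReal.ofReal (hFun f ((Quotient.out κ)⁻¹ • z))
        ≤ 1 * ∑ κ : SL(2, ℤ) ⧸ Gamma0 N, ENNReal.ofReal (hFun f ((Quotient.out κ)⁻¹ • z)) := by
          gcongr
      _ = _ := one_mul _
  · rw [wt_eq_zero hz, zero_mul]; exact zero_le

/-- the mean square over multiples of `q` in terms of the Petersson norm. -/
theorem l2_case [NeZero N] (hf : IsCuspForm N χ f) (h4 : 4 ∣ N) {q : ℕ} [NeZero q]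
    (hsq : Squarefree q) (hcop : Nat.Coprime q N) {Y : ℝ} (hY : 0 < Y)
    (s : Finset ℕ) (hs : ∀ m ∈ s, (m : ℝ) ≤ Y) :
    (q : ℝ) ^ 2 * Real.exp (-(8 * Real.pi)) / Real.sqrt (2 * Y) *
      ∑ m ∈ s, ‖fourierCoeff f (q * m)‖ ^ 2 ≤
      (3 * (2 * (Real.sqrt 2 * Y / ((N * q : ℕ) : ℝ)) + 1)) *
        ((q : ℝ) ^ (5 / 2 : ℝ) * (ArithmeticFunction.sigma 1 q : ℕ) * petNorm N f) := by
  have hG : Measurable fun z ↦ ENNReal.ofReal (gFun f q z) :=
    (continuous_gFun hf q).measurable.ennreal_ofReal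
  have hK : ∀ k ∈ Gamma0 (N * q), ∀ z : ℍ,
      ENNReal.ofReal (gFun f q (k • z)) = ENNReal.ofReal (gFun f q z) := by
    intro k hk z
    rw [gFun_inv hf h4 hk]
  have h1 := strip_lower hf q hY s hs
  rw [unfold_eq (Gamma0 (N * q)) hG hK (measurableSet_strip Y)] at h1
  set M : ℝ := 3 * (2 * (Real.sqrt 2 * Y / ((N * q : ℕ) : ℝ)) + 1) with hM
  have hM0 : 0 ≤ M := by rw [hM]; positivity
  have h2 : ∫⁻ z, wt z * ∑ κ : SL(2, ℤ) ⧸ Gamma0 (N * q),
      ENNReal.ofReal (gFun f q ((Quotient.out κ)⁻¹ • z)) *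
      ∑' k : Gamma0 (N * q), (strip Y).indicator 1 ((k : SL(2, ℤ))⁻¹ • (Quotient.out κ)⁻¹ • z) ≤
      ENNReal.ofReal M * iInt f N q := by
    unfold iInt
    rw [← lintegral_const_mul' _ _ ENNReal.ofReal_ne_top]
    refine lintegral_mono fun z ↦ ?_
    simp only
    rw [mul_left_comm, Finset.mul_sum (a := ENNReal.ofReal M)]
    refine mul_le_mul' le_rfl (Finset.sum_le_sum fun κ _ ↦ ?_)
    rw [mul_comm (ENNReal.ofReal M)]
    exact mul_le_mul' le_rfl (tsum_strip_le (N * q) hY _)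
  have hidx0 : ((Gamma0 N).index : ℝ≥0∞) ≠ 0 := by
    have : (Gamma0 N).index ≠ 0 := (inferInstance : (Gamma0 N).FiniteIndex).index_ne_zero
    exact_mod_cast this
  have hidxt : ((Gamma0 N).index : ℝ≥0∞) ≠ ⊤ := ENNReal.natCast_ne_top _
  have h3 : iInt f N q ≤ ENNReal.ofReal ((q : ℝ) ^ (5 / 2 : ℝ)) *
      (ArithmeticFunction.sigma 1 q : ℕ) * iBase f N := by
    have e := iInt_eq hf h4 hsq hcop
    have hle : ((Gamma0 (N * q)).index : ℝ≥0∞) ≤
        ((Gamma0 N).index : ℝ≥0∞) * (ArithmeticFunction.sigma 1 q : ℕ) := by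
      have := index_Gamma0_mul_squarefree_le N (NeZero.pos N) q hsq
      exact_mod_cast this
    have h5 : ((Gamma0 N).index : ℝ≥0∞) * iInt f N q ≤ ((Gamma0 N).index : ℝ≥0∞) *
        (ENNReal.ofReal ((q : ℝ) ^ (5 / 2 : ℝ)) *
          (ArithmeticFunction.sigma 1 q : ℕ) * iBase f N) := by
      rw [e]
      calc ENNReal.ofReal ((q : ℝ) ^ (5 / 2 : ℝ)) * ((Gamma0 (N * q)).index : ℝ≥0∞) * iBase f N
          ≤ ENNReal.ofReal ((q : ℝ) ^ (5 / 2 : ℝ)) *
            (((Gamma0 N).index : ℝ≥0∞) * (ArithmeticFunction.sigma 1 q : ℕ)) * iBase f N := by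
            gcongr
        _ = _ := by ring
    exact (ENNReal.mul_le_mul_iff_right hidx0 hidxt).1 h5
  have h4' := iBase_le_petNorm hf
  have hP := petNorm_nonneg (N := N) f
  have h5 : ENNReal.ofReal M * iInt f N q ≤
      ENNReal.ofReal (M * ((q : ℝ) ^ (5 / 2 : ℝ) * (ArithmeticFunction.sigma 1 q : ℕ) *
        petNorm N f)) := by
    have hA : (0 : ℝ) ≤ (q : ℝ) ^ (5 / 2 : ℝ) := by positivity
    have hAs : (0 : ℝ) ≤ (q : ℝ) ^ (5 / 2 : ℝ) * (ArithmeticFunction.sigma 1 q : ℕ) := by positivity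
    have e : ENNReal.ofReal (M * ((q : ℝ) ^ (5 / 2 : ℝ) * (ArithmeticFunction.sigma 1 q : ℕ) *
        petNorm N f)) = ENNReal.ofReal M * (ENNReal.ofReal ((q : ℝ) ^ (5 / 2 : ℝ)) *
        ((ArithmeticFunction.sigma 1 q : ℕ) : ℝ≥0∞) * ENNReal.ofReal (petNorm N f)) := by
      rw [ENNReal.ofReal_mul (p := M) hM0, ENNReal.ofReal_mul hAs, ENNReal.ofReal_mul hA,
        ENNReal.ofReal_natCast]
    rw [e]
    exact mul_le_mul' le_rfl (h3.trans (mul_le_mul' le_rfl h4'))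
  have h6 := (h1.trans h2).trans h5
  exact (ENNReal.ofReal_le_ofReal_iff (by positivity)).1 h6

end

/-- the constant. -/
def cL2 : ℝ := 3 * Real.sqrt 2 * Real.exp (8 * Real.pi)

lemma cL2_pos : 0 < cL2 := by unfold cL2; positivity

theorem l2_24p {p : ℕ} (hp : p.Prime) {χ : DirichletCharacter ℂ (24 * p)} {f : ℍ → ℂ}
    (hf : IsCuspForm (24 * p) χ f) {q : ℕ} (hsq : Squarefree q) (hcop : Nat.Coprime q (24 * p))
    {X : ℝ} (hX : 0 < X) (s : Finset ℕ) (hs : ∀ n ∈ s, q ∣ n ∧ (n : ℝ) ≤ X) :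
    ∑ n ∈ s, ‖fourierCoeff f n‖ ^ 2 ≤
      cL2 * ((ArithmeticFunction.sigma 1 q : ℕ) / q : ℝ) * Real.sqrt X * (X / (p * q) + q) *
        petNorm (24 * p) f := by
  have hq0 : q ≠ 0 := hsq.ne_zero
  have : NeZero q := ⟨hq0⟩
  have : NeZero (24 * p) := ⟨by have := hp.pos; omega⟩
  have hp0 : (0 : ℝ) < p := by exact_mod_cast hp.pos
  have hqp : (0 : ℝ) < q := Nat.cast_pos.2 (NeZero.pos q)
  have hP := petNorm_nonneg (N := 24 * p) f
  have h4 : 4 ∣ 24 * p := ⟨6 * p, by ring⟩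
  set Y : ℝ := X / q with hYdef
  have hY : 0 < Y := by positivity
  have hXY : X = q * Y := by rw [hYdef]; field_simp
  -- reindex
  have hmul : ∀ n ∈ s, q * (n / q) = n := fun n hn ↦ Nat.mul_div_cancel' (hs n hn).1
  have hsum : ∑ n ∈ s, ‖fourierCoeff f n‖ ^ 2 =
      ∑ m ∈ s.image (· / q), ‖fourierCoeff f (q * m)‖ ^ 2 := by
    rw [Finset.sum_image]
    · refine Finset.sum_congr rfl fun n hn ↦ ?_
      rw [hmul n hn]
    · intro a ha b hb hab
      have hab' : a / q = b / q := hab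
      rw [← hmul a ha, ← hmul b hb, hab']
  rw [hsum]
  have h1 := l2_case hf h4 hsq hcop hY (s.image (· / q)) (by
    intro m hm
    rw [Finset.mem_image] at hm
    obtain ⟨n, hn, rfl⟩ := hm
    rw [hYdef, le_div_iff₀ hqp]
    have h2 := (hs n hn).2
    have h3 := hmul n hn
    have : ((n / q : ℕ) : ℝ) * q = n := by exact_mod_cast (by rw [mul_comm]; exact h3)
    rw [this]; exact h2)
  set S : ℝ := ∑ m ∈ s.image (· / q), ‖fourierCoeff f (q * m)‖ ^ 2 with hS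
  set σ : ℝ := ((ArithmeticFunction.sigma 1 q : ℕ) : ℝ) with hσ
  have hσ0 : 0 ≤ σ := by positivity
  set P := petNorm (24 * p) f with hPdef
  have hq52 : (q : ℝ) ^ (5 / 2 : ℝ) = q ^ 2 * Real.sqrt q := by
    rw [Real.sqrt_eq_rpow, ← Real.rpow_natCast, ← Real.rpow_add hqp]; norm_num
  have hcast : (((24 * p * q : ℕ)) : ℝ) = 24 * p * q := by push_cast; ring
  rw [hq52, hcast] at h1
  have hexp : Real.exp (-(8 * Real.pi)) * Real.exp (8 * Real.pi) = 1 := by
    rw [← Real.exp_add]; simp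
  have hs2Y : 0 < Real.sqrt (2 * Y) := by positivity
  have h3 : S ≤ Real.exp (8 * Real.pi) * Real.sqrt (2 * Y) / q ^ 2 *
      ((3 * (2 * (Real.sqrt 2 * Y / (24 * p * q)) + 1)) * (q ^ 2 * Real.sqrt q * σ * P)) := by
    have hk : 0 ≤ Real.exp (8 * Real.pi) * Real.sqrt (2 * Y) / q ^ 2 := by positivity
    have h4 := mul_le_mul_of_nonneg_left h1 hk
    refine le_trans (le_of_eq ?_) h4
    field_simp
    linear_combination (-S) * hexp
  refine h3.trans ?_
  have e1 : Real.sqrt (2 * Y) = Real.sqrt 2 * Real.sqrt Y := Real.sqrt_mul (by norm_num) _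
  have e2 : Real.sqrt X = Real.sqrt q * Real.sqrt Y := by rw [hXY, Real.sqrt_mul (by positivity)]
  have e4 : X / (p * q) = Y / p := by rw [hXY]; field_simp
  rw [e1, e2, e4]
  have hkey : Real.exp (8 * Real.pi) * (Real.sqrt 2 * Real.sqrt Y) / q ^ 2 *
      ((3 * (2 * (Real.sqrt 2 * Y / (24 * p * q)) + 1)) * (q ^ 2 * Real.sqrt q * σ * P)) =
      cL2 * (σ / q) * (Real.sqrt q * Real.sqrt Y) * (Real.sqrt 2 / 12 * (Y / p) + q) * P := by
    unfold cL2
    field_simp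
    ring
  rw [hkey]
  have hc := cL2_pos
  have hsqrt2 : Real.sqrt 2 ≤ 12 := by
    rw [Real.sqrt_le_left (by norm_num)]; norm_num
  have h5 : Real.sqrt 2 / 12 * (Y / p) ≤ Y / p := by
    have h6 : Real.sqrt 2 / 12 ≤ 1 := by linarith
    have h7 : 0 ≤ Y / p := by positivity
    nlinarith
  gcongr

/-! ### linear combinations and duality -/

section

variable {N : ℕ} {χ : DirichletCharacter ℂ N} {K : ℕ} {φ : Fin K → ℍ → ℂ}

/-- linear combination. -/
def lComb (φ : Fin K → ℍ → ℂ) (c : Fin K → ℂ) (z : ℍ) : ℂ := ∑ k, c k * φ k z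

lemma isCuspForm_lComb (hφ : ∀ k, IsCuspForm N χ (φ k)) (c : Fin K → ℂ) :
    IsCuspForm N χ (lComb φ c) := by
  refine ⟨?_, ?_, ?_⟩
  · have : lComb φ c = fun z ↦ ∑ k, (c k * φ k z) := rfl
    rw [this]
    have hfin : ∀ t : Finset (Fin K), MDiff (fun z : ℍ ↦ ∑ k ∈ t, (c k * φ k z)) := by
      intro t
      induction t using Finset.induction_on with
      | empty => simpa using mdifferentiable_const (c := (0 : ℂ))
      | insert a t ha ih =>
        simp_rw [Finset.sum_insert ha]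
        exact ((mdifferentiable_const (c := c a)).mul (hφ a).holo).add ih
    exact hfin Finset.univ
  · intro γ hγ z
    unfold lComb
    rw [Finset.mul_sum]
    refine Finset.sum_congr rfl fun k _ ↦ ?_
    rw [(hφ k).transform γ hγ z]
    ring
  · intro γ
    have h1 : ∀ k, Tendsto (fun z : ℍ ↦ ‖c k‖ * (‖φ k (γ • z)‖ / ‖lowerForm γ z‖ ^ (3 / 2 : ℝ)))
        atImInfty (𝓝 (‖c k‖ * 0)) := fun k ↦ ((hφ k).cusp γ).const_mul _
    have h2 : Tendsto (fun z : ℍ ↦ ∑ k, ‖c k‖ * (‖φ k (γ • z)‖ / ‖lowerForm γ z‖ ^ (3 / 2 : ℝ)))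
        atImInfty (𝓝 (∑ k, ‖c k‖ * 0)) := tendsto_finsetSum _ fun k _ ↦ h1 k
    simp only [mul_zero, Finset.sum_const_zero] at h2
    refine squeeze_zero (fun z ↦ by positivity) (fun z ↦ ?_) h2
    have hL : 0 < ‖lowerForm γ z‖ ^ (3 / 2 : ℝ) :=
      Real.rpow_pos_of_pos (norm_pos_iff.2 (lowerForm_ne_zero γ z)) _
    rw [div_le_iff₀ hL, Finset.sum_mul]
    unfold lComb
    refine (norm_sum_le _ _).trans (Finset.sum_le_sum fun k _ ↦ ?_)
    rw [norm_mul]
    apply le_of_eq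
    field_simp

lemma fourierCoeff_lComb (hφ : ∀ k, IsCuspForm N χ (φ k)) (c : Fin K → ℂ) (n : ℕ) :
    fourierCoeff (lComb φ c) n = ∑ k, c k * fourierCoeff (φ k) n := by
  rw [fourierCoeff_eq (isCuspForm_lComb hφ c) n one_pos]
  simp_rw [fourierCoeff_eq (hφ _) n one_pos]
  unfold lComb
  simp_rw [Finset.sum_mul]
  rw [intervalIntegral.integral_finsetSum]
  · rw [Finset.mul_sum]
    refine Finset.sum_congr rfl fun k _ ↦ ?_
    simp_rw [mul_assoc]
    rw [intervalIntegral.integral_const_mul]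
    ring
  · intro k _
    exact ((continuous_const.mul ((hφ k).continuous.comp (continuous_pt one_pos))).mul
      (continuous_eChar _)).intervalIntegrable _ _

section

attribute [local instance] Subgroup.fintypeQuotientOfFiniteIndex

lemma petNorm_lComb [NeZero N] (hφ : ∀ k, IsCuspForm N χ (φ k))
    (hon : ∀ j k, peterssonInner N (φ j) (φ k) = if j = k then 1 else 0) (c : Fin K → ℂ) :
    petNorm N (lComb φ c) = ∑ k, ‖c k‖ ^ 2 := by
  have h1 : ∀ z, petF N (lComb φ c) (lComb φ c) z =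
      ∑ j, ∑ k, c j * conj (c k) * petF N (φ j) (φ k) z := by
    intro z
    simp_rw [petF_eq, Finset.mul_sum]
    have h2 : ∀ κ : SL(2, ℤ) ⧸ Gamma0 N, lComb φ c ((Quotient.out κ)⁻¹ • z) *
        conj (lComb φ c ((Quotient.out κ)⁻¹ • z)) *
        ((((Quotient.out κ)⁻¹ • z).im ^ (3 / 2 : ℝ) : ℝ) : ℂ) =
        ∑ j, ∑ k, c j * conj (c k) * (φ j ((Quotient.out κ)⁻¹ • z) *
          conj (φ k ((Quotient.out κ)⁻¹ • z)) *
            ((((Quotient.out κ)⁻¹ • z).im ^ (3 / 2 : ℝ) : ℝ) : ℂ)) := by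
      intro κ
      unfold lComb
      rw [map_sum, Finset.sum_mul_sum, Finset.sum_mul]
      refine Finset.sum_congr rfl fun j _ ↦ ?_
      rw [Finset.sum_mul]
      refine Finset.sum_congr rfl fun k _ ↦ ?_
      rw [map_mul]; ring
    simp_rw [h2]
    rw [Finset.sum_comm]
    refine Finset.sum_congr rfl fun j _ ↦ ?_
    rw [Finset.sum_comm]
  have h3 : peterssonInner N (lComb φ c) (lComb φ c) = ((∑ k, ‖c k‖ ^ 2 : ℝ) : ℂ) := by
    rw [peterssonInner_eq]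
    simp_rw [h1]
    have hint : ∀ j k, IntegrableOn (fun z ↦ c j * conj (c k) * petF N (φ j) (φ k) z)
        (ModularGroup.fd : Set ℍ) := fun j k ↦ (integrable_petF (hφ j) (hφ k)).const_mul _
    rw [integral_finsetSum _ fun j _ ↦ integrable_finsetSum _ fun k _ ↦ hint j k]
    have h4 : ∀ j, ∫ z in (ModularGroup.fd : Set ℍ), ∑ k, c j * conj (c k) * petF N (φ j) (φ k) z =
        ((‖c j‖ ^ 2 : ℝ) : ℂ) := by
      intro j
      rw [integral_finsetSum _ fun k _ ↦ hint j k]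
      have h5 : ∀ k, ∫ z in (ModularGroup.fd : Set ℍ), c j * conj (c k) * petF N (φ j) (φ k) z =
          if j = k then c j * conj (c k) else 0 := by
        intro k
        rw [integral_const_mul, ← peterssonInner_eq, hon j k]
        split_ifs <;> simp
      simp_rw [h5]
      rw [Finset.sum_ite_eq Finset.univ j, if_pos (Finset.mem_univ _), Complex.mul_conj,
        Complex.normSq_eq_norm_sq]
    simp_rw [h4]
    rw [Complex.ofReal_sum]
  unfold petNorm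
  rw [h3, Complex.ofReal_re]

end

/-- duality. -/
lemma duality [NeZero N] (hφ : ∀ k, IsCuspForm N χ (φ k))
    (hon : ∀ j k, peterssonInner N (φ j) (φ k) = if j = k then 1 else 0) (s : Finset ℕ) {L : ℝ}
    (hL : 0 ≤ L)
    (hbound : ∀ f : ℍ → ℂ, IsCuspForm N χ f →
      ∑ n ∈ s, ‖fourierCoeff f n‖ ^ 2 ≤ L * petNorm N f) (b : ℕ → ℂ) :
    ∑ k, ‖∑ n ∈ s, b n * fourierCoeff (φ k) n‖ ^ 2 ≤ L * ∑ n ∈ s, ‖b n‖ ^ 2 := by
  set V : Fin K → ℂ := fun k ↦ ∑ n ∈ s, b n * fourierCoeff (φ k) n with hV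
  set T : ℝ := ∑ k, ‖V k‖ ^ 2 with hT
  set Bn : ℝ := ∑ n ∈ s, ‖b n‖ ^ 2 with hBn
  have hT0 : 0 ≤ T := Finset.sum_nonneg fun k _ ↦ by positivity
  have hBn0 : 0 ≤ Bn := Finset.sum_nonneg fun k _ ↦ by positivity
  set c : Fin K → ℂ := fun k ↦ conj (V k) with hc
  have hf := isCuspForm_lComb hφ c
  have h1 := hbound _ hf
  rw [petNorm_lComb hφ hon c] at h1
  have h2 : ∑ k, ‖c k‖ ^ 2 = T := by
    rw [hT]
    refine Finset.sum_congr rfl fun k _ ↦ ?_
    rw [hc]; simp only; rw [Complex.norm_conj]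
  rw [h2] at h1
  have h3 : ((T : ℝ) : ℂ) = ∑ n ∈ s, b n * fourierCoeff (lComb φ c) n := by
    simp_rw [fourierCoeff_lComb hφ c, Finset.mul_sum]
    rw [Finset.sum_comm, hT, Complex.ofReal_sum]
    refine Finset.sum_congr rfl fun k _ ↦ ?_
    have h4 : ((‖V k‖ ^ 2 : ℝ) : ℂ) = V k * c k := by
      rw [hc]; simp only
      rw [Complex.mul_conj, Complex.normSq_eq_norm_sq]
    rw [h4]
    have : V k = ∑ n ∈ s, b n * fourierCoeff (φ k) n := rfl
    rw [this, Finset.sum_mul]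
    refine Finset.sum_congr rfl fun n _ ↦ ?_
    ring
  have h4 : T ≤ ∑ n ∈ s, ‖b n‖ * ‖fourierCoeff (lComb φ c) n‖ := by
    have h5 : T = ‖((T : ℝ) : ℂ)‖ := by rw [Complex.norm_real, Real.norm_of_nonneg hT0]
    rw [h5, h3]
    refine (norm_sum_le _ _).trans (Finset.sum_le_sum fun n _ ↦ ?_)
    rw [norm_mul]
  have h5 := Finset.sum_mul_sq_le_sq_mul_sq s (fun n ↦ ‖b n‖)
    (fun n ↦ ‖fourierCoeff (lComb φ c) n‖)
  have h6 : T ^ 2 ≤ Bn * (L * T) := by
    calc T ^ 2 ≤ (∑ n ∈ s, ‖b n‖ * ‖fourierCoeff (lComb φ c) n‖) ^ 2 := by gcongr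
      _ ≤ _ := h5
      _ ≤ Bn * (L * T) := by gcongr
  rcases hT0.eq_or_lt with h7 | h7
  · rw [← h7]; positivity
  · have h8 : T * T ≤ (L * Bn) * T := by nlinarith
    exact le_of_mul_le_mul_right h8 h7

end

theorem large_sieve_24p {p : ℕ} (hp : p.Prime) {χ : DirichletCharacter ℂ (24 * p)} {K : ℕ}
    {φ : Fin K → ℍ → ℂ} (hφ : ∀ k, IsCuspForm (24 * p) χ (φ k))
    (hon : ∀ j k, peterssonInner (24 * p) (φ j) (φ k) = if j = k then 1 else 0)
    {q : ℕ} (hsq : Squarefree q) {X : ℝ} (hX : 0 < X) (b : ℕ → ℂ) :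
    ∑ k, ‖∑ n ∈ (Finset.Icc 1 ⌊X⌋₊).filter (q ∣ ·), b n * fourierCoeff (φ k) n‖ ^ 2 ≤
      cL2 * (q.gcd (6 * p) : ℝ) * ((ArithmeticFunction.sigma 1 q : ℕ) / q : ℝ) *
        Real.sqrt X * (X / (p * q) + q) *
        ∑ n ∈ (Finset.Icc 1 ⌊X⌋₊).filter (q ∣ ·), ‖b n‖ ^ 2 := by
  have hq0 : q ≠ 0 := hsq.ne_zero
  have : NeZero (24 * p) := ⟨by have := hp.pos; omega⟩
  have hp0 : (0 : ℝ) < p := by exact_mod_cast hp.pos
  have hqp : (0 : ℝ) < q := Nat.cast_pos.2 (Nat.pos_of_ne_zero hq0)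
  set g := q.gcd (6 * p) with hg
  obtain ⟨r, hr⟩ : g ∣ q := Nat.gcd_dvd_left _ _
  have hg0 : 0 < g := Nat.gcd_pos_of_pos_left _ (Nat.pos_of_ne_zero hq0)
  have hr0 : 0 < r := by
    rcases Nat.eq_zero_or_pos r with h | h
    · rw [h, mul_zero] at hr; exact absurd hr hq0
    · exact h
  have hcopgr : Nat.Coprime g r := by
    rw [hr] at hsq; exact Nat.coprime_of_squarefree_mul hsq
  have hsqr : Squarefree r := by
    rw [hr] at hsq; exact (Nat.squarefree_mul hcopgr).1 hsq |>.2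
  have hcop6 : Nat.Coprime r (6 * p) := by
    have h1 : r.gcd (6 * p) ∣ g := by
      rw [hg]
      exact Nat.dvd_gcd ((Nat.gcd_dvd_left _ _).trans ⟨g, by rw [hr]; ring⟩) (Nat.gcd_dvd_right _ _)
    have h2 : r.gcd (6 * p) ∣ r := Nat.gcd_dvd_left _ _
    have h3 : r.gcd (6 * p) ∣ g.gcd r := Nat.dvd_gcd h1 h2
    rw [hcopgr] at h3
    exact Nat.dvd_one.1 h3
  have hcop24 : Nat.Coprime r (24 * p) := by
    have h2 : Nat.Coprime r 2 := Nat.Coprime.coprime_dvd_right ⟨3 * p, by ring⟩ hcop6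
    have h4 : Nat.Coprime r 4 := by
      have := h2.pow_right 2
      norm_num at this
      exact this
    have : 24 * p = 4 * (6 * p) := by ring
    rw [this]
    exact h4.mul_right hcop6
  have hgR : (0 : ℝ) < g := Nat.cast_pos.2 hg0
  have hrR : (0 : ℝ) < r := Nat.cast_pos.2 hr0
  have hqgr : (q : ℝ) = g * r := by exact_mod_cast hr
  set s : Finset ℕ := (Finset.Icc 1 ⌊X⌋₊).filter (q ∣ ·) with hs
  have hσ : ((ArithmeticFunction.sigma 1 r : ℕ) / r : ℝ) ≤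
      ((ArithmeticFunction.sigma 1 q : ℕ) / q : ℝ) := by
    rw [div_le_div_iff₀ hrR hqp]
    have hmul : ArithmeticFunction.sigma 1 q =
        ArithmeticFunction.sigma 1 g * ArithmeticFunction.sigma 1 r := by
      rw [hr]; exact ArithmeticFunction.isMultiplicative_sigma.map_mul_of_coprime hcopgr
    have hgσ : g ≤ ArithmeticFunction.sigma 1 g := by
      rw [ArithmeticFunction.sigma_one_apply]
      exact Finset.single_le_sum (f := fun d : ℕ ↦ d) (fun _ _ ↦ Nat.zero_le _)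
        (Nat.mem_divisors_self g hg0.ne')
    have : ArithmeticFunction.sigma 1 r * q ≤ ArithmeticFunction.sigma 1 q * r := by
      rw [hmul, hr]
      calc ArithmeticFunction.sigma 1 r * (g * r)
          = g * (ArithmeticFunction.sigma 1 r * r) := by ring
        _ ≤ ArithmeticFunction.sigma 1 g * (ArithmeticFunction.sigma 1 r * r) :=
          Nat.mul_le_mul_right _ hgσ
        _ = _ := by ring
    exact_mod_cast this
  have hlast : (X / (p * r) + r : ℝ) ≤ g * (X / (p * q) + q) := by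
    have e2 : (g : ℝ) * (X / (p * q)) = X / (p * r) := by
      rw [hqgr]; field_simp
    have e3 : (r : ℝ) ≤ g * q := by
      have hg1 : (1 : ℝ) ≤ g := by exact_mod_cast hg0
      rw [hqgr]
      calc (r : ℝ) = 1 * (1 * r) := by ring
        _ ≤ g * (g * r) := by gcongr
    rw [mul_add, e2]; linarith
  have hc := cL2_pos
  refine duality hφ hon s (by positivity) (fun f hf ↦ ?_) b
  have hP := petNorm_nonneg (N := 24 * p) f
  have h1 := l2_24p hp hf hsqr hcop24 hX s (by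
    intro n hn
    rw [hs, Finset.mem_filter, Finset.mem_Icc] at hn
    exact ⟨(Dvd.intro_left g hr.symm).trans hn.2, (Nat.le_floor_iff hX.le).1 hn.1.2⟩)
  refine h1.trans ?_
  calc cL2 * ((ArithmeticFunction.sigma 1 r : ℕ) / r : ℝ) * Real.sqrt X *
        (X / (p * r) + r) * petNorm (24 * p) f
      ≤ cL2 * ((ArithmeticFunction.sigma 1 q : ℕ) / q : ℝ) * Real.sqrt X *
        (g * (X / (p * q) + q)) * petNorm (24 * p) f := by gcongr
    _ = _ := by ring

end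

end Pool.Agent.Work.MP_af11aa_nt
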