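import Mathlib
import Pool.Agent.Work.MP_af11aa_nt.Primitive

namespace Pool.Agent.Work.MP_af11aa_nt

open ArithmeticFunction
open scoped ArithmeticFunction.Moebius ArithmeticFunction.zeta

noncomputable section

/-- sieve support. -/
def sDiv (P D : ℕ) : Finset ℕ := P.divisors.filter (· ≤ D)

lemma mem_sDiv {P D d : ℕ} (hP : P ≠ 0) : d ∈ sDiv P D ↔ d ∣ P ∧ d ≤ D := by
  unfold sDiv
  rw [Finset.mem_filter, Nat.mem_divisors]
  tauto

/-- the Selberg sum. -/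
def gSum (P D : ℕ) : ℝ := ∑ k ∈ sDiv P D, 1 / (Nat.totient k : ℝ)

lemma one_le_gSum {P D : ℕ} (hP : P ≠ 0) (hD : 1 ≤ D) : 1 ≤ gSum P D := by
  unfold gSum
  have h1 : 1 ∈ sDiv P D := (mem_sDiv hP).2 ⟨one_dvd _, hD⟩
  calc (1 : ℝ) = 1 / (Nat.totient 1 : ℝ) := by simp
    _ ≤ _ := Finset.single_le_sum (f := fun k : ℕ ↦ 1 / (Nat.totient k : ℝ))
      (fun _ _ ↦ by positivity) h1

/-- Selberg weights. -/
def lam (P D d : ℕ) : ℝ :=
  (μ d : ℝ) * d * (1 / gSum P D) * ∑ k ∈ (sDiv P D).filter (d ∣ ·), 1 / (Nat.totient k : ℝ)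

lemma lam_one {P D : ℕ} (hP : P ≠ 0) (hD : 1 ≤ D) : lam P D 1 = 1 := by
  unfold lam
  have h : (sDiv P D).filter (1 ∣ ·) = sDiv P D := by
    apply Finset.filter_true_of_mem
    intro x _; exact one_dvd x
  rw [h]
  have hG := one_le_gSum hP hD
  change (μ 1 : ℝ) * ((1 : ℕ) : ℝ) * (1 / gSum P D) * gSum P D = 1
  have : gSum P D ≠ 0 := by positivity
  simp
  field_simp

lemma abs_lam_le {P D : ℕ} (hP : P ≠ 0) (hD : 1 ≤ D) (d : ℕ) : |lam P D d| ≤ d := by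
  unfold lam
  have hG := one_le_gSum hP hD
  have hG0 : 0 < gSum P D := by linarith
  have h1 : |((μ d : ℤ) : ℝ)| ≤ 1 := by exact_mod_cast abs_moebius_le_one (n := d)
  have h2 : 0 ≤ ∑ k ∈ (sDiv P D).filter (d ∣ ·), 1 / (Nat.totient k : ℝ) :=
    Finset.sum_nonneg fun _ _ ↦ by positivity
  have h3 : ∑ k ∈ (sDiv P D).filter (d ∣ ·), 1 / (Nat.totient k : ℝ) ≤ gSum P D :=
    Finset.sum_le_sum_of_subset_of_nonneg (Finset.filter_subset _ _) fun _ _ _ ↦ by positivity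
  rw [abs_mul, abs_mul, abs_mul, abs_of_nonneg h2, abs_of_pos (by positivity : 0 < 1 / gSum P D),
    Nat.abs_cast]
  calc |((μ d : ℤ) : ℝ)| * d * (1 / gSum P D) * _ ≤ 1 * d * (1 / gSum P D) * gSum P D := by gcongr
    _ = d := by field_simp

lemma inner_moebius {e k : ℕ} (hk : Squarefree k) (hek : e ∣ k) :
    ∑ d ∈ k.divisors.filter (e ∣ ·), (μ d : ℝ) = if k = e then (μ e : ℝ) else 0 := by
  obtain ⟨t, rfl⟩ := hek
  have he0 : e ≠ 0 := by rintro rfl; simp at hk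
  have ht0 : t ≠ 0 := by rintro rfl; simp at hk
  have hcop : Nat.Coprime e t := Nat.coprime_of_squarefree_mul hk
  have h1 : ∑ d ∈ (e * t).divisors.filter (e ∣ ·), (μ d : ℝ) = ∑ s ∈ t.divisors, (μ (e * s) : ℝ) := by
    symm
    refine Finset.sum_nbij (fun s ↦ e * s) ?_ ?_ ?_ (fun _ _ ↦ rfl)
    · intro s hs
      rw [Nat.mem_divisors] at hs
      rw [Finset.mem_filter, Nat.mem_divisors]
      exact ⟨⟨mul_dvd_mul_left _ hs.1, by positivity⟩, dvd_mul_right _ _⟩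
    · intro a _ b _ h
      exact Nat.eq_of_mul_eq_mul_left (Nat.pos_of_ne_zero he0) h
    · intro d hd
      rw [Finset.mem_coe, Finset.mem_filter, Nat.mem_divisors] at hd
      obtain ⟨⟨h1, h2⟩, s, hs⟩ := hd
      refine ⟨s, ?_, hs.symm⟩
      rw [Finset.mem_coe, Nat.mem_divisors]
      refine ⟨?_, ht0⟩
      rw [hs] at h1
      exact Nat.dvd_of_mul_dvd_mul_left (Nat.pos_of_ne_zero he0) h1
  rw [h1]
  have h2 : ∀ s ∈ t.divisors, (μ (e * s) : ℝ) = (μ e : ℝ) * (μ s : ℝ) := by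
    intro s hs
    rw [Nat.mem_divisors] at hs
    have : Nat.Coprime e s := hcop.coprime_dvd_right hs.1
    rw [isMultiplicative_moebius.map_mul_of_coprime this]
    push_cast; rfl
  rw [Finset.sum_congr rfl h2, ← Finset.mul_sum]
  have h3 : ∑ s ∈ t.divisors, (μ s : ℝ) = ((if t = 1 then 1 else 0 : ℤ) : ℝ) := by
    rw [← sum_divisors_moebius t ht0]; push_cast; rfl
  rw [h3]
  by_cases ht : t = 1
  · subst ht; simp
  · rw [if_neg ht, if_neg]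
    · simp
    · intro h
      apply ht
      have : e * t = e * 1 := by rw [h, mul_one]
      exact Nat.eq_of_mul_eq_mul_left (Nat.pos_of_ne_zero he0) this

/-- diagonal values. -/
lemma y_value {P D : ℕ} (hP : Squarefree P) {e : ℕ} (he : e ∈ sDiv P D) :
    ∑ d ∈ (sDiv P D).filter (e ∣ ·), lam P D d / d =
      (μ e : ℝ) * (1 / (Nat.totient e : ℝ)) * (1 / gSum P D) := by
  have hP0 := hP.ne_zero
  have h0 : ∀ d ∈ sDiv P D, (d : ℝ) ≠ 0 := by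
    intro d hd
    have := ((mem_sDiv hP0).1 hd).1
    have : d ≠ 0 := by rintro rfl; exact hP0 (Nat.eq_zero_of_zero_dvd this)
    exact_mod_cast this
  have h1 : ∑ d ∈ (sDiv P D).filter (e ∣ ·), lam P D d / d =
      (1 / gSum P D) * ∑ d ∈ (sDiv P D).filter (e ∣ ·),
        ∑ k ∈ (sDiv P D).filter (d ∣ ·), (μ d : ℝ) * (1 / (Nat.totient k : ℝ)) := by
    rw [Finset.mul_sum]
    refine Finset.sum_congr rfl fun d hd ↦ ?_
    have := h0 d (Finset.mem_filter.1 hd).1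
    unfold lam
    rw [← Finset.mul_sum]
    field_simp
  have h2 : ∑ d ∈ (sDiv P D).filter (e ∣ ·),
        ∑ k ∈ (sDiv P D).filter (d ∣ ·), (μ d : ℝ) * (1 / (Nat.totient k : ℝ)) =
      ∑ k ∈ (sDiv P D).filter (e ∣ ·),
        ∑ d ∈ k.divisors.filter (e ∣ ·), (μ d : ℝ) * (1 / (Nat.totient k : ℝ)) := by
    apply Finset.sum_comm'
    intro d k
    simp only [Finset.mem_filter, mem_sDiv hP0, Nat.mem_divisors]
    constructor
    · rintro ⟨⟨⟨h3, h4⟩, h5⟩, ⟨h6, h7⟩, h8⟩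
      have hk0 : k ≠ 0 := by rintro rfl; exact hP0 (Nat.eq_zero_of_zero_dvd h6)
      exact ⟨⟨⟨h8, hk0⟩, h5⟩, ⟨h6, h7⟩, h5.trans h8⟩
    · rintro ⟨⟨⟨h8, hk0⟩, h5⟩, ⟨h6, h7⟩, h9⟩
      exact ⟨⟨⟨h8.trans h6, (Nat.le_of_dvd (Nat.pos_of_ne_zero hk0) h8).trans h7⟩, h5⟩, ⟨h6, h7⟩, h8⟩
  rw [h1, h2]
  have h3 : ∀ k ∈ (sDiv P D).filter (e ∣ ·),
      ∑ d ∈ k.divisors.filter (e ∣ ·), (μ d : ℝ) * (1 / (Nat.totient k : ℝ)) =
      if k = e then (μ e : ℝ) * (1 / (Nat.totient e : ℝ)) else 0 := by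
    intro k hk
    rw [Finset.mem_filter, mem_sDiv hP0] at hk
    rw [← Finset.sum_mul, inner_moebius (hP.squarefree_of_dvd hk.1.1) hk.2]
    split_ifs with h
    · rw [h]
    · simp
  rw [Finset.sum_congr rfl h3, Finset.sum_ite_eq']
  rw [if_pos (Finset.mem_filter.2 ⟨he, dvd_rfl⟩)]
  ring

/-- the main term of the Selberg sieve. -/
lemma selberg_main {P D : ℕ} (hP : Squarefree P) (hD : 1 ≤ D) :
    ∑ d₁ ∈ sDiv P D, ∑ d₂ ∈ sDiv P D, lam P D d₁ * lam P D d₂ / (Nat.lcm d₁ d₂ : ℝ) =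
      1 / gSum P D := by
  have hP0 := hP.ne_zero
  have hG := one_le_gSum hP0 hD
  have hG0 : gSum P D ≠ 0 := by positivity
  have h0 : ∀ d ∈ sDiv P D, d ≠ 0 := by
    intro d hd
    have := ((mem_sDiv hP0).1 hd).1
    rintro rfl; exact hP0 (Nat.eq_zero_of_zero_dvd this)
  have h1 : ∀ d₁ ∈ sDiv P D, ∀ d₂ ∈ sDiv P D,
      lam P D d₁ * lam P D d₂ / (Nat.lcm d₁ d₂ : ℝ) =
      ∑ e ∈ sDiv P D, if e ∣ d₁ ∧ e ∣ d₂ then
        (Nat.totient e : ℝ) * (lam P D d₁ / d₁) * (lam P D d₂ / d₂) else 0 := by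
    intro d₁ hd₁ d₂ hd₂
    have hn1 := h0 d₁ hd₁
    have hn2 := h0 d₂ hd₂
    have hgl : (Nat.gcd d₁ d₂ : ℝ) * (Nat.lcm d₁ d₂ : ℝ) = d₁ * d₂ := by
      exact_mod_cast Nat.gcd_mul_lcm d₁ d₂
    have hl0 : (Nat.lcm d₁ d₂ : ℝ) ≠ 0 := by exact_mod_cast Nat.lcm_ne_zero hn1 hn2
    have htot : (Nat.gcd d₁ d₂ : ℝ) = ∑ e ∈ sDiv P D, if e ∣ d₁ ∧ e ∣ d₂ then
        (Nat.totient e : ℝ) else 0 := by
      have h2 := Nat.sum_totient (Nat.gcd d₁ d₂)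
      have h3 : (Nat.gcd d₁ d₂ : ℝ) = ∑ e ∈ (Nat.gcd d₁ d₂).divisors, (Nat.totient e : ℝ) := by
        exact_mod_cast h2.symm
      rw [h3, ← Finset.sum_filter]
      refine Finset.sum_congr ?_ fun _ _ ↦ rfl
      ext e
      rw [Nat.mem_divisors, Finset.mem_filter, mem_sDiv hP0, Nat.dvd_gcd_iff]
      have hg0 : Nat.gcd d₁ d₂ ≠ 0 := Nat.gcd_ne_zero_left hn1
      constructor
      · rintro ⟨⟨h4, h5⟩, -⟩
        exact ⟨⟨h4.trans ((mem_sDiv hP0).1 hd₁).1,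
          (Nat.le_of_dvd (Nat.pos_of_ne_zero hn1) h4).trans ((mem_sDiv hP0).1 hd₁).2⟩, h4, h5⟩
      · rintro ⟨-, h4, h5⟩
        exact ⟨⟨h4, h5⟩, hg0⟩
    have h5 : lam P D d₁ * lam P D d₂ / (Nat.lcm d₁ d₂ : ℝ) =
        (Nat.gcd d₁ d₂ : ℝ) * ((lam P D d₁ / d₁) * (lam P D d₂ / d₂)) := by
      have hd1 : (d₁ : ℝ) ≠ 0 := by exact_mod_cast hn1
      have hd2 : (d₂ : ℝ) ≠ 0 := by exact_mod_cast hn2
      field_simp
      linear_combination (-(lam P D d₁) * lam P D d₂) * hgl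
    rw [h5, htot, Finset.sum_mul]
    refine Finset.sum_congr rfl fun e _ ↦ ?_
    split_ifs
    · ring
    · ring
  rw [Finset.sum_congr rfl fun d₁ hd₁ ↦ Finset.sum_congr rfl fun d₂ hd₂ ↦ h1 d₁ hd₁ d₂ hd₂]
  have h2 : ∑ d₁ ∈ sDiv P D, ∑ d₂ ∈ sDiv P D, ∑ e ∈ sDiv P D, (if e ∣ d₁ ∧ e ∣ d₂ then
        (Nat.totient e : ℝ) * (lam P D d₁ / d₁) * (lam P D d₂ / d₂) else 0) =
      ∑ e ∈ sDiv P D, (Nat.totient e : ℝ) *
        (∑ d ∈ (sDiv P D).filter (e ∣ ·), lam P D d / d) ^ 2 := by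
    calc ∑ d₁ ∈ sDiv P D, ∑ d₂ ∈ sDiv P D, ∑ e ∈ sDiv P D, (if e ∣ d₁ ∧ e ∣ d₂ then
        (Nat.totient e : ℝ) * (lam P D d₁ / d₁) * (lam P D d₂ / d₂) else 0)
        = ∑ e ∈ sDiv P D, ∑ d₁ ∈ sDiv P D, ∑ d₂ ∈ sDiv P D, (if e ∣ d₁ ∧ e ∣ d₂ then
        (Nat.totient e : ℝ) * (lam P D d₁ / d₁) * (lam P D d₂ / d₂) else 0) := by
          rw [Finset.sum_comm]
          rw [Finset.sum_comm (s := sDiv P D) (t := sDiv P D)
            (f := fun e d₁ ↦ ∑ d₂ ∈ sDiv P D, (if e ∣ d₁ ∧ e ∣ d₂ then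
        (Nat.totient e : ℝ) * (lam P D d₁ / d₁) * (lam P D d₂ / d₂) else 0))]
          rw [Finset.sum_comm]
          refine Finset.sum_congr rfl fun d₁ _ ↦ ?_
          rw [Finset.sum_comm]
      _ = _ := by
          refine Finset.sum_congr rfl fun e _ ↦ ?_
          rw [sq, Finset.sum_filter, Finset.sum_mul_sum, Finset.mul_sum]
          refine Finset.sum_congr rfl fun d₁ _ ↦ ?_
          rw [Finset.mul_sum]
          refine Finset.sum_congr rfl fun d₂ _ ↦ ?_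
          by_cases ha : e ∣ d₁ <;> by_cases hb : e ∣ d₂ <;> simp [ha, hb]
          ring
  rw [h2]
  have h3 : ∀ e ∈ sDiv P D, (Nat.totient e : ℝ) *
        (∑ d ∈ (sDiv P D).filter (e ∣ ·), lam P D d / d) ^ 2 =
      (1 / (Nat.totient e : ℝ)) * (1 / gSum P D) ^ 2 := by
    intro e he
    rw [y_value hP he]
    have hsf : Squarefree e := hP.squarefree_of_dvd ((mem_sDiv hP0).1 he).1
    have hmu : ((μ e : ℤ) : ℝ) ^ 2 = 1 := by
      exact_mod_cast moebius_sq_eq_one_of_squarefree hsf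
    have hφ : (Nat.totient e : ℝ) ≠ 0 := by
      have := Nat.totient_pos.2 (Nat.pos_of_ne_zero (h0 e he))
      exact_mod_cast this.ne'
    calc (Nat.totient e : ℝ) * ((μ e : ℝ) * (1 / (Nat.totient e : ℝ)) * (1 / gSum P D)) ^ 2
        = (μ e : ℝ) ^ 2 * ((Nat.totient e : ℝ) * (1 / (Nat.totient e : ℝ)) ^ 2 *
          (1 / gSum P D) ^ 2) := by ring
      _ = _ := by rw [hmu]; field_simp
  rw [Finset.sum_congr rfl h3, ← Finset.sum_mul]
  change gSum P D * (1 / gSum P D) ^ 2 = _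
  field_simp

/-- sums over multiples. -/
lemma tsum_multiples {w : ℕ → ℝ} {l : ℕ} (hl : 0 < l) :
    ∑' n, (if l ∣ n then w n else 0) = ∑' m, w (l * m) := by
  have hinj : Function.Injective fun m : ℕ ↦ l * m := by
    intro a b hab
    exact Nat.eq_of_mul_eq_mul_left hl hab
  rw [← hinj.tsum_eq]
  · refine tsum_congr fun m ↦ ?_
    simp
  · intro n hn
    rw [Function.mem_support] at hn
    have : l ∣ n := by
      by_contra h
      rw [if_neg h] at hn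
      exact hn rfl
    obtain ⟨m, hm⟩ := this
    exact ⟨m, hm.symm⟩

/-- Selberg's upper bound sieve. -/
theorem selberg_bound {w : ℕ → ℝ} (hw0 : ∀ n, 0 ≤ w n) (hws : Summable w) {P D : ℕ}
    (hP : Squarefree P) (hD : 1 ≤ D) {K R : ℝ} (hR : 0 ≤ R)
    (hA : ∀ l : ℕ, l ∣ P → l ≤ D ^ 2 → |∑' m, w (l * m) - K / l| ≤ R) :
    ∑' n, (if Nat.Coprime n P then w n else 0) ≤ K / gSum P D + R * D ^ 4 := by
  have hP0 := hP.ne_zero
  have h0 : ∀ d ∈ sDiv P D, d ≠ 0 := by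
    intro d hd
    have := ((mem_sDiv hP0).1 hd).1
    rintro rfl; exact hP0 (Nat.eq_zero_of_zero_dvd this)
  have hsummul : ∀ l : ℕ, Summable fun n ↦ if l ∣ n then w n else 0 := by
    intro l
    refine Summable.of_nonneg_of_le (fun n ↦ ?_) (fun n ↦ ?_) hws
    · split_ifs
      · exact hw0 n
      · exact le_rfl
    · split_ifs
      · exact le_rfl
      · exact hw0 n
  have hexp : ∀ n, w n * (∑ d ∈ sDiv P D, if d ∣ n then lam P D d else 0) ^ 2 =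
      ∑ d₁ ∈ sDiv P D, ∑ d₂ ∈ sDiv P D, lam P D d₁ * lam P D d₂ *
        (if Nat.lcm d₁ d₂ ∣ n then w n else 0) := by
    intro n
    rw [sq, Finset.sum_mul_sum, Finset.mul_sum]
    refine Finset.sum_congr rfl fun d₁ _ ↦ ?_
    rw [Finset.mul_sum]
    refine Finset.sum_congr rfl fun d₂ _ ↦ ?_
    have : Nat.lcm d₁ d₂ ∣ n ↔ d₁ ∣ n ∧ d₂ ∣ n := Nat.lcm_dvd_iff
    by_cases ha : d₁ ∣ n <;> by_cases hb : d₂ ∣ n <;> simp [this, ha, hb]
    ring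
  have hsumR : Summable fun n ↦ ∑ d₁ ∈ sDiv P D, ∑ d₂ ∈ sDiv P D, lam P D d₁ * lam P D d₂ *
        (if Nat.lcm d₁ d₂ ∣ n then w n else 0) :=
    summable_sum fun d₁ _ ↦ summable_sum fun d₂ _ ↦ (hsummul _).mul_left _
  have hstep : ∑' n, (if Nat.Coprime n P then w n else 0) ≤
      ∑' n, ∑ d₁ ∈ sDiv P D, ∑ d₂ ∈ sDiv P D, lam P D d₁ * lam P D d₂ *
        (if Nat.lcm d₁ d₂ ∣ n then w n else 0) := by
    refine Summable.tsum_le_tsum (fun n ↦ ?_) ?_ hsumR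
    · rw [← hexp n]
      split_ifs with hc
      · have h1 : (∑ d ∈ sDiv P D, if d ∣ n then lam P D d else 0) = 1 := by
          rw [Finset.sum_eq_single 1]
          · rw [if_pos (one_dvd n), lam_one hP0 hD]
          · intro d hd hd1
            rw [if_neg]
            intro hdn
            apply hd1
            have h2 : d ∣ n.gcd P := Nat.dvd_gcd hdn ((mem_sDiv hP0).1 hd).1
            rw [hc] at h2
            exact Nat.dvd_one.1 h2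
          · intro h
            exact absurd ((mem_sDiv hP0).2 ⟨one_dvd _, hD⟩) h
        rw [h1]; simp
      · have := hw0 n
        positivity
    · refine Summable.of_nonneg_of_le (fun n ↦ ?_) (fun n ↦ ?_) hws
      · split_ifs
        · exact hw0 n
        · exact le_rfl
      · split_ifs
        · exact le_rfl
        · exact hw0 n
  refine hstep.trans ?_
  rw [Summable.tsum_finsetSum fun d₁ _ ↦ summable_sum fun d₂ _ ↦ (hsummul _).mul_left _]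
  have h1 : ∀ d₁ ∈ sDiv P D, ∑' n, ∑ d₂ ∈ sDiv P D, lam P D d₁ * lam P D d₂ *
        (if Nat.lcm d₁ d₂ ∣ n then w n else 0) =
      ∑ d₂ ∈ sDiv P D, lam P D d₁ * lam P D d₂ * ∑' m, w (Nat.lcm d₁ d₂ * m) := by
    intro d₁ hd₁
    rw [Summable.tsum_finsetSum fun d₂ _ ↦ (hsummul _).mul_left _]
    refine Finset.sum_congr rfl fun d₂ hd₂ ↦ ?_
    rw [tsum_mul_left, tsum_multiples]
    exact Nat.lcm_pos (Nat.pos_of_ne_zero (h0 d₁ hd₁)) (Nat.pos_of_ne_zero (h0 d₂ hd₂))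
  rw [Finset.sum_congr rfl h1]
  have h2 : ∑ d₁ ∈ sDiv P D, ∑ d₂ ∈ sDiv P D, lam P D d₁ * lam P D d₂ *
        ∑' m, w (Nat.lcm d₁ d₂ * m) ≤
      ∑ d₁ ∈ sDiv P D, ∑ d₂ ∈ sDiv P D, (K * (lam P D d₁ * lam P D d₂ / (Nat.lcm d₁ d₂ : ℝ)) +
        D ^ 2 * R) := by
    refine Finset.sum_le_sum fun d₁ hd₁ ↦ Finset.sum_le_sum fun d₂ hd₂ ↦ ?_
    have hd₁' := (mem_sDiv hP0).1 hd₁
    have hd₂' := (mem_sDiv hP0).1 hd₂
    have h3 := hA (Nat.lcm d₁ d₂) (Nat.lcm_dvd hd₁'.1 hd₂'.1) (by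
      calc Nat.lcm d₁ d₂ ≤ d₁ * d₂ := Nat.le_of_dvd
            (Nat.mul_pos (Nat.pos_of_ne_zero (h0 d₁ hd₁)) (Nat.pos_of_ne_zero (h0 d₂ hd₂)))
            (Nat.lcm_dvd_mul d₁ d₂)
        _ ≤ D * D := Nat.mul_le_mul hd₁'.2 hd₂'.2
        _ = D ^ 2 := by ring)
    have h4 : |lam P D d₁ * lam P D d₂| ≤ D ^ 2 := by
      rw [abs_mul, sq]
      have a1 := (abs_lam_le hP0 hD d₁).trans (by exact_mod_cast hd₁'.2 : (d₁ : ℝ) ≤ D)
      have a2 := (abs_lam_le hP0 hD d₂).trans (by exact_mod_cast hd₂'.2 : (d₂ : ℝ) ≤ D)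
      exact mul_le_mul a1 a2 (abs_nonneg _) (by positivity)
    have h5 : lam P D d₁ * lam P D d₂ * (∑' m, w (Nat.lcm d₁ d₂ * m) - K / (Nat.lcm d₁ d₂ : ℝ)) ≤
        D ^ 2 * R := by
      refine (le_abs_self _).trans ?_
      rw [abs_mul]
      exact mul_le_mul h4 h3 (abs_nonneg _) (by positivity)
    have h6 : lam P D d₁ * lam P D d₂ * ∑' m, w (Nat.lcm d₁ d₂ * m) =
        K * (lam P D d₁ * lam P D d₂ / (Nat.lcm d₁ d₂ : ℝ)) +
        lam P D d₁ * lam P D d₂ * (∑' m, w (Nat.lcm d₁ d₂ * m) - K / (Nat.lcm d₁ d₂ : ℝ)) := by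
      ring
    rw [h6]; linarith
  refine h2.trans ?_
  simp_rw [Finset.sum_add_distrib, ← Finset.mul_sum]
  rw [selberg_main hP hD, Finset.sum_const, Finset.sum_const, nsmul_eq_mul, nsmul_eq_mul]
  have hcard : ((sDiv P D).card : ℝ) ≤ D := by
    have : sDiv P D ⊆ Finset.Icc 1 D := by
      intro d hd
      rw [Finset.mem_Icc]
      exact ⟨Nat.pos_of_ne_zero (h0 d hd), ((mem_sDiv hP0).1 hd).2⟩
    have h3 := Finset.card_le_card this
    rw [Nat.card_Icc, Nat.add_sub_cancel] at h3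
    exact_mod_cast h3
  have h4 : ((sDiv P D).card : ℝ) * (((sDiv P D).card : ℝ) * (D ^ 2 * R)) ≤ D * (D * (D ^ 2 * R)) := by
    gcongr
  have e1 : K * (1 / gSum P D) = K / gSum P D := by ring
  rw [e1]
  nlinarith

end

end Pool.Agent.Work.MP_af11aa_nt
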