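import Mathlib
import Pool.Agent.Work.MP_af11aa_nt.Selberg

namespace Pool.Agent.Work.MP_af11aa_nt

open ArithmeticFunction

noncomputable section

/-- product of the prime factors. -/
def rad (n : ℕ) : ℕ := ∏ p ∈ n.primeFactors, p

lemma rad_dvd (n : ℕ) : rad n ∣ n := Nat.prod_primeFactors_dvd n

lemma primeFactors_rad (n : ℕ) : (rad n).primeFactors = n.primeFactors := by
  unfold rad
  exact Nat.primeFactors_prod fun p hp ↦ Nat.prime_of_mem_primeFactors hp

lemma squarefree_prod_primes {T : Finset ℕ} (hT : ∀ p ∈ T, p.Prime) : Squarefree (∏ p ∈ T, p) := by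
  refine Finset.squarefree_prod_of_pairwise_isCoprime ?_ ?_
  · intro p hp q hq hpq
    exact Nat.coprime_iff_isRelPrime.1 ((Nat.coprime_primes (hT p hp) (hT q hq)).2 hpq)
  · intro p hp
    exact (hT p hp).prime.squarefree

lemma squarefree_rad (n : ℕ) : Squarefree (rad n) :=
  squarefree_prod_primes fun _ hp ↦ Nat.prime_of_mem_primeFactors hp

lemma rad_pos (n : ℕ) : 0 < rad n := Nat.pos_of_ne_zero (squarefree_rad n).ne_zero

/-- the completely multiplicative function `1/n`. -/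
def invHom : ℕ →* ℝ where
  toFun n := (n : ℝ)⁻¹
  map_one' := by simp
  map_mul' a b := by push_cast; rw [mul_inv]

lemma invHom_lt {p : ℕ} (hp : p.Prime) : ‖invHom p‖ < 1 := by
  change ‖(p : ℝ)⁻¹‖ < 1
  rw [norm_inv, Real.norm_natCast]
  exact inv_lt_one_of_one_lt₀ (by exact_mod_cast hp.one_lt)

/-- the sum of `1/n` over the integers with a given radical. -/
lemma sum_fiber_le (D k : ℕ) (hk : Squarefree k) :
    ∑ n ∈ (Finset.Icc 1 D).filter (rad · = k), (1 : ℝ) / n ≤ 1 / (Nat.totient k : ℝ) := by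
  have hk0 : k ≠ 0 := hk.ne_zero
  have hkR : (0 : ℝ) < k := by exact_mod_cast Nat.pos_of_ne_zero hk0
  obtain ⟨hsum, hhas⟩ := EulerProduct.summable_and_hasSum_factoredNumbers_prod_filter_prime_geometric
    (f := invHom) (fun hp ↦ invHom_lt hp) k.primeFactors
  have hsum' : Summable fun m : Nat.factoredNumbers k.primeFactors ↦ invHom m := hhas.summable
  -- the value of the Euler product
  have hprod : ∏ p ∈ k.primeFactors with p.Prime, (1 - invHom p)⁻¹ = k / Nat.totient k := by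
    have h1 : k.primeFactors.filter Nat.Prime = k.primeFactors :=
      Finset.filter_true_of_mem fun p hp ↦ Nat.prime_of_mem_primeFactors hp
    rw [h1]
    have h2 := Nat.totient_eq_mul_prod_factors k
    have h3 : (Nat.totient k : ℝ) = k * ∏ p ∈ k.primeFactors, (1 - (p : ℝ)⁻¹) := by
      have := congrArg (fun x : ℚ ↦ (x : ℝ)) h2
      push_cast at this
      exact this
    rw [h3, Finset.prod_inv_distrib]
    change (∏ p ∈ k.primeFactors, (1 - (p : ℝ)⁻¹))⁻¹ = _
    have h4 : (∏ p ∈ k.primeFactors, (1 - (p : ℝ)⁻¹)) ≠ 0 := by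
      rw [Finset.prod_ne_zero_iff]
      intro p hp
      have : (1 : ℝ) < p := by exact_mod_cast (Nat.prime_of_mem_primeFactors hp).one_lt
      have h5 : (p : ℝ)⁻¹ < 1 := inv_lt_one_of_one_lt₀ this
      linarith
    field_simp
  rw [hprod] at hhas
  -- injection into the factored numbers
  set F := (Finset.Icc 1 D).filter (rad · = k) with hF
  have hmem : ∀ n ∈ F, n / k ∈ Nat.factoredNumbers k.primeFactors ∧ k * (n / k) = n := by
    intro n hn
    rw [hF, Finset.mem_filter, Finset.mem_Icc] at hn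
    have hdvd : k ∣ n := by rw [← hn.2]; exact rad_dvd n
    have hmul : k * (n / k) = n := Nat.mul_div_cancel' hdvd
    refine ⟨?_, hmul⟩
    rw [Nat.mem_factoredNumbers_iff_primeFactors_subset]
    have hq0 : n / k ≠ 0 := by
      intro h
      rw [h, mul_zero] at hmul
      omega
    refine ⟨hq0, ?_⟩
    have h1 : (n / k).primeFactors ⊆ n.primeFactors :=
      Nat.primeFactors_mono ⟨k, by rw [mul_comm]; exact hmul.symm⟩ (by omega)
    have h2 : n.primeFactors = k.primeFactors := by rw [← hn.2, primeFactors_rad]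
    rw [← h2]; exact h1
  let φ : {n // n ∈ F} → Nat.factoredNumbers k.primeFactors := fun n ↦ ⟨n.1 / k, (hmem n.1 n.2).1⟩
  have hφ : Function.Injective φ := by
    intro a b hab
    have h1 : a.1 / k = b.1 / k := congrArg Subtype.val hab
    apply Subtype.ext
    rw [← (hmem a.1 a.2).2, ← (hmem b.1 b.2).2, h1]
  have h1 : ∑ n ∈ F, (1 : ℝ) / n = (1 / k) * ∑ n : {n // n ∈ F}, invHom (φ n) := by
    rw [← Finset.sum_coe_sort F, Finset.mul_sum]
    refine Finset.sum_congr rfl fun n _ ↦ ?_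
    change (1 : ℝ) / (n.1 : ℝ) = 1 / k * ((n.1 / k : ℕ) : ℝ)⁻¹
    have h2 := (hmem n.1 n.2).2
    have h3 : (n.1 : ℝ) = k * ((n.1 / k : ℕ) : ℝ) := by exact_mod_cast h2.symm
    rw [h3]
    rw [one_div, mul_inv, one_div]
  have h2 : ∑ n : {n // n ∈ F}, invHom (φ n) ≤ k / Nat.totient k := by
    rw [← hhas.tsum_eq]
    have h3 : ∑ n : {n // n ∈ F}, invHom (φ n) =
        ∑ m ∈ (Finset.univ : Finset {n // n ∈ F}).image φ,
          invHom (m : Nat.factoredNumbers k.primeFactors) := by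
      rw [Finset.sum_image fun a _ b _ h ↦ hφ h]
    rw [h3]
    exact hsum'.sum_le_tsum _ fun m _ ↦ by
      change 0 ≤ ((m : ℕ) : ℝ)⁻¹
      positivity
  rw [h1]
  calc (1 / (k : ℝ)) * _ ≤ (1 / k) * (k / Nat.totient k) := by gcongr
    _ = _ := by field_simp

lemma harmonic_le_totient (D : ℕ) :
    ∑ n ∈ Finset.Icc 1 D, (1 : ℝ) / n ≤
      ∑ k ∈ (Finset.Icc 1 D).filter Squarefree, 1 / (Nat.totient k : ℝ) := by
  have hmaps : ∀ n ∈ Finset.Icc 1 D, rad n ∈ (Finset.Icc 1 D).filter Squarefree := by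
    intro n hn
    rw [Finset.mem_Icc] at hn
    rw [Finset.mem_filter, Finset.mem_Icc]
    exact ⟨⟨rad_pos n, (Nat.le_of_dvd (by omega) (rad_dvd n)).trans hn.2⟩, squarefree_rad n⟩
  rw [← Finset.sum_fiberwise_of_maps_to hmaps]
  refine Finset.sum_le_sum fun k hk ↦ ?_
  exact sum_fiber_le D k (Finset.mem_filter.1 hk).2

lemma totient_prod_primes {S : Finset ℕ} (hS : ∀ p ∈ S, p.Prime) :
    (Nat.totient (∏ p ∈ S, p) : ℝ) = ∏ p ∈ S, ((p : ℝ) - 1) := by
  induction S using Finset.induction_on with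
  | empty => simp
  | insert a s ha ih =>
    have hap : a.Prime := hS a (Finset.mem_insert_self _ _)
    have hs : ∀ p ∈ s, p.Prime := fun p hp ↦ hS p (Finset.mem_insert_of_mem hp)
    rw [Finset.prod_insert ha, Finset.prod_insert ha, Nat.totient_mul, Nat.totient_prime hap]
    · push_cast
      rw [ih hs, Nat.cast_sub hap.one_lt.le]
      simp
    · exact Nat.Coprime.prod_right fun p hp ↦ (Nat.coprime_primes hap (hs p hp)).2 (by
        rintro rfl; exact ha hp)

/-- lower bound for the Selberg sum. -/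
theorem gSum_lower {T T' : Finset ℕ} (hT : ∀ p ∈ T, p.Prime) (hT' : ∀ p ∈ T', p.Prime)
    {D : ℕ} (hcover : ∀ p : ℕ, p.Prime → p ≤ D → p ∈ T ∨ p ∈ T') :
    ∑ n ∈ Finset.Icc 1 D, (1 : ℝ) / n ≤
      gSum (∏ p ∈ T, p) D * ∏ p ∈ T', (1 - (p : ℝ)⁻¹)⁻¹ := by
  have hP0 : (∏ p ∈ T, p) ≠ 0 := (squarefree_prod_primes hT).ne_zero
  refine (harmonic_le_totient D).trans ?_
  have hexp : ∏ p ∈ T', (1 - (p : ℝ)⁻¹)⁻¹ = ∑ S ∈ T'.powerset, ∏ p ∈ S, (1 / ((p : ℝ) - 1)) := by
    rw [← Finset.prod_one_add]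
    refine Finset.prod_congr rfl fun p hp ↦ ?_
    have : (1 : ℝ) < p := by exact_mod_cast (hT' p hp).one_lt
    have h1 : (p : ℝ) - 1 ≠ 0 := by linarith
    have h2 : (p : ℝ) ≠ 0 := by linarith
    field_simp
    ring
  rw [hexp]
  unfold gSum
  rw [Finset.sum_mul_sum, ← Finset.sum_product']
  -- the map k ↦ (T-part, T'-part)
  obtain ⟨ψ, hψ⟩ : ∃ ψ : ℕ → ℕ × Finset ℕ, ∀ k, ψ k =
    (∏ p ∈ k.primeFactors ∩ T, p, k.primeFactors \ T) := ⟨_, fun _ ↦ rfl⟩
  have hψ1 : ∀ k, (ψ k).1 = ∏ p ∈ k.primeFactors ∩ T, p := fun k ↦ by rw [hψ]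
  have hψ2 : ∀ k, (ψ k).2 = k.primeFactors \ T := fun k ↦ by rw [hψ]
  have hval : ∀ k ∈ (Finset.Icc 1 D).filter Squarefree,
      (1 : ℝ) / (Nat.totient k : ℝ) =
        1 / (Nat.totient (ψ k).1 : ℝ) * ∏ p ∈ (ψ k).2, (1 / ((p : ℝ) - 1)) := by
    intro k hk
    rw [Finset.mem_filter] at hk
    have h1 : (Nat.totient k : ℝ) = ∏ p ∈ k.primeFactors, ((p : ℝ) - 1) := by
      rw [← totient_prod_primes fun p hp ↦ Nat.prime_of_mem_primeFactors hp,
        Nat.prod_primeFactors_of_squarefree hk.2]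
    have h2 : (Nat.totient (ψ k).1 : ℝ) = ∏ p ∈ k.primeFactors ∩ T, ((p : ℝ) - 1) := by
      rw [hψ1]
      exact totient_prod_primes fun p hp ↦
        Nat.prime_of_mem_primeFactors (Finset.mem_of_mem_inter_left hp)
    rw [h1, h2, hψ2, ← Finset.prod_inter_mul_prod_sdiff k.primeFactors T,
      Finset.prod_div_distrib]
    simp only [Finset.prod_const_one]
    rw [one_div_mul_one_div]
  rw [Finset.sum_congr rfl hval]
  have hinj : Set.InjOn ψ ((Finset.Icc 1 D).filter Squarefree : Finset ℕ) := by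
    intro a ha b hb hab
    rw [Finset.mem_coe, Finset.mem_filter] at ha hb
    rw [hψ, hψ, Prod.mk.injEq] at hab
    have h1 : a.primeFactors ∩ T = b.primeFactors ∩ T := by
      have e1 := Nat.primeFactors_prod (s := a.primeFactors ∩ T) fun p hp ↦
        Nat.prime_of_mem_primeFactors (Finset.mem_of_mem_inter_left hp)
      have e2 := Nat.primeFactors_prod (s := b.primeFactors ∩ T) fun p hp ↦
        Nat.prime_of_mem_primeFactors (Finset.mem_of_mem_inter_left hp)
      rw [← e1, ← e2, hab.1]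
    have h2 : a.primeFactors = b.primeFactors := by
      rw [← Finset.sdiff_union_inter a.primeFactors T, ← Finset.sdiff_union_inter b.primeFactors T,
        h1, hab.2]
    rw [← Nat.prod_primeFactors_of_squarefree ha.2, ← Nat.prod_primeFactors_of_squarefree hb.2, h2]
  rw [← Finset.sum_image (g := ψ) (f := fun x : ℕ × Finset ℕ ↦
    1 / (Nat.totient x.1 : ℝ) * ∏ p ∈ x.2, (1 / ((p : ℝ) - 1))) hinj]
  refine Finset.sum_le_sum_of_subset_of_nonneg ?_ ?_
  · intro x hx
    rw [Finset.mem_image] at hx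
    obtain ⟨k, hk, rfl⟩ := hx
    rw [Finset.mem_filter, Finset.mem_Icc] at hk
    rw [Finset.mem_product, mem_sDiv hP0, Finset.mem_powerset]
    refine ⟨⟨?_, ?_⟩, ?_⟩
    · rw [hψ1]
      exact Finset.prod_dvd_prod_of_subset _ _ _ Finset.inter_subset_right
    · have h1 : (ψ k).1 ∣ k := by
        have h2 : (ψ k).1 ∣ rad k := by
          rw [hψ1]
          exact Finset.prod_dvd_prod_of_subset _ _ _ Finset.inter_subset_left
        exact h2.trans (rad_dvd k)
      exact (Nat.le_of_dvd (by omega) h1).trans hk.1.2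
    · intro p hp
      rw [hψ2, Finset.mem_sdiff] at hp
      have hpp := Nat.prime_of_mem_primeFactors hp.1
      have hpD : p ≤ D := (Nat.le_of_mem_primeFactors hp.1).trans hk.1.2
      rcases hcover p hpp hpD with h | h
      · exact absurd h hp.2
      · exact h
  · intro x hx _
    rw [Finset.mem_product, mem_sDiv hP0, Finset.mem_powerset] at hx
    have h2 : 0 ≤ ∏ p ∈ x.2, (1 / ((p : ℝ) - 1)) := by
      refine Finset.prod_nonneg fun p hp ↦ ?_
      have : (1 : ℝ) < p := by exact_mod_cast (hT' p (hx.2 hp)).one_lt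
      have : 0 < (p : ℝ) - 1 := by linarith
      positivity
    positivity

lemma log_le_harmonic (D : ℕ) : Real.log (D + 1) ≤ ∑ n ∈ Finset.Icc 1 D, (1 : ℝ) / n := by
  have h := log_add_one_le_harmonic D
  rw [harmonic_eq_sum_Icc] at h
  push_cast at h
  simpa [one_div] using h

end

end Pool.Agent.Work.MP_af11aa_nt
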