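import Mathlib
import Pool.Agent.Work.MP_af11aa_nt.GLower

namespace Pool.Agent.Work.MP_af11aa_nt

open ArithmeticFunction

noncomputable section

/-- primes up to `n`. -/
def primesUpTo (n : ℕ) : Finset ℕ := (Finset.Icc 1 n).filter Nat.Prime

lemma mem_primesUpTo {n l : ℕ} : l ∈ primesUpTo n ↔ l.Prime ∧ l ≤ n := by
  unfold primesUpTo
  rw [Finset.mem_filter, Finset.mem_Icc]
  constructor
  · rintro ⟨⟨_, h2⟩, h3⟩; exact ⟨h3, h2⟩
  · rintro ⟨h1, h2⟩; exact ⟨⟨h1.one_lt.le, h2⟩, h1⟩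

lemma prod_pow_dvd_factorial (n : ℕ) :
    ∏ l ∈ primesUpTo n, l ^ (n / l) ∣ n.factorial := by
  refine Finset.prod_dvd_of_isRelPrime ?_ ?_
  · intro a ha b hb hab
    rw [Finset.mem_coe, mem_primesUpTo] at ha hb
    have := Nat.Coprime.pow (n / a) (n / b) ((Nat.coprime_primes ha.1 hb.1).2 hab)
    exact Nat.coprime_iff_isRelPrime.1 this
  · intro l hl
    rw [mem_primesUpTo] at hl
    rw [hl.1.pow_dvd_factorial_iff (b := Nat.log l n + 2) (by omega)]
    refine (by simp : n / l = n / l ^ 1).le.trans ?_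
    exact Finset.single_le_sum (f := fun i ↦ n / l ^ i) (fun _ _ ↦ Nat.zero_le _)
      (Finset.mem_Ico.2 ⟨le_rfl, by omega⟩)

lemma sum_log_primes_le (n : ℕ) : ∑ l ∈ primesUpTo n, Real.log l ≤ n * Real.log 4 := by
  have h1 : ∑ l ∈ primesUpTo n, Real.log l = Real.log (primorial n) := by
    unfold primorial
    push_cast
    rw [Real.log_prod]
    · refine Finset.sum_congr ?_ fun _ _ ↦ rfl
      ext l
      rw [mem_primesUpTo, Finset.mem_filter, Finset.mem_range]
      constructor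
      · rintro ⟨h1, h2⟩; exact ⟨by omega, h1⟩
      · rintro ⟨h1, h2⟩; exact ⟨h2, by omega⟩
    · intro l hl
      rw [Finset.mem_filter] at hl
      exact_mod_cast hl.2.ne_zero
  rw [h1]
  have h2 : (primorial n : ℝ) ≤ 4 ^ n := by exact_mod_cast primorial_le_four_pow n
  calc Real.log (primorial n) ≤ Real.log (4 ^ n) :=
        Real.log_le_log (by exact_mod_cast primorial_pos n) h2
    _ = n * Real.log 4 := by rw [Real.log_pow]

/-- Mertens' upper bound. -/
lemma mertens_upper {n : ℕ} (hn : 1 ≤ n) :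
    ∑ l ∈ primesUpTo n, Real.log l / l ≤ Real.log n + Real.log 4 := by
  have hnR : (1 : ℝ) ≤ n := by exact_mod_cast hn
  have h1 : ∑ l ∈ primesUpTo n, ((n / l : ℕ) : ℝ) * Real.log l ≤ n * Real.log n := by
    have h2 := Nat.le_of_dvd (Nat.factorial_pos n) (prod_pow_dvd_factorial n)
    have h3 : ((∏ l ∈ primesUpTo n, l ^ (n / l) : ℕ) : ℝ) ≤ (n : ℝ) ^ n := by
      exact_mod_cast h2.trans (Nat.factorial_le_pow n)
    have hpos : 0 < ((∏ l ∈ primesUpTo n, l ^ (n / l) : ℕ) : ℝ) := by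
      have : 0 < ∏ l ∈ primesUpTo n, l ^ (n / l) :=
        Finset.prod_pos fun l hl ↦ pow_pos (mem_primesUpTo.1 hl).1.pos _
      exact_mod_cast this
    have h4 := Real.log_le_log hpos h3
    rw [Real.log_pow] at h4
    refine le_trans (le_of_eq ?_) h4
    push_cast
    rw [Real.log_prod]
    · refine Finset.sum_congr rfl fun l _ ↦ ?_
      rw [Real.log_pow]
    · intro l hl
      have : (l : ℝ) ≠ 0 := by exact_mod_cast (mem_primesUpTo.1 hl).1.ne_zero
      positivity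
  have h2 : ∀ l ∈ primesUpTo n, n * (Real.log l / l) ≤
      ((n / l : ℕ) : ℝ) * Real.log l + Real.log l := by
    intro l hl
    have hl1 := (mem_primesUpTo.1 hl).1
    have hlR : (1 : ℝ) ≤ l := by exact_mod_cast hl1.one_lt.le
    have hlog : 0 ≤ Real.log l := Real.log_nonneg hlR
    have h3 : (n : ℝ) / l ≤ ((n / l : ℕ) : ℝ) + 1 := (Nat.lt_floor_add_one ((n : ℝ) / l)).le.trans
      (by rw [Nat.floor_div_eq_div])
    calc (n : ℝ) * (Real.log l / l) = (n / l) * Real.log l := by ring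
      _ ≤ (((n / l : ℕ) : ℝ) + 1) * Real.log l := by gcongr
      _ = _ := by ring
  have h3 : n * ∑ l ∈ primesUpTo n, Real.log l / l ≤ n * (Real.log n + Real.log 4) := by
    rw [Finset.mul_sum]
    calc ∑ l ∈ primesUpTo n, n * (Real.log l / l)
        ≤ ∑ l ∈ primesUpTo n, (((n / l : ℕ) : ℝ) * Real.log l + Real.log l) :=
          Finset.sum_le_sum h2
      _ = ∑ l ∈ primesUpTo n, ((n / l : ℕ) : ℝ) * Real.log l + ∑ l ∈ primesUpTo n, Real.log l :=
          Finset.sum_add_distrib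
      _ ≤ n * Real.log n + n * Real.log 4 := add_le_add h1 (sum_log_primes_le n)
      _ = _ := by ring
  exact le_of_mul_le_mul_left h3 (by linarith)

/-- few primes. -/
lemma card_pow_le {A : ℝ} (hA : 1 ≤ A) {k : ℕ} (hk : 0 < k) {S : Finset ℕ}
    (hS : ∀ l ∈ S, 1 ≤ l) :
    A ^ S.card ≤ A ^ ⌈A ^ k⌉₊ * ((∏ l ∈ S, l : ℕ) : ℝ) ^ (1 / k : ℝ) := by
  have hA0 : 0 < A := by linarith
  have hkR : (0 : ℝ) < k := by exact_mod_cast hk
  set S1 : Finset ℕ := S.filter (fun l : ℕ ↦ (l : ℝ) < A ^ k) with hS1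
  set S2 : Finset ℕ := S.filter (fun l : ℕ ↦ ¬ (l : ℝ) < A ^ k) with hS2
  have hcard : S.card = S1.card + S2.card :=
    (Finset.card_filter_add_card_filter_not (s := S) (fun l : ℕ ↦ (l : ℝ) < A ^ k)).symm
  have h1 : S1.card ≤ ⌈A ^ k⌉₊ := by
    have : S1 ⊆ Finset.range ⌈A ^ k⌉₊ := by
      intro l hl
      rw [hS1, Finset.mem_filter] at hl
      rw [Finset.mem_range, Nat.lt_ceil]
      exact hl.2
    simpa using Finset.card_le_card this
  have h2 : A ^ S2.card ≤ ((∏ l ∈ S, l : ℕ) : ℝ) ^ (1 / k : ℝ) := by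
    push_cast
    rw [← Real.finsetProd_rpow _ _ (fun l _ ↦ by positivity)]
    calc A ^ S2.card = ∏ l ∈ S2, A := by rw [Finset.prod_const]
      _ ≤ ∏ l ∈ S2, (l : ℝ) ^ (1 / k : ℝ) := by
          refine Finset.prod_le_prod (fun _ _ ↦ hA0.le) fun l hl ↦ ?_
          rw [hS2, Finset.mem_filter, not_lt] at hl
          calc A = (A ^ k) ^ (1 / k : ℝ) := by
                rw [← Real.rpow_natCast, ← Real.rpow_mul hA0.le]
                rw [mul_one_div, div_self hkR.ne', Real.rpow_one]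
            _ ≤ (l : ℝ) ^ (1 / k : ℝ) := Real.rpow_le_rpow (by positivity) hl.2 (by positivity)
      _ ≤ ∏ l ∈ S, (l : ℝ) ^ (1 / k : ℝ) := by
          refine Finset.prod_le_prod_of_subset_of_one_le (Finset.filter_subset _ _)
            (fun _ _ ↦ by positivity) fun l hl _ ↦ ?_
          exact Real.one_le_rpow (by exact_mod_cast hS l hl) (by positivity)
  rw [hcard, pow_add]
  exact mul_le_mul (pow_le_pow_right₀ hA h1) h2 (by positivity) (by positivity)

/-- prefix decomposition of a finite set of primes. -/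
lemma prefix_decomp (S : Finset ℕ) (hS : ∀ l ∈ S, 1 ≤ l) (y z : ℕ) (hz : 1 ≤ z) :
    (∏ l ∈ S.filter (· ≤ y), l) ≤ z ∨
    ∃ t ∈ S, t ≤ y ∧ (∏ l ∈ S.filter (· < t), l) ≤ z ∧ z < t * ∏ l ∈ S.filter (· < t), l := by
  classical
  by_cases h : (∏ l ∈ S.filter (· ≤ y), l) ≤ z
  · exact Or.inl h
  right
  have hex : ∃ m, ¬ (∏ l ∈ S.filter (· ≤ m), l) ≤ z := ⟨y, h⟩
  set m := Nat.find hex with hm
  have hm1 : ¬ (∏ l ∈ S.filter (· ≤ m), l) ≤ z := Nat.find_spec hex
  have hmy : m ≤ y := Nat.find_min' hex h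
  have hm0 : m ≠ 0 := by
    intro h0
    apply hm1
    rw [h0]
    have : S.filter (· ≤ 0) = ∅ := by
      rw [Finset.filter_eq_empty_iff]
      intro l hl
      have := hS l hl
      omega
    rw [this]; simpa using hz
  have hm2 : (∏ l ∈ S.filter (· ≤ m - 1), l) ≤ z := by
    have := Nat.find_min hex (m := m - 1) (by omega)
    push Not at this
    exact this
  have hfe : S.filter (· ≤ m - 1) = S.filter (· < m) := by
    ext l; simp only [Finset.mem_filter]; constructor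
    · rintro ⟨h1, h2⟩; exact ⟨h1, by omega⟩
    · rintro ⟨h1, h2⟩; exact ⟨h1, by omega⟩
  rw [hfe] at hm2
  have hmS : m ∈ S := by
    by_contra hmS
    apply hm1
    have : S.filter (· ≤ m) = S.filter (· < m) := by
      ext l; simp only [Finset.mem_filter]; constructor
      · rintro ⟨h1, h2⟩
        refine ⟨h1, lt_of_le_of_ne h2 ?_⟩
        rintro rfl; exact hmS h1
      · rintro ⟨h1, h2⟩; exact ⟨h1, h2.le⟩
    rw [this]; exact hm2
  refine ⟨m, hmS, hmy, hm2, ?_⟩
  have h3 : S.filter (· ≤ m) = insert m (S.filter (· < m)) := by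
    ext l; simp only [Finset.mem_filter, Finset.mem_insert]; constructor
    · rintro ⟨h1, h2⟩
      rcases h2.eq_or_lt with h | h
      · left; exact h
      · right; exact ⟨h1, h⟩
    · rintro (h | ⟨h1, h2⟩)
      · subst h; exact ⟨hmS, le_rfl⟩
      · exact ⟨h1, h2.le⟩
  rw [h3, Finset.prod_insert (by simp)] at hm1
  omega

/-- sums over squarefree integers with prime factors in a set. -/
lemma sum_le_euler {T : Finset ℕ} {h : ℕ → ℝ} (hh : ∀ l ∈ T, 0 ≤ h l) {𝒜 : Finset ℕ}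
    (hsq : ∀ a ∈ 𝒜, Squarefree a) (hT : ∀ a ∈ 𝒜, a.primeFactors ⊆ T) :
    ∑ a ∈ 𝒜, ∏ l ∈ a.primeFactors, h l ≤ ∏ l ∈ T, (1 + h l) := by
  rw [Finset.prod_one_add]
  have hinj : Set.InjOn (fun a : ℕ ↦ a.primeFactors) (𝒜 : Set ℕ) := by
    intro a ha b hb hab
    have hab' : a.primeFactors = b.primeFactors := hab
    rw [← Nat.prod_primeFactors_of_squarefree (hsq a ha),
      ← Nat.prod_primeFactors_of_squarefree (hsq b hb), hab']
  rw [← Finset.sum_image (g := fun a : ℕ ↦ a.primeFactors) (f := fun U ↦ ∏ l ∈ U, h l) hinj]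
  refine Finset.sum_le_sum_of_subset_of_nonneg ?_ ?_
  · intro U hU
    rw [Finset.mem_image] at hU
    obtain ⟨a, ha, rfl⟩ := hU
    exact Finset.mem_powerset.2 (hT a ha)
  · intro U hU _
    exact Finset.prod_nonneg fun l hl ↦ hh l (Finset.mem_powerset.1 hU hl)

lemma euler_le_exp {T : Finset ℕ} {h : ℕ → ℝ} (hh : ∀ l ∈ T, 0 ≤ h l) :
    ∏ l ∈ T, (1 + h l) ≤ Real.exp (∑ l ∈ T, h l) := by
  rw [Real.exp_sum]
  refine Finset.prod_le_prod (fun l hl ↦ by have := hh l hl; linarith) fun l _ ↦ ?_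
  have := Real.add_one_le_exp (h l)
  linarith

lemma sum_inv_mul_pred_le (n : ℕ) :
    ∑ l ∈ primesUpTo n, (1 / ((l : ℝ) * (l - 1))) ≤ 1 := by
  have h1 : ∀ m : ℕ, ∑ l ∈ Finset.Icc 2 (m + 1), (1 / ((l : ℝ) * (l - 1))) = 1 - 1 / (m + 1 : ℝ) := by
    intro m
    induction m with
    | zero => simp
    | succ m ih =>
      rw [Finset.sum_Icc_succ_top (by omega), ih]
      push_cast
      have : (m : ℝ) + 1 ≠ 0 := by positivity
      have : (m : ℝ) + 1 + 1 ≠ 0 := by positivity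
      field_simp
      ring
  have hsub : primesUpTo n ⊆ Finset.Icc 2 (n + 1) := by
    intro l hl
    rw [mem_primesUpTo] at hl
    rw [Finset.mem_Icc]
    exact ⟨hl.1.two_le, by omega⟩
  calc ∑ l ∈ primesUpTo n, (1 / ((l : ℝ) * (l - 1)))
      ≤ ∑ l ∈ Finset.Icc 2 (n + 1), (1 / ((l : ℝ) * (l - 1))) := by
        refine Finset.sum_le_sum_of_subset_of_nonneg hsub fun l hl _ ↦ ?_
        have : (2 : ℝ) ≤ l := by exact_mod_cast (Finset.mem_Icc.1 hl).1
        have h3 : 0 < (l : ℝ) - 1 := by linarith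
        positivity
    _ = 1 - 1 / (n + 1 : ℝ) := h1 n
    _ ≤ 1 := by
        have : 0 < 1 / (n + 1 : ℝ) := by positivity
        linarith

end

end Pool.Agent.Work.MP_af11aa_nt
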