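import Mathlib
import Pool.Agent.Work.MP_af11aa_nt.ShiuTools

namespace Pool.Agent.Work.MP_af11aa_nt

open ArithmeticFunction

noncomputable section

lemma inv_factor_bounds {l : ℕ} (hl : l.Prime) :
    1 ≤ (1 - (l : ℝ)⁻¹)⁻¹ ∧ (1 - (l : ℝ)⁻¹)⁻¹ ≤ 2 := by
  have h2 : (2 : ℝ) ≤ l := by exact_mod_cast hl.two_le
  have h3 : 0 < (l : ℝ)⁻¹ := by positivity
  have h4 : (l : ℝ)⁻¹ ≤ 1 / 2 := by
    rw [← one_div]; exact one_div_le_one_div_of_le (by norm_num) h2
  constructor
  · rw [one_le_inv₀ (by linarith)]; linarith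
  · rw [inv_le_comm₀ (by linarith) (by norm_num)]; linarith

lemma prod_inv_factor_eq {b : ℕ} (hb : b ≠ 0) :
    ∏ l ∈ b.primeFactors, (1 - (l : ℝ)⁻¹)⁻¹ = b / Nat.totient b := by
  have h2 := Nat.totient_eq_mul_prod_factors b
  have h3 : (Nat.totient b : ℝ) = b * ∏ p ∈ b.primeFactors, (1 - (p : ℝ)⁻¹) := by
    have := congrArg (fun x : ℚ ↦ (x : ℝ)) h2
    push_cast at this
    exact this
  have h4 : (∏ p ∈ b.primeFactors, (1 - (p : ℝ)⁻¹)) ≠ 0 := by
    rw [Finset.prod_ne_zero_iff]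
    intro p hp
    have : (1 : ℝ) < p := by exact_mod_cast (Nat.prime_of_mem_primeFactors hp).one_lt
    have h5 : (p : ℝ)⁻¹ < 1 := inv_lt_one_of_one_lt₀ this
    linarith
  have hb' : (b : ℝ) ≠ 0 := by exact_mod_cast hb
  rw [h3, Finset.prod_inv_distrib]
  field_simp

/-- Selberg's sieve inside the multiples of `b`. -/
theorem sieve_mult {w : ℕ → ℝ} (hw0 : ∀ n, 0 ≤ w n) (hws : Summable w) {N : ℕ}
    (hN0 : N ≠ 0) (hN : N.primeFactors.card ≤ 3) {L : ℕ} {K R : ℝ} (hK : 0 ≤ K) (hR : 0 ≤ R)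
    (hdist : ∀ l : ℕ, Squarefree l → Nat.Coprime l N → l ≤ L → |∑' m, w (l * m) - K / l| ≤ R)
    {G : Finset ℕ} {b D : ℕ} (hb : Squarefree b) (hbN : Nat.Coprime b N) (hD : 1 ≤ D)
    (hbD : b * D ^ 2 ≤ L)
    (hG : ∀ n ∈ G, b ∣ n ∧ ∀ l : ℕ, l.Prime → l ≤ D → l ∣ n → l ∣ N ∨ l ∣ b) :
    ∑ n ∈ G, w n ≤
      8 * K / (Nat.totient b * Real.log (D + 1)) + R * D ^ 4 := by
  classical
  have hb0 : 0 < b := Nat.pos_of_ne_zero hb.ne_zero
  have hbR : (0 : ℝ) < b := by exact_mod_cast hb0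
  set T : Finset ℕ := (Finset.Icc 1 D).filter (fun l ↦ l.Prime ∧ ¬ (l ∣ N ∨ l ∣ b)) with hT
  set T' : Finset ℕ := (Finset.Icc 1 D).filter (fun l ↦ l.Prime ∧ (l ∣ N ∨ l ∣ b)) with hT'
  have hTp : ∀ l ∈ T, l.Prime := fun l hl ↦ ((Finset.mem_filter.1 hl).2).1
  have hT'p : ∀ l ∈ T', l.Prime := fun l hl ↦ ((Finset.mem_filter.1 hl).2).1
  set P := ∏ l ∈ T, l with hP
  have hPsq : Squarefree P := squarefree_prod_primes hTp
  have hcover : ∀ l : ℕ, l.Prime → l ≤ D → l ∈ T ∨ l ∈ T' := by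
    intro l hl hlD
    rw [hT, hT', Finset.mem_filter, Finset.mem_filter, Finset.mem_Icc]
    by_cases h1 : l ∣ N ∨ l ∣ b
    · right; exact ⟨⟨hl.one_lt.le, hlD⟩, hl, h1⟩
    · left; exact ⟨⟨hl.one_lt.le, hlD⟩, hl, h1⟩
  have hPN : Nat.Coprime P N := by
    rw [hP]
    refine Nat.Coprime.prod_left fun l hl ↦ ?_
    rw [hT, Finset.mem_filter, not_or] at hl
    exact (Nat.Prime.coprime_iff_not_dvd hl.2.1).2 hl.2.2.1
  have hPb : Nat.Coprime P b := by
    rw [hP]
    refine Nat.Coprime.prod_left fun l hl ↦ ?_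
    rw [hT, Finset.mem_filter, not_or] at hl
    exact (Nat.Prime.coprime_iff_not_dvd hl.2.1).2 hl.2.2.2
  have hinj : Function.Injective fun m : ℕ ↦ b * m := fun a c hac ↦
    Nat.eq_of_mul_eq_mul_left hb0 hac
  have hws' : Summable fun m ↦ w (b * m) := hws.comp_injective hinj
  have hsel := selberg_bound (w := fun m ↦ w (b * m)) (fun m ↦ hw0 _) hws' hPsq hD
    (K := K / b) hR (by
      intro l hlP hlD
      have hlb : Nat.Coprime b l := (hPb.coprime_dvd_left hlP).symm
      have h1 := hdist (b * l) (Nat.squarefree_mul hlb |>.2 ⟨hb, hPsq.squarefree_of_dvd hlP⟩)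
        (Nat.Coprime.mul_left hbN (hPN.coprime_dvd_left hlP))
        ((Nat.mul_le_mul_left b hlD).trans hbD)
      have e : (fun m ↦ w (b * l * m)) = fun m ↦ w (b * (l * m)) := by
        funext m; rw [mul_assoc]
      rw [e] at h1
      have e2 : K / ((b * l : ℕ) : ℝ) = K / b / l := by
        push_cast; rw [div_div]
      rw [e2] at h1
      exact h1)
  -- the sum over F
  have hsum : ∑ n ∈ G, w n ≤ ∑' m, (if Nat.Coprime m P then w (b * m) else 0) := by
    have hs : Summable fun m ↦ if Nat.Coprime m P then w (b * m) else 0 := by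
      refine Summable.of_nonneg_of_le (fun n ↦ ?_) (fun n ↦ ?_) hws'
      · split_ifs
        · exact hw0 _
        · exact le_rfl
      · split_ifs
        · exact le_rfl
        · exact hw0 _
    have h1 : ∀ n ∈ G, b * (n / b) = n := fun n hn ↦
      Nat.mul_div_cancel' (hG n hn).1
    have h2 : ∑ n ∈ G, w n = ∑ m ∈ G.image (· / b), (if Nat.Coprime m P then w (b * m) else 0) := by
      rw [Finset.sum_image]
      · refine Finset.sum_congr rfl fun n hn ↦ ?_
        rw [h1 n hn, if_pos]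
        rw [hP]
        refine Nat.Coprime.prod_right fun l hl ↦ ?_
        rw [hT, Finset.mem_filter, Finset.mem_Icc] at hl
        rw [Nat.coprime_comm, Nat.Prime.coprime_iff_not_dvd hl.2.1]
        intro hdvd
        have hln : l ∣ n := by rw [← h1 n hn]; exact hdvd.mul_left b
        exact hl.2.2 ((hG n hn).2 l hl.2.1 hl.1.2 hln)
      · intro a ha c hc hac
        have hac' : a / b = c / b := hac
        rw [← h1 a ha, ← h1 c hc, hac']
    rw [h2]
    refine hs.sum_le_tsum _ fun n _ ↦ ?_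
    split_ifs
    · exact hw0 _
    · exact le_rfl
  refine hsum.trans (hsel.trans ?_)
  -- the Selberg sum
  have hGlow := gSum_lower hTp hT'p hcover
  have hlog := log_le_harmonic D
  have hG1 := one_le_gSum hPsq.ne_zero hD
  have hGpos : 0 < gSum P D := by linarith
  have hD0 : (0 : ℝ) < D := by exact_mod_cast hD
  have hlogpos : 0 < Real.log (D + 1) := Real.log_pos (by linarith)
  have hφ : (0 : ℝ) < Nat.totient b := by exact_mod_cast Nat.totient_pos.2 hb0
  have hT'prod : ∏ l ∈ T', (1 - (l : ℝ)⁻¹)⁻¹ ≤ 8 * (b / Nat.totient b) := by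
    have h1 : ∏ l ∈ T', (1 - (l : ℝ)⁻¹)⁻¹ ≤ ∏ l ∈ N.primeFactors ∪ b.primeFactors,
        (1 - (l : ℝ)⁻¹)⁻¹ := by
      refine Finset.prod_le_prod_of_subset_of_one_le ?_ (fun l hl ↦ ?_) fun l hl _ ↦ ?_
      · intro l hl
        rw [hT', Finset.mem_filter] at hl
        rw [Finset.mem_union]
        rcases hl.2.2 with h | h
        · left; exact Nat.mem_primeFactors.2 ⟨hl.2.1, h, hN0⟩
        · right; exact Nat.mem_primeFactors.2 ⟨hl.2.1, h, hb0.ne'⟩
      · linarith [(inv_factor_bounds (hT'p l hl)).1]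
      · rw [Finset.mem_union] at hl
        rcases hl with h | h
        · exact (inv_factor_bounds (Nat.prime_of_mem_primeFactors h)).1
        · exact (inv_factor_bounds (Nat.prime_of_mem_primeFactors h)).1
    have hdisj : Disjoint N.primeFactors b.primeFactors := by
      rw [Nat.disjoint_primeFactors hN0 hb0.ne']
      exact hbN.symm
    rw [Finset.prod_union hdisj, prod_inv_factor_eq hb0.ne'] at h1
    refine h1.trans ?_
    have h2 : ∏ l ∈ N.primeFactors, (1 - (l : ℝ)⁻¹)⁻¹ ≤ 8 := by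
      calc ∏ l ∈ N.primeFactors, (1 - (l : ℝ)⁻¹)⁻¹ ≤ ∏ l ∈ N.primeFactors, (2 : ℝ) := by
            refine Finset.prod_le_prod (fun l hl ↦ ?_) fun l hl ↦ ?_
            · linarith [(inv_factor_bounds (Nat.prime_of_mem_primeFactors hl)).1]
            · exact (inv_factor_bounds (Nat.prime_of_mem_primeFactors hl)).2
        _ = 2 ^ N.primeFactors.card := by rw [Finset.prod_const]
        _ ≤ 2 ^ 3 := pow_le_pow_right₀ (by norm_num) hN
        _ = 8 := by norm_num
    gcongr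
  have hkey : K / b / gSum P D ≤ 8 * K / (Nat.totient b * Real.log (D + 1)) := by
    have h1 : Real.log (D + 1) ≤ gSum P D * (8 * (b / Nat.totient b)) := by
      calc Real.log (D + 1) ≤ _ := hlog
        _ ≤ gSum P D * ∏ l ∈ T', (1 - (l : ℝ)⁻¹)⁻¹ := hGlow
        _ ≤ _ := by gcongr
    rw [div_div, div_le_div_iff₀ (by positivity) (by positivity)]
    have h2 : Nat.totient b * Real.log (D + 1) ≤ 8 * (b * gSum P D) := by
      calc Nat.totient b * Real.log (D + 1) ≤
            Nat.totient b * (gSum P D * (8 * (b / Nat.totient b))) := by gcongr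
        _ = _ := by field_simp
    calc K * (Nat.totient b * Real.log (D + 1)) ≤ K * (8 * (b * gSum P D)) := by gcongr
      _ = _ := by ring
  linarith

end

end Pool.Agent.Work.MP_af11aa_nt
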