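import Mathlib
import Pool.Agent.Work.MP_af11aa_nt.ShiuSieve

namespace Pool.Agent.Work.MP_af11aa_nt

open ArithmeticFunction

noncomputable section

/-- the product of `g` over the prime factors. -/
def gProd (g : ℕ → ℝ) (n : ℕ) : ℝ := ∏ l ∈ n.primeFactors, g l

lemma gProd_nonneg {g : ℕ → ℝ} (hg : ∀ l : ℕ, l.Prime → 0 ≤ g l) (n : ℕ) : 0 ≤ gProd g n :=
  Finset.prod_nonneg fun l hl ↦ hg l (Nat.prime_of_mem_primeFactors hl)

lemma totient_squarefree {a : ℕ} (ha : Squarefree a) :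
    (Nat.totient a : ℝ) = ∏ p ∈ a.primeFactors, ((p : ℝ) - 1) := by
  rw [← totient_prod_primes fun p hp ↦ Nat.prime_of_mem_primeFactors hp,
    Nat.prod_primeFactors_of_squarefree ha]

lemma gProd_le {A : ℝ} (hA : 1 ≤ A) {g : ℕ → ℝ} (hg : ∀ l : ℕ, l.Prime → 0 ≤ g l ∧ g l ≤ A)
    {a : ℕ} (ha : Squarefree a) : gProd g a ≤ A ^ ⌈A⌉₊ * a := by
  have h1 := card_pow_le hA (k := 1) one_pos (S := a.primeFactors)
    fun l hl ↦ (Nat.prime_of_mem_primeFactors hl).one_lt.le
  rw [Nat.prod_primeFactors_of_squarefree ha] at h1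
  simp only [pow_one, Nat.cast_one, div_one, Real.rpow_one] at h1
  refine le_trans ?_ h1
  calc gProd g a ≤ ∏ l ∈ a.primeFactors, A := Finset.prod_le_prod
        (fun l hl ↦ (hg l (Nat.prime_of_mem_primeFactors hl)).1)
        fun l hl ↦ (hg l (Nat.prime_of_mem_primeFactors hl)).2
    _ = _ := by rw [Finset.prod_const]

/-- first Euler product. -/
lemma sum_A {A : ℝ} {g : ℕ → ℝ} (hg : ∀ l : ℕ, l.Prime → 0 ≤ g l ∧ g l ≤ A)
    {y : ℕ} {𝒜 : Finset ℕ} (hsq : ∀ a ∈ 𝒜, Squarefree a) (hy : ∀ a ∈ 𝒜, ∀ l ∈ a.primeFactors, l ≤ y) :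
    ∑ a ∈ 𝒜, gProd g a / Nat.totient a ≤
      Real.exp (∑ l ∈ primesUpTo y, g l / l + A) := by
  have hA0 : 0 ≤ A := (hg 2 Nat.prime_two).1.trans (hg 2 Nat.prime_two).2
  have h1 : ∀ a ∈ 𝒜, gProd g a / Nat.totient a = ∏ l ∈ a.primeFactors, (g l / ((l : ℝ) - 1)) := by
    intro a ha
    rw [totient_squarefree (hsq a ha), Finset.prod_div_distrib]; rfl
  have hpos : ∀ l ∈ primesUpTo y, 0 < (l : ℝ) - 1 ∧ (0 : ℝ) < l := by
    intro l hl
    have : (2 : ℝ) ≤ l := by exact_mod_cast (mem_primesUpTo.1 hl).1.two_le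
    constructor <;> linarith
  have hh : ∀ l ∈ primesUpTo y, 0 ≤ g l / ((l : ℝ) - 1) := fun l hl ↦
    div_nonneg (hg l (mem_primesUpTo.1 hl).1).1 (hpos l hl).1.le
  rw [Finset.sum_congr rfl h1]
  refine (sum_le_euler hh hsq fun a ha l hl ↦ mem_primesUpTo.2
    ⟨Nat.prime_of_mem_primeFactors hl, hy a ha l hl⟩).trans ((euler_le_exp hh).trans ?_)
  apply Real.exp_le_exp.2
  have h2 : ∀ l ∈ primesUpTo y, g l / ((l : ℝ) - 1) ≤ g l / l + A * (1 / ((l : ℝ) * (l - 1))) := by
    intro l hl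
    obtain ⟨h3, h4⟩ := hpos l hl
    have h5 := hg l (mem_primesUpTo.1 hl).1
    have e : g l / ((l : ℝ) - 1) = g l / l + g l * (1 / ((l : ℝ) * (l - 1))) := by
      field_simp; ring
    rw [e]
    have h6 : 0 ≤ 1 / ((l : ℝ) * (l - 1)) := by positivity
    have := mul_le_mul_of_nonneg_right h5.2 h6
    linarith
  calc ∑ l ∈ primesUpTo y, g l / ((l : ℝ) - 1)
      ≤ ∑ l ∈ primesUpTo y, (g l / l + A * (1 / ((l : ℝ) * (l - 1)))) := Finset.sum_le_sum h2
    _ = ∑ l ∈ primesUpTo y, g l / l + A * ∑ l ∈ primesUpTo y, (1 / ((l : ℝ) * (l - 1))) := by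
        rw [Finset.sum_add_distrib, Finset.mul_sum]
    _ ≤ ∑ l ∈ primesUpTo y, g l / l + A * 1 := by
        have := sum_inv_mul_pred_le y
        gcongr
    _ = _ := by ring

/-- second Euler product, with Rankin's trick. -/
lemma sum_B {A : ℝ} {g : ℕ → ℝ} (hg : ∀ l : ℕ, l.Prime → 0 ≤ g l ∧ g l ≤ A)
    {y t : ℕ} (ht : 2 ≤ t) (hty : t ≤ y) {κ : ℝ} (hκ : 0 ≤ κ) {ℬ : Finset ℕ}
    (hsq : ∀ a ∈ ℬ, Squarefree a) (hb : ∀ a ∈ ℬ, ∀ l ∈ a.primeFactors, l < t)
    (hlarge : ∀ a ∈ ℬ, y < a) :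
    ∑ a ∈ ℬ, gProd g a / Nat.totient a ≤
      Real.exp (-(κ * (Real.log y / Real.log t))) *
        Real.exp (∑ l ∈ primesUpTo y, g l / l + A + 6 * (A * (κ * Real.exp κ))) := by
  have hA0 : 0 ≤ A := (hg 2 Nat.prime_two).1.trans (hg 2 Nat.prime_two).2
  have htR : (2 : ℝ) ≤ t := by exact_mod_cast ht
  have hyR : (2 : ℝ) ≤ y := by exact_mod_cast ht.trans hty
  have hy0 : (0 : ℝ) < y := by linarith
  have hlog2 : 0 < Real.log 2 := Real.log_pos (by norm_num)
  have hlogt : Real.log 2 ≤ Real.log t := Real.log_le_log (by norm_num) htR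
  have hlogt0 : 0 < Real.log t := by linarith
  set β : ℝ := κ / Real.log t with hβ
  have hβ0 : 0 ≤ β := by positivity
  -- Rankin
  have h1 : ∀ a ∈ ℬ, gProd g a / Nat.totient a ≤
      (y : ℝ) ^ (-β) * ∏ l ∈ a.primeFactors, (g l * (l : ℝ) ^ β / ((l : ℝ) - 1)) := by
    intro a ha
    have hsa := hsq a ha
    have ha0 : 0 < a := Nat.pos_of_ne_zero hsa.ne_zero
    have haR : (0 : ℝ) < a := by exact_mod_cast ha0
    have e1 : (a : ℝ) ^ β = ∏ l ∈ a.primeFactors, (l : ℝ) ^ β := by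
      rw [Real.finsetProd_rpow _ _ (fun l _ ↦ by positivity)]
      congr 1
      have := Nat.prod_primeFactors_of_squarefree hsa
      conv_lhs => rw [← this]
      push_cast; rfl
    have e2 : ∏ l ∈ a.primeFactors, (g l * (l : ℝ) ^ β / ((l : ℝ) - 1)) =
        gProd g a / Nat.totient a * (a : ℝ) ^ β := by
      rw [totient_squarefree hsa, Finset.prod_div_distrib, Finset.prod_mul_distrib, ← e1]
      unfold gProd
      ring
    rw [e2]
    have h2 : 1 ≤ (y : ℝ) ^ (-β) * (a : ℝ) ^ β := by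
      rw [Real.rpow_neg hy0.le, ← div_eq_inv_mul, ← Real.div_rpow haR.le hy0.le]
      apply Real.one_le_rpow _ hβ0
      rw [one_le_div hy0]
      exact_mod_cast (hlarge a ha).le
    have h3 : 0 ≤ gProd g a / Nat.totient a :=
      div_nonneg (gProd_nonneg (fun l hl ↦ (hg l hl).1) a) (by positivity)
    calc gProd g a / Nat.totient a = gProd g a / Nat.totient a * 1 := by ring
      _ ≤ gProd g a / Nat.totient a * ((y : ℝ) ^ (-β) * (a : ℝ) ^ β) := by gcongr
      _ = _ := by ring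
  have hpos : ∀ l ∈ primesUpTo (t - 1), (2 : ℝ) ≤ l ∧ (l : ℝ) ≤ t := by
    intro l hl
    have h3 := mem_primesUpTo.1 hl
    refine ⟨by exact_mod_cast h3.1.two_le, ?_⟩
    have : l ≤ t := by omega
    exact_mod_cast this
  have hh : ∀ l ∈ primesUpTo (t - 1), 0 ≤ g l * (l : ℝ) ^ β / ((l : ℝ) - 1) := fun l hl ↦
    div_nonneg (mul_nonneg (hg l (mem_primesUpTo.1 hl).1).1 (by positivity))
      (by linarith [(hpos l hl).1])
  have h4 : ∑ a ∈ ℬ, ∏ l ∈ a.primeFactors, (g l * (l : ℝ) ^ β / ((l : ℝ) - 1)) ≤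
      Real.exp (∑ l ∈ primesUpTo (t - 1), g l * (l : ℝ) ^ β / ((l : ℝ) - 1)) := by
    refine (sum_le_euler hh hsq fun a ha l hl ↦ mem_primesUpTo.2
      ⟨Nat.prime_of_mem_primeFactors hl, ?_⟩).trans (euler_le_exp hh)
    have := hb a ha l hl
    omega
  have hyβ : (y : ℝ) ^ (-β) = Real.exp (-(κ * (Real.log y / Real.log t))) := by
    rw [Real.rpow_def_of_pos hy0]
    congr 1
    rw [hβ]; ring
  have h5 : ∑ l ∈ primesUpTo (t - 1), g l * (l : ℝ) ^ β / ((l : ℝ) - 1) ≤
      ∑ l ∈ primesUpTo y, g l / l + A + 6 * (A * (κ * Real.exp κ)) := by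
    have h6 : ∀ l ∈ primesUpTo (t - 1), g l * (l : ℝ) ^ β / ((l : ℝ) - 1) ≤
        g l / l + A * (1 / ((l : ℝ) * (l - 1))) +
          (A * (κ * Real.exp κ)) * (2 / Real.log t) * (Real.log l / l) := by
      intro l hl
      obtain ⟨h7, h8⟩ := hpos l hl
      have hl0 : (0 : ℝ) < l := by linarith
      have hl1 : 0 < (l : ℝ) - 1 := by linarith
      obtain ⟨h9, h10⟩ := hg l (mem_primesUpTo.1 hl).1
      have hlogl : 0 ≤ Real.log l := Real.log_nonneg (by linarith)
      have hlogle : Real.log l ≤ Real.log t := Real.log_le_log hl0 h8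
      set u := κ * (Real.log l / Real.log t) with hu
      have hu0 : 0 ≤ u := by positivity
      have huκ : u ≤ κ := by
        rw [hu]
        have : Real.log l / Real.log t ≤ 1 := (div_le_one hlogt0).2 hlogle
        nlinarith
      have e3 : (l : ℝ) ^ β = Real.exp u := by
        rw [Real.rpow_def_of_pos hl0]; congr 1; rw [hβ, hu]; ring
      have h11 : Real.exp u ≤ 1 + u * Real.exp κ := by
        have h12 := Real.add_one_le_exp (-u)
        have h13 : (-u + 1) * Real.exp u ≤ Real.exp (-u) * Real.exp u := by gcongr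
        rw [← Real.exp_add] at h13
        simp only [neg_add_cancel, Real.exp_zero] at h13
        have h14 : Real.exp u ≤ Real.exp κ := Real.exp_le_exp.2 huκ
        nlinarith
      rw [e3]
      have h15 : g l * Real.exp u / ((l : ℝ) - 1) ≤
          g l * (1 + u * Real.exp κ) / ((l : ℝ) - 1) := by gcongr
      refine h15.trans ?_
      have e4 : g l * (1 + u * Real.exp κ) / ((l : ℝ) - 1) =
          g l / l + g l * (1 / ((l : ℝ) * (l - 1))) + g l * (u * Real.exp κ) * (1 / ((l : ℝ) - 1)) := by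
        field_simp; ring
      rw [e4]
      have h16 : 1 / ((l : ℝ) - 1) ≤ 2 / l := by
        rw [div_le_div_iff₀ hl1 hl0]; linarith
      have h17 : g l * (1 / ((l : ℝ) * (l - 1))) ≤ A * (1 / ((l : ℝ) * (l - 1))) := by gcongr
      have h18 : g l * (u * Real.exp κ) * (1 / ((l : ℝ) - 1)) ≤
          A * (u * Real.exp κ) * (2 / l) := by gcongr
      have e5 : A * (u * Real.exp κ) * (2 / l) =
          (A * (κ * Real.exp κ)) * (2 / Real.log t) * (Real.log l / l) := by
        rw [hu]; ring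
      linarith
    refine (Finset.sum_le_sum h6).trans ?_
    rw [Finset.sum_add_distrib, Finset.sum_add_distrib, ← Finset.mul_sum, ← Finset.mul_sum]
    have h7 : ∑ l ∈ primesUpTo (t - 1), g l / l ≤ ∑ l ∈ primesUpTo y, g l / l := by
      refine Finset.sum_le_sum_of_subset_of_nonneg ?_ fun l hl _ ↦ ?_
      · intro l hl
        rw [mem_primesUpTo] at hl ⊢
        exact ⟨hl.1, by omega⟩
      · exact div_nonneg (hg l (mem_primesUpTo.1 hl).1).1 (by positivity)
    have h8 := sum_inv_mul_pred_le (t - 1)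
    have h9 := mertens_upper (n := t - 1) (by omega)
    have h10 : Real.log ((t - 1 : ℕ) : ℝ) ≤ Real.log t := by
      apply Real.log_le_log
      · have : 0 < t - 1 := by omega
        exact_mod_cast this
      · have : t - 1 ≤ t := by omega
        exact_mod_cast this
    have h11 : Real.log 4 = 2 * Real.log 2 := by
      rw [show (4 : ℝ) = 2 ^ 2 by norm_num, Real.log_pow]; norm_num
    have h12 : ∑ l ∈ primesUpTo (t - 1), Real.log l / l ≤ 3 * Real.log t := by linarith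
    have h13 : (A * (κ * Real.exp κ)) * (2 / Real.log t) *
        ∑ l ∈ primesUpTo (t - 1), Real.log l / l ≤ 6 * (A * (κ * Real.exp κ)) := by
      calc (A * (κ * Real.exp κ)) * (2 / Real.log t) * ∑ l ∈ primesUpTo (t - 1), Real.log l / l
          ≤ (A * (κ * Real.exp κ)) * (2 / Real.log t) * (3 * Real.log t) := by gcongr
        _ = _ := by field_simp; ring
    have h14 : A * ∑ l ∈ primesUpTo (t - 1), (1 / ((l : ℝ) * (l - 1))) ≤ A * 1 := by gcongr
    linarith
  calc ∑ a ∈ ℬ, gProd g a / Nat.totient a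
      ≤ ∑ a ∈ ℬ, (y : ℝ) ^ (-β) * ∏ l ∈ a.primeFactors, (g l * (l : ℝ) ^ β / ((l : ℝ) - 1)) :=
        Finset.sum_le_sum h1
    _ = (y : ℝ) ^ (-β) * ∑ a ∈ ℬ, ∏ l ∈ a.primeFactors, (g l * (l : ℝ) ^ β / ((l : ℝ) - 1)) := by
        rw [Finset.mul_sum]
    _ ≤ (y : ℝ) ^ (-β) * Real.exp (∑ l ∈ primesUpTo (t - 1), g l * (l : ℝ) ^ β / ((l : ℝ) - 1)) := by
        gcongr
    _ ≤ _ := by
        rw [hyβ]
        have := Real.exp_le_exp.2 h5
        gcongr

/-- the sum over `t`. -/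
lemma sum_t {y : ℕ} (hy : 2 ≤ y) :
    ∑ t ∈ primesUpTo y, (1 / ((t : ℝ) * Real.log t)) * Real.exp (-(Real.log y / Real.log t)) ≤
      12 / Real.log (y + 1) := by
  have hyR : (2 : ℝ) ≤ y := by exact_mod_cast hy
  have hlog2 : 0 < Real.log 2 := Real.log_pos (by norm_num)
  have hlogy2 : Real.log 2 ≤ Real.log y := Real.log_le_log (by norm_num) hyR
  have hlogy : 0 < Real.log y := by linarith
  have h1 : ∀ t ∈ primesUpTo y, (1 / ((t : ℝ) * Real.log t)) *
      Real.exp (-(Real.log y / Real.log t)) ≤ (2 / Real.log y ^ 2) * (Real.log t / t) := by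
    intro t ht
    have ht2 : (2 : ℝ) ≤ t := by exact_mod_cast (mem_primesUpTo.1 ht).1.two_le
    have ht0 : (0 : ℝ) < t := by linarith
    have hlt : Real.log 2 ≤ Real.log t := Real.log_le_log (by norm_num) ht2
    have hlt0 : 0 < Real.log t := by linarith
    set x := Real.log y / Real.log t with hx
    have hx0 : 0 < x := by positivity
    have h2 : Real.exp (-x) ≤ 2 / x ^ 2 := by
      rw [Real.exp_neg, inv_le_comm₀ (Real.exp_pos _) (by positivity), inv_div]
      have := Real.quadratic_le_exp_of_nonneg hx0.le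
      linarith
    calc (1 / ((t : ℝ) * Real.log t)) * Real.exp (-x) ≤
          (1 / ((t : ℝ) * Real.log t)) * (2 / x ^ 2) := by gcongr
      _ = _ := by rw [hx]; field_simp
  refine (Finset.sum_le_sum h1).trans ?_
  rw [← Finset.mul_sum]
  have h2 := mertens_upper (n := y) (by omega)
  have h3 : Real.log 4 = 2 * Real.log 2 := by
    rw [show (4 : ℝ) = 2 ^ 2 by norm_num, Real.log_pow]; norm_num
  have h4 : ∑ t ∈ primesUpTo y, Real.log t / t ≤ 3 * Real.log y := by linarith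
  have h5 : Real.log (y + 1) ≤ 2 * Real.log y := by
    rw [← Real.log_rpow (by linarith)]
    apply Real.log_le_log (by linarith)
    norm_num
    nlinarith
  have h6 : 0 < Real.log (y + 1) := Real.log_pos (by linarith)
  calc 2 / Real.log y ^ 2 * ∑ t ∈ primesUpTo y, Real.log t / t
      ≤ 2 / Real.log y ^ 2 * (3 * Real.log y) := by gcongr
    _ = 6 / Real.log y := by field_simp; ring
    _ ≤ 12 / Real.log (y + 1) := by
        rw [div_le_div_iff₀ hlogy h6]; linarith

end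

end Pool.Agent.Work.MP_af11aa_nt
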