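import Mathlib
import Pool.Agent.Work.MP_af11aa_nt.ShiuSums

namespace Pool.Agent.Work.MP_af11aa_nt

open ArithmeticFunction

noncomputable section

/-- the pointwise weight for the second range. -/
def wMin (A : ℝ) (M y t : ℕ) : ℝ :=
  min (Real.exp (M * Real.log A * (Real.log (y + 1) / Real.log t))) (A ^ ⌈A ^ M⌉₊ * (y + 1))

lemma wMin_nonneg {A : ℝ} (hA : 1 ≤ A) (M y t : ℕ) : 0 ≤ wMin A M y t := by
  unfold wMin
  have : 0 ≤ A := by linarith
  exact le_min (Real.exp_pos _).le (by positivity)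

lemma sqrt_facts {t : ℕ} (ht : 1 ≤ t) :
    1 ≤ Nat.sqrt t ∧ Nat.sqrt t ^ 2 ≤ t ∧ (1 / 2) * Real.log (t + 1) ≤ Real.log (Nat.sqrt t + 1) := by
  have h1 : 1 ≤ Nat.sqrt t := by rw [Nat.le_sqrt]; omega
  have h2 : Nat.sqrt t ^ 2 ≤ t := Nat.sqrt_le' t
  refine ⟨h1, h2, ?_⟩
  have h3 : t < (Nat.sqrt t + 1) ^ 2 := Nat.lt_succ_sqrt' t
  have h4 : (t : ℝ) + 1 ≤ ((Nat.sqrt t : ℝ) + 1) ^ 2 := by exact_mod_cast h3
  have h5 := Real.log_le_log (by positivity) h4
  rw [Real.log_pow] at h5
  push_cast at h5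
  linarith

/-- An upper bound of Shiu's type for a nonnegative sequence with a level of distribution. -/
theorem shiu_abstract {A : ℝ} (hA : 1 ≤ A) {M : ℕ} (hM : 1 ≤ M) :
    ∃ C : ℝ, 0 < C ∧ ∀ (w : ℕ → ℝ) (_ : ∀ n, 0 ≤ w n) (_ : Summable w)
      (N : ℕ) (_ : N ≠ 0) (_ : N.primeFactors.card ≤ 3) (y : ℕ) (_ : 1 ≤ y)
      (K R : ℝ) (_ : 0 ≤ K) (_ : 0 ≤ R)
      (_ : ∀ l : ℕ, Squarefree l → Nat.Coprime l N → l ≤ y ^ 4 → |∑' m, w (l * m) - K / l| ≤ R)
      (F : Finset ℕ) (_ : ∀ n ∈ F, n ≠ 0 ∧ n < (y + 1) ^ M)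
      (g : ℕ → ℝ) (_ : ∀ l : ℕ, l.Prime → 0 ≤ g l ∧ g l ≤ A),
      ∑ n ∈ F, gProd g n * w n ≤
        C * (K / Real.log (y + 1) * Real.exp (∑ l ∈ primesUpTo y, g l / l) + R * y ^ 8) := by
  classical
  have hA0 : 0 < A := by linarith
  set κ : ℝ := 2 * M * Real.log A + 1 with hκ
  have hlogA : 0 ≤ Real.log A := Real.log_nonneg hA
  have hκ0 : 0 ≤ κ := by positivity
  set c1 : ℝ := A ^ ⌈A⌉₊ with hc1
  set cM : ℝ := A ^ ⌈A ^ M⌉₊ with hcM
  have hc10 : 0 < c1 := by positivity
  have hcM0 : 0 < cM := by positivity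
  set E1 : ℝ := Real.exp A with hE1
  set E2 : ℝ := Real.exp (A + 6 * (A * (κ * Real.exp κ))) with hE2
  set C1 : ℝ := A ^ 3 * A ^ M * (16 * E1) with hC1
  set C2 : ℝ := A ^ 3 * (384 * E2) with hC2
  set C3 : ℝ := A ^ 3 * A ^ M * c1 with hC3
  set C4 : ℝ := A ^ 3 * (2 * cM * c1) with hC4
  refine ⟨C1 + C2 + C3 + C4, by positivity, ?_⟩
  intro w hw0 hws N hN0 hN y hy K R hK hR hdist F hF g hg
  have hyR : (1 : ℝ) ≤ y := by exact_mod_cast hy
  have hlogy1 : 0 < Real.log (y + 1) := Real.log_pos (by linarith)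
  set Sg : ℝ := ∑ l ∈ primesUpTo y, g l / l with hSg
  have hg0 : ∀ l : ℕ, l.Prime → 0 ≤ g l := fun l hl ↦ (hg l hl).1
  -- the index sets
  set 𝒜 : Finset ℕ := (Finset.Icc 1 (y ^ 2)).filter
    (fun a ↦ Squarefree a ∧ Nat.Coprime a N ∧ ∀ l ∈ a.primeFactors, l ≤ y) with h𝒜
  set 𝒯 : Finset ℕ := (primesUpTo y).filter (fun t ↦ ¬ t ∣ N) with h𝒯
  obtain ⟨ℬ, hℬ⟩ : ∃ ℬ : ℕ → Finset ℕ, ∀ t, ℬ t = (Finset.Icc 1 (y ^ 2)).filter
    (fun a ↦ Squarefree a ∧ Nat.Coprime a N ∧ y < a ∧ ∀ l ∈ a.primeFactors, l < t) := ⟨_, fun _ ↦ rfl⟩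
  obtain ⟨condA, hcondA⟩ : ∃ condA : ℕ → ℕ → Prop, ∀ a n, condA a n ↔
    (a ∣ n ∧ ∀ l : ℕ, l.Prime → l ≤ y → l ∣ n → l ∣ N ∨ l ∣ a) := ⟨_, fun _ _ ↦ Iff.rfl⟩
  obtain ⟨condB, hcondB⟩ : ∃ condB : ℕ → ℕ → ℕ → Prop, ∀ t a n, condB t a n ↔
    (a * t ∣ n ∧ ∀ l : ℕ, l.Prime → l < t → l ∣ n → l ∣ N ∨ l ∣ a) := ⟨_, fun _ _ _ ↦ Iff.rfl⟩
  -- pointwise bound
  have hpoint : ∀ n ∈ F, gProd g n * w n ≤
      ∑ a ∈ 𝒜, (if condA a n then A ^ 3 * A ^ M * gProd g a * w n else 0) +
      ∑ t ∈ 𝒯, ∑ a ∈ ℬ t, (if condB t a n then A ^ 3 * wMin A M y t * gProd g a * w n else 0) := by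
    intro n hn
    obtain ⟨hn0, hnX⟩ := hF n hn
    have hwn := hw0 n
    set S : Finset ℕ := n.primeFactors.filter (fun l ↦ ¬ l ∣ N) with hS
    have hSp : ∀ l ∈ S, l.Prime := fun l hl ↦
      Nat.prime_of_mem_primeFactors (Finset.mem_filter.1 hl).1
    have hS1 : ∀ l ∈ S, 1 ≤ l := fun l hl ↦ (hSp l hl).one_lt.le
    -- splitting off the primes dividing N
    have hsplit : gProd g n ≤ A ^ 3 * ∏ l ∈ S, g l := by
      unfold gProd
      rw [← Finset.prod_filter_mul_prod_filter_not n.primeFactors (fun l ↦ l ∣ N)]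
      have h1 : ∏ l ∈ n.primeFactors.filter (fun l ↦ l ∣ N), g l ≤ A ^ 3 := by
        calc ∏ l ∈ n.primeFactors.filter (fun l ↦ l ∣ N), g l
            ≤ ∏ l ∈ n.primeFactors.filter (fun l ↦ l ∣ N), A := by
              refine Finset.prod_le_prod (fun l hl ↦ ?_) fun l hl ↦ ?_
              · exact hg0 l (Nat.prime_of_mem_primeFactors (Finset.mem_filter.1 hl).1)
              · exact (hg l (Nat.prime_of_mem_primeFactors (Finset.mem_filter.1 hl).1)).2
          _ = A ^ (n.primeFactors.filter (fun l ↦ l ∣ N)).card := by rw [Finset.prod_const]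
          _ ≤ A ^ 3 := by
              refine pow_le_pow_right₀ hA ((Finset.card_le_card ?_).trans hN)
              intro l hl
              rw [Finset.mem_filter] at hl
              exact Nat.mem_primeFactors.2 ⟨Nat.prime_of_mem_primeFactors hl.1, hl.2, hN0⟩
      have h2 : 0 ≤ ∏ l ∈ S, g l := Finset.prod_nonneg fun l hl ↦ hg0 l (hSp l hl)
      exact mul_le_mul_of_nonneg_right h1 h2
    have hrest : ∀ U : Finset ℕ, U ⊆ S → ∏ l ∈ U, g l ≤ A ^ U.card := by
      intro U hU
      calc ∏ l ∈ U, g l ≤ ∏ l ∈ U, A := Finset.prod_le_prod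
            (fun l hl ↦ hg0 l (hSp l (hU hl))) fun l hl ↦ (hg l (hSp l (hU hl))).2
        _ = _ := by rw [Finset.prod_const]
    have hUdvd : ∀ U : Finset ℕ, U ⊆ S → (∏ l ∈ U, l) ∣ n := by
      intro U hU
      refine dvd_trans ?_ (rad_dvd n)
      exact Finset.prod_dvd_prod_of_subset _ _ _ (hU.trans (Finset.filter_subset _ _))
    have hUle : ∀ U : Finset ℕ, U ⊆ S → (∏ l ∈ U, l) ≤ n := fun U hU ↦
      Nat.le_of_dvd (Nat.pos_of_ne_zero hn0) (hUdvd U hU)
    have hUsq : ∀ U : Finset ℕ, U ⊆ S → Squarefree (∏ l ∈ U, l) := fun U hU ↦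
      squarefree_prod_primes fun l hl ↦ hSp l (hU hl)
    have hUpf : ∀ U : Finset ℕ, U ⊆ S → (∏ l ∈ U, l).primeFactors = U := fun U hU ↦
      Nat.primeFactors_prod fun l hl ↦ hSp l (hU hl)
    have hUcop : ∀ U : Finset ℕ, U ⊆ S → Nat.Coprime (∏ l ∈ U, l) N := by
      intro U hU
      refine Nat.Coprime.prod_left fun l hl ↦ ?_
      have h1 := hU hl
      rw [hS, Finset.mem_filter] at h1
      exact (Nat.Prime.coprime_iff_not_dvd (hSp l (hU hl))).2 h1.2
    have hmemS : ∀ l : ℕ, l.Prime → l ∣ n → ¬ l ∣ N → l ∈ S := by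
      intro l h1 h2 h3
      rw [hS, Finset.mem_filter]
      exact ⟨Nat.mem_primeFactors.2 ⟨h1, h2, hn0⟩, h3⟩
    have hnnA : ∀ a ∈ 𝒜, 0 ≤ (if condA a n then A ^ 3 * A ^ M * gProd g a * w n else 0) := by
      intro a _
      split_ifs
      · have := gProd_nonneg hg0 a
        positivity
      · exact le_rfl
    have hnnB : ∀ t ∈ 𝒯, ∀ a ∈ ℬ t,
        0 ≤ (if condB t a n then A ^ 3 * wMin A M y t * gProd g a * w n else 0) := by
      intro t _ a _
      split_ifs
      · have := gProd_nonneg hg0 a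
        have := wMin_nonneg hA M y t
        positivity
      · exact le_rfl
    have hnnA' := Finset.sum_nonneg hnnA
    have hnnB' : 0 ≤ ∑ t ∈ 𝒯, ∑ a ∈ ℬ t,
        (if condB t a n then A ^ 3 * wMin A M y t * gProd g a * w n else 0) :=
      Finset.sum_nonneg fun t ht ↦ Finset.sum_nonneg (hnnB t ht)
    rcases prefix_decomp S hS1 y (y ^ 2) (Nat.one_le_pow _ _ hy) with hcase | ⟨t, htS, hty, hle, hgt⟩
    · -- first range
      set U := S.filter (· ≤ y) with hU
      set V := S.filter (fun l ↦ ¬ l ≤ y) with hV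
      have hUS : U ⊆ S := Finset.filter_subset _ _
      have hVS : V ⊆ S := Finset.filter_subset _ _
      set a := ∏ l ∈ U, l with ha
      have ha𝒜 : a ∈ 𝒜 := by
        rw [h𝒜, Finset.mem_filter, Finset.mem_Icc]
        refine ⟨⟨Nat.pos_of_ne_zero (hUsq U hUS).ne_zero, hcase⟩, hUsq U hUS, hUcop U hUS, ?_⟩
        intro l hl
        rw [ha, hUpf U hUS, hU, Finset.mem_filter] at hl
        exact hl.2
      have hca : condA a n := by
        rw [hcondA]
        refine ⟨hUdvd U hUS, fun l h1 h2 h3 ↦ ?_⟩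
        by_cases h4 : l ∣ N
        · exact Or.inl h4
        · right
          rw [ha]
          exact Finset.dvd_prod_of_mem _ (Finset.mem_filter.2 ⟨hmemS l h1 h3 h4, h2⟩)
      have hVcard : V.card ≤ M := by
        have h1 : (y + 1) ^ V.card ≤ n := by
          calc (y + 1) ^ V.card = ∏ _l ∈ V, (y + 1) := by rw [Finset.prod_const]
            _ ≤ ∏ l ∈ V, l := by
                refine Finset.prod_le_prod' fun l hl ↦ ?_
                rw [hV, Finset.mem_filter] at hl
                omega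
            _ ≤ n := hUle V hVS
        have h2 : (y + 1) ^ V.card < (y + 1) ^ M := h1.trans_lt hnX
        exact ((Nat.pow_lt_pow_iff_right (by omega)).1 h2).le
      have h1 : ∏ l ∈ S, g l ≤ gProd g a * A ^ M := by
        rw [← Finset.prod_filter_mul_prod_filter_not S (fun l ↦ l ≤ y)]
        have h2 : gProd g a = ∏ l ∈ U, g l := by
          unfold gProd; rw [ha, hUpf U hUS]
        rw [h2]
        have h3 : 0 ≤ ∏ l ∈ U, g l := Finset.prod_nonneg fun l hl ↦ hg0 l (hSp l (hUS hl))
        exact mul_le_mul_of_nonneg_left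
          ((hrest V hVS).trans (pow_le_pow_right₀ hA hVcard)) h3
      calc gProd g n * w n ≤ (A ^ 3 * (gProd g a * A ^ M)) * w n := by
            gcongr
            exact hsplit.trans (by gcongr)
        _ = (if condA a n then A ^ 3 * A ^ M * gProd g a * w n else 0) := by
            rw [if_pos hca]; ring
        _ ≤ ∑ a ∈ 𝒜, (if condA a n then A ^ 3 * A ^ M * gProd g a * w n else 0) :=
            Finset.single_le_sum hnnA ha𝒜
        _ ≤ _ := le_add_of_nonneg_right hnnB'
    · -- second range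
      set U := S.filter (· < t) with hU
      set V := S.filter (fun l ↦ ¬ l < t) with hV
      have hUS : U ⊆ S := Finset.filter_subset _ _
      have hVS : V ⊆ S := Finset.filter_subset _ _
      set a := ∏ l ∈ U, l with ha
      have htp := hSp t htS
      have htN : ¬ t ∣ N := by rw [hS, Finset.mem_filter] at htS; exact htS.2
      have htn : t ∣ n := by
        rw [hS, Finset.mem_filter] at htS
        exact Nat.dvd_of_mem_primeFactors htS.1
      have hya : y < a := by
        have h1 : y ^ 2 < y * a := hgt.trans_le (Nat.mul_le_mul_right a hty)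
        rw [sq] at h1
        exact Nat.lt_of_mul_lt_mul_left h1
      have ht𝒯 : t ∈ 𝒯 := by
        rw [h𝒯, Finset.mem_filter, mem_primesUpTo]
        exact ⟨⟨htp, hty⟩, htN⟩
      have haℬ : a ∈ ℬ t := by
        rw [hℬ, Finset.mem_filter, Finset.mem_Icc]
        refine ⟨⟨Nat.pos_of_ne_zero (hUsq U hUS).ne_zero, hle⟩, hUsq U hUS, hUcop U hUS, hya, ?_⟩
        intro l hl
        rw [ha, hUpf U hUS, hU, Finset.mem_filter] at hl
        exact hl.2
      have hcb : condB t a n := by
        rw [hcondB]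
        refine ⟨?_, fun l h1 h2 h3 ↦ ?_⟩
        · have hcop : Nat.Coprime a t := by
            rw [ha]
            refine Nat.Coprime.prod_left fun l hl ↦ ?_
            rw [hU, Finset.mem_filter] at hl
            exact (Nat.coprime_primes (hSp l hl.1) htp).2 (by omega)
          exact hcop.mul_dvd_of_dvd_of_dvd (hUdvd U hUS) htn
        · by_cases h4 : l ∣ N
          · exact Or.inl h4
          · right
            rw [ha]
            exact Finset.dvd_prod_of_mem _ (Finset.mem_filter.2 ⟨hmemS l h1 h3 h4, h2⟩)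
      have hVW : A ^ V.card ≤ wMin A M y t := by
        unfold wMin
        refine le_min ?_ ?_
        · have h1 : t ^ V.card ≤ n := by
            calc t ^ V.card = ∏ _l ∈ V, t := by rw [Finset.prod_const]
              _ ≤ ∏ l ∈ V, l := by
                  refine Finset.prod_le_prod' fun l hl ↦ ?_
                  rw [hV, Finset.mem_filter] at hl
                  omega
              _ ≤ n := hUle V hVS
          have h2 : ((t : ℝ)) ^ V.card ≤ ((y : ℝ) + 1) ^ M := by
            exact_mod_cast (h1.trans hnX.le)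
          have ht2 : (2 : ℝ) ≤ t := by exact_mod_cast htp.two_le
          have hlt : 0 < Real.log t := Real.log_pos (by linarith)
          have h3 := Real.log_le_log (by positivity) h2
          rw [Real.log_pow, Real.log_pow] at h3
          have h4 : (V.card : ℝ) ≤ M * (Real.log (y + 1) / Real.log t) := by
            rw [← mul_div_assoc, le_div_iff₀ hlt]; exact h3
          calc A ^ V.card = Real.exp (V.card * Real.log A) := by
                rw [mul_comm, Real.exp_mul, Real.exp_log hA0, Real.rpow_natCast]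
            _ ≤ Real.exp (M * Real.log A * (Real.log (y + 1) / Real.log t)) := by
                apply Real.exp_le_exp.2
                calc (V.card : ℝ) * Real.log A ≤ (M * (Real.log (y + 1) / Real.log t)) * Real.log A := by
                      gcongr
                  _ = _ := by ring
        · have h1 := card_pow_le hA (k := M) (by omega) (S := V) fun l hl ↦ hS1 l (hVS hl)
          refine h1.trans ?_
          have h2 : ((∏ l ∈ V, l : ℕ) : ℝ) ≤ ((y : ℝ) + 1) ^ M := by
            exact_mod_cast ((hUle V hVS).trans hnX.le)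
          have hMR : (0 : ℝ) < M := by exact_mod_cast (by omega : 0 < M)
          have h3 : ((∏ l ∈ V, l : ℕ) : ℝ) ^ (1 / M : ℝ) ≤ (y : ℝ) + 1 := by
            calc ((∏ l ∈ V, l : ℕ) : ℝ) ^ (1 / M : ℝ) ≤ (((y : ℝ) + 1) ^ M) ^ (1 / M : ℝ) :=
                  Real.rpow_le_rpow (by positivity) h2 (by positivity)
              _ = (y : ℝ) + 1 := by
                  rw [← Real.rpow_natCast, ← Real.rpow_mul (by positivity), mul_one_div,
                    div_self hMR.ne', Real.rpow_one]
          gcongr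
      have h1 : ∏ l ∈ S, g l ≤ gProd g a * wMin A M y t := by
        rw [← Finset.prod_filter_mul_prod_filter_not S (fun l ↦ l < t)]
        have h2 : gProd g a = ∏ l ∈ U, g l := by
          unfold gProd; rw [ha, hUpf U hUS]
        rw [h2]
        have h3 : 0 ≤ ∏ l ∈ U, g l := Finset.prod_nonneg fun l hl ↦ hg0 l (hSp l (hUS hl))
        exact mul_le_mul_of_nonneg_left ((hrest V hVS).trans hVW) h3
      calc gProd g n * w n ≤ (A ^ 3 * (gProd g a * wMin A M y t)) * w n := by
            gcongr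
            exact hsplit.trans (by gcongr)
        _ = (if condB t a n then A ^ 3 * wMin A M y t * gProd g a * w n else 0) := by
            rw [if_pos hcb]; ring
        _ ≤ ∑ a ∈ ℬ t, (if condB t a n then A ^ 3 * wMin A M y t * gProd g a * w n else 0) :=
            Finset.single_le_sum (hnnB t ht𝒯) haℬ
        _ ≤ ∑ t ∈ 𝒯, ∑ a ∈ ℬ t,
              (if condB t a n then A ^ 3 * wMin A M y t * gProd g a * w n else 0) :=
            Finset.single_le_sum (f := fun t ↦ ∑ a ∈ ℬ t,
              (if condB t a n then A ^ 3 * wMin A M y t * gProd g a * w n else 0))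
              (fun t ht ↦ Finset.sum_nonneg (hnnB t ht)) ht𝒯
        _ ≤ _ := le_add_of_nonneg_left hnnA'
  -- summing over n
  have hswapA : ∑ n ∈ F, ∑ a ∈ 𝒜, (if condA a n then A ^ 3 * A ^ M * gProd g a * w n else 0) =
      ∑ a ∈ 𝒜, A ^ 3 * A ^ M * gProd g a * ∑ n ∈ F.filter (condA a), w n := by
    rw [Finset.sum_comm]
    refine Finset.sum_congr rfl fun a _ ↦ ?_
    rw [Finset.mul_sum, Finset.sum_filter]
  have hswapB : ∑ n ∈ F, ∑ t ∈ 𝒯, ∑ a ∈ ℬ t,
      (if condB t a n then A ^ 3 * wMin A M y t * gProd g a * w n else 0) =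
      ∑ t ∈ 𝒯, ∑ a ∈ ℬ t, A ^ 3 * wMin A M y t * gProd g a * ∑ n ∈ F.filter (condB t a), w n := by
    rw [Finset.sum_comm]
    refine Finset.sum_congr rfl fun t _ ↦ ?_
    rw [Finset.sum_comm]
    refine Finset.sum_congr rfl fun a _ ↦ ?_
    rw [Finset.mul_sum, Finset.sum_filter]
  -- the first range
  obtain ⟨hD1, hD2, hDlog⟩ := sqrt_facts hy
  set D := Nat.sqrt y with hD
  have hDy : D ≤ y := by
    calc D = D ^ 1 := (pow_one D).symm
      _ ≤ D ^ 2 := Nat.pow_le_pow_right hD1 (by norm_num)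
      _ ≤ y := hD2
  have hlogD : 0 < Real.log (D + 1) := by
    apply Real.log_pos
    have : (1 : ℝ) ≤ D := by exact_mod_cast hD1
    linarith
  have hrangeA : ∑ a ∈ 𝒜, A ^ 3 * A ^ M * gProd g a * ∑ n ∈ F.filter (condA a), w n ≤
      C1 * (K / Real.log (y + 1) * Real.exp Sg) + C3 * (R * y ^ 8) := by
    have h1 : ∀ a ∈ 𝒜, A ^ 3 * A ^ M * gProd g a * ∑ n ∈ F.filter (condA a), w n ≤
        A ^ 3 * A ^ M * (16 * K / Real.log (y + 1)) * (gProd g a / Nat.totient a) +
          A ^ 3 * A ^ M * c1 * (R * y ^ 4) * 1 := by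
      intro a ha
      rw [h𝒜, Finset.mem_filter, Finset.mem_Icc] at ha
      obtain ⟨⟨ha1, ha2⟩, hasq, hacop, hal⟩ := ha
      have hφ : (0 : ℝ) < Nat.totient a := by exact_mod_cast Nat.totient_pos.2 ha1
      have hga := gProd_nonneg hg0 a
      have hsieve := sieve_mult hw0 hws hN0 hN hK hR hdist hasq hacop hD1
        (G := F.filter (condA a)) (by
          calc a * D ^ 2 ≤ y ^ 2 * y := Nat.mul_le_mul ha2 hD2
            _ = y ^ 3 := by ring
            _ ≤ y ^ 4 := Nat.pow_le_pow_right hy (by norm_num))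
        (by
          intro n hn
          have h2 := (hcondA a n).1 (Finset.mem_filter.1 hn).2
          exact ⟨h2.1, fun l h3 h4 h5 ↦ h2.2 l h3 (h4.trans hDy) h5⟩)
      have h3 : 8 * K / (Nat.totient a * Real.log (D + 1)) ≤
          (16 * K / Real.log (y + 1)) * (1 / Nat.totient a) := by
        rw [div_mul_div_comm, div_le_div_iff₀ (by positivity) (by positivity)]
        calc 8 * K * (Real.log (y + 1) * Nat.totient a)
            ≤ 8 * K * ((2 * Real.log (D + 1)) * Nat.totient a) := by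
              have : Real.log (y + 1) ≤ 2 * Real.log (D + 1) := by linarith
              gcongr
          _ = _ := by ring
      have h4 : (D : ℝ) ^ 4 ≤ y ^ 2 := by
        have : D ^ 4 ≤ y ^ 2 := by
          calc D ^ 4 = (D ^ 2) ^ 2 := by ring
            _ ≤ y ^ 2 := Nat.pow_le_pow_left hD2 2
        exact_mod_cast this
      have h5 : gProd g a ≤ c1 * y ^ 2 := by
        refine (gProd_le hA hg hasq).trans ?_
        have : (a : ℝ) ≤ y ^ 2 := by exact_mod_cast ha2
        gcongr
      calc A ^ 3 * A ^ M * gProd g a * ∑ n ∈ F.filter (condA a), w n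
          ≤ A ^ 3 * A ^ M * gProd g a *
            ((16 * K / Real.log (y + 1)) * (1 / Nat.totient a) + R * y ^ 2) := by
            gcongr
            refine hsieve.trans ?_
            gcongr
        _ = A ^ 3 * A ^ M * (16 * K / Real.log (y + 1)) * (gProd g a / Nat.totient a) +
            A ^ 3 * A ^ M * gProd g a * (R * y ^ 2) := by ring
        _ ≤ A ^ 3 * A ^ M * (16 * K / Real.log (y + 1)) * (gProd g a / Nat.totient a) +
            A ^ 3 * A ^ M * (c1 * y ^ 2) * (R * y ^ 2) := by gcongr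
        _ = _ := by ring
    refine (Finset.sum_le_sum h1).trans ?_
    rw [Finset.sum_add_distrib, ← Finset.mul_sum, ← Finset.mul_sum]
    have h2 := sum_A hg (y := y) (𝒜 := 𝒜)
      (fun a ha ↦ (Finset.mem_filter.1 ha).2.1) (fun a ha ↦ (Finset.mem_filter.1 ha).2.2.2)
    rw [Real.exp_add] at h2
    have h3 : ∑ _a ∈ 𝒜, (1 : ℝ) ≤ y ^ 2 := by
      rw [Finset.sum_const, nsmul_eq_mul, mul_one]
      have h4 : 𝒜.card ≤ y ^ 2 := by
        refine (Finset.card_filter_le _ _).trans ?_
        rw [Nat.card_Icc]; omega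
      exact_mod_cast h4
    have h6 : (y : ℝ) ^ 4 * (y : ℝ) ^ 2 ≤ (y : ℝ) ^ 8 := by
      calc (y : ℝ) ^ 4 * (y : ℝ) ^ 2 = (y : ℝ) ^ 6 := by ring
        _ ≤ (y : ℝ) ^ 8 := pow_le_pow_right₀ hyR (by norm_num)
    calc A ^ 3 * A ^ M * (16 * K / Real.log (y + 1)) * ∑ a ∈ 𝒜, gProd g a / Nat.totient a +
          A ^ 3 * A ^ M * c1 * (R * y ^ 4) * ∑ _a ∈ 𝒜, (1 : ℝ)
        ≤ A ^ 3 * A ^ M * (16 * K / Real.log (y + 1)) * (Real.exp Sg * Real.exp A) +
          A ^ 3 * A ^ M * c1 * (R * y ^ 4) * y ^ 2 := by gcongr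
      _ = C1 * (K / Real.log (y + 1) * Real.exp Sg) + C3 * (R * (y ^ 4 * y ^ 2)) := by
          rw [hC1, hC3, hE1]; ring
      _ ≤ _ := by gcongr
  -- the second range
  have hrangeB : ∑ t ∈ 𝒯, ∑ a ∈ ℬ t,
      A ^ 3 * wMin A M y t * gProd g a * ∑ n ∈ F.filter (condB t a), w n ≤
      C2 * (K / Real.log (y + 1) * Real.exp Sg) + C4 * (R * y ^ 8) := by
    have h1 : ∀ t ∈ 𝒯, ∑ a ∈ ℬ t,
        A ^ 3 * wMin A M y t * gProd g a * ∑ n ∈ F.filter (condB t a), w n ≤
        A ^ 3 * (32 * K * (Real.exp Sg * E2)) * ((1 / ((t : ℝ) * Real.log t)) *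
          Real.exp (-(Real.log y / Real.log t))) + A ^ 3 * (2 * cM * c1) * (R * y ^ 7) * 1 := by
      intro t ht
      rw [h𝒯, Finset.mem_filter, mem_primesUpTo] at ht
      obtain ⟨⟨htp, hty⟩, htN⟩ := ht
      have ht2 := htp.two_le
      have ht2R : (2 : ℝ) ≤ t := by exact_mod_cast ht2
      have htyR : (t : ℝ) ≤ y := by exact_mod_cast hty
      have hy2 : 2 ≤ y := ht2.trans hty
      have hy2R : (2 : ℝ) ≤ y := by exact_mod_cast hy2
      have hlt : 0 < Real.log t := Real.log_pos (by linarith)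
      obtain ⟨hd1, hd2, hdlog⟩ := sqrt_facts (t := t) (by omega)
      set d := Nat.sqrt t with hd
      have hdlog' : (1 / 2) * Real.log t ≤ Real.log (d + 1) := by
        have : Real.log t ≤ Real.log (t + 1) := Real.log_le_log (by linarith) (by linarith)
        linarith
      have hdlogpos : 0 < Real.log (d + 1) := by linarith
      have hW0 := wMin_nonneg hA M y t
      have hW1 : wMin A M y t ≤ Real.exp (2 * M * Real.log A * (Real.log y / Real.log t)) := by
        unfold wMin
        refine (min_le_left _ _).trans (Real.exp_le_exp.2 ?_)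
        have h5 : Real.log (y + 1) ≤ 2 * Real.log y := by
          rw [← Real.log_rpow (by linarith)]
          apply Real.log_le_log (by linarith)
          norm_num
          nlinarith
        calc M * Real.log A * (Real.log (y + 1) / Real.log t)
            ≤ M * Real.log A * ((2 * Real.log y) / Real.log t) := by gcongr
          _ = _ := by ring
      have hW2 : wMin A M y t ≤ cM * (2 * y) := by
        unfold wMin
        refine (min_le_right _ _).trans ?_
        have : (y : ℝ) + 1 ≤ 2 * y := by linarith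
        rw [hcM]
        gcongr
      have h2 : ∀ a ∈ ℬ t, A ^ 3 * wMin A M y t * gProd g a * ∑ n ∈ F.filter (condB t a), w n ≤
          A ^ 3 * wMin A M y t * (32 * K * (1 / ((t : ℝ) * Real.log t))) *
            (gProd g a / Nat.totient a) + A ^ 3 * (2 * cM * c1) * (R * y ^ 5) * 1 := by
        intro a ha
        rw [hℬ, Finset.mem_filter, Finset.mem_Icc] at ha
        obtain ⟨⟨ha1, ha2⟩, hasq, hacop, hya, hal⟩ := ha
        have hφ : (0 : ℝ) < Nat.totient a := by exact_mod_cast Nat.totient_pos.2 ha1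
        have hga := gProd_nonneg hg0 a
        have hcop : Nat.Coprime a t := by
          rw [Nat.coprime_comm, Nat.Prime.coprime_iff_not_dvd htp]
          intro hdvd
          have := hal t (Nat.mem_primeFactors.2 ⟨htp, hdvd, by omega⟩)
          omega
        have hsqat : Squarefree (a * t) :=
          (Nat.squarefree_mul hcop).2 ⟨hasq, htp.prime.squarefree⟩
        have hcopN : Nat.Coprime (a * t) N :=
          Nat.Coprime.mul_left hacop ((Nat.Prime.coprime_iff_not_dvd htp).2 htN)
        have hsieve := sieve_mult hw0 hws hN0 hN hK hR hdist hsqat hcopN hd1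
          (G := F.filter (condB t a)) (by
            calc a * t * d ^ 2 ≤ y ^ 2 * y * y :=
                  Nat.mul_le_mul (Nat.mul_le_mul ha2 hty) (hd2.trans hty)
              _ = y ^ 4 := by ring)
          (by
            intro n hn
            have h2 := (hcondB t a n).1 (Finset.mem_filter.1 hn).2
            refine ⟨h2.1, fun l h3 h4 h5 ↦ ?_⟩
            have h6 : l ≤ t := by
              calc l ≤ d := h4
                _ = d ^ 1 := (pow_one d).symm
                _ ≤ d ^ 2 := Nat.pow_le_pow_right hd1 (by norm_num)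
                _ ≤ t := hd2
            rcases h6.lt_or_eq with h7 | h7
            · rcases h2.2 l h3 h7 h5 with h8 | h8
              · exact Or.inl h8
              · exact Or.inr (h8.mul_right t)
            · right; rw [h7]; exact dvd_mul_left t a)
        have htot : (Nat.totient (a * t) : ℝ) = Nat.totient a * ((t : ℝ) - 1) := by
          rw [Nat.totient_mul hcop, Nat.totient_prime htp]
          push_cast
          rw [Nat.cast_sub (by omega)]
          simp
        have ht1 : (t : ℝ) / 2 ≤ (t : ℝ) - 1 := by linarith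
        have ht1' : 0 ≤ (t : ℝ) - 1 := by linarith
        have h3 : 8 * K / (Nat.totient (a * t) * Real.log (d + 1)) ≤
            (32 * K * (1 / ((t : ℝ) * Real.log t))) * (1 / Nat.totient a) := by
          rw [htot]
          have e : (32 * K * (1 / ((t : ℝ) * Real.log t))) * (1 / Nat.totient a) =
              (32 * K) / ((t * Real.log t) * Nat.totient a) := by
            field_simp
          rw [e, div_le_div_iff₀ (by
            have : 0 < (t : ℝ) - 1 := by linarith
            positivity) (by positivity)]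
          calc 8 * K * (t * Real.log t * Nat.totient a)
              = 32 * K * (Nat.totient a * (t / 2) * ((1 / 2) * Real.log t)) := by ring
            _ ≤ 32 * K * (Nat.totient a * ((t : ℝ) - 1) * Real.log (d + 1)) := by gcongr
        have h4 : (d : ℝ) ^ 4 ≤ y ^ 2 := by
          have : d ^ 4 ≤ y ^ 2 := by
            calc d ^ 4 = (d ^ 2) ^ 2 := by ring
              _ ≤ y ^ 2 := Nat.pow_le_pow_left (hd2.trans hty) 2
          exact_mod_cast this
        have h5 : gProd g a ≤ c1 * y ^ 2 := by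
          refine (gProd_le hA hg hasq).trans ?_
          have : (a : ℝ) ≤ y ^ 2 := by exact_mod_cast ha2
          gcongr
        calc A ^ 3 * wMin A M y t * gProd g a * ∑ n ∈ F.filter (condB t a), w n
            ≤ A ^ 3 * wMin A M y t * gProd g a *
              ((32 * K * (1 / ((t : ℝ) * Real.log t))) * (1 / Nat.totient a) + R * y ^ 2) := by
              gcongr
              refine hsieve.trans ?_
              gcongr
          _ = A ^ 3 * wMin A M y t * (32 * K * (1 / ((t : ℝ) * Real.log t))) *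
                (gProd g a / Nat.totient a) +
              A ^ 3 * wMin A M y t * gProd g a * (R * y ^ 2) := by ring
          _ ≤ A ^ 3 * wMin A M y t * (32 * K * (1 / ((t : ℝ) * Real.log t))) *
                (gProd g a / Nat.totient a) +
              A ^ 3 * (cM * (2 * y)) * (c1 * y ^ 2) * (R * y ^ 2) := by gcongr
          _ = _ := by ring
      refine (Finset.sum_le_sum h2).trans ?_
      rw [Finset.sum_add_distrib, ← Finset.mul_sum, ← Finset.mul_sum]
      have h3 := sum_B hg ht2 hty hκ0 (ℬ := ℬ t)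
        (fun a ha ↦ by rw [hℬ] at ha; exact (Finset.mem_filter.1 ha).2.1)
        (fun a ha ↦ by rw [hℬ] at ha; exact (Finset.mem_filter.1 ha).2.2.2.2)
        (fun a ha ↦ by rw [hℬ] at ha; exact (Finset.mem_filter.1 ha).2.2.2.1)
      rw [add_assoc, Real.exp_add (∑ l ∈ primesUpTo y, g l / l)] at h3
      have h4 : ∑ _a ∈ ℬ t, (1 : ℝ) ≤ y ^ 2 := by
        rw [Finset.sum_const, nsmul_eq_mul, mul_one]
        have h4 : (ℬ t).card ≤ y ^ 2 := by
          rw [hℬ]
          refine (Finset.card_filter_le _ _).trans ?_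
          rw [Nat.card_Icc]; omega
        exact_mod_cast h4
      have h5 : wMin A M y t * Real.exp (-(κ * (Real.log y / Real.log t))) ≤
          Real.exp (-(Real.log y / Real.log t)) := by
        calc wMin A M y t * Real.exp (-(κ * (Real.log y / Real.log t)))
            ≤ Real.exp (2 * M * Real.log A * (Real.log y / Real.log t)) *
              Real.exp (-(κ * (Real.log y / Real.log t))) := by gcongr
          _ = Real.exp (-(Real.log y / Real.log t)) := by
              rw [← Real.exp_add, hκ]; congr 1; ring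
      calc A ^ 3 * wMin A M y t * (32 * K * (1 / ((t : ℝ) * Real.log t))) *
            ∑ a ∈ ℬ t, gProd g a / Nat.totient a +
            A ^ 3 * (2 * cM * c1) * (R * y ^ 5) * ∑ _a ∈ ℬ t, (1 : ℝ)
          ≤ A ^ 3 * wMin A M y t * (32 * K * (1 / ((t : ℝ) * Real.log t))) *
            (Real.exp (-(κ * (Real.log y / Real.log t))) * (Real.exp Sg * E2)) +
            A ^ 3 * (2 * cM * c1) * (R * y ^ 5) * y ^ 2 := by gcongr
        _ = A ^ 3 * (32 * K * (1 / ((t : ℝ) * Real.log t))) * (Real.exp Sg * E2) *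
            (wMin A M y t * Real.exp (-(κ * (Real.log y / Real.log t)))) +
            A ^ 3 * (2 * cM * c1) * (R * y ^ 7) := by ring
        _ ≤ A ^ 3 * (32 * K * (1 / ((t : ℝ) * Real.log t))) * (Real.exp Sg * E2) *
            Real.exp (-(Real.log y / Real.log t)) +
            A ^ 3 * (2 * cM * c1) * (R * y ^ 7) := by gcongr
        _ = _ := by ring
    rcases Nat.lt_or_ge y 2 with hy2 | hy2
    · have hempty : 𝒯 = ∅ := by
        rw [Finset.eq_empty_iff_forall_notMem]
        intro t ht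
        rw [h𝒯, Finset.mem_filter, mem_primesUpTo] at ht
        have := ht.1.1.two_le
        omega
      rw [hempty, Finset.sum_empty]
      positivity
    refine (Finset.sum_le_sum h1).trans ?_
    rw [Finset.sum_add_distrib, ← Finset.mul_sum, ← Finset.mul_sum]
    have h2 : ∑ t ∈ 𝒯, (1 / ((t : ℝ) * Real.log t)) * Real.exp (-(Real.log y / Real.log t)) ≤
        12 / Real.log (y + 1) := by
      refine le_trans ?_ (sum_t hy2)
      refine Finset.sum_le_sum_of_subset_of_nonneg (Finset.filter_subset _ _) fun t ht _ ↦ ?_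
      have : (2 : ℝ) ≤ t := by exact_mod_cast (mem_primesUpTo.1 ht).1.two_le
      have : 0 < Real.log t := Real.log_pos (by linarith)
      positivity
    have h3 : ∑ _t ∈ 𝒯, (1 : ℝ) ≤ y := by
      rw [Finset.sum_const, nsmul_eq_mul, mul_one]
      have h4 : 𝒯.card ≤ y := by
        refine (Finset.card_filter_le _ _).trans ?_
        unfold primesUpTo
        refine (Finset.card_filter_le _ _).trans ?_
        rw [Nat.card_Icc]; omega
      exact_mod_cast h4
    calc A ^ 3 * (32 * K * (Real.exp Sg * E2)) *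
          ∑ t ∈ 𝒯, (1 / ((t : ℝ) * Real.log t)) * Real.exp (-(Real.log y / Real.log t)) +
          A ^ 3 * (2 * cM * c1) * (R * y ^ 7) * ∑ _t ∈ 𝒯, (1 : ℝ)
        ≤ A ^ 3 * (32 * K * (Real.exp Sg * E2)) * (12 / Real.log (y + 1)) +
          A ^ 3 * (2 * cM * c1) * (R * y ^ 7) * y := by gcongr
      _ = C2 * (K / Real.log (y + 1) * Real.exp Sg) + C4 * (R * y ^ 8) := by
          rw [hC2, hC4]; ring
  calc ∑ n ∈ F, gProd g n * w n ≤ ∑ n ∈ F,
        (∑ a ∈ 𝒜, (if condA a n then A ^ 3 * A ^ M * gProd g a * w n else 0) +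
        ∑ t ∈ 𝒯, ∑ a ∈ ℬ t, (if condB t a n then A ^ 3 * wMin A M y t * gProd g a * w n else 0)) :=
        Finset.sum_le_sum hpoint
    _ = ∑ a ∈ 𝒜, A ^ 3 * A ^ M * gProd g a * ∑ n ∈ F.filter (condA a), w n +
        ∑ t ∈ 𝒯, ∑ a ∈ ℬ t,
          A ^ 3 * wMin A M y t * gProd g a * ∑ n ∈ F.filter (condB t a), w n := by
        rw [Finset.sum_add_distrib, hswapA, hswapB]
    _ ≤ (C1 * (K / Real.log (y + 1) * Real.exp Sg) + C3 * (R * y ^ 8)) +
        (C2 * (K / Real.log (y + 1) * Real.exp Sg) + C4 * (R * y ^ 8)) :=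
        add_le_add hrangeA hrangeB
    _ ≤ _ := by
        have e1 : 0 ≤ K / Real.log (y + 1) * Real.exp Sg := by positivity
        have e2 : 0 ≤ R * (y : ℝ) ^ 8 := by positivity
        have e3 : 0 ≤ C1 := by positivity
        have e4 : 0 ≤ C2 := by positivity
        have e5 : 0 ≤ C3 := by positivity
        have e6 : 0 ≤ C4 := by positivity
        nlinarith [mul_nonneg e3 e2, mul_nonneg e4 e2, mul_nonneg e5 e1, mul_nonneg e6 e1]

end

end Pool.Agent.Work.MP_af11aa_nt
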