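import Mathlib
import Pool.Agent.Work.MP_af11aa_nt.Level2
import Pool.Agent.Work.MP_af11aa_nt.GLower
import Pool.Agent.Work.MP_af11aa_nt.Index

namespace Pool.Agent.Work.MP_af11aa_nt

open UpperHalfPlane CongruenceSubgroup MeasureTheory Filter
open Complex hiding Gamma
open scoped MatrixGroups Manifold Topology ComplexConjugate ENNReal Modular

noncomputable section

section

attribute [local instance] Subgroup.fintypeQuotientOfFiniteIndex

lemma iBase_le {N : ℕ} [NeZero N] {f : ℍ → ℂ} {B : ℝ}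
    (hB : ∀ w : ℍ, w.im ^ (3 / 2 : ℝ) * ‖f w‖ ^ 2 ≤ B) :
    (iBase f N).toReal ≤ 2 * ((Gamma0 N).index * B) := by
  have hB0 : 0 ≤ B := by
    refine le_trans ?_ (hB UpperHalfPlane.I)
    have := (UpperHalfPlane.I).im_pos
    positivity
  have h1 : iBase f N ≤ (∫⁻ z, wt z) * ENNReal.ofReal ((Gamma0 N).index * B) := by
    unfold iBase
    rw [← lintegral_mul_const' _ _ ENNReal.ofReal_ne_top]
    refine lintegral_mono fun z ↦ ?_
    gcongr
    rw [← ENNReal.ofReal_sum_of_nonneg fun κ _ ↦ hFun_nonneg f _]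
    apply ENNReal.ofReal_le_ofReal
    calc ∑ κ : SL(2, ℤ) ⧸ Gamma0 N, hFun f ((Quotient.out κ)⁻¹ • z)
        ≤ ∑ κ : SL(2, ℤ) ⧸ Gamma0 N, B := by
          refine Finset.sum_le_sum fun κ _ ↦ ?_
          unfold hFun
          rw [mul_comm]; exact hB _
      _ = _ := by
          rw [Finset.sum_const, Finset.card_univ, nsmul_eq_mul, ← Nat.card_eq_fintype_card]; rfl
  have h2 : ∫⁻ z, wt z ≤ ENNReal.ofReal 2 := by
    have h3 : ∫⁻ z, wt z ≤ ∫⁻ z, (ModularGroup.fd : Set ℍ).indicator 1 z :=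
      lintegral_mono fun z ↦ wt_le z
    rw [lintegral_indicator_one ModularGroup.isClosed_fd.measurableSet] at h3
    refine (h3.trans volume_fd_le).trans ?_
    norm_num
  have h3 : iBase f N ≤ ENNReal.ofReal (2 * ((Gamma0 N).index * B)) := by
    rw [ENNReal.ofReal_mul (by norm_num)]
    exact h1.trans (by gcongr)
  exact ENNReal.toReal_le_of_le_ofReal (by positivity) h3

end

lemma cDens_one_le : cDens 1 ≤ Real.pi := by
  have h := tail_cTerm (M := 1) (by norm_num) 0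
  simp only [Finset.Icc_eq_empty_of_lt Nat.zero_lt_one, Finset.sum_empty, sub_zero,
    CharP.cast_eq_zero, zero_add, div_one] at h
  have h2 := (abs_le.1 h).2
  unfold cDens
  have := Real.pi_pos
  nlinarith

lemma kConst_le {N : ℕ} [NeZero N] {f : ℍ → ℂ} {B : ℝ}
    (hB : ∀ w : ℍ, w.im ^ (3 / 2 : ℝ) * ‖f w‖ ^ 2 ≤ B) :
    kConst f N ≤ 2 * Real.pi * B := by
  have h1 := iBase_le (N := N) hB
  have h2 := cDens_one_le
  have h3 := cDens_nonneg (M := 1) (by norm_num)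
  have hidx : (0 : ℝ) < ((Gamma0 N).index : ℝ) := by
    have : (Gamma0 N).index ≠ 0 := (inferInstance : (Gamma0 N).FiniteIndex).index_ne_zero
    exact_mod_cast Nat.pos_of_ne_zero this
  unfold kConst
  rw [div_le_iff₀ hidx]
  calc cDens 1 * (iBase f N).toReal ≤ Real.pi * (2 * ((Gamma0 N).index * B)) := by
        gcongr
    _ = _ := by ring

lemma kConst_nonneg (f : ℍ → ℂ) (N : ℕ) [NeZero N] : 0 ≤ kConst f N := by
  unfold kConst
  have h3 := cDens_nonneg (M := 1) (by norm_num)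
  positivity

lemma sigma_le_sq (l : ℕ) : ArithmeticFunction.sigma 1 l ≤ l ^ 2 := by
  rw [ArithmeticFunction.sigma_one_apply]
  rcases Nat.eq_zero_or_pos l with h | h
  · subst h; simp
  · calc ∑ d ∈ l.divisors, d ≤ ∑ d ∈ l.divisors, l :=
          Finset.sum_le_sum fun d hd ↦ Nat.divisor_le hd
      _ = l.divisors.card * l := by rw [Finset.sum_const, smul_eq_mul]
      _ ≤ l * l := Nat.mul_le_mul_right _ (Nat.card_divisors_le_self l)
      _ = l ^ 2 := by ring

lemma wInt_lower {X : ℝ} (hX : 0 < X) {n : ℕ} (hn : (n : ℝ) ≤ X) :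
    Real.exp (-(8 * Real.pi)) / Real.sqrt (2 * X) ≤ wInt X n := by
  unfold wInt
  have h12 := one_div_le_two_div hX
  have h1X : 0 < 1 / X := by positivity
  have hc : ∫ _ in (1 / X)..(2 / X), (Real.sqrt (X / 2) * Real.exp (-(8 * Real.pi))) =
      Real.exp (-(8 * Real.pi)) / Real.sqrt (2 * X) := by
    rw [intervalIntegral.integral_const, smul_eq_mul]
    have e : Real.sqrt (X / 2) / X = 1 / Real.sqrt (2 * X) := by
      rw [div_eq_div_iff hX.ne' (by positivity), ← Real.sqrt_mul (by positivity), one_mul]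
      rw [show X / 2 * (2 * X) = X ^ 2 by ring, Real.sqrt_sq hX.le]
    have e2 : (2 / X - 1 / X) = 1 / X := by ring
    rw [e2]
    calc 1 / X * (Real.sqrt (X / 2) * Real.exp (-(8 * Real.pi)))
        = (Real.sqrt (X / 2) / X) * Real.exp (-(8 * Real.pi)) := by ring
      _ = _ := by rw [e]; ring
  rw [← hc]
  refine intervalIntegral.integral_mono_on h12 (by simp) ?_ ?_
  · exact ContinuousOn.intervalIntegrable (by
      rw [Set.uIcc_of_le h12]; exact continuousOn_wInt hX n)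
  · intro u hu
    have hu0 : 0 < u := h1X.trans_le hu.1
    have hu2 : u * X ≤ 2 := by
      have := hu.2
      rwa [le_div_iff₀ hX] at this
    have a1 : Real.sqrt (X / 2) ≤ u ^ (-(1 / 2 : ℝ)) := by
      rw [Real.rpow_neg hu0.le, ← Real.sqrt_eq_rpow, ← Real.sqrt_inv]
      apply Real.sqrt_le_sqrt
      rw [← one_div, le_div_iff₀ hu0]
      linarith
    have a2 : Real.exp (-(8 * Real.pi)) ≤ Real.exp (-(4 * Real.pi * n * u)) := by
      apply Real.exp_le_exp.2
      have h3 : (n : ℝ) * u ≤ 2 := by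
        calc (n : ℝ) * u ≤ X * u := by gcongr
          _ ≤ 2 := by linarith
      have := Real.pi_pos
      nlinarith
    exact mul_le_mul a1 a2 (Real.exp_pos _).le (by positivity)

/-- the constant. -/
def cSift : ℝ := 20250 * Real.sqrt 2 * Real.exp (8 * Real.pi)

lemma cSift_pos : 0 < cSift := by unfold cSift; positivity

theorem sifted_bound {p : ℕ} (hp : p.Prime) {χ : DirichletCharacter ℂ (24 * p)} {f : ℍ → ℂ}
    (hf : IsCuspForm (24 * p) χ f) {B : ℝ} (hB : ∀ w : ℍ, w.im ^ (3 / 2 : ℝ) * ‖f w‖ ^ 2 ≤ B)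
    (Q : ℕ → Prop) [DecidablePred Q] {X : ℝ} (hX : 2 ≤ X) :
    ∑ n ∈ (Finset.Icc 1 ⌊X⌋₊).filter (fun n ↦ ∀ l ∈ n.primeFactors, Q l), ‖fourierCoeff f n‖ ^ 2 ≤
      cSift * B * (X ^ (3 / 2 : ℝ) / Real.log X *
        ∏ l ∈ (Finset.Icc 1 ⌊X ^ (1 / 64 : ℝ)⌋₊).filter (fun l ↦ l.Prime ∧ Q l),
          (1 - (l : ℝ)⁻¹)⁻¹ + p * X ^ (11 / 8 : ℝ)) := by
  have hX0 : 0 < X := by linarith
  have hX1 : 1 ≤ X := by linarith
  have : NeZero (24 * p) := ⟨by have := hp.pos; omega⟩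
  have hp0 : (0 : ℝ) < p := by exact_mod_cast hp.pos
  have h4 : 4 ∣ 24 * p := ⟨6 * p, by ring⟩
  have hB0 : 0 ≤ B := by
    refine le_trans ?_ (hB UpperHalfPlane.I)
    have := (UpperHalfPlane.I).im_pos
    positivity
  set D := ⌊X ^ (1 / 64 : ℝ)⌋₊ with hD
  have hXθ1 : 1 ≤ X ^ (1 / 64 : ℝ) := Real.one_le_rpow hX1 (by norm_num)
  have hD1 : 1 ≤ D := Nat.le_floor (by simpa using hXθ1)
  have hDle : (D : ℝ) ≤ X ^ (1 / 64 : ℝ) := Nat.floor_le (by positivity)
  have hDlt : X ^ (1 / 64 : ℝ) < (D : ℝ) + 1 := Nat.lt_floor_add_one _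
  -- sieve sets
  set T : Finset ℕ := (Finset.Icc 1 D).filter (fun l ↦ l.Prime ∧ ¬ Q l ∧ ¬ l ∣ 24 * p) with hT
  set T' : Finset ℕ := (Finset.Icc 1 D).filter (fun l ↦ l.Prime ∧ (Q l ∨ l ∣ 24 * p)) with hT'
  have hTp : ∀ l ∈ T, l.Prime := fun l hl ↦ ((Finset.mem_filter.1 hl).2).1
  have hT'p : ∀ l ∈ T', l.Prime := fun l hl ↦ ((Finset.mem_filter.1 hl).2).1
  set P := ∏ l ∈ T, l with hP
  have hPsq : Squarefree P := squarefree_prod_primes hTp
  have hcover : ∀ l : ℕ, l.Prime → l ≤ D → l ∈ T ∨ l ∈ T' := by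
    intro l hl hlD
    rw [hT, hT', Finset.mem_filter, Finset.mem_filter, Finset.mem_Icc]
    by_cases h1 : Q l
    · right; exact ⟨⟨hl.one_lt.le, hlD⟩, hl, Or.inl h1⟩
    · by_cases h2 : l ∣ 24 * p
      · right; exact ⟨⟨hl.one_lt.le, hlD⟩, hl, Or.inr h2⟩
      · left; exact ⟨⟨hl.one_lt.le, hlD⟩, hl, h1, h2⟩
  have hPcop : Nat.Coprime P (24 * p) := by
    rw [hP]
    refine Nat.Coprime.prod_left fun l hl ↦ ?_
    rw [hT, Finset.mem_filter] at hl
    exact (Nat.Prime.coprime_iff_not_dvd hl.2.1).2 hl.2.2.2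
  -- weights
  set w : ℕ → ℝ := fun n ↦ ‖fourierCoeff f n‖ ^ 2 * wInt X n with hw
  have hw0 : ∀ n, 0 ≤ w n := fun n ↦ by
    have := wInt_nonneg hX0 n
    rw [hw]; positivity
  have hlev : ∀ l : ℕ, l ∣ P → l ≤ D ^ 2 →
      Summable (fun m : ℕ ↦ w (l * m)) ∧
      |∑' m, w (l * m) - kConst f (24 * p) * X / l| ≤
        20250 * B * p * D ^ 4 * X ^ (3 / 4 : ℝ) := by
    intro l hlP hlD
    have hl0 : 0 < l := Nat.pos_of_dvd_of_pos hlP (Nat.pos_of_ne_zero hPsq.ne_zero)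
    have hlR : (0 : ℝ) < l := by exact_mod_cast hl0
    have hlsq := hPsq.squarefree_of_dvd hlP
    have hlcop : Nat.Coprime l (24 * p) := hPcop.coprime_dvd_left hlP
    have hlDR : (l : ℝ) ≤ D ^ 2 := by exact_mod_cast hlD
    have hlX : (l : ℝ) ≤ X := by
      calc (l : ℝ) ≤ D ^ 2 := hlDR
        _ ≤ (X ^ (1 / 64 : ℝ)) ^ 2 := by gcongr
        _ = X ^ (1 / 32 : ℝ) := by
          rw [← Real.rpow_natCast, ← Real.rpow_mul hX0.le]; norm_num
        _ ≤ X ^ (1 : ℝ) := Real.rpow_le_rpow_of_exponent_le hX1 (by norm_num)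
        _ = X := Real.rpow_one X
    obtain ⟨h1, h2⟩ := level_distribution hf h4 hl0 hlsq hlcop hB hlX
    refine ⟨h1, ?_⟩
    have e : kConst f (24 * p) * X / l = kConst f (24 * p) * (X / l) := by ring
    rw [e]
    refine h2.trans ?_
    have hidx : ((Gamma0 (24 * p * l)).index : ℝ) ≤ 162 * p * D ^ 4 := by
      have h3 := index_Gamma0_mul_squarefree_le (24 * p) (by have := hp.pos; omega) l hlsq
      have h4 := index_Gamma0_24p_le p hp
      have h5 : (Gamma0 (24 * p * l)).index ≤ 162 * p * (D ^ 2) ^ 2 := by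
        calc (Gamma0 (24 * p * l)).index ≤ (Gamma0 (24 * p)).index * ArithmeticFunction.sigma 1 l := h3
          _ ≤ (162 * p) * (l ^ 2) := Nat.mul_le_mul h4 (sigma_le_sq l)
          _ ≤ (162 * p) * (D ^ 2) ^ 2 := by gcongr
      have h6 : ((Gamma0 (24 * p * l)).index : ℝ) ≤ 162 * p * ((D : ℝ) ^ 2) ^ 2 := by exact_mod_cast h5
      calc ((Gamma0 (24 * p * l)).index : ℝ) ≤ 162 * p * ((D : ℝ) ^ 2) ^ 2 := h6
        _ = _ := by ring
    have hXl : (X / l) ^ (3 / 4 : ℝ) ≤ X ^ (3 / 4 : ℝ) := by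
      apply Real.rpow_le_rpow (by positivity) _ (by norm_num)
      rw [div_le_iff₀ hlR]
      have : (1 : ℝ) ≤ l := by exact_mod_cast hl0
      nlinarith
    calc 125 * B * ((Gamma0 (24 * p * l)).index : ℝ) * (X / l) ^ (3 / 4 : ℝ)
        ≤ 125 * B * (162 * p * D ^ 4) * X ^ (3 / 4 : ℝ) := by gcongr
      _ = _ := by ring
  have hws : Summable w := by
    have := (hlev 1 (one_dvd _) (Nat.one_le_pow _ _ hD1)).1
    simpa using this
  have hR0 : 0 ≤ 20250 * B * p * D ^ 4 * X ^ (3 / 4 : ℝ) := by positivity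
  have hsel := selberg_bound hw0 hws hPsq hD1 hR0 (fun l h1 h2 ↦ (hlev l h1 h2).2)
  -- G lower bound
  have hGlow := gSum_lower hTp hT'p hcover
  have hlog := log_le_harmonic D
  have hG1 := one_le_gSum hPsq.ne_zero hD1
  have hGpos : 0 < gSum P D := by linarith
  have hlogX : 0 < Real.log X := Real.log_pos (by linarith)
  have hlogD : Real.log X / 64 ≤ Real.log (D + 1) := by
    have h1 : Real.log (X ^ (1 / 64 : ℝ)) ≤ Real.log (D + 1) :=
      Real.log_le_log (by positivity) hDlt.le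
    rw [Real.log_rpow hX0] at h1
    linarith
  set PT := ∏ l ∈ (Finset.Icc 1 D).filter (fun l ↦ l.Prime ∧ Q l), (1 - (l : ℝ)⁻¹)⁻¹ with hPT
  have hfac : ∀ l : ℕ, l.Prime → 1 ≤ (1 - (l : ℝ)⁻¹)⁻¹ ∧ (1 - (l : ℝ)⁻¹)⁻¹ ≤ 2 := by
    intro l hl
    have h2 : (2 : ℝ) ≤ l := by exact_mod_cast hl.two_le
    have h3 : 0 < (l : ℝ)⁻¹ := by positivity
    have h4 : (l : ℝ)⁻¹ ≤ 1 / 2 := by
      rw [← one_div]; exact one_div_le_one_div_of_le (by norm_num) h2
    constructor
    · rw [one_le_inv₀ (by linarith)]; linarith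
    · rw [inv_le_comm₀ (by linarith) (by norm_num)]; linarith
  have hPT1 : 1 ≤ PT := by
    rw [hPT]
    calc (1 : ℝ) = ∏ l ∈ (Finset.Icc 1 D).filter (fun l ↦ l.Prime ∧ Q l), (1 : ℝ) := by simp
      _ ≤ _ := Finset.prod_le_prod (fun _ _ ↦ by norm_num) fun l hl ↦
        (hfac l (Finset.mem_filter.1 hl).2.1).1
  have hT'prod : ∏ l ∈ T', (1 - (l : ℝ)⁻¹)⁻¹ ≤ 8 * PT := by
    set U := (Finset.Icc 1 D).filter (fun l ↦ l.Prime ∧ Q l) with hU
    have hUT' : U ⊆ T' := by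
      intro l hl
      rw [hU, Finset.mem_filter] at hl
      rw [hT', Finset.mem_filter]
      exact ⟨hl.1, hl.2.1, Or.inl hl.2.2⟩
    rw [← Finset.prod_sdiff hUT']
    have h5 : ∏ l ∈ T' \ U, (1 - (l : ℝ)⁻¹)⁻¹ ≤ 8 := by
      have hsub : T' \ U ⊆ {2, 3, p} := by
        intro l hl
        rw [Finset.mem_sdiff, hT', hU, Finset.mem_filter, Finset.mem_filter] at hl
        obtain ⟨⟨hl1, hl2, hl3⟩, hl4⟩ := hl
        have hdiv : l ∣ 24 * p := by
          rcases hl3 with h | h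
          · exact absurd ⟨hl1, hl2, h⟩ hl4
          · exact h
        rw [Finset.mem_insert, Finset.mem_insert, Finset.mem_singleton]
        rcases (Nat.Prime.dvd_mul hl2).1 hdiv with h | h
        · have h24 : 24 = 2 ^ 3 * 3 := by norm_num
          rw [h24] at h
          rcases (Nat.Prime.dvd_mul hl2).1 h with h | h
          · left; exact (Nat.prime_dvd_prime_iff_eq hl2 Nat.prime_two).1 (hl2.dvd_of_dvd_pow h)
          · right; left; exact (Nat.prime_dvd_prime_iff_eq hl2 Nat.prime_three).1 h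
        · right; right; exact (Nat.prime_dvd_prime_iff_eq hl2 hp).1 h
      have hcard : (T' \ U).card ≤ 3 := (Finset.card_le_card hsub).trans (Finset.card_le_three)
      calc ∏ l ∈ T' \ U, (1 - (l : ℝ)⁻¹)⁻¹ ≤ ∏ l ∈ T' \ U, (2 : ℝ) := by
            refine Finset.prod_le_prod (fun l hl ↦ ?_) fun l hl ↦ ?_
            · linarith [(hfac l (hT'p l (Finset.mem_sdiff.1 hl).1)).1]
            · exact (hfac l (hT'p l (Finset.mem_sdiff.1 hl).1)).2
        _ = 2 ^ (T' \ U).card := by rw [Finset.prod_const]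
        _ ≤ 2 ^ 3 := pow_le_pow_right₀ (by norm_num) hcard
        _ = 8 := by norm_num
    exact mul_le_mul_of_nonneg_right h5 (by linarith)
  have hGinv : 1 / gSum P D ≤ 512 * PT / Real.log X := by
    rw [div_le_div_iff₀ hGpos hlogX, one_mul]
    have h1 : Real.log X / 64 ≤ gSum P D * (8 * PT) := by
      calc Real.log X / 64 ≤ Real.log (D + 1) := hlogD
        _ ≤ _ := hlog
        _ ≤ gSum P D * ∏ l ∈ T', (1 - (l : ℝ)⁻¹)⁻¹ := hGlow
        _ ≤ gSum P D * (8 * PT) := by gcongr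
    linarith
  -- upper bound for the sieved weighted sum
  have hk := kConst_le (N := 24 * p) hB
  have hk0 := kConst_nonneg f (24 * p)
  have hD8 : (D : ℝ) ^ 4 * (D : ℝ) ^ 4 ≤ X ^ (1 / 8 : ℝ) := by
    calc (D : ℝ) ^ 4 * (D : ℝ) ^ 4 = (D : ℝ) ^ 8 := by ring
      _ ≤ (X ^ (1 / 64 : ℝ)) ^ 8 := by gcongr
      _ = X ^ (1 / 8 : ℝ) := by
        rw [← Real.rpow_natCast, ← Real.rpow_mul hX0.le]; norm_num
  have hW : ∑' n, (if Nat.Coprime n P then w n else 0) ≤
      20250 * B * (X / Real.log X * PT + p * X ^ (7 / 8 : ℝ)) := by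
    refine hsel.trans ?_
    have h1 : kConst f (24 * p) * X / gSum P D ≤ 20250 * B * (X / Real.log X * PT) := by
      calc kConst f (24 * p) * X / gSum P D = kConst f (24 * p) * X * (1 / gSum P D) := by ring
        _ ≤ (2 * Real.pi * B) * X * (512 * PT / Real.log X) := by gcongr
        _ = (1024 * Real.pi) * (B * (X / Real.log X * PT)) := by ring
        _ ≤ 20250 * (B * (X / Real.log X * PT)) := by
          have h3 : 1024 * Real.pi ≤ 20250 := by have := Real.pi_lt_d2; linarith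
          have h2 : 0 ≤ B * (X / Real.log X * PT) := by positivity
          exact mul_le_mul_of_nonneg_right h3 h2
        _ = _ := by ring
    have h2 : 20250 * B * p * D ^ 4 * X ^ (3 / 4 : ℝ) * D ^ 4 ≤ 20250 * B * (p * X ^ (7 / 8 : ℝ)) := by
      have e : X ^ (7 / 8 : ℝ) = X ^ (1 / 8 : ℝ) * X ^ (3 / 4 : ℝ) := by
        rw [← Real.rpow_add hX0]; norm_num
      rw [e]
      calc 20250 * B * p * D ^ 4 * X ^ (3 / 4 : ℝ) * D ^ 4
          = 20250 * B * p * ((D : ℝ) ^ 4 * (D : ℝ) ^ 4) * X ^ (3 / 4 : ℝ) := by ring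
        _ ≤ 20250 * B * p * X ^ (1 / 8 : ℝ) * X ^ (3 / 4 : ℝ) := by gcongr
        _ = _ := by ring
    linarith
  -- back to the unweighted sum
  have hexp : Real.exp (-(8 * Real.pi)) * Real.exp (8 * Real.pi) = 1 := by
    rw [← Real.exp_add]; simp
  set F := (Finset.Icc 1 ⌊X⌋₊).filter (fun n ↦ ∀ l ∈ n.primeFactors, Q l) with hF
  have hFw : ∑ n ∈ F, ‖fourierCoeff f n‖ ^ 2 ≤
      Real.exp (8 * Real.pi) * Real.sqrt (2 * X) * ∑ n ∈ F, w n := by
    rw [Finset.mul_sum]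
    refine Finset.sum_le_sum fun n hn ↦ ?_
    rw [hF, Finset.mem_filter, Finset.mem_Icc] at hn
    have hnX : (n : ℝ) ≤ X := (Nat.le_floor_iff hX0.le).1 hn.1.2
    have h1 := wInt_lower hX0 hnX
    have hs : 0 < Real.sqrt (2 * X) := by positivity
    have h2 : 1 ≤ Real.exp (8 * Real.pi) * Real.sqrt (2 * X) * wInt X n := by
      calc (1 : ℝ) = Real.exp (8 * Real.pi) * Real.sqrt (2 * X) *
            (Real.exp (-(8 * Real.pi)) / Real.sqrt (2 * X)) := by
            field_simp; linarith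
        _ ≤ _ := by gcongr
    calc ‖fourierCoeff f n‖ ^ 2 = ‖fourierCoeff f n‖ ^ 2 * 1 := by ring
      _ ≤ ‖fourierCoeff f n‖ ^ 2 * (Real.exp (8 * Real.pi) * Real.sqrt (2 * X) * wInt X n) := by
        gcongr
      _ = _ := by rw [hw]; ring
  have hFsum : ∑ n ∈ F, w n ≤ ∑' n, (if Nat.Coprime n P then w n else 0) := by
    have hs : Summable fun n ↦ if Nat.Coprime n P then w n else 0 := by
      refine Summable.of_nonneg_of_le (fun n ↦ ?_) (fun n ↦ ?_) hws
      · split_ifs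
        · exact hw0 n
        · exact le_rfl
      · split_ifs
        · exact le_rfl
        · exact hw0 n
    have h1 : ∑ n ∈ F, w n = ∑ n ∈ F, (if Nat.Coprime n P then w n else 0) := by
      refine Finset.sum_congr rfl fun n hn ↦ ?_
      rw [if_pos]
      rw [hF, Finset.mem_filter, Finset.mem_Icc] at hn
      rw [hP]
      refine Nat.Coprime.prod_right fun l hl ↦ ?_
      rw [hT, Finset.mem_filter] at hl
      rw [Nat.coprime_comm, Nat.Prime.coprime_iff_not_dvd hl.2.1]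
      intro hdvd
      exact hl.2.2.1 (hn.2 l (Nat.mem_primeFactors.2 ⟨hl.2.1, hdvd, by omega⟩))
    rw [h1]
    refine hs.sum_le_tsum _ fun n _ ↦ ?_
    split_ifs
    · exact hw0 n
    · exact le_rfl
  have hX32 : X ^ (3 / 2 : ℝ) = Real.sqrt X * X := by
    rw [Real.sqrt_eq_rpow]
    nth_rewrite 3 [← Real.rpow_one X]
    rw [← Real.rpow_add hX0]; norm_num
  have hX118 : X ^ (11 / 8 : ℝ) = Real.sqrt X * X ^ (7 / 8 : ℝ) := by
    rw [Real.sqrt_eq_rpow, ← Real.rpow_add hX0]; norm_num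
  have hsq2 : Real.sqrt (2 * X) = Real.sqrt 2 * Real.sqrt X := Real.sqrt_mul (by norm_num) _
  calc ∑ n ∈ F, ‖fourierCoeff f n‖ ^ 2
      ≤ Real.exp (8 * Real.pi) * Real.sqrt (2 * X) * ∑ n ∈ F, w n := hFw
    _ ≤ Real.exp (8 * Real.pi) * Real.sqrt (2 * X) *
        (20250 * B * (X / Real.log X * PT + p * X ^ (7 / 8 : ℝ))) := by
        gcongr
        exact hFsum.trans hW
    _ = _ := by
        rw [hX32, hX118, hsq2]
        unfold cSift
        ring

end

end Pool.Agent.Work.MP_af11aa_nt
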