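import Mathlib
import Pool.Agent.Work.MP_af11aa_nt.Sifted
import Pool.Agent.Work.MP_af11aa_nt.Shiu

namespace Pool.Agent.Work.MP_af11aa_nt

open UpperHalfPlane CongruenceSubgroup MeasureTheory Filter
open Complex hiding Gamma
open scoped MatrixGroups Manifold Topology ComplexConjugate ENNReal Modular

noncomputable section

lemma card_primeFactors_24p {p : ℕ} (hp : p.Prime) : (24 * p).primeFactors.card ≤ 3 := by
  have hsub : (24 * p).primeFactors ⊆ {2, 3, p} := by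
    intro l hl
    have hl2 := Nat.prime_of_mem_primeFactors hl
    have hdiv := Nat.dvd_of_mem_primeFactors hl
    rw [Finset.mem_insert, Finset.mem_insert, Finset.mem_singleton]
    rcases (Nat.Prime.dvd_mul hl2).1 hdiv with h | h
    · have h24 : 24 = 2 ^ 3 * 3 := by norm_num
      rw [h24] at h
      rcases (Nat.Prime.dvd_mul hl2).1 h with h | h
      · left; exact (Nat.prime_dvd_prime_iff_eq hl2 Nat.prime_two).1 (hl2.dvd_of_dvd_pow h)
      · right; left; exact (Nat.prime_dvd_prime_iff_eq hl2 Nat.prime_three).1 h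
    · right; right; exact (Nat.prime_dvd_prime_iff_eq hl2 hp).1 h
  exact (Finset.card_le_card hsub).trans Finset.card_le_three

theorem twisted_bound {A : ℝ} (hA : 1 ≤ A) :
    ∃ C : ℝ, 0 < C ∧ ∀ {p : ℕ} (_ : p.Prime) {χ : DirichletCharacter ℂ (24 * p)} {f : ℍ → ℂ}
      (_ : IsCuspForm (24 * p) χ f) {B : ℝ}
      (_ : ∀ w : ℍ, w.im ^ (3 / 2 : ℝ) * ‖f w‖ ^ 2 ≤ B)
      (g : ℕ → ℝ) (_ : ∀ l : ℕ, l.Prime → 0 ≤ g l ∧ g l ≤ A) {X : ℝ} (_ : 2 ≤ X),
      ∑ n ∈ Finset.Icc 1 ⌊X⌋₊, (∏ l ∈ n.primeFactors, g l) * ‖fourierCoeff f n‖ ^ 2 ≤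
        C * B * (X ^ (3 / 2 : ℝ) / Real.log X *
          Real.exp (∑ l ∈ (Finset.Icc 1 ⌊X⌋₊).filter Nat.Prime, g l / l) +
            p * X ^ (21 / 16 : ℝ)) := by
  obtain ⟨C0, hC0, hmain⟩ := shiu_abstract hA (M := 256) (by norm_num)
  refine ⟨C0 * (Real.sqrt 2 * Real.exp (8 * Real.pi) * 20250), by positivity, ?_⟩
  intro p hp χ f hf B hB g hg X hX
  have hX0 : 0 < X := by linarith
  have hX1 : 1 ≤ X := by linarith
  have : NeZero (24 * p) := ⟨by have := hp.pos; omega⟩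
  have hp0 : (0 : ℝ) < p := by exact_mod_cast hp.pos
  have h4 : 4 ∣ 24 * p := ⟨6 * p, by ring⟩
  have hB0 : 0 ≤ B := by
    refine le_trans ?_ (hB UpperHalfPlane.I)
    have := (UpperHalfPlane.I).im_pos
    positivity
  set y := ⌊X ^ (1 / 256 : ℝ)⌋₊ with hy
  have hXθ1 : 1 ≤ X ^ (1 / 256 : ℝ) := Real.one_le_rpow hX1 (by norm_num)
  have hy1 : 1 ≤ y := Nat.le_floor (by simpa using hXθ1)
  have hyle : (y : ℝ) ≤ X ^ (1 / 256 : ℝ) := Nat.floor_le (by positivity)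
  have hylt : X ^ (1 / 256 : ℝ) < (y : ℝ) + 1 := Nat.lt_floor_add_one _
  have hypow : ∀ k : ℕ, (y : ℝ) ^ k ≤ X ^ (k / 256 : ℝ) := by
    intro k
    calc (y : ℝ) ^ k ≤ (X ^ (1 / 256 : ℝ)) ^ k := by gcongr
      _ = X ^ (k / 256 : ℝ) := by
        rw [← Real.rpow_natCast, ← Real.rpow_mul hX0.le]; congr 1; ring
  set w : ℕ → ℝ := fun n ↦ ‖fourierCoeff f n‖ ^ 2 * wInt X n with hw
  have hw0 : ∀ n, 0 ≤ w n := fun n ↦ by
    have := wInt_nonneg hX0 n
    rw [hw]; positivity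
  have hlev : ∀ l : ℕ, Squarefree l → Nat.Coprime l (24 * p) → l ≤ y ^ 4 →
      Summable (fun m : ℕ ↦ w (l * m)) ∧
      |∑' m, w (l * m) - kConst f (24 * p) * X / l| ≤
        20250 * B * p * y ^ 8 * X ^ (3 / 4 : ℝ) := by
    intro l hlsq hlcop hlD
    have hl0 : 0 < l := Nat.pos_of_ne_zero hlsq.ne_zero
    have hlR : (0 : ℝ) < l := by exact_mod_cast hl0
    have hlDR : (l : ℝ) ≤ y ^ 4 := by exact_mod_cast hlD
    have hlX : (l : ℝ) ≤ X := by
      calc (l : ℝ) ≤ y ^ 4 := hlDR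
        _ ≤ X ^ ((4 : ℕ) / 256 : ℝ) := hypow 4
        _ ≤ X ^ (1 : ℝ) := Real.rpow_le_rpow_of_exponent_le hX1 (by norm_num)
        _ = X := Real.rpow_one X
    obtain ⟨h1, h2⟩ := level_distribution hf h4 hl0 hlsq hlcop hB hlX
    refine ⟨h1, ?_⟩
    have e : kConst f (24 * p) * X / l = kConst f (24 * p) * (X / l) := by ring
    rw [e]
    refine h2.trans ?_
    have hidx : ((Gamma0 (24 * p * l)).index : ℝ) ≤ 162 * p * y ^ 8 := by
      have h3 := index_Gamma0_mul_squarefree_le (24 * p) (by have := hp.pos; omega) l hlsq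
      have h4 := index_Gamma0_24p_le p hp
      have h5 : (Gamma0 (24 * p * l)).index ≤ 162 * p * (y ^ 4) ^ 2 := by
        calc (Gamma0 (24 * p * l)).index ≤ (Gamma0 (24 * p)).index * ArithmeticFunction.sigma 1 l := h3
          _ ≤ (162 * p) * (l ^ 2) := Nat.mul_le_mul h4 (sigma_le_sq l)
          _ ≤ (162 * p) * (y ^ 4) ^ 2 := by gcongr
      have h6 : ((Gamma0 (24 * p * l)).index : ℝ) ≤ 162 * p * ((y : ℝ) ^ 4) ^ 2 := by exact_mod_cast h5
      calc ((Gamma0 (24 * p * l)).index : ℝ) ≤ 162 * p * ((y : ℝ) ^ 4) ^ 2 := h6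
        _ = _ := by ring
    have hXl : (X / l) ^ (3 / 4 : ℝ) ≤ X ^ (3 / 4 : ℝ) := by
      apply Real.rpow_le_rpow (by positivity) _ (by norm_num)
      rw [div_le_iff₀ hlR]
      have : (1 : ℝ) ≤ l := by exact_mod_cast hl0
      nlinarith
    calc 125 * B * ((Gamma0 (24 * p * l)).index : ℝ) * (X / l) ^ (3 / 4 : ℝ)
        ≤ 125 * B * (162 * p * y ^ 8) * X ^ (3 / 4 : ℝ) := by gcongr
      _ = _ := by ring
  have hws : Summable w := by
    have := (hlev 1 squarefree_one (Nat.coprime_one_left _) (Nat.one_le_pow _ _ hy1)).1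
    simpa using this
  have hk := kConst_le (N := 24 * p) hB
  have hk0 := kConst_nonneg f (24 * p)
  have hFn : ∀ n ∈ Finset.Icc 1 ⌊X⌋₊, n ≠ 0 ∧ n < (y + 1) ^ 256 := by
    intro n hn
    rw [Finset.mem_Icc] at hn
    refine ⟨by omega, ?_⟩
    have hnX : (n : ℝ) ≤ X := (Nat.le_floor_iff hX0.le).1 hn.2
    have h1 : X < ((y : ℝ) + 1) ^ 256 := by
      calc X = (X ^ (1 / 256 : ℝ)) ^ 256 := by
            rw [← Real.rpow_natCast, ← Real.rpow_mul hX0.le]; norm_num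
        _ < ((y : ℝ) + 1) ^ 256 := by gcongr
    have h2 : (n : ℝ) < ((y : ℝ) + 1) ^ 256 := hnX.trans_lt h1
    exact_mod_cast h2
  have hmain' := hmain w hw0 hws (24 * p) (by have := hp.pos; omega) (card_primeFactors_24p hp) y hy1
    (kConst f (24 * p) * X) (20250 * B * p * y ^ 8 * X ^ (3 / 4 : ℝ)) (by positivity) (by positivity)
    (fun l h1 h2 h3 ↦ (hlev l h1 h2 h3).2) (Finset.Icc 1 ⌊X⌋₊) hFn g hg
  have hlogX : 0 < Real.log X := Real.log_pos (by linarith)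
  have hlogy : Real.log X / 256 ≤ Real.log (y + 1) := by
    have h1 : Real.log (X ^ (1 / 256 : ℝ)) ≤ Real.log (y + 1) :=
      Real.log_le_log (by positivity) hylt.le
    rw [Real.log_rpow hX0] at h1
    linarith
  have hlogy0 : 0 < Real.log (y + 1) := by linarith [div_pos hlogX (by norm_num : (0 : ℝ) < 256)]
  have hyX : y ≤ ⌊X⌋₊ := by
    apply Nat.le_floor
    calc (y : ℝ) ≤ X ^ (1 / 256 : ℝ) := hyle
      _ ≤ X ^ (1 : ℝ) := Real.rpow_le_rpow_of_exponent_le hX1 (by norm_num)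
      _ = X := Real.rpow_one X
  set Sg : ℝ := ∑ l ∈ (Finset.Icc 1 ⌊X⌋₊).filter Nat.Prime, g l / l with hSg
  have hSle : ∑ l ∈ primesUpTo y, g l / l ≤ Sg := by
    refine Finset.sum_le_sum_of_subset_of_nonneg ?_ fun l hl _ ↦ ?_
    · intro l hl
      rw [mem_primesUpTo] at hl
      rw [Finset.mem_filter, Finset.mem_Icc]
      exact ⟨⟨hl.1.one_lt.le, hl.2.trans hyX⟩, hl.1⟩
    · exact div_nonneg (hg l (Finset.mem_filter.1 hl).2).1 (by positivity)
  have hW : ∑ n ∈ Finset.Icc 1 ⌊X⌋₊, gProd g n * w n ≤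
      C0 * (20250 * B * (X / Real.log X * Real.exp Sg + p * X ^ (13 / 16 : ℝ))) := by
    refine hmain'.trans ?_
    have h1 : kConst f (24 * p) * X / Real.log (y + 1) * Real.exp (∑ l ∈ primesUpTo y, g l / l) ≤
        20250 * B * (X / Real.log X * Real.exp Sg) := by
      have h2 : 1 / Real.log (y + 1) ≤ 256 / Real.log X := by
        rw [div_le_div_iff₀ hlogy0 hlogX]; linarith
      calc kConst f (24 * p) * X / Real.log (y + 1) * Real.exp (∑ l ∈ primesUpTo y, g l / l)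
          = kConst f (24 * p) * X * (1 / Real.log (y + 1)) *
            Real.exp (∑ l ∈ primesUpTo y, g l / l) := by ring
        _ ≤ (2 * Real.pi * B) * X * (256 / Real.log X) * Real.exp Sg := by gcongr
        _ = (512 * Real.pi) * (B * (X / Real.log X * Real.exp Sg)) := by ring
        _ ≤ 20250 * (B * (X / Real.log X * Real.exp Sg)) := by
          have h3 : 512 * Real.pi ≤ 20250 := by have := Real.pi_lt_d2; linarith
          have h2 : 0 ≤ B * (X / Real.log X * Real.exp Sg) := by positivity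
          exact mul_le_mul_of_nonneg_right h3 h2
        _ = _ := by ring
    have h2 : 20250 * B * p * y ^ 8 * X ^ (3 / 4 : ℝ) * y ^ 8 ≤
        20250 * B * (p * X ^ (13 / 16 : ℝ)) := by
      have e : X ^ (13 / 16 : ℝ) = X ^ ((16 : ℕ) / 256 : ℝ) * X ^ (3 / 4 : ℝ) := by
        rw [← Real.rpow_add hX0]; norm_num
      rw [e]
      calc 20250 * B * p * y ^ 8 * X ^ (3 / 4 : ℝ) * y ^ 8
          = 20250 * B * p * (y : ℝ) ^ 16 * X ^ (3 / 4 : ℝ) := by ring
        _ ≤ 20250 * B * p * X ^ ((16 : ℕ) / 256 : ℝ) * X ^ (3 / 4 : ℝ) := by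
          have := hypow 16
          gcongr
        _ = _ := by ring
    calc _ ≤ C0 * (20250 * B * (X / Real.log X * Real.exp Sg) +
          20250 * B * (p * X ^ (13 / 16 : ℝ))) := by gcongr
      _ = _ := by ring
  have hexp : Real.exp (-(8 * Real.pi)) * Real.exp (8 * Real.pi) = 1 := by
    rw [← Real.exp_add]; simp
  have hFw : ∑ n ∈ Finset.Icc 1 ⌊X⌋₊, (∏ l ∈ n.primeFactors, g l) * ‖fourierCoeff f n‖ ^ 2 ≤
      Real.exp (8 * Real.pi) * Real.sqrt (2 * X) *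
        ∑ n ∈ Finset.Icc 1 ⌊X⌋₊, gProd g n * w n := by
    rw [Finset.mul_sum]
    refine Finset.sum_le_sum fun n hn ↦ ?_
    rw [Finset.mem_Icc] at hn
    have hnX : (n : ℝ) ≤ X := (Nat.le_floor_iff hX0.le).1 hn.2
    have h1 := wInt_lower hX0 hnX
    have hs : 0 < Real.sqrt (2 * X) := by positivity
    have h2 : 1 ≤ Real.exp (8 * Real.pi) * Real.sqrt (2 * X) * wInt X n := by
      calc (1 : ℝ) = Real.exp (8 * Real.pi) * Real.sqrt (2 * X) *
            (Real.exp (-(8 * Real.pi)) / Real.sqrt (2 * X)) := by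
            field_simp; linarith
        _ ≤ _ := by gcongr
    have hgn : 0 ≤ gProd g n := gProd_nonneg (fun l hl ↦ (hg l hl).1) n
    change gProd g n * ‖fourierCoeff f n‖ ^ 2 ≤ _
    calc gProd g n * ‖fourierCoeff f n‖ ^ 2 = gProd g n * ‖fourierCoeff f n‖ ^ 2 * 1 := by ring
      _ ≤ gProd g n * ‖fourierCoeff f n‖ ^ 2 *
          (Real.exp (8 * Real.pi) * Real.sqrt (2 * X) * wInt X n) := by
        gcongr
      _ = _ := by rw [hw]; ring
  have hX32 : X ^ (3 / 2 : ℝ) = Real.sqrt X * X := by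
    rw [Real.sqrt_eq_rpow]
    nth_rewrite 3 [← Real.rpow_one X]
    rw [← Real.rpow_add hX0]; norm_num
  have hX118 : X ^ (21 / 16 : ℝ) = Real.sqrt X * X ^ (13 / 16 : ℝ) := by
    rw [Real.sqrt_eq_rpow, ← Real.rpow_add hX0]; norm_num
  have hsq2 : Real.sqrt (2 * X) = Real.sqrt 2 * Real.sqrt X := Real.sqrt_mul (by norm_num) _
  calc ∑ n ∈ Finset.Icc 1 ⌊X⌋₊, (∏ l ∈ n.primeFactors, g l) * ‖fourierCoeff f n‖ ^ 2
      ≤ Real.exp (8 * Real.pi) * Real.sqrt (2 * X) *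
        ∑ n ∈ Finset.Icc 1 ⌊X⌋₊, gProd g n * w n := hFw
    _ ≤ Real.exp (8 * Real.pi) * Real.sqrt (2 * X) *
        (C0 * (20250 * B * (X / Real.log X * Real.exp Sg + p * X ^ (13 / 16 : ℝ)))) := by
        gcongr
    _ = _ := by
        rw [hX32, hX118, hsq2]
        ring

end

end Pool.Agent.Work.MP_af11aa_nt
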