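import Mathlib
import Pool.Agent.Work.MP_af11aa_nt.Main

namespace Pool.Agent.Work.MP_af11aa_nt

open UpperHalfPlane CongruenceSubgroup MeasureTheory Filter
open Complex hiding Gamma
open scoped MatrixGroups Manifold Topology ComplexConjugate ENNReal ModularForm

noncomputable section

/-- the constant of the theorem. -/
def cZero : ℝ := 972 * Real.sqrt 2 * Real.exp (8 * Real.pi)

lemma cZero_pos : 0 < cZero := by unfold cZero; positivity

/-- `q` squarefree and coprime to `24 p`. -/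
theorem coprime_24p {p : ℕ} (hp : p.Prime) {χ : DirichletCharacter ℂ (24 * p)} {f : ℍ → ℂ}
    (hf : IsCuspForm (24 * p) χ f) {q : ℕ} (hsq : Squarefree q) (hcop : Nat.Coprime q (24 * p))
    {B : ℝ} (hB : ∀ w : ℍ, w.im ^ (3 / 2 : ℝ) * ‖f w‖ ^ 2 ≤ B) {Y : ℝ} (hY : 0 < Y)
    (s : Finset ℕ) (hs : ∀ m ∈ s, (m : ℝ) ≤ Y) :
    ∑ m ∈ s, ‖fourierCoeff f (q * m)‖ ^ 2 ≤
      cZero * B * ((ArithmeticFunction.sigma 1 q : ℕ) / q : ℝ) * Real.sqrt (q * Y) *
        (p * q + Y) := by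
  have hq0 : q ≠ 0 := hsq.ne_zero
  have : NeZero q := ⟨hq0⟩
  have : NeZero (24 * p) := ⟨by have := hp.pos; omega⟩
  have hp0 : (0 : ℝ) < p := by exact_mod_cast hp.pos
  have hqp : (0 : ℝ) < q := Nat.cast_pos.2 (NeZero.pos q)
  have hB0 : 0 ≤ B := by
    refine le_trans ?_ (hB UpperHalfPlane.I)
    have := (UpperHalfPlane.I).im_pos
    positivity
  have h4 : 4 ∣ 24 * p := ⟨6 * p, by ring⟩
  have h1 := coprime_case hf h4 hsq hcop hB hY s hs
  have hidx : ((Gamma0 (24 * p * q)).index : ℝ) ≤ 162 * p * (ArithmeticFunction.sigma 1 q : ℕ) := by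
    have h2 := index_Gamma0_mul_squarefree_le (24 * p) (by have := hp.pos; omega) q hsq
    have h3 := index_Gamma0_24p_le p hp
    have : (Gamma0 (24 * p * q)).index ≤ 162 * p * ArithmeticFunction.sigma 1 q :=
      h2.trans (Nat.mul_le_mul_right _ h3)
    exact_mod_cast this
  set S : ℝ := ∑ m ∈ s, ‖fourierCoeff f (q * m)‖ ^ 2 with hS
  set σ : ℝ := ((ArithmeticFunction.sigma 1 q : ℕ) : ℝ) with hσ
  have hσ0 : 0 ≤ σ := by positivity
  have hq52 : (q : ℝ) ^ (5 / 2 : ℝ) = q ^ 2 * Real.sqrt q := by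
    rw [Real.sqrt_eq_rpow, ← Real.rpow_natCast, ← Real.rpow_add hqp]; norm_num
  have hcast : (((24 * p * q : ℕ)) : ℝ) = 24 * p * q := by push_cast; ring
  rw [hq52, hcast] at h1
  have h2 : (q : ℝ) ^ 2 * Real.exp (-(8 * Real.pi)) / Real.sqrt (2 * Y) * S ≤
      2 * (q ^ 2 * Real.sqrt q * B * (162 * p * σ) *
        (3 * (2 * (Real.sqrt 2 * Y / (24 * p * q)) + 1))) := by
    refine h1.trans ?_
    gcongr
  have hexp : Real.exp (-(8 * Real.pi)) * Real.exp (8 * Real.pi) = 1 := by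
    rw [← Real.exp_add]; simp
  have hs2Y : 0 < Real.sqrt (2 * Y) := by positivity
  have h3 : S ≤ Real.exp (8 * Real.pi) * Real.sqrt (2 * Y) / q ^ 2 *
      (2 * (q ^ 2 * Real.sqrt q * B * (162 * p * σ) *
        (3 * (2 * (Real.sqrt 2 * Y / (24 * p * q)) + 1)))) := by
    have hk : 0 ≤ Real.exp (8 * Real.pi) * Real.sqrt (2 * Y) / q ^ 2 := by positivity
    have h4 := mul_le_mul_of_nonneg_left h2 hk
    refine le_trans (le_of_eq ?_) h4
    field_simp
    linear_combination (-S) * hexp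
  refine h3.trans ?_
  have hsqrt2 : Real.sqrt 2 ≤ 12 := by
    rw [Real.sqrt_le_left (by norm_num)]; norm_num
  have e1 : Real.sqrt (2 * Y) = Real.sqrt 2 * Real.sqrt Y := Real.sqrt_mul (by norm_num) _
  have e2 : Real.sqrt (q * Y) = Real.sqrt q * Real.sqrt Y := Real.sqrt_mul (by positivity) _
  have e3 : Real.exp (8 * Real.pi) * Real.sqrt (2 * Y) / q ^ 2 *
      (2 * (q ^ 2 * Real.sqrt q * B * (162 * p * σ) *
        (3 * (2 * (Real.sqrt 2 * Y / (24 * p * q)) + 1)))) =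
      cZero * B * (σ / q) * Real.sqrt (q * Y) * (p * q + Real.sqrt 2 / 12 * Y) := by
    rw [e1, e2]
    unfold cZero
    field_simp
    ring
  rw [e3]
  have hc := cZero_pos
  have h5 : Real.sqrt 2 / 12 * Y ≤ Y := by
    have : Real.sqrt 2 / 12 ≤ 1 := by linarith
    nlinarith
  gcongr

/-- all squarefree `q`. -/
theorem squarefree_24p {p : ℕ} (hp : p.Prime) {χ : DirichletCharacter ℂ (24 * p)} {f : ℍ → ℂ}
    (hf : IsCuspForm (24 * p) χ f) {q : ℕ} (hsq : Squarefree q)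
    {B : ℝ} (hB : ∀ w : ℍ, w.im ^ (3 / 2 : ℝ) * ‖f w‖ ^ 2 ≤ B) {X : ℝ} (hX : 0 < X) :
    ∑ n ∈ (Finset.Icc 1 ⌊X⌋₊).filter (q ∣ ·), ‖fourierCoeff f n‖ ^ 2 ≤
      cZero * B * (q.gcd (6 * p) : ℝ) * ((ArithmeticFunction.sigma 1 q : ℕ) / q : ℝ) *
        Real.sqrt X * (X / q + p * q) := by
  have hq0 : q ≠ 0 := hsq.ne_zero
  have hp0 : (0 : ℝ) < p := by exact_mod_cast hp.pos
  have hqp : (0 : ℝ) < q := Nat.cast_pos.2 (Nat.pos_of_ne_zero hq0)
  have hB0 : 0 ≤ B := by
    refine le_trans ?_ (hB UpperHalfPlane.I)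
    have := (UpperHalfPlane.I).im_pos
    positivity
  set g := q.gcd (6 * p) with hg
  obtain ⟨r, hr⟩ : g ∣ q := Nat.gcd_dvd_left _ _
  have hg0 : 0 < g := Nat.gcd_pos_of_pos_left _ (Nat.pos_of_ne_zero hq0)
  have hr0 : 0 < r := by
    rcases Nat.eq_zero_or_pos r with h | h
    · rw [h, mul_zero] at hr; exact absurd hr hq0
    · exact h
  have hcopgr : Nat.Coprime g r := by
    rw [hr] at hsq; exact Nat.coprime_of_squarefree_mul hsq
  have hsqr : Squarefree r := by
    rw [hr] at hsq; exact (Nat.squarefree_mul hcopgr).1 hsq |>.2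
  have hcop6 : Nat.Coprime r (6 * p) := by
    have h1 : r.gcd (6 * p) ∣ g := by
      rw [hg]
      exact Nat.dvd_gcd ((Nat.gcd_dvd_left _ _).trans ⟨g, by rw [hr]; ring⟩) (Nat.gcd_dvd_right _ _)
    have h2 : r.gcd (6 * p) ∣ r := Nat.gcd_dvd_left _ _
    have h3 : r.gcd (6 * p) ∣ g.gcd r := Nat.dvd_gcd h1 h2
    rw [hcopgr] at h3
    exact Nat.dvd_one.1 h3
  have hcop24 : Nat.Coprime r (24 * p) := by
    have h2 : Nat.Coprime r 2 := Nat.Coprime.coprime_dvd_right ⟨3 * p, by ring⟩ hcop6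
    have h4 : Nat.Coprime r 4 := by
      have := h2.pow_right 2
      norm_num at this
      exact this
    have : 24 * p = 4 * (6 * p) := by ring
    rw [this]
    exact h4.mul_right hcop6
  have hgR : (0 : ℝ) < g := Nat.cast_pos.2 hg0
  have hrR : (0 : ℝ) < r := Nat.cast_pos.2 hr0
  have hqgr : (q : ℝ) = g * r := by exact_mod_cast hr
  -- the sum over multiples of `q` is at most the sum over multiples of `r`
  set s : Finset ℕ := Finset.Icc 1 ⌊X / r⌋₊ with hs
  have hmain := coprime_24p hp hf hsqr hcop24 hB (Y := X / r) (by positivity) s (by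
    intro m hm
    rw [hs, Finset.mem_Icc] at hm
    exact (Nat.le_floor_iff (by positivity)).1 hm.2)
  have hsum : ∑ n ∈ (Finset.Icc 1 ⌊X⌋₊).filter (q ∣ ·), ‖fourierCoeff f n‖ ^ 2 ≤
      ∑ m ∈ s, ‖fourierCoeff f (r * m)‖ ^ 2 := by
    have e : ∑ m ∈ s, ‖fourierCoeff f (r * m)‖ ^ 2 =
        ∑ n ∈ s.image (r * ·), ‖fourierCoeff f n‖ ^ 2 := by
      rw [Finset.sum_image]
      intro a _ b _ hab
      exact Nat.eq_of_mul_eq_mul_left hr0 hab
    rw [e]
    refine Finset.sum_le_sum_of_subset_of_nonneg ?_ fun _ _ _ ↦ by positivity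
    intro n hn
    rw [Finset.mem_filter, Finset.mem_Icc] at hn
    obtain ⟨⟨hn1, hn2⟩, hn3⟩ := hn
    obtain ⟨m, hm⟩ : r ∣ n := (Dvd.intro_left g hr.symm).trans hn3
    rw [Finset.mem_image]
    refine ⟨m, ?_, hm.symm⟩
    rw [hs, Finset.mem_Icc]
    constructor
    · rcases Nat.eq_zero_or_pos m with h | h
      · rw [h, mul_zero] at hm; omega
      · exact h
    · apply Nat.le_floor
      rw [le_div_iff₀ hrR]
      have h1 : (n : ℝ) ≤ X := (Nat.le_floor_iff hX.le).1 hn2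
      rw [hm] at h1
      push_cast at h1
      linarith
  refine hsum.trans (hmain.trans ?_)
  have e1 : (r : ℝ) * (X / r) = X := by field_simp
  rw [e1]
  have hσ : ((ArithmeticFunction.sigma 1 r : ℕ) / r : ℝ) ≤
      ((ArithmeticFunction.sigma 1 q : ℕ) / q : ℝ) := by
    rw [div_le_div_iff₀ hrR hqp]
    have hmul : ArithmeticFunction.sigma 1 q =
        ArithmeticFunction.sigma 1 g * ArithmeticFunction.sigma 1 r := by
      rw [hr]; exact ArithmeticFunction.isMultiplicative_sigma.map_mul_of_coprime hcopgr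
    have hgσ : g ≤ ArithmeticFunction.sigma 1 g := by
      rw [ArithmeticFunction.sigma_one_apply]
      exact Finset.single_le_sum (f := fun d : ℕ ↦ d) (fun _ _ ↦ Nat.zero_le _)
        (Nat.mem_divisors_self g hg0.ne')
    have : ArithmeticFunction.sigma 1 r * q ≤ ArithmeticFunction.sigma 1 q * r := by
      rw [hmul, hr]
      calc ArithmeticFunction.sigma 1 r * (g * r)
          = g * (ArithmeticFunction.sigma 1 r * r) := by ring
        _ ≤ ArithmeticFunction.sigma 1 g * (ArithmeticFunction.sigma 1 r * r) :=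
          Nat.mul_le_mul_right _ hgσ
        _ = _ := by ring
    exact_mod_cast this
  have hlast : (p * r + X / r : ℝ) ≤ g * (X / q + p * q) := by
    have e2 : (g : ℝ) * (X / q) = X / r := by
      rw [hqgr]; field_simp
    have e3 : (p * r : ℝ) ≤ g * (p * q) := by
      have hg1 : (1 : ℝ) ≤ g := by exact_mod_cast hg0
      rw [hqgr]
      calc (p * r : ℝ) = 1 * 1 * (p * r) := by ring
        _ ≤ g * g * (p * r) := by gcongr
        _ = _ := by ring
    rw [mul_add, e2]; linarith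
  have hc := cZero_pos
  calc cZero * B * ((ArithmeticFunction.sigma 1 r : ℕ) / r : ℝ) * Real.sqrt X *
        (p * r + X / r)
      ≤ cZero * B * ((ArithmeticFunction.sigma 1 q : ℕ) / q : ℝ) * Real.sqrt X *
        (g * (X / q + p * q)) := by gcongr
    _ = _ := by ring

end

end Pool.Agent.Work.MP_af11aa_nt
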