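import Mathlib
import Pool.Agent.Work.MP_af11aa_nt.GFun

namespace Pool.Agent.Work.MP_af11aa_nt

open UpperHalfPlane CongruenceSubgroup
open Complex hiding Gamma
open scoped MatrixGroups Manifold Topology ComplexConjugate

noncomputable section

/-- the twisted sum of translates which isolates the residue class `a`. -/
def resSum (f : ℍ → ℂ) (q : ℕ) [NeZero q] (a : ZMod q) (z : ℍ) : ℂ :=
  ∑ x : ZMod q, ZMod.stdAddChar (-(a * x)) * f (shiftDiv q (x.val : ℤ) z)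

/-- its invariant square. -/
def resG (f : ℍ → ℂ) (q : ℕ) [NeZero q] (a : ZMod q) (z : ℍ) : ℝ :=
  ‖resSum f q a z‖ ^ 2 * z.im ^ (3 / 2 : ℝ)

lemma resG_nonneg (f : ℍ → ℂ) (q : ℕ) [NeZero q] (a : ZMod q) (z : ℍ) : 0 ≤ resG f q a z := by
  unfold resG; have := z.im_pos; positivity

lemma norm_stdAddChar {q : ℕ} [NeZero q] (x : ZMod q) : ‖ZMod.stdAddChar (N := q) x‖ = 1 :=
  AddChar.norm_apply _ _

/-- The twisted sums are permuted by `Γ₀(Nq)`. -/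
lemma resG_transform {N : ℕ} [NeZero N] {χ : DirichletCharacter ℂ N} {f : ℍ → ℂ}
    (hf : IsCuspForm N χ f) (h4 : 4 ∣ N) {q : ℕ} [NeZero q] {γ : SL(2, ℤ)}
    (hγ : γ ∈ Gamma0 (N * q)) (a : ZMod q) (z : ℍ) :
    resG f q a (γ • z) = resG f q (a * ((γ 0 0 : ℤ) : ZMod q) ^ 2) z := by
  rw [Gamma0_mem, ZMod.intCast_zmod_eq_zero_iff_dvd] at hγ
  obtain ⟨k, hk⟩ := hγ
  have hγ0 : γ ∈ Gamma0 N := by
    rw [Gamma0_mem, ZMod.intCast_zmod_eq_zero_iff_dvd, hk]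
    exact ⟨q * k, by push_cast; ring⟩
  have hdet := γ.det_coe
  rw [Matrix.det_fin_two] at hdet
  set A : ℂ := χ ((γ 1 1 : ℤ) : ZMod N) *
      ((epsilon (γ 1 1))⁻¹ * ((shimuraSymbol (q * γ 1 0) (γ 1 1) : ℤ) : ℂ) *
          lowerForm γ z ^ (1 / 2 : ℂ)) ^ 3 with hA
  have hc : (q : ℤ) * γ 1 0 = q * (q * (N * k)) := by rw [hk]; push_cast; ring
  have h4k : (4 : ℤ) ∣ N * k := Dvd.dvd.mul_right (Int.natCast_dvd_natCast.2 h4) _
  have hcop0 : IsCoprime ((q : ℤ) * γ 1 0) (γ 1 1) := by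
    have h1 : IsCoprime (γ 1 0) (γ 1 1) := gcd_of_mem
    refine IsCoprime.mul_left ?_ h1
    exact h1.of_isCoprime_of_dvd_left ⟨N * k, by rw [hk]; push_cast; ring⟩
  have hterm : ∀ x : ZMod q, f (shiftDiv q (x.val : ℤ) (γ • z)) =
      A * f (shiftDiv q ((((((γ 0 1 : ℤ) : ZMod q) + x * ((γ 1 1 : ℤ) : ZMod q)) *
        ((γ 1 1 : ℤ) : ZMod q) : ZMod q)).val : ℤ) z) := by
    intro x
    set b' : ℤ := (γ 0 1 + (x.val : ℤ) * γ 1 1) * γ 1 1 with hb'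
    have hdiv : (q : ℤ) ∣ γ 0 1 + (x.val : ℤ) * γ 1 1 - b' * (γ 0 0 + (x.val : ℤ) * γ 1 0) := by
      refine ⟨-((γ 0 1 + (x.val : ℤ) * γ 1 1) * (γ 0 1 * (N * k) + γ 1 1 * (x.val : ℤ) * (N * k))), ?_⟩
      rw [hb', hk] at *
      push_cast at hdet ⊢
      linear_combination (-(γ 0 1 + (x.val : ℤ) * γ 1 1)) * hdet
    rw [transform_shift hf q hγ0 hdiv z]
    have hcop1 := coprime_hecke hdiv
    have hS : shimuraSymbol (q * γ 1 0) (γ 1 1 - b' * γ 1 0) =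
        shimuraSymbol (q * γ 1 0) (γ 1 1) := by
      rw [hc] at hcop1 hcop0 ⊢
      refine shimura_sq_congr (NeZero.pos q) h4k hcop1 hcop0 ?_
      refine Int.modEq_iff_dvd.2 ⟨b' * q, ?_⟩
      rw [hk]; push_cast; ring
    have hE : epsilon (γ 1 1 - b' * γ 1 0) = epsilon (γ 1 1) := by
      apply epsilon_congr
      obtain ⟨t, ht⟩ := h4k
      refine Int.modEq_iff_dvd.2 ⟨b' * q * t, ?_⟩
      rw [hk]; push_cast
      linear_combination (b' * q) * ht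
    rw [hS, hE, ← hA]
    congr 1
    apply shift_congr hf
    rw [hb']
    push_cast
    rw [ZMod.natCast_zmod_val, ZMod.natCast_zmod_val]
  have hu : ((γ 1 1 : ℤ) : ZMod q) * ((γ 0 0 : ℤ) : ZMod q) = 1 := by
    have h1 : ((γ 0 0 * γ 1 1 - γ 0 1 * γ 1 0 : ℤ) : ZMod q) = 1 := by rw [hdet]; simp
    rw [hk] at h1
    push_cast at h1
    rw [ZMod.natCast_self] at h1
    linear_combination h1
  set P : ℂ := ZMod.stdAddChar (a * ((γ 0 0 : ℤ) : ZMod q) * ((γ 0 1 : ℤ) : ZMod q)) with hP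
  have hsum : resSum f q a (γ • z) = A * P * resSum f q (a * ((γ 0 0 : ℤ) : ZMod q) ^ 2) z := by
    unfold resSum
    rw [Finset.mul_sum]
    refine Finset.sum_bij' (fun x _ ↦ ((((γ 0 1 : ℤ) : ZMod q) + x * ((γ 1 1 : ℤ) : ZMod q)) *
        ((γ 1 1 : ℤ) : ZMod q) : ZMod q))
      (fun y _ ↦ (y * ((γ 0 0 : ℤ) : ZMod q) - ((γ 0 1 : ℤ) : ZMod q)) * ((γ 0 0 : ℤ) : ZMod q))
      (fun _ _ ↦ Finset.mem_univ _) (fun _ _ ↦ Finset.mem_univ _) ?_ ?_ ?_
    · intro x _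
      linear_combination ((((γ 0 1 : ℤ) : ZMod q)) * ((γ 0 0 : ℤ) : ZMod q) +
        x * ((γ 1 1 : ℤ) : ZMod q) * ((γ 0 0 : ℤ) : ZMod q) + x) * hu
    · intro y _
      linear_combination (y * (((γ 1 1 : ℤ) : ZMod q) * ((γ 0 0 : ℤ) : ZMod q) + 1) -
        ((γ 0 1 : ℤ) : ZMod q) * ((γ 1 1 : ℤ) : ZMod q)) * hu
    · intro x _
      rw [hterm x]
      have hphase : ZMod.stdAddChar (-(a * x)) = P * ZMod.stdAddChar
          (-(a * ((γ 0 0 : ℤ) : ZMod q) ^ 2 * ((((γ 0 1 : ℤ) : ZMod q) +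
            x * ((γ 1 1 : ℤ) : ZMod q)) * ((γ 1 1 : ℤ) : ZMod q)))) := by
        rw [hP, ← AddChar.map_add_eq_mul]
        congr 1
        linear_combination (a * ((γ 0 0 : ℤ) : ZMod q) * ((γ 0 1 : ℤ) : ZMod q) +
          a * x * (((γ 0 0 : ℤ) : ZMod q) * ((γ 1 1 : ℤ) : ZMod q) + 1)) * hu
      rw [hphase]
      ring
  have hAn : ‖A‖ = ‖lowerForm γ z‖ ^ (3 / 2 : ℝ) := by
    rw [hA, norm_mul, norm_char χ hγ0, one_mul, norm_pow, norm_mul, norm_mul, norm_inv,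
      norm_epsilon, norm_shimura hcop0, norm_cpow_half]
    rw [inv_one, one_mul, one_mul, ← Real.rpow_natCast, ← Real.rpow_mul (norm_nonneg _)]
    norm_num
  unfold resG
  rw [hsum, norm_mul, norm_mul, hAn, hP, norm_stdAddChar, mul_one, im_smul_eq]
  have hL : 0 < ‖lowerForm γ z‖ := norm_pos_iff.2 (lowerForm_ne_zero γ z)
  rw [Real.div_rpow z.im_pos.le (by positivity), mul_pow]
  have e1 : (‖lowerForm γ z‖ ^ (3 / 2 : ℝ)) ^ 2 = ‖lowerForm γ z‖ ^ 3 := by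
    rw [← Real.rpow_natCast, ← Real.rpow_mul hL.le, ← Real.rpow_natCast]; norm_num
  have e2 : (‖lowerForm γ z‖ ^ 2) ^ (3 / 2 : ℝ) = ‖lowerForm γ z‖ ^ 3 := by
    rw [← Real.rpow_natCast, ← Real.rpow_mul hL.le, ← Real.rpow_natCast]; norm_num
  rw [e1, e2]
  field_simp

/-- Parseval over the residue classes. -/
lemma sum_resG {f : ℍ → ℂ} {q : ℕ} [NeZero q] (z : ℍ) :
    ∑ a : ZMod q, resG f q a z =
      q * ∑ x : ZMod q, ‖f (shiftDiv q (x.val : ℤ) z)‖ ^ 2 * z.im ^ (3 / 2 : ℝ) := by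
  have hnorm : ∀ w : ℂ, ((‖w‖ ^ 2 : ℝ) : ℂ) = w * conj w := by
    intro w
    rw [Complex.mul_conj, Complex.normSq_eq_norm_sq]
  have key : ∑ a : ZMod q, ‖resSum f q a z‖ ^ 2 =
      q * ∑ x : ZMod q, ‖f (shiftDiv q (x.val : ℤ) z)‖ ^ 2 := by
    have h1 : ((∑ a : ZMod q, ‖resSum f q a z‖ ^ 2 : ℝ) : ℂ) =
        ((q * ∑ x : ZMod q, ‖f (shiftDiv q (x.val : ℤ) z)‖ ^ 2 : ℝ) : ℂ) := by
      rw [Complex.ofReal_sum]
      simp_rw [hnorm]
      set F : ZMod q → ℂ := fun x ↦ f (shiftDiv q (x.val : ℤ) z) with hF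
      have h2 : ∀ a : ZMod q, resSum f q a z * conj (resSum f q a z) =
          ∑ x : ZMod q, ∑ y : ZMod q, ZMod.stdAddChar (a * (y - x)) * (F x * conj (F y)) := by
        intro a
        unfold resSum
        rw [map_sum, Finset.sum_mul_sum]
        refine Finset.sum_congr rfl fun x _ ↦ Finset.sum_congr rfl fun y _ ↦ ?_
        rw [map_mul, ← AddChar.map_neg_eq_conj, neg_neg]
        have e : ZMod.stdAddChar (a * (y - x)) =
            ZMod.stdAddChar (-(a * x)) * ZMod.stdAddChar (a * y) := by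
          rw [← AddChar.map_add_eq_mul]; congr 1; ring
        rw [e, hF]
        ring
      simp_rw [h2]
      rw [Finset.sum_comm]
      simp_rw [Finset.sum_comm (s := (Finset.univ : Finset (ZMod q))) (t := Finset.univ)
        (f := fun a y ↦ ZMod.stdAddChar (a * (y - _)) * (F _ * conj (F y)))]
      rw [Complex.ofReal_mul, Complex.ofReal_sum, Finset.mul_sum]
      refine Finset.sum_congr rfl fun x _ ↦ ?_
      rw [Finset.sum_eq_single x]
      · simp only [sub_self, mul_zero, AddChar.map_zero_eq_one, one_mul, Finset.sum_const,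
          Finset.card_univ, ZMod.card, nsmul_eq_mul]
        rw [hnorm]
        push_cast
        rfl
      · intro y _ hyx
        rw [← Finset.sum_mul, AddChar.sum_mulShift _ (ZMod.isPrimitive_stdAddChar q),
          if_neg (sub_ne_zero.2 hyx)]
        simp
      · intro h; exact absurd (Finset.mem_univ _) h
    exact_mod_cast h1
  unfold resG
  rw [← Finset.sum_mul, key, ← Finset.sum_mul, mul_assoc]

lemma sum_resG_le {f : ℍ → ℂ} {q : ℕ} [NeZero q] {B : ℝ}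
    (hB : ∀ w : ℍ, w.im ^ (3 / 2 : ℝ) * ‖f w‖ ^ 2 ≤ B) (z : ℍ) :
    ∑ a : ZMod q, resG f q a z ≤ (q : ℝ) ^ (7 / 2 : ℝ) * B := by
  rw [sum_resG]
  have hq : (0 : ℝ) < q := Nat.cast_pos.2 (NeZero.pos q)
  have hterm : ∀ x : ZMod q, ‖f (shiftDiv q (x.val : ℤ) z)‖ ^ 2 * z.im ^ (3 / 2 : ℝ) ≤
      (q : ℝ) ^ (3 / 2 : ℝ) * B := by
    intro x
    have h1 := hB (shiftDiv q (x.val : ℤ) z)
    rw [im_shiftDiv, Real.div_rpow z.im_pos.le hq.le] at h1
    have h2 : 0 < (q : ℝ) ^ (3 / 2 : ℝ) := Real.rpow_pos_of_pos hq _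
    calc ‖f (shiftDiv q (x.val : ℤ) z)‖ ^ 2 * z.im ^ (3 / 2 : ℝ)
        = (q : ℝ) ^ (3 / 2 : ℝ) * (z.im ^ (3 / 2 : ℝ) / (q : ℝ) ^ (3 / 2 : ℝ) *
            ‖f (shiftDiv q (x.val : ℤ) z)‖ ^ 2) := by
          field_simp
      _ ≤ _ := by gcongr
  calc (q : ℝ) * ∑ x : ZMod q, ‖f (shiftDiv q (x.val : ℤ) z)‖ ^ 2 * z.im ^ (3 / 2 : ℝ)
      ≤ (q : ℝ) * ∑ _x : ZMod q, (q : ℝ) ^ (3 / 2 : ℝ) * B :=
        mul_le_mul_of_nonneg_left (Finset.sum_le_sum fun x _ ↦ hterm x) hq.le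
    _ = (q : ℝ) ^ (7 / 2 : ℝ) * B := by
        rw [Finset.sum_const, Finset.card_univ, ZMod.card, nsmul_eq_mul]
        have e : (q : ℝ) ^ (7 / 2 : ℝ) = q * (q * (q : ℝ) ^ (3 / 2 : ℝ)) := by
          rw [show (7 / 2 : ℝ) = 1 + (1 + 3 / 2) by norm_num, Real.rpow_add hq, Real.rpow_add hq,
            Real.rpow_one]
        rw [e]
        ring

section avg

attribute [local instance] Subgroup.fintypeQuotientOfFiniteIndex

/-- the sum over `SL(2,ℤ)/Γ(Nq)`. -/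
def resAvg (N : ℕ) [NeZero N] (f : ℍ → ℂ) (q : ℕ) [NeZero q] (a : ZMod q) (z : ℍ) : ℝ :=
  ∑ x : SL(2, ℤ) ⧸ Gamma (N * q), resG f q a ((Quotient.out x)⁻¹ • z)

lemma resAvg_nonneg (N : ℕ) [NeZero N] (f : ℍ → ℂ) (q : ℕ) [NeZero q] (a : ZMod q) (z : ℍ) :
    0 ≤ resAvg N f q a z := Finset.sum_nonneg fun _ _ ↦ resG_nonneg f q a _

lemma resG_Gamma {N : ℕ} [NeZero N] {χ : DirichletCharacter ℂ N} {f : ℍ → ℂ}
    (hf : IsCuspForm N χ f) (h4 : 4 ∣ N) {q : ℕ} [NeZero q] (a : ZMod q) :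
    ∀ γ ∈ Gamma (N * q), ∀ z, resG f q a (γ • z) = resG f q a z := by
  intro γ hγ z
  have hγ0 : γ ∈ Gamma0 (N * q) := by
    rw [Gamma_mem] at hγ
    rw [Gamma0_mem]; exact hγ.2.2.1
  rw [resG_transform hf h4 hγ0]
  have h1 : ((γ 0 0 : ℤ) : ZMod q) = 1 := by
    have h2 := hγ
    rw [Gamma_mem] at h2
    have h3 : ((N * q : ℕ) : ℤ) ∣ γ 0 0 - 1 := by
      rw [← ZMod.intCast_zmod_eq_zero_iff_dvd]; push_cast; rw [h2.1]; ring
    have h4 : (q : ℤ) ∣ γ 0 0 - 1 := (Int.natCast_dvd_natCast.2 (Dvd.intro_left N rfl)).trans h3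
    rw [← ZMod.intCast_zmod_eq_zero_iff_dvd] at h4
    push_cast at h4
    linear_combination h4
  rw [h1]; simp

lemma resAvg_sq {N : ℕ} [NeZero N] {χ : DirichletCharacter ℂ N} {f : ℍ → ℂ}
    (hf : IsCuspForm N χ f) (h4 : 4 ∣ N) {q : ℕ} [NeZero q] (a : ZMod q) (u : (ZMod q)ˣ) (z : ℍ) :
    resAvg N f q (a * (u : ZMod q) ^ 2) z = resAvg N f q a z := by
  -- a matrix in Γ₀(Nq) with upper left entry `u` modulo `q`
  obtain ⟨U, hU⟩ := ZMod.unitsMap_surjective (Dvd.intro_left N rfl : q ∣ N * q) u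
  set α : ℤ := ((U : ZMod (N * q)).val : ℤ) with hα
  have hcop : IsCoprime α ((N * q : ℕ) : ℤ) := by
    rw [hα]
    exact Nat.isCoprime_iff_coprime.2 (ZMod.val_coe_unit_coprime U)
  obtain ⟨r, s, hrs⟩ := hcop
  let δ : SL(2, ℤ) := ⟨!![α, -s; ((N * q : ℕ) : ℤ), r], by
    rw [Matrix.det_fin_two_of]; linear_combination hrs⟩
  have hδ : δ ∈ Gamma0 (N * q) := by
    rw [Gamma0_mem]
    change ((((N * q : ℕ) : ℤ) : ℤ) : ZMod (N * q)) = 0
    rw [Int.cast_natCast, ZMod.natCast_self]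
  have hδu : ((δ 0 0 : ℤ) : ZMod q) = u := by
    change ((α : ℤ) : ZMod q) = u
    rw [hα, ← hU]
    rw [ZMod.unitsMap_def]
    simp only [Units.coe_map, MonoidHom.coe_coe]
    rw [ZMod.castHom_apply]
    push_cast
    rw [ZMod.natCast_val]
  have h1 : ∀ w : ℍ, resG f q a (δ • w) = resG f q (a * (u : ZMod q) ^ 2) w := by
    intro w; rw [resG_transform hf h4 hδ, hδu]
  have h2 := avg_comp (N * q) (Ψ := fun w ↦ ((resG f q a w : ℝ) : ℂ))
    (fun γ hγ w ↦ by rw [resG_Gamma hf h4 a γ hγ w]) δ z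
  unfold avg at h2
  simp_rw [h1] at h2
  unfold resAvg
  exact_mod_cast h2

/-- number of square roots of unity modulo `q`. -/
def rootCount (q : ℕ) [NeZero q] : ℕ :=
  (Finset.univ.filter fun u : (ZMod q)ˣ ↦ u ^ 2 = 1).card

lemma resAvg_le {N : ℕ} [NeZero N] {χ : DirichletCharacter ℂ N} {f : ℍ → ℂ}
    (hf : IsCuspForm N χ f) (h4 : 4 ∣ N) {q : ℕ} [NeZero q] (a : (ZMod q)ˣ)
    {B : ℝ} (hB : ∀ w : ℍ, w.im ^ (3 / 2 : ℝ) * ‖f w‖ ^ 2 ≤ B) (z : ℍ) :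
    Nat.totient q * resAvg N f q a z ≤
      rootCount q * ((q : ℝ) ^ (7 / 2 : ℝ) * B * (Gamma (N * q)).index) := by
  classical
  have h1 : Nat.totient q * resAvg N f q a z =
      ∑ u : (ZMod q)ˣ, resAvg N f q (a * (u : ZMod q) ^ 2) z := by
    simp_rw [resAvg_sq hf h4]
    rw [Finset.sum_const, Finset.card_univ, ZMod.card_units_eq_totient, nsmul_eq_mul]
  -- fibres
  have h2 : ∑ u : (ZMod q)ˣ, resAvg N f q (a * (u : ZMod q) ^ 2) z ≤
      rootCount q * ∑ c : ZMod q, resAvg N f q c z := by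
    have h3 : ∑ u : (ZMod q)ˣ, resAvg N f q (a * (u : ZMod q) ^ 2) z =
        ∑ c : ZMod q, ∑ u ∈ Finset.univ.filter
          (fun u : (ZMod q)ˣ ↦ ((a * (u : ZMod q) ^ 2 : ZMod q) = c)),
          resAvg N f q (a * (u : ZMod q) ^ 2) z := by
      rw [← Finset.sum_fiberwise_of_maps_to (t := Finset.univ)
        (g := fun u : (ZMod q)ˣ ↦ (a * (u : ZMod q) ^ 2 : ZMod q)) (fun _ _ ↦ Finset.mem_univ _)]
    rw [h3, Finset.mul_sum]
    refine Finset.sum_le_sum fun c _ ↦ ?_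
    have h4 : ∑ u ∈ Finset.univ.filter
          (fun u : (ZMod q)ˣ ↦ ((a * (u : ZMod q) ^ 2 : ZMod q) = c)),
          resAvg N f q (a * (u : ZMod q) ^ 2) z =
        (Finset.univ.filter fun u : (ZMod q)ˣ ↦ ((a * (u : ZMod q) ^ 2 : ZMod q) = c)).card *
          resAvg N f q c z := by
      rw [← nsmul_eq_mul, ← Finset.sum_const]
      refine Finset.sum_congr rfl fun u hu ↦ ?_
      rw [(Finset.mem_filter.1 hu).2]
    rw [h4]
    refine mul_le_mul_of_nonneg_right ?_ (resAvg_nonneg N f q c z)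
    have h5 : (Finset.univ.filter fun u : (ZMod q)ˣ ↦ ((a * (u : ZMod q) ^ 2 : ZMod q) = c)).card ≤
        rootCount q := by
      rcases (Finset.univ.filter fun u : (ZMod q)ˣ ↦
        ((a * (u : ZMod q) ^ 2 : ZMod q) = c)).eq_empty_or_nonempty with h | ⟨v, hv⟩
      · rw [h]; simp
      · unfold rootCount
        refine Finset.card_le_card_of_injOn (fun u ↦ u * v⁻¹) ?_ ?_
        · intro u hu
          rw [Finset.mem_coe, Finset.mem_filter] at hu ⊢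
          refine ⟨Finset.mem_univ _, ?_⟩
          have hu2 := hu.2
          rw [← (Finset.mem_filter.1 hv).2] at hu2
          have h6 : (u : ZMod q) ^ 2 = (v : ZMod q) ^ 2 := (Units.mul_right_inj a).1 hu2
          have h7 : u ^ 2 = v ^ 2 := by
            ext; push_cast; exact h6
          rw [mul_pow, h7, inv_pow, mul_inv_cancel]
        · intro u _ u' _ h
          exact mul_right_cancel h
    exact_mod_cast h5
  have h3 : ∑ c : ZMod q, resAvg N f q c z ≤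
      (q : ℝ) ^ (7 / 2 : ℝ) * B * (Gamma (N * q)).index := by
    unfold resAvg
    rw [Finset.sum_comm]
    calc ∑ x : SL(2, ℤ) ⧸ Gamma (N * q), ∑ c : ZMod q, resG f q c ((Quotient.out x)⁻¹ • z)
        ≤ ∑ _x : SL(2, ℤ) ⧸ Gamma (N * q), (q : ℝ) ^ (7 / 2 : ℝ) * B :=
          Finset.sum_le_sum fun x _ ↦ sum_resG_le hB _
      _ = _ := by
          rw [Finset.sum_const, Finset.card_univ, nsmul_eq_mul, ← Nat.card_eq_fintype_card]
          unfold Subgroup.index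
          ring
  rw [h1]
  refine h2.trans ?_
  gcongr

end avg

end

end Pool.Agent.Work.MP_af11aa_nt
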