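import Mathlib
import Pool.Agent.Work.MP_af11aa_nt.Res
import Pool.Agent.Work.MP_af11aa_nt.Strip

namespace Pool.Agent.Work.MP_af11aa_nt

open UpperHalfPlane CongruenceSubgroup MeasureTheory
open Complex hiding Gamma
open scoped MatrixGroups Manifold Topology ComplexConjugate ENNReal

noncomputable section

section

variable {N : ℕ} {χ : DirichletCharacter ℂ N} {f : ℍ → ℂ}

/-- the exponential `e(n x / q)`. -/
def eFrac (n : ℤ) (q : ℕ) (x : ℝ) : ℂ := Complex.exp (2 * Real.pi * Complex.I * n * (x / q))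

lemma continuous_eFrac (n : ℤ) (q : ℕ) : Continuous (eFrac n q) := by
  unfold eFrac; fun_prop

lemma norm_eFrac (n : ℤ) (q : ℕ) (x : ℝ) : ‖eFrac n q x‖ = 1 := by
  unfold eFrac
  have : (2 * Real.pi * Complex.I * n * (x / q) : ℂ) =
      ((2 * Real.pi * n * (x / q) : ℝ) : ℂ) * Complex.I := by push_cast; ring
  rw [this, Complex.norm_exp_ofReal_mul_I]

lemma stdAddChar_mul_eFrac {q : ℕ} [NeZero q] (a : ZMod q) (n : ℤ) (hn : (n : ZMod q) = a)
    (b : ℕ) (x : ℝ) :
    ZMod.stdAddChar (-(a * (b : ZMod q))) * eFrac (-n) q x =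
      eChar (-n) ((x + b) / q) := by
  have hq : (q : ℂ) ≠ 0 := by exact_mod_cast NeZero.ne q
  have h1 : -(a * (b : ZMod q)) = ((-(n * b) : ℤ) : ZMod q) := by
    rw [← hn]; push_cast; ring
  rw [h1, ZMod.stdAddChar_coe]
  unfold eFrac eChar
  rw [← Complex.exp_add]
  congr 1
  push_cast
  field_simp
  ring

/-- Fourier coefficients of the residue sums on horizontal lines. -/
lemma resSum_coeff (hf : IsCuspForm N χ f) (q : ℕ) [NeZero q] (a : ZMod q) (n : ℕ)
    (hn : (n : ZMod q) = a) {y : ℝ} (hy : 0 < y) :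
    ∫ x in (0 : ℝ)..1, resSum f q a (pt x y) * eFrac (-n) q x =
      q * fourierCoeff f n * Real.exp (-(2 * Real.pi * n * (y / q))) := by
  have hq : (0 : ℝ) < q := Nat.cast_pos.2 (NeZero.pos q)
  have hq' : (q : ℝ) ≠ 0 := hq.ne'
  have hyq : 0 < y / q := by positivity
  have hFc : Continuous fun u ↦ f (pt u (y / q)) := hf.continuous.comp (continuous_pt hyq)
  set F : ℝ → ℂ := fun u ↦ f (pt u (y / q)) * eChar (-n) u with hF
  have hFcont : Continuous F := hFc.mul (continuous_eChar _)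
  have h1 : ∀ b : ℕ, ∫ x in (0 : ℝ)..1, ZMod.stdAddChar (-(a * (b : ZMod q))) *
      f (shiftDiv q (b : ℤ) (pt x y)) * eFrac (-n) q x =
      q * ∫ u in ((b : ℝ) / q)..(((b + 1 : ℕ) : ℝ) / q), F u := by
    intro b
    have e : ∀ x : ℝ, ZMod.stdAddChar (-(a * (b : ZMod q))) *
        f (shiftDiv q (b : ℤ) (pt x y)) * eFrac (-n) q x = F (x / q + b / q) := by
      intro x
      rw [hF]
      simp only
      rw [shiftDiv_pt q b hy]
      have e1 : (x + b) / q = x / q + b / q := by ring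
      have e2 := stdAddChar_mul_eFrac a n (by exact_mod_cast hn) b x
      rw [← e1, ← e2]
      ring
    simp_rw [e]
    rw [intervalIntegral.integral_comp_div_add F hq']
    simp only [zero_div, zero_add]
    rw [Complex.real_smul]
    have e2 : (1 : ℝ) / q + b / q = ((b + 1 : ℕ) : ℝ) / q := by push_cast; ring
    rw [e2]
    push_cast
    rfl
  have h2 : ∫ x in (0 : ℝ)..1, resSum f q a (pt x y) * eFrac (-n) q x =
      q * ∫ u in (0 : ℝ)..1, F u := by
    unfold resSum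
    simp_rw [Finset.sum_mul]
    rw [intervalIntegral.integral_finsetSum]
    · have e3 : ∀ x : ZMod q, ∫ u in (0 : ℝ)..1, ZMod.stdAddChar (-(a * x)) *
          f (shiftDiv q (x.val : ℤ) (pt u y)) * eFrac (-n) q u =
          ∫ u in (0 : ℝ)..1, ZMod.stdAddChar (-(a * ((x.val : ℕ) : ZMod q))) *
          f (shiftDiv q (x.val : ℤ) (pt u y)) * eFrac (-n) q u := by
        intro x; rw [ZMod.natCast_zmod_val]
      simp_rw [e3]
      rw [sum_zmod_val q (fun k ↦ ∫ u in (0 : ℝ)..1, ZMod.stdAddChar (-(a * ((k : ℕ) : ZMod q))) *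
          f (shiftDiv q (k : ℤ) (pt u y)) * eFrac (-n) q u)]
      simp_rw [h1]
      rw [← Finset.mul_sum, intervalIntegral.sum_integral_adjacent_intervals]
      · congr 2
        · simp
        · field_simp
      · intro k _
        exact hFcont.intervalIntegrable _ _
    · intro x _
      have : Continuous fun u ↦ f (shiftDiv q (x.val : ℤ) (pt u y)) := by
        have e : (fun u ↦ f (shiftDiv q (x.val : ℤ) (pt u y))) =
            fun u ↦ f (pt ((u + x.val) / q) (y / q)) := by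
          funext u; rw [shiftDiv_pt q x.val hy]
        rw [e]
        have h3 : Continuous fun u : ℝ ↦ ((u + x.val) / q : ℝ) := by fun_prop
        exact hFc.comp h3
      exact ((continuous_const.mul this).mul (continuous_eFrac _ _)).intervalIntegrable _ _
  rw [h2, fourierCoeff_eq hf n hyq, hF]
  have e4 : (Real.exp (2 * Real.pi * n * (y / q)) : ℂ) *
      (Real.exp (-(2 * Real.pi * n * (y / q))) : ℂ) = 1 := by
    rw [← Complex.ofReal_mul, ← Real.exp_add]; simp
  linear_combination (-(q : ℂ) * ∫ u in (0 : ℝ)..1, f (pt u (y / q)) * eChar (-n) u) * e4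

lemma continuous_resSum_pt (hf : IsCuspForm N χ f) (q : ℕ) [NeZero q] (a : ZMod q) {y : ℝ}
    (hy : 0 < y) : Continuous fun x ↦ resSum f q a (pt x y) := by
  have hq : (0 : ℝ) < q := Nat.cast_pos.2 (NeZero.pos q)
  have hyq : 0 < y / q := by positivity
  unfold resSum
  refine continuous_finsetSum _ fun x _ ↦ continuous_const.mul ?_
  have e : (fun u ↦ f (shiftDiv q (x.val : ℤ) (pt u y))) =
      fun u ↦ f (pt ((u + x.val) / q) (y / q)) := by
    funext u; rw [shiftDiv_pt q x.val hy]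
  rw [e]
  have h3 : Continuous fun u : ℝ ↦ ((u + x.val) / q : ℝ) := by fun_prop
  exact (hf.continuous.comp (continuous_pt hyq)).comp h3

lemma continuous_resSum (hf : IsCuspForm N χ f) (q : ℕ) [NeZero q] (a : ZMod q) :
    Continuous (resSum f q a) := by
  unfold resSum
  exact continuous_finsetSum _ fun x _ ↦
    continuous_const.mul (hf.continuous.comp (continuous_shiftDiv q _))

lemma continuous_resG (hf : IsCuspForm N χ f) (q : ℕ) [NeZero q] (a : ZMod q) :
    Continuous (resG f q a) := by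
  unfold resG
  refine ((continuous_resSum hf q a).norm.pow 2).mul ?_
  exact UpperHalfPlane.continuous_im.rpow_const fun z ↦ Or.inl z.im_pos.ne'

/-- mean square on a horizontal line from below. -/
lemma line_lower_res (hf : IsCuspForm N χ f) (q : ℕ) [NeZero q] (a : ZMod q) {y : ℝ} (hy : 0 < y)
    (s : Finset ℕ) (hs : ∀ n ∈ s, (n : ZMod q) = a) :
    ∑ n ∈ s, (q : ℝ) ^ 2 * ‖fourierCoeff f n‖ ^ 2 * Real.exp (-(4 * Real.pi * n * (y / q))) ≤
      ∫ x in (0 : ℝ)..1, ‖resSum f q a (pt x y)‖ ^ 2 := by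
  have hqZ : (q : ℤ) ≠ 0 := by exact_mod_cast NeZero.ne q
  set a0 : ℤ := (a.val : ℤ) with ha0
  have hdvd : ∀ n ∈ s, (q : ℤ) ∣ (n : ℤ) - a0 := by
    intro n hn
    rw [← ZMod.intCast_zmod_eq_zero_iff_dvd, ha0]
    push_cast
    rw [hs n hn, ZMod.natCast_zmod_val]; ring
  set m : ℕ → ℤ := fun n ↦ ((n : ℤ) - a0) / q with hm
  have hmn : ∀ n ∈ s, (n : ℤ) = a0 + q * m n := by
    intro n hn
    rw [hm]
    simp only
    rw [Int.mul_ediv_cancel' (hdvd n hn)]; ring
  have hinj : Set.InjOn m (s : Set ℕ) := by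
    intro x hx y hy hxy
    have h1 := hmn x hx
    have h2 := hmn y hy
    rw [hxy, ← h2] at h1
    exact_mod_cast h1
  set h : ℝ → ℂ := fun x ↦ resSum f q a (pt x y) * eFrac (-a0) q x with hh
  have hc : Continuous h := (continuous_resSum_pt hf q a hy).mul (continuous_eFrac _ _)
  have hb := bessel_finite hc (s.image m)
  rw [Finset.sum_image hinj] at hb
  have hnorm : ∀ x, ‖h x‖ ^ 2 = ‖resSum f q a (pt x y)‖ ^ 2 := by
    intro x
    rw [hh]
    simp only
    rw [norm_mul, norm_eFrac, mul_one]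
  simp_rw [hnorm] at hb
  refine le_trans (le_of_eq ?_) hb
  refine Finset.sum_congr rfl fun n hn ↦ ?_
  have e : ∀ x, h x * eChar (-(m n)) x = resSum f q a (pt x y) * eFrac (-n) q x := by
    intro x
    rw [hh]
    simp only
    rw [mul_assoc]
    congr 1
    unfold eFrac eChar
    rw [← Complex.exp_add]
    congr 1
    have h1 : ((n : ℤ) : ℂ) = ((a0 + q * m n : ℤ) : ℂ) := by rw [← hmn n hn]
    have hq : (q : ℂ) ≠ 0 := by exact_mod_cast NeZero.ne q
    push_cast at h1 ⊢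
    rw [h1]
    field_simp
    ring
  simp_rw [e]
  rw [resSum_coeff hf q a n (hs n hn) hy]
  rw [norm_mul, norm_mul, Complex.norm_natCast, Complex.norm_real,
    Real.norm_of_nonneg (Real.exp_pos _).le, mul_pow, mul_pow, ← Real.exp_nat_mul]
  congr 2
  push_cast; ring

lemma strip_lower_res (hf : IsCuspForm N χ f) (q : ℕ) [NeZero q] (a : ZMod q) {Y : ℝ} (hY : 0 < Y)
    (s : Finset ℕ) (hs : ∀ n ∈ s, (n : ZMod q) = a ∧ (n : ℝ) ≤ q * Y) :
    ENNReal.ofReal ((q : ℝ) ^ 2 * Real.exp (-(8 * Real.pi)) / Real.sqrt (2 * Y) *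
      ∑ n ∈ s, ‖fourierCoeff f n‖ ^ 2) ≤
      ∫⁻ z in strip Y, ENNReal.ofReal (resG f q a z) := by
  have hq : (0 : ℝ) < q := Nat.cast_pos.2 (NeZero.pos q)
  have hG : Measurable fun z ↦ ENNReal.ofReal (resG f q a z) :=
    (continuous_resG hf q a).measurable.ennreal_ofReal
  have hI : MeasurableSet (Set.Ico (0 : ℝ) 1 ×ˢ Set.Icc (1 / Y) (2 / Y)) :=
    measurableSet_Ico.prod measurableSet_Icc
  have h1Y : 0 < 1 / Y := by positivity
  -- pass to coordinates
  have step1 : ∫⁻ p in Set.Ico (0 : ℝ) 1 ×ˢ Set.Icc (1 / Y) (2 / Y),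
      ENNReal.ofReal (resG f q a (pt p.1 p.2)) * ENNReal.ofReal (1 / p.2 ^ 2) ≤
      ∫⁻ z in strip Y, ENNReal.ofReal (resG f q a z) := by
    rw [← lintegral_indicator (measurableSet_strip Y),
      lintegral_coord (hG.indicator (measurableSet_strip Y))]
    calc ∫⁻ p in Set.Ico (0 : ℝ) 1 ×ˢ Set.Icc (1 / Y) (2 / Y),
          ENNReal.ofReal (resG f q a (pt p.1 p.2)) * ENNReal.ofReal (1 / p.2 ^ 2)
        = ∫⁻ p in Set.Ico (0 : ℝ) 1 ×ˢ Set.Icc (1 / Y) (2 / Y),
          (strip Y).indicator (fun z ↦ ENNReal.ofReal (resG f q a z))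
            (ofComplex (p.1 + p.2 * Complex.I)) * ENNReal.ofReal (1 / p.2 ^ 2) := by
          refine setLIntegral_congr_fun hI ?_
          rintro ⟨x, y⟩ ⟨hx, hy⟩
          have hy0 : 0 < y := lt_of_lt_of_le h1Y hy.1
          simp only
          have hmem : pt x y ∈ strip Y := by
            refine ⟨?_, ?_, ?_, ?_⟩
            · rw [re_pt hy0]; exact hx.1
            · rw [re_pt hy0]; exact hx.2
            · rw [im_pt hy0]; exact hy.1
            · rw [im_pt hy0]; exact hy.2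
          have : (ofComplex (x + y * Complex.I)) = pt x y := rfl
          rw [this, Set.indicator_of_mem hmem]
      _ ≤ _ := by
          refine lintegral_mono_set ?_
          rintro ⟨x, y⟩ ⟨hx, hy⟩
          exact ⟨Set.mem_univ _, lt_of_lt_of_le h1Y hy.1⟩
  refine le_trans ?_ step1
  -- Fubini
  have hmeas : AEMeasurable (fun p : ℝ × ℝ ↦
      ENNReal.ofReal (resG f q a (pt p.1 p.2)) * ENNReal.ofReal (1 / p.2 ^ 2))
      ((volume.prod volume).restrict (Set.Ico (0 : ℝ) 1 ×ˢ Set.Icc (1 / Y) (2 / Y))) := by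
    have hsub : Set.Ico (0 : ℝ) 1 ×ˢ Set.Icc (1 / Y) (2 / Y) ⊆ {p : ℝ × ℝ | 0 < p.2} := by
      rintro ⟨x, y⟩ ⟨hx, hy⟩
      exact lt_of_lt_of_le h1Y hy.1
    have hc : ContinuousOn (fun p : ℝ × ℝ ↦ resG f q a (pt p.1 p.2))
        (Set.Ico (0 : ℝ) 1 ×ˢ Set.Icc (1 / Y) (2 / Y)) :=
      (continuous_resG hf q a).comp_continuousOn (continuousOn_pt.mono hsub)
    have h2 : Measurable (fun p : ℝ × ℝ ↦ ENNReal.ofReal (1 / p.2 ^ 2)) := by fun_prop
    exact (hc.aemeasurable hI).ennreal_ofReal.mul h2.aemeasurable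
  rw [Measure.volume_eq_prod, ← Measure.prod_restrict] at *
  rw [lintegral_prod_symm _ hmeas]
  -- inner bound
  have inner : ∀ y ∈ Set.Icc (1 / Y) (2 / Y),
      ENNReal.ofReal ((q : ℝ) ^ 2 * Real.exp (-(8 * Real.pi)) * Real.sqrt (Y / 2) *
        ∑ n ∈ s, ‖fourierCoeff f n‖ ^ 2) ≤
      ∫⁻ x in Set.Ico (0 : ℝ) 1, ENNReal.ofReal (resG f q a (pt x y)) *
        ENNReal.ofReal (1 / y ^ 2) := by
    intro y hy
    have hy0 : 0 < y := lt_of_lt_of_le h1Y hy.1
    have e1 : ∀ x : ℝ, ENNReal.ofReal (resG f q a (pt x y)) * ENNReal.ofReal (1 / y ^ 2) =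
        ENNReal.ofReal (‖resSum f q a (pt x y)‖ ^ 2 * y ^ (-(1 / 2 : ℝ))) := by
      intro x
      rw [← ENNReal.ofReal_mul (resG_nonneg _ _ _ _)]
      congr 1
      unfold resG
      rw [im_pt hy0, mul_assoc]
      congr 1
      rw [show (3 / 2 : ℝ) = -(1 / 2) + 2 by norm_num, Real.rpow_add hy0]
      have : y ^ (2 : ℝ) = y ^ 2 := by norm_cast
      rw [this]
      field_simp
    simp_rw [e1]
    have hcont : Continuous fun x : ℝ ↦ ‖resSum f q a (pt x y)‖ ^ 2 * y ^ (-(1 / 2 : ℝ)) :=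
      ((continuous_resSum_pt hf q a hy0).norm.pow 2).mul continuous_const
    have e2 : ∫⁻ x in Set.Ico (0 : ℝ) 1, ENNReal.ofReal
        (‖resSum f q a (pt x y)‖ ^ 2 * y ^ (-(1 / 2 : ℝ))) =
        ENNReal.ofReal (∫ x in (0 : ℝ)..1, ‖resSum f q a (pt x y)‖ ^ 2 * y ^ (-(1 / 2 : ℝ))) := by
      rw [intervalIntegral.integral_of_le (by norm_num), ← integral_Ico_eq_integral_Ioc,
        ofReal_integral_eq_lintegral_ofReal]
      · exact (hcont.integrableOn_Icc).mono_set Set.Ico_subset_Icc_self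
      · exact Filter.Eventually.of_forall fun x ↦ by positivity
    rw [e2]
    apply ENNReal.ofReal_le_ofReal
    rw [intervalIntegral.integral_mul_const]
    have hl := line_lower_res hf q a hy0 s (fun n hn ↦ (hs n hn).1)
    have hsq : Real.sqrt (Y / 2) ≤ y ^ (-(1 / 2 : ℝ)) := by
      rw [Real.rpow_neg hy0.le, ← Real.sqrt_eq_rpow, ← Real.sqrt_inv]
      apply Real.sqrt_le_sqrt
      rw [← one_div, le_div_iff₀ hy0]
      have h2 := hy.2
      rw [le_div_iff₀ hY] at h2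
      linarith
    have hsum : (q : ℝ) ^ 2 * Real.exp (-(8 * Real.pi)) *
        ∑ n ∈ s, ‖fourierCoeff f n‖ ^ 2 ≤
        ∑ n ∈ s, (q : ℝ) ^ 2 * ‖fourierCoeff f n‖ ^ 2 *
          Real.exp (-(4 * Real.pi * n * (y / q))) := by
      rw [Finset.mul_sum]
      refine Finset.sum_le_sum fun n hn ↦ ?_
      have hexp : Real.exp (-(8 * Real.pi)) ≤ Real.exp (-(4 * Real.pi * n * (y / q))) := by
        apply Real.exp_le_exp.2
        have h1 := (hs n hn).2
        have h2 := hy.2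
        rw [le_div_iff₀ hY] at h2
        have h3 : (n : ℝ) * (y / q) ≤ 2 := by
          calc (n : ℝ) * (y / q) ≤ (q * Y) * (y / q) := by gcongr
            _ = Y * y := by field_simp
            _ ≤ 2 := by linarith
        have := Real.pi_pos
        nlinarith
      calc (q : ℝ) ^ 2 * Real.exp (-(8 * Real.pi)) * ‖fourierCoeff f n‖ ^ 2
          = (q : ℝ) ^ 2 * ‖fourierCoeff f n‖ ^ 2 * Real.exp (-(8 * Real.pi)) := by ring
        _ ≤ _ := by gcongr
    calc (q : ℝ) ^ 2 * Real.exp (-(8 * Real.pi)) * Real.sqrt (Y / 2) *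
        ∑ n ∈ s, ‖fourierCoeff f n‖ ^ 2
        = ((q : ℝ) ^ 2 * Real.exp (-(8 * Real.pi)) *
          ∑ n ∈ s, ‖fourierCoeff f n‖ ^ 2) * Real.sqrt (Y / 2) := by ring
      _ ≤ (∫ x in (0 : ℝ)..1, ‖resSum f q a (pt x y)‖ ^ 2) * y ^ (-(1 / 2 : ℝ)) := by
          refine mul_le_mul (hsum.trans hl) hsq (Real.sqrt_nonneg _) ?_
          apply intervalIntegral.integral_nonneg (by norm_num)
          intro x _; positivity
  calc ENNReal.ofReal ((q : ℝ) ^ 2 * Real.exp (-(8 * Real.pi)) / Real.sqrt (2 * Y) *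
      ∑ n ∈ s, ‖fourierCoeff f n‖ ^ 2)
      = ENNReal.ofReal ((q : ℝ) ^ 2 * Real.exp (-(8 * Real.pi)) * Real.sqrt (Y / 2) *
        ∑ n ∈ s, ‖fourierCoeff f n‖ ^ 2) * ENNReal.ofReal (1 / Y) := by
        rw [← ENNReal.ofReal_mul (by positivity)]
        congr 1
        have e : Real.sqrt (Y / 2) / Y = 1 / Real.sqrt (2 * Y) := by
          rw [div_eq_div_iff hY.ne' (by positivity), ← Real.sqrt_mul (by positivity), one_mul]
          rw [show Y / 2 * (2 * Y) = Y ^ 2 by ring, Real.sqrt_sq hY.le]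
        calc (q : ℝ) ^ 2 * Real.exp (-(8 * Real.pi)) / Real.sqrt (2 * Y) *
            ∑ n ∈ s, ‖fourierCoeff f n‖ ^ 2 = (q : ℝ) ^ 2 * Real.exp (-(8 * Real.pi)) *
            (1 / Real.sqrt (2 * Y)) * ∑ n ∈ s, ‖fourierCoeff f n‖ ^ 2 := by ring
          _ = _ := by rw [← e]; ring
    _ = ∫⁻ _ in Set.Icc (1 / Y) (2 / Y),
        ENNReal.ofReal ((q : ℝ) ^ 2 * Real.exp (-(8 * Real.pi)) * Real.sqrt (Y / 2) *
        ∑ n ∈ s, ‖fourierCoeff f n‖ ^ 2) := by
        rw [setLIntegral_const, Real.volume_Icc]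
        congr 2
        ring
    _ ≤ _ := setLIntegral_mono' measurableSet_Icc inner

end

end

end Pool.Agent.Work.MP_af11aa_nt
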