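import Mathlib
import Pool.Agent.Work.MP_af11aa_nt.ResStrip
import Pool.Agent.Work.MP_af11aa_nt.Count
import Pool.Agent.Work.MP_af11aa_nt.Index

namespace Pool.Agent.Work.MP_af11aa_nt

open UpperHalfPlane CongruenceSubgroup MeasureTheory
open Complex hiding Gamma
open scoped MatrixGroups Manifold Topology ComplexConjugate ENNReal

noncomputable section

/-- counting integers in an interval with differences divisible by `m`. -/
lemma card_le_interval {T : Finset ℤ} {m : ℕ} (hm : 0 < m) {A B : ℝ}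
    (hAB : ∀ t ∈ T, A ≤ t ∧ (t : ℝ) ≤ B) (hd : ∀ t ∈ T, ∀ t' ∈ T, (m : ℤ) ∣ t - t')
    (hle : 0 ≤ B - A) : (T.card : ℝ) ≤ (B - A) / m + 1 := by
  have hmR : (0 : ℝ) < m := by exact_mod_cast hm
  have hmZ : (m : ℤ) ≠ 0 := by exact_mod_cast hm.ne'
  rcases T.eq_empty_or_nonempty with h | h
  · rw [h]; simp; positivity
  · set t0 := T.min' h with ht0
    have ht0T : t0 ∈ T := T.min'_mem h
    set L : ℕ := ⌊(B - A) / m⌋₊ with hL
    have hcard : T.card ≤ (Finset.range (L + 1)).card := by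
      refine Finset.card_le_card_of_injOn (fun t ↦ ((t - t0) / (m : ℤ)).toNat) ?_ ?_
      · intro t ht
        rw [Finset.mem_coe, Finset.mem_range]
        have h1 : t0 ≤ t := T.min'_le t ht
        obtain ⟨r, hr⟩ := hd t ht t0 ht0T
        have hr0 : 0 ≤ r := by
          by_contra hneg
          push Not at hneg
          have : (m : ℤ) * r < 0 := by
            have : (0 : ℤ) < m := by exact_mod_cast hm
            nlinarith
          omega
        simp only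
        rw [hr, Int.mul_ediv_cancel_left _ hmZ]
        have h2 : r.toNat ≤ L := by
          apply Nat.le_floor
          have e : ((r.toNat : ℕ) : ℝ) = (r : ℝ) := by
            rw [← Int.cast_natCast, Int.toNat_of_nonneg hr0]
          rw [e, le_div_iff₀ hmR]
          have h3 := (hAB t ht).2
          have h4 := (hAB t0 ht0T).1
          have h5 : ((t - t0 : ℤ) : ℝ) = ((m * r : ℤ) : ℝ) := by rw [hr]
          push_cast at h5
          linarith
        omega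
      · intro t ht t' ht' h
        have h1 : t0 ≤ t := T.min'_le t ht
        have h1' : t0 ≤ t' := T.min'_le t' ht'
        obtain ⟨r, hr⟩ := hd t ht t0 ht0T
        obtain ⟨r', hr'⟩ := hd t' ht' t0 ht0T
        have hmpos : (0 : ℤ) < m := by exact_mod_cast hm
        simp only at h
        rw [hr, hr', Int.mul_ediv_cancel_left _ hmZ, Int.mul_ediv_cancel_left _ hmZ] at h
        have hr0 : 0 ≤ r := by
          by_contra hneg; push Not at hneg; nlinarith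
        have hr0' : 0 ≤ r' := by
          by_contra hneg; push Not at hneg; nlinarith
        have : r = r' := by omega
        rw [this] at hr
        omega
    rw [Finset.card_range] at hcard
    have hLle : (L : ℝ) ≤ (B - A) / m := Nat.floor_le (by positivity)
    calc (T.card : ℝ) ≤ ((L + 1 : ℕ) : ℝ) := by exact_mod_cast hcard
      _ = L + 1 := by push_cast; ring
      _ ≤ _ := by linarith

/-- counting lattice-like sets in the plane. -/
lemma card_le_plane {S : Finset (ℤ × ℤ)} {m₁ m₂ : ℕ} (h1 : 0 < m₁) (h2 : 0 < m₂) {x C ρ : ℝ}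
    (hC : 0 ≤ C) (hρ : 0 ≤ ρ)
    (hc : ∀ p ∈ S, |(p.1 : ℝ)| ≤ C) (hd : ∀ p ∈ S, |(p.1 : ℝ) * x + p.2| ≤ ρ)
    (hm1 : ∀ p ∈ S, ∀ p' ∈ S, (m₁ : ℤ) ∣ p.1 - p'.1)
    (hm2 : ∀ p ∈ S, ∀ p' ∈ S, p.1 = p'.1 → (m₂ : ℤ) ∣ p.2 - p'.2) :
    (S.card : ℝ) ≤ (2 * C / m₁ + 1) * (2 * ρ / m₂ + 1) := by
  classical
  set T := S.image Prod.fst with hT
  have hTcard : (T.card : ℝ) ≤ 2 * C / m₁ + 1 := by
    have h3 := card_le_interval (T := T) h1 (A := -C) (B := C) (by
      intro t ht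
      rw [hT, Finset.mem_image] at ht
      obtain ⟨p, hp, rfl⟩ := ht
      exact abs_le.1 (hc p hp)) (by
      intro t ht t' ht'
      rw [hT, Finset.mem_image] at ht ht'
      obtain ⟨p, hp, rfl⟩ := ht
      obtain ⟨p', hp', rfl⟩ := ht'
      exact hm1 p hp p' hp') (by linarith)
    have e : (C - -C) / (m₁ : ℝ) = 2 * C / m₁ := by ring
    rw [e] at h3; exact h3
  have hfib : ∀ t ∈ T, ((S.filter fun p ↦ p.1 = t).card : ℝ) ≤ 2 * ρ / m₂ + 1 := by
    intro t _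
    have h3 := card_le_interval (T := (S.filter fun p ↦ p.1 = t).image Prod.snd) h2
      (A := -ρ - t * x) (B := ρ - t * x) (by
      intro d hd'
      rw [Finset.mem_image] at hd'
      obtain ⟨p, hp, rfl⟩ := hd'
      rw [Finset.mem_filter] at hp
      have h4 := abs_le.1 (hd p hp.1)
      rw [hp.2] at h4
      constructor <;> linarith [h4.1, h4.2]) (by
      intro d hd' d' hd''
      rw [Finset.mem_image] at hd' hd''
      obtain ⟨p, hp, rfl⟩ := hd'
      obtain ⟨p', hp', rfl⟩ := hd''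
      rw [Finset.mem_filter] at hp hp'
      exact hm2 p hp.1 p' hp'.1 (hp.2.trans hp'.2.symm)) (by linarith)
    rw [Finset.card_image_of_injOn] at h3
    · have e : (ρ - t * x - (-ρ - t * x)) / (m₂ : ℝ) = 2 * ρ / m₂ := by ring
      rw [e] at h3; exact h3
    · intro p hp p' hp' h
      rw [Finset.mem_coe, Finset.mem_filter] at hp hp'
      exact Prod.ext (hp.2.trans hp'.2.symm) h
  have hsum : S.card = ∑ t ∈ T, (S.filter fun p ↦ p.1 = t).card :=
    Finset.card_eq_sum_card_fiberwise fun p hp ↦ Finset.mem_image_of_mem _ hp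
  have h4 : (S.card : ℝ) ≤ ∑ _t ∈ T, (2 * ρ / m₂ + 1) := by
    rw [hsum]; push_cast
    exact Finset.sum_le_sum hfib
  rw [Finset.sum_const, nsmul_eq_mul] at h4
  refine h4.trans ?_
  have : 0 ≤ 2 * ρ / m₂ + 1 := by positivity
  exact mul_le_mul_of_nonneg_right hTcard this

/-- the group `Γ₀(Nq) ∩ Γ₁(q)`. -/
def kGroup (N q : ℕ) : Subgroup SL(2, ℤ) := Gamma0 (N * q) ⊓ Gamma1 q

lemma Gamma_le_kGroup (N q : ℕ) : Gamma (N * q) ≤ kGroup N q := by
  intro γ hγ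
  have h := hγ
  rw [Gamma_mem] at h
  refine Subgroup.mem_inf.2 ⟨?_, ?_⟩
  · rw [Gamma0_mem]; exact h.2.2.1
  · rw [Gamma1_mem]
    have hq : (q : ℤ) ∣ ((N * q : ℕ) : ℤ) := Int.natCast_dvd_natCast.2 (Dvd.intro_left N rfl)
    have c1 : ∀ t : ℤ, ((t : ℤ) : ZMod (N * q)) = 1 → ((t : ℤ) : ZMod q) = 1 := by
      intro t ht
      have h3 : ((N * q : ℕ) : ℤ) ∣ t - 1 := by
        rw [← ZMod.intCast_zmod_eq_zero_iff_dvd]; push_cast; rw [ht]; ring
      have h4 := hq.trans h3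
      rw [← ZMod.intCast_zmod_eq_zero_iff_dvd] at h4
      push_cast at h4
      linear_combination h4
    refine ⟨c1 _ h.1, c1 _ h.2.2.2, ?_⟩
    rw [ZMod.intCast_zmod_eq_zero_iff_dvd]
    refine hq.trans ?_
    rw [← ZMod.intCast_zmod_eq_zero_iff_dvd]
    exact h.2.2.1

instance {N q : ℕ} [NeZero N] [NeZero q] : (kGroup N q).FiniteIndex :=
  Subgroup.finiteIndex_of_le (Gamma_le_kGroup N q)

lemma resG_kGroup {N : ℕ} [NeZero N] {χ : DirichletCharacter ℂ N} {f : ℍ → ℂ}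
    (hf : IsCuspForm N χ f) (h4 : 4 ∣ N) {q : ℕ} [NeZero q] (a : ZMod q) {γ : SL(2, ℤ)}
    (hγ : γ ∈ kGroup N q) (z : ℍ) : resG f q a (γ • z) = resG f q a z := by
  obtain ⟨h0, h1⟩ := Subgroup.mem_inf.1 hγ
  rw [resG_transform hf h4 h0]
  rw [Gamma1_mem] at h1
  rw [h1.1]; simp

/-- the rows of the matrices `k⁻¹ κ⁻¹`. -/
lemma row_structure {N q : ℕ} (hN : 0 < N) (hq : 0 < q) {κ g g' : SL(2, ℤ)}
    (hg : g * κ ∈ kGroup N q) (hg' : g' * κ ∈ kGroup N q) :
    ((q * (κ 1 0).gcd N : ℕ) : ℤ) ∣ g 1 0 - g' 1 0 ∧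
      (g 1 0 = g' 1 0 → ((q * (N / (κ 1 0).gcd N) : ℕ) : ℤ) ∣ g 1 1 - g' 1 1) := by
  have hdet := κ.det_coe
  rw [Matrix.det_fin_two] at hdet
  have entry : ∀ g : SL(2, ℤ), (g * κ) 1 0 = g 1 0 * κ 0 0 + g 1 1 * κ 1 0 ∧
      (g * κ) 1 1 = g 1 0 * κ 0 1 + g 1 1 * κ 1 1 := by
    intro g
    constructor
    · rw [Matrix.SpecialLinearGroup.coe_mul, Matrix.mul_apply, Fin.sum_univ_two]
    · rw [Matrix.SpecialLinearGroup.coe_mul, Matrix.mul_apply, Fin.sum_univ_two]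
  have cong : ∀ g : SL(2, ℤ), g * κ ∈ kGroup N q →
      (∃ m : ℤ, g 1 0 * κ 0 0 + g 1 1 * κ 1 0 = N * q * m) ∧
      (∃ n : ℤ, g 1 0 * κ 0 1 + g 1 1 * κ 1 1 = 1 + q * n) := by
    intro g hg
    obtain ⟨h0, h1⟩ := Subgroup.mem_inf.1 hg
    rw [Gamma0_mem, ZMod.intCast_zmod_eq_zero_iff_dvd, (entry g).1] at h0
    rw [Gamma1_mem, (entry g).2] at h1
    obtain ⟨m, hm⟩ := h0
    refine ⟨⟨m, by rw [hm]; push_cast; ring⟩, ?_⟩
    have h2 : (q : ℤ) ∣ (g 1 0 * κ 0 1 + g 1 1 * κ 1 1) - 1 := by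
      rw [← ZMod.intCast_zmod_eq_zero_iff_dvd]
      have := h1.2.1
      push_cast at this ⊢
      rw [this]; ring
    obtain ⟨n, hn⟩ := h2
    exact ⟨n, by linarith⟩
  obtain ⟨⟨m, hm⟩, n, hn⟩ := cong g hg
  obtain ⟨⟨m', hm'⟩, n', hn'⟩ := cong g' hg'
  set e : ℕ := (κ 1 0).gcd N with he
  have he0 : 0 < e := Int.gcd_pos_of_ne_zero_right _ (by exact_mod_cast hN.ne')
  obtain ⟨k1, hk1⟩ : (e : ℤ) ∣ κ 1 0 := Int.gcd_dvd_left _ _
  have heN' : (e : ℤ) ∣ (N : ℤ) := Int.gcd_dvd_right _ _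
  have heN : e ∣ N := by exact_mod_cast heN'
  obtain ⟨N1, hN1⟩ := heN
  have hN1' : N / e = N1 := by rw [hN1, Nat.mul_div_cancel_left _ he0]
  have hcopk : IsCoprime k1 (N1 : ℤ) := by
    have h1 := Int.gcd_eq_gcd_ab (κ 1 0) N
    rw [← he] at h1
    refine ⟨Int.gcdA (κ 1 0) N, Int.gcdB (κ 1 0) N, ?_⟩
    have he' : (e : ℤ) ≠ 0 := by exact_mod_cast he0.ne'
    apply mul_left_cancel₀ he'
    have hNc : (N : ℤ) = e * N1 := by exact_mod_cast hN1
    linear_combination (-1 : ℤ) * h1 - (Int.gcdA (κ 1 0) N) * hk1 - (Int.gcdB (κ 1 0) N) * hNc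
  have hNc : (N : ℤ) = e * N1 := by exact_mod_cast hN1
  constructor
  · -- c - c' = q (N (m-m') κ11 - (n-n') κ10)
    refine ⟨N1 * (m - m') * κ 1 1 - (n - n') * k1, ?_⟩
    push_cast
    have h1 : g 1 0 - g' 1 0 = q * (N * (m - m') * κ 1 1 - (n - n') * κ 1 0) := by
      linear_combination (-(g 1 0) + g' 1 0) * hdet + (κ 1 1) * (hm - hm') - (κ 1 0) * (hn - hn')
    rw [h1, hk1, hNc]; ring
  · intro hcc
    rw [hN1']
    -- (d-d') κ10 = N q (m-m'), (d-d') κ11 = q (n-n')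
    have h1 : (g 1 1 - g' 1 1) * κ 1 0 = N * q * (m - m') := by
      rw [hcc] at hm; linear_combination hm - hm'
    have h2 : (g 1 1 - g' 1 1) * κ 1 1 = q * (n - n') := by
      rw [hcc] at hn; linear_combination hn - hn'
    -- q | d - d'
    have h3 : g 1 1 - g' 1 1 = q * ((n - n') * κ 0 0 - N * (m - m') * κ 0 1) := by
      linear_combination (-(g 1 1 - g' 1 1)) * hdet + (κ 0 0) * h2 - (κ 0 1) * h1
    set w : ℤ := (n - n') * κ 0 0 - N * (m - m') * κ 0 1 with hw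
    have hq' : (q : ℤ) ≠ 0 := by exact_mod_cast hq.ne'
    have h4 : w * k1 = N1 * (m - m') := by
      have he' : (e : ℤ) ≠ 0 := by exact_mod_cast he0.ne'
      apply mul_left_cancel₀ (mul_ne_zero hq' he')
      rw [h3, hk1, hNc] at h1
      linear_combination h1
    have h5 : (N1 : ℤ) ∣ w := by
      have : (N1 : ℤ) ∣ w * k1 := ⟨_, h4⟩
      exact hcopk.symm.dvd_of_dvd_mul_right this
    obtain ⟨v, hv⟩ := h5
    refine ⟨v, ?_⟩
    rw [h3, hv]; push_cast; ring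

/-- the bound for the number of translates in the strip. -/
def cBound (N q : ℕ) (Y h : ℝ) : ℝ := 4 * Y / (q ^ 2 * N) + 6 * Real.sqrt (Y * h) / q + 1

lemma count_res {N q : ℕ} (hN : 0 < N) (hq : 0 < q) {Y : ℝ} (hY : 0 < Y) {κ : SL(2, ℤ)} {z : ℍ}
    (hz : 1 / 2 ≤ z.im) (s : Finset SL(2, ℤ))
    (hs : ∀ g ∈ s, g * κ ∈ kGroup N q ∧ g • z ∈ strip Y) :
    (s.card : ℝ) ≤ cBound N q Y z.im := by
  classical
  have hNR : (0 : ℝ) < N := by exact_mod_cast hN
  have hqR : (0 : ℝ) < q := by exact_mod_cast hq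
  have hh := z.im_pos
  set e : ℕ := (κ 1 0).gcd N with he
  have he0 : 0 < e := Int.gcd_pos_of_ne_zero_right _ (by exact_mod_cast hN.ne')
  have heR : (0 : ℝ) < e := by exact_mod_cast he0
  have heN' : (e : ℤ) ∣ (N : ℤ) := Int.gcd_dvd_right _ _
  have heN : e ∣ N := by exact_mod_cast heN'
  have heleN : (e : ℝ) ≤ N := by exact_mod_cast Nat.le_of_dvd hN heN
  have he1 : (1 : ℝ) ≤ e := by exact_mod_cast he0
  have hNe : 0 < N / e := Nat.div_pos (Nat.le_of_dvd hN heN) he0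
  set ρ : ℝ := Real.sqrt (Y * z.im) with hρ
  have hρ0 : 0 ≤ ρ := Real.sqrt_nonneg _
  have hρ2 : ρ ^ 2 = Y * z.im := Real.sq_sqrt (by positivity)
  set S : Finset (ℤ × ℤ) := s.image fun g ↦ (g 1 0, g 1 1) with hS
  have hcard : S.card = s.card := by
    rw [hS, Finset.card_image_of_injOn]
    intro g hg g' hg' h
    simp only [Prod.mk.injEq] at h
    obtain ⟨-, h1⟩ := hs g hg
    obtain ⟨-, h2⟩ := hs g' hg'
    exact eq_of_row h.1 h.2 h1.1 h1.2.1 h2.1 h2.2.1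
  have hrow : ∀ g ∈ s, |(g 1 0 : ℝ)| ≤ ρ / z.im ∧ |(g 1 0 : ℝ) * z.re + g 1 1| ≤ ρ := by
    intro g hg
    obtain ⟨-, hst⟩ := hs g hg
    obtain ⟨-, -, h1, -⟩ := hst
    have hL : 0 < ‖lowerForm g z‖ ^ 2 := by
      have := norm_pos_iff.2 (lowerForm_ne_zero g z); positivity
    rw [im_smul_eq, div_le_div_iff₀ hY hL, one_mul] at h1
    rw [normSq_lowerForm, mul_comm z.im Y, ← hρ2] at h1
    constructor
    · rw [le_div_iff₀ hh]
      have h2 : (|(g 1 0 : ℝ)| * z.im) ^ 2 ≤ ρ ^ 2 := by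
        rw [mul_pow, sq_abs, ← mul_pow]
        nlinarith [sq_nonneg ((g 1 0 : ℝ) * z.re + g 1 1)]
      exact (pow_le_pow_iff_left₀ (by positivity) hρ0 (by norm_num)).1 h2
    · apply abs_le_of_sq_le_sq _ hρ0
      nlinarith [sq_nonneg ((g 1 0 : ℝ) * z.im)]
  have hplane := card_le_plane (S := S) (m₁ := q * e) (m₂ := q * (N / e)) (by positivity)
    (by positivity) (x := z.re) (C := ρ / z.im) (ρ := ρ) (by positivity) hρ0
    (by
      intro p hp
      rw [hS, Finset.mem_image] at hp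
      obtain ⟨g, hg, rfl⟩ := hp
      exact (hrow g hg).1)
    (by
      intro p hp
      rw [hS, Finset.mem_image] at hp
      obtain ⟨g, hg, rfl⟩ := hp
      exact (hrow g hg).2)
    (by
      intro p hp p' hp'
      rw [hS, Finset.mem_image] at hp hp'
      obtain ⟨g, hg, rfl⟩ := hp
      obtain ⟨g', hg', rfl⟩ := hp'
      exact (row_structure hN hq (hs g hg).1 (hs g' hg').1).1)
    (by
      intro p hp p' hp' h
      rw [hS, Finset.mem_image] at hp hp'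
      obtain ⟨g, hg, rfl⟩ := hp
      obtain ⟨g', hg', rfl⟩ := hp'
      exact (row_structure hN hq (hs g hg).1 (hs g' hg').1).2 h)
  rw [hcard] at hplane
  refine hplane.trans ?_
  have hNe' : ((N / e : ℕ) : ℝ) = N / e := by
    rw [Nat.cast_div heN heR.ne']
  push_cast
  rw [hNe']
  have e1 : 2 * (ρ / z.im) / (q * e) = 2 * ρ / (z.im * q * e) := by field_simp
  have e2 : 2 * ρ / (q * ((N : ℝ) / e)) = 2 * ρ * e / (q * N) := by field_simp
  rw [e1, e2]
  have h1 : 2 * ρ / (z.im * q * e) ≤ 4 * ρ / q := by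
    rw [div_le_div_iff₀ (by positivity) hqR]
    have h3 : (1 : ℝ) / 2 * 1 ≤ z.im * e := by gcongr
    nlinarith [mul_nonneg hρ0 hqR.le]
  have h2 : 2 * ρ * e / (q * N) ≤ 2 * ρ / q := by
    rw [div_le_div_iff₀ (by positivity) hqR]
    nlinarith [mul_nonneg hρ0 hqR.le]
  have h3 : 2 * ρ / (z.im * q * e) * (2 * ρ * e / (q * N)) = 4 * Y / (q ^ 2 * N) := by
    field_simp
    linear_combination 4 * hρ2
  unfold cBound
  calc (2 * ρ / (z.im * q * e) + 1) * (2 * ρ * e / (q * N) + 1)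
      = 2 * ρ / (z.im * q * e) * (2 * ρ * e / (q * N)) + 2 * ρ / (z.im * q * e) +
        2 * ρ * e / (q * N) + 1 := by ring
    _ ≤ 4 * Y / (q ^ 2 * N) + 4 * ρ / q + 2 * ρ / q + 1 := by rw [h3]; linarith
    _ = _ := by rw [hρ]; ring

lemma tsum_strip_res_le {N q : ℕ} (hN : 0 < N) (hq : 0 < q) {Y : ℝ} (hY : 0 < Y)
    (κ : SL(2, ℤ)) {z : ℍ} (hz : 1 / 2 ≤ z.im) :
    ∑' k : kGroup N q, (strip Y).indicator (1 : ℍ → ℝ≥0∞) ((k : SL(2, ℤ))⁻¹ • κ⁻¹ • z) ≤
      ENNReal.ofReal (cBound N q Y z.im) := by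
  classical
  rw [ENNReal.tsum_eq_iSup_sum]
  refine iSup_le fun (t : Finset (kGroup N q)) ↦ ?_
  have h1 : ∑ k ∈ t, (strip Y).indicator (1 : ℍ → ℝ≥0∞) ((k : SL(2, ℤ))⁻¹ • κ⁻¹ • z) =
      ((t.filter fun k : kGroup N q ↦ (k : SL(2, ℤ))⁻¹ • κ⁻¹ • z ∈ strip Y).card : ℝ≥0∞) := by
    rw [Finset.card_filter]
    push_cast
    refine Finset.sum_congr rfl fun k _ ↦ ?_
    rw [Set.indicator_apply]
    simp
  rw [h1]
  set t' := t.filter fun k : kGroup N q ↦ (k : SL(2, ℤ))⁻¹ • κ⁻¹ • z ∈ strip Y with ht'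
  have h2 := count_res hN hq hY (κ := κ) hz
    (t'.image fun k : kGroup N q ↦ (k : SL(2, ℤ))⁻¹ * κ⁻¹) ?_
  · rw [Finset.card_image_of_injective] at h2
    · rw [← ENNReal.ofReal_natCast]
      exact ENNReal.ofReal_le_ofReal h2
    · intro a b hab
      simp only [mul_left_inj, inv_inj] at hab
      exact Subtype.ext hab
  · intro g hg
    rw [Finset.mem_image] at hg
    obtain ⟨k, hk, rfl⟩ := hg
    rw [ht', Finset.mem_filter] at hk
    refine ⟨?_, ?_⟩
    · rw [inv_mul_cancel_right]; exact inv_mem k.2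
    · rw [mul_smul]; exact hk.2

end

end Pool.Agent.Work.MP_af11aa_nt
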