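import Mathlib
import Pool.Agent.Work.MP_af11aa_nt.ResCount
import Pool.Agent.Work.MP_af11aa_nt.Unfold
import Pool.Agent.Work.MP_af11aa_nt.SupBound

namespace Pool.Agent.Work.MP_af11aa_nt

open UpperHalfPlane CongruenceSubgroup MeasureTheory
open Complex hiding Gamma
open scoped MatrixGroups Manifold Topology ComplexConjugate ENNReal

noncomputable section

/-! ### indices -/

lemma relIndex_Gamma0_le_of_dvd (n l : ℕ) (hn : 0 < n) (hl : l.Prime) (hln : l ∣ n) :
    (Gamma0 (n * l)).relIndex (Gamma0 n) ≤ l := by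
  classical
  have : Fact l.Prime := ⟨hl⟩
  set H := (Gamma0 (n * l)).subgroupOf (Gamma0 n) with hH
  let φ0 : Gamma0 n → ZMod l := fun γ ↦
    ((((γ : SL(2, ℤ)) 1 0 / n : ℤ) : ZMod l) * ((((γ : SL(2, ℤ)) 0 0 : ℤ) : ZMod l))⁻¹)
  have hunit : ∀ γ : Gamma0 n, (((γ : SL(2, ℤ)) 0 0 : ℤ) : ZMod l) ≠ 0 := by
    intro γ h0
    rw [ZMod.intCast_zmod_eq_zero_iff_dvd] at h0
    have h1 := γ.2
    rw [Gamma0_mem, ZMod.intCast_zmod_eq_zero_iff_dvd] at h1
    have h2 : (l : ℤ) ∣ (γ : SL(2, ℤ)) 1 0 := (Int.natCast_dvd_natCast.2 hln).trans h1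
    have hdet := (γ : SL(2, ℤ)).det_coe
    rw [Matrix.det_fin_two] at hdet
    have h3 : (l : ℤ) ∣ 1 := by
      rw [← hdet]
      exact (h0.mul_right _).sub (h2.mul_left _)
    have h4 : l ∣ 1 := by exact_mod_cast h3
    exact hl.one_lt.ne' (Nat.dvd_one.1 h4)
  have key : ∀ γ γ' : Gamma0 n, φ0 γ = φ0 γ' → γ⁻¹ * γ' ∈ H := by
    intro γ γ' h
    obtain ⟨k, hk⟩ : (n : ℤ) ∣ (γ : SL(2, ℤ)) 1 0 := by
      have := γ.2
      rwa [Gamma0_mem, ZMod.intCast_zmod_eq_zero_iff_dvd] at this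
    obtain ⟨k', hk'⟩ : (n : ℤ) ∣ (γ' : SL(2, ℤ)) 1 0 := by
      have := γ'.2
      rwa [Gamma0_mem, ZMod.intCast_zmod_eq_zero_iff_dvd] at this
    have hn' : (n : ℤ) ≠ 0 := by exact_mod_cast hn.ne'
    have ek : (γ : SL(2, ℤ)) 1 0 / n = k := by rw [hk, Int.mul_ediv_cancel_left _ hn']
    have ek' : (γ' : SL(2, ℤ)) 1 0 / n = k' := by rw [hk', Int.mul_ediv_cancel_left _ hn']
    have hdvd : (l : ℤ) ∣ (γ : SL(2, ℤ)) 0 0 * k' - k * (γ' : SL(2, ℤ)) 0 0 := by
      simp only [φ0] at h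
      rw [ek, ek'] at h
      have n1 := hunit γ
      have n2 := hunit γ'
      rw [← ZMod.intCast_zmod_eq_zero_iff_dvd]
      push_cast
      field_simp at h
      linear_combination -h
    rw [hH, Subgroup.mem_subgroupOf, Gamma0_mem, ZMod.intCast_zmod_eq_zero_iff_dvd]
    have e : ((γ⁻¹ * γ' : Gamma0 n) : SL(2, ℤ)) 1 0 =
        n * ((γ : SL(2, ℤ)) 0 0 * k' - k * (γ' : SL(2, ℤ)) 0 0) := by
      have h1 : ((γ⁻¹ * γ' : Gamma0 n) : SL(2, ℤ)) = (γ : SL(2, ℤ))⁻¹ * (γ' : SL(2, ℤ)) := rfl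
      rw [h1, Matrix.SpecialLinearGroup.coe_mul, Matrix.mul_apply, Fin.sum_univ_two,
        Matrix.SpecialLinearGroup.SL2_inv_expl]
      simp only [Matrix.cons_val', Matrix.cons_val_zero, Matrix.cons_val_one,
        Matrix.cons_val_fin_one]
      rw [hk, hk']
      ring
    rw [e]
    push_cast
    exact mul_dvd_mul_left _ hdvd
  have hinj : Function.Injective (fun x : (Gamma0 n) ⧸ H ↦ φ0 (Quotient.out x)) := by
    intro x y hxy
    have := key _ _ hxy
    rw [← QuotientGroup.out_eq' x, ← QuotientGroup.out_eq' y]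
    exact QuotientGroup.eq.2 this
  have hcard := Nat.card_le_card_of_injective _ hinj
  rw [Nat.card_eq_fintype_card (α := ZMod l), ZMod.card] at hcard
  exact hcard

lemma index_Gamma0_mul_general (n q : ℕ) (hn : 0 < n) (hq : q ≠ 0) :
    ((Gamma0 (n * q)).index : ℝ) ≤
      (Gamma0 n).index * (q * ∏ l ∈ q.primeFactors, (1 + 1 / (l : ℝ))) := by
  induction q using induction_on_primes with
  | zero => exact absurd rfl hq
  | one => simp
  | prime_mul p a hp ih =>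
    have ha : a ≠ 0 := by rintro rfl; simp at hq
    have hapos : 0 < a := Nat.pos_of_ne_zero ha
    have ih' := ih ha
    have hpR : (0 : ℝ) < p := by exact_mod_cast hp.pos
    rw [show n * (p * a) = (n * a) * p by ring]
    have hmul : ((Gamma0 (n * a * p)).index : ℝ) =
        (Gamma0 (n * a * p)).relIndex (Gamma0 (n * a)) * (Gamma0 (n * a)).index := by
      exact_mod_cast (Subgroup.relIndex_mul_index (Gamma0_mul_le (n * a) p)).symm
    rw [hmul]
    have hprod0 : 0 ≤ ∏ l ∈ a.primeFactors, (1 + 1 / (l : ℝ)) :=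
      Finset.prod_nonneg fun l _ ↦ by positivity
    by_cases hpa : p ∣ a
    · have h1 : ((Gamma0 (n * a * p)).relIndex (Gamma0 (n * a)) : ℝ) ≤ p := by
        exact_mod_cast relIndex_Gamma0_le_of_dvd (n * a) p (by positivity) hp (hpa.mul_left n)
      have h2 : (p * a).primeFactors = a.primeFactors := by
        rw [Nat.primeFactors_mul hp.ne_zero ha, hp.primeFactors]
        apply Finset.union_eq_right.2
        intro x hx
        rw [Finset.mem_singleton] at hx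
        subst hx
        exact Nat.mem_primeFactors.2 ⟨hp, hpa, ha⟩
      rw [h2]
      calc ((Gamma0 (n * a * p)).relIndex (Gamma0 (n * a)) : ℝ) * (Gamma0 (n * a)).index
          ≤ p * ((Gamma0 n).index * (a * ∏ l ∈ a.primeFactors, (1 + 1 / (l : ℝ)))) := by gcongr
        _ = _ := by push_cast; ring
    · have h1 : ((Gamma0 (n * a * p)).relIndex (Gamma0 (n * a)) : ℝ) ≤ p + 1 := by
        exact_mod_cast relIndex_Gamma0_le (n * a) p (by positivity) hp
      have h2 : (p * a).primeFactors = insert p a.primeFactors := by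
        rw [Nat.primeFactors_mul hp.ne_zero ha, hp.primeFactors]
        rfl
      have h3 : p ∉ a.primeFactors := fun h ↦ hpa (Nat.dvd_of_mem_primeFactors h)
      rw [h2, Finset.prod_insert h3]
      calc ((Gamma0 (n * a * p)).relIndex (Gamma0 (n * a)) : ℝ) * (Gamma0 (n * a)).index
          ≤ (p + 1) * ((Gamma0 n).index * (a * ∏ l ∈ a.primeFactors, (1 + 1 / (l : ℝ)))) := by
            gcongr
        _ = _ := by push_cast; field_simp

lemma relIndex_kGroup_le (N q : ℕ) [NeZero q] :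
    (kGroup N q).relIndex (Gamma0 (N * q)) ≤ Nat.totient q := by
  classical
  set H := (kGroup N q).subgroupOf (Gamma0 (N * q)) with hH
  have hval : ∀ γ : Gamma0 (N * q), (((γ : SL(2, ℤ)) 0 0 : ℤ) : ZMod q) *
      (((γ : SL(2, ℤ)) 1 1 : ℤ) : ZMod q) = 1 ∧ (((γ : SL(2, ℤ)) 1 0 : ℤ) : ZMod q) = 0 := by
    intro γ
    have h1 := γ.2
    rw [Gamma0_mem, ZMod.intCast_zmod_eq_zero_iff_dvd] at h1
    have h2 : (q : ℤ) ∣ (γ : SL(2, ℤ)) 1 0 :=
      (Int.natCast_dvd_natCast.2 (Dvd.intro_left N rfl)).trans h1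
    have h3 : (((γ : SL(2, ℤ)) 1 0 : ℤ) : ZMod q) = 0 := by
      rwa [ZMod.intCast_zmod_eq_zero_iff_dvd]
    have hdet := (γ : SL(2, ℤ)).det_coe
    rw [Matrix.det_fin_two] at hdet
    have h4 : (((γ : SL(2, ℤ)) 0 0 * (γ : SL(2, ℤ)) 1 1 -
      (γ : SL(2, ℤ)) 0 1 * (γ : SL(2, ℤ)) 1 0 : ℤ) : ZMod q) = 1 := by rw [hdet]; simp
    push_cast at h4
    rw [h3] at h4
    refine ⟨by linear_combination h4, h3⟩
  let φ0 : Gamma0 (N * q) → (ZMod q)ˣ := fun γ ↦
    ⟨(((γ : SL(2, ℤ)) 0 0 : ℤ) : ZMod q), (((γ : SL(2, ℤ)) 1 1 : ℤ) : ZMod q),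
      (hval γ).1, by rw [mul_comm]; exact (hval γ).1⟩
  have key : ∀ γ γ' : Gamma0 (N * q), φ0 γ = φ0 γ' → γ⁻¹ * γ' ∈ H := by
    intro γ γ' h
    have h0 : (((γ : SL(2, ℤ)) 0 0 : ℤ) : ZMod q) = (((γ' : SL(2, ℤ)) 0 0 : ℤ) : ZMod q) :=
      congrArg Units.val h
    have h1 : (((γ : SL(2, ℤ)) 1 1 : ℤ) : ZMod q) = (((γ' : SL(2, ℤ)) 1 1 : ℤ) : ZMod q) :=
      congrArg Units.inv h
    rw [hH, Subgroup.mem_subgroupOf]
    refine Subgroup.mem_inf.2 ⟨(γ⁻¹ * γ').2, ?_⟩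
    rw [Gamma1_mem]
    have e : ((γ⁻¹ * γ' : Gamma0 (N * q)) : SL(2, ℤ)) = (γ : SL(2, ℤ))⁻¹ * (γ' : SL(2, ℤ)) := rfl
    have e00 : ((γ⁻¹ * γ' : Gamma0 (N * q)) : SL(2, ℤ)) 0 0 =
        (γ : SL(2, ℤ)) 1 1 * (γ' : SL(2, ℤ)) 0 0 - (γ : SL(2, ℤ)) 0 1 * (γ' : SL(2, ℤ)) 1 0 := by
      rw [e, Matrix.SpecialLinearGroup.coe_mul, Matrix.mul_apply, Fin.sum_univ_two,
        Matrix.SpecialLinearGroup.SL2_inv_expl]
      simp only [Matrix.cons_val', Matrix.cons_val_zero, Matrix.cons_val_one,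
        Matrix.cons_val_fin_one]
      ring
    have e11 : ((γ⁻¹ * γ' : Gamma0 (N * q)) : SL(2, ℤ)) 1 1 =
        (γ : SL(2, ℤ)) 0 0 * (γ' : SL(2, ℤ)) 1 1 - (γ : SL(2, ℤ)) 1 0 * (γ' : SL(2, ℤ)) 0 1 := by
      rw [e, Matrix.SpecialLinearGroup.coe_mul, Matrix.mul_apply, Fin.sum_univ_two,
        Matrix.SpecialLinearGroup.SL2_inv_expl]
      simp only [Matrix.cons_val', Matrix.cons_val_zero, Matrix.cons_val_one,
        Matrix.cons_val_fin_one]
      ring
    refine ⟨?_, ?_, (hval (γ⁻¹ * γ')).2⟩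
    · rw [e00]; push_cast
      rw [(hval γ').2, ← h0, mul_zero, sub_zero, mul_comm]; exact (hval γ).1
    · rw [e11]; push_cast
      rw [(hval γ).2, ← h1, zero_mul, sub_zero]; exact (hval γ).1
  have hinj : Function.Injective (fun x : (Gamma0 (N * q)) ⧸ H ↦ φ0 (Quotient.out x)) := by
    intro x y hxy
    have := key _ _ hxy
    rw [← QuotientGroup.out_eq' x, ← QuotientGroup.out_eq' y]
    exact QuotientGroup.eq.2 this
  have hcard := Nat.card_le_card_of_injective _ hinj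
  rw [Nat.card_eq_fintype_card (α := (ZMod q)ˣ), ZMod.card_units_eq_totient] at hcard
  exact hcard

/-! ### the area integral -/

lemma lintegral_fd_sqrt_le :
    ∫⁻ z in (ModularGroup.fd : Set ℍ), ENNReal.ofReal (Real.sqrt z.im) ≤ ENNReal.ofReal 3 := by
  have h𝒟 : MeasurableSet (ModularGroup.fd : Set ℍ) := ModularGroup.isClosed_fd.measurableSet
  have hm : Measurable fun z : ℍ ↦ ENNReal.ofReal (Real.sqrt z.im) :=
    (measurable_upper_im.sqrt).ennreal_ofReal
  rw [← lintegral_indicator h𝒟, lintegral_coord (hm.indicator h𝒟)]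
  have hb : ∀ p ∈ (Set.univ ×ˢ Set.Ioi 0 : Set (ℝ × ℝ)),
      (ModularGroup.fd : Set ℍ).indicator (fun z : ℍ ↦ ENNReal.ofReal (Real.sqrt z.im))
        (ofComplex (p.1 + p.2 * Complex.I)) * ENNReal.ofReal (1 / p.2 ^ 2) ≤
      (Set.Icc (-(1 / 2 : ℝ)) (1 / 2)).indicator 1 p.1 *
        (Set.Ioi (1 / 2 : ℝ)).indicator (fun y ↦ ENNReal.ofReal (y ^ (-(3 / 2) : ℝ))) p.2 := by
    rintro ⟨x, y⟩ ⟨-, hy⟩
    have hy0 : 0 < y := hy
    simp only
    have e : (ofComplex (x + y * Complex.I)) = pt x y := rfl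
    rw [e]
    by_cases hmem : pt x y ∈ (ModularGroup.fd : Set ℍ)
    · have h1 : x ∈ Set.Icc (-(1 / 2 : ℝ)) (1 / 2) := by
        have := hmem.2
        rw [re_pt hy0, abs_le] at this
        exact this
      have h2 : y ∈ Set.Ioi (1 / 2 : ℝ) := by
        have := ModularGroup.three_le_four_mul_im_sq_of_mem_fd hmem
        rw [im_pt hy0] at this
        rw [Set.mem_Ioi]
        nlinarith
      rw [Set.indicator_of_mem hmem, Set.indicator_of_mem h1, Set.indicator_of_mem h2, im_pt hy0]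
      rw [← ENNReal.ofReal_mul (Real.sqrt_nonneg _), Pi.one_apply, one_mul]
      apply le_of_eq
      congr 1
      rw [Real.sqrt_eq_rpow, show (-(3 / 2) : ℝ) = 1 / 2 + (-2) by norm_num, Real.rpow_add hy0,
        Real.rpow_neg hy0.le]
      norm_num
    · rw [Set.indicator_of_notMem hmem, zero_mul]; exact zero_le
  calc _ ≤ ∫⁻ p : ℝ × ℝ in Set.univ ×ˢ Set.Ioi 0,
        (Set.Icc (-(1 / 2 : ℝ)) (1 / 2)).indicator 1 p.1 *
        (Set.Ioi (1 / 2 : ℝ)).indicator (fun y ↦ ENNReal.ofReal (y ^ (-(3 / 2) : ℝ))) p.2 :=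
        setLIntegral_mono' (MeasurableSet.univ.prod measurableSet_Ioi) hb
    _ ≤ ∫⁻ p : ℝ × ℝ,
        (Set.Icc (-(1 / 2 : ℝ)) (1 / 2)).indicator 1 p.1 *
        (Set.Ioi (1 / 2 : ℝ)).indicator (fun y ↦ ENNReal.ofReal (y ^ (-(3 / 2) : ℝ))) p.2 :=
        setLIntegral_le_lintegral _ _
    _ ≤ ENNReal.ofReal 3 := by
        rw [Measure.volume_eq_prod, lintegral_prod_mul]
        · rw [lintegral_indicator_one measurableSet_Icc, lintegral_indicator measurableSet_Ioi,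
            Real.volume_Icc]
          have : ∫⁻ y in Set.Ioi (1 / 2 : ℝ), ENNReal.ofReal (y ^ (-(3 / 2) : ℝ)) ≤
              ENNReal.ofReal 3 := by
            have hint : IntegrableOn (fun y : ℝ ↦ y ^ (-(3 / 2) : ℝ)) (Set.Ioi (1 / 2)) :=
              integrableOn_Ioi_rpow_of_lt (by norm_num) (by norm_num)
            rw [← ofReal_integral_eq_lintegral_ofReal hint]
            · apply ENNReal.ofReal_le_ofReal
              rw [integral_Ioi_rpow_of_lt (by norm_num) (by norm_num)]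
              have e : (1 / 2 : ℝ) ^ (-(3 / 2) + 1 : ℝ) = Real.sqrt 2 := by
                rw [show (-(3 / 2) + 1 : ℝ) = -(1 / 2) by norm_num, Real.rpow_neg (by norm_num),
                  ← Real.sqrt_eq_rpow, ← Real.sqrt_inv]
                norm_num
              rw [e]
              have h2 : Real.sqrt 2 ≤ 1.5 := by
                rw [Real.sqrt_le_left (by norm_num)]; norm_num
              norm_num
              linarith
            · refine (ae_restrict_iff' measurableSet_Ioi).2 (Filter.Eventually.of_forall fun y hy ↦ ?_)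
              have hy0 : 0 < y := lt_trans (by norm_num) hy
              exact (Real.rpow_pos_of_pos hy0 _).le
          calc _ ≤ ENNReal.ofReal (1 / 2 - -(1 / 2)) * ENNReal.ofReal 3 := by gcongr
            _ = ENNReal.ofReal 3 := by norm_num
        · exact (measurable_one.indicator measurableSet_Icc).aemeasurable
        · refine (Measurable.indicator ?_ measurableSet_Ioi).aemeasurable
          fun_prop

lemma lintegral_cBound_le (N q : ℕ) {Y : ℝ} (hY : 0 < Y) :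
    ∫⁻ z in (ModularGroup.fd : Set ℍ), ENNReal.ofReal (cBound N q Y z.im) ≤
      ENNReal.ofReal (8 * Y / (q ^ 2 * N) + 18 * Real.sqrt Y / q + 2) := by
  have hm : Measurable fun z : ℍ ↦ ENNReal.ofReal (Real.sqrt z.im) :=
    (measurable_upper_im.sqrt).ennreal_ofReal
  have h1 : ∀ z : ℍ, ENNReal.ofReal (cBound N q Y z.im) =
      ENNReal.ofReal (4 * Y / (q ^ 2 * N) + 1) +
        ENNReal.ofReal (6 * Real.sqrt Y / q) * ENNReal.ofReal (Real.sqrt z.im) := by
    intro z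
    rw [← ENNReal.ofReal_mul (by positivity), ← ENNReal.ofReal_add (by positivity) (by positivity)]
    congr 1
    unfold cBound
    rw [Real.sqrt_mul hY.le]
    ring
  simp_rw [h1]
  rw [lintegral_add_left measurable_const, lintegral_const_mul _ hm, setLIntegral_const]
  have h2 : ENNReal.ofReal (4 * Y / (q ^ 2 * N) + 1) * volume (ModularGroup.fd : Set ℍ) ≤
      ENNReal.ofReal ((4 * Y / (q ^ 2 * N) + 1) * 2) := by
    rw [ENNReal.ofReal_mul (by positivity)]
    gcongr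
    refine volume_fd_le.trans ?_
    norm_num
  have h3 : ENNReal.ofReal (6 * Real.sqrt Y / q) *
      ∫⁻ z in (ModularGroup.fd : Set ℍ), ENNReal.ofReal (Real.sqrt z.im) ≤
      ENNReal.ofReal (6 * Real.sqrt Y / q * 3) := by
    rw [ENNReal.ofReal_mul (by positivity)]
    gcongr
    exact lintegral_fd_sqrt_le
  refine (add_le_add h2 h3).trans ?_
  rw [← ENNReal.ofReal_add (by positivity) (by positivity)]
  apply ENNReal.ofReal_le_ofReal
  apply le_of_eq
  ring

section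

attribute [local instance] Subgroup.fintypeQuotientOfFiniteIndex

variable {N : ℕ} {χ : DirichletCharacter ℂ N} {f : ℍ → ℂ}

lemma sum_resG_kGroup_le [NeZero N] (hf : IsCuspForm N χ f) (h4 : 4 ∣ N) {q : ℕ} [NeZero q]
    (a : (ZMod q)ˣ) {B : ℝ} (hB : ∀ w : ℍ, w.im ^ (3 / 2 : ℝ) * ‖f w‖ ^ 2 ≤ B) (z : ℍ) :
    ∑ κ : SL(2, ℤ) ⧸ kGroup N q, resG f q a ((Quotient.out κ)⁻¹ • z) ≤
      rootCount q * ((q : ℝ) ^ (7 / 2 : ℝ) * B * (Gamma0 (N * q)).index) := by
  have hB0 : 0 ≤ B := by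
    refine le_trans ?_ (hB UpperHalfPlane.I)
    have := (UpperHalfPlane.I).im_pos
    positivity
  have hφ : (0 : ℝ) < Nat.totient q := by exact_mod_cast Nat.totient_pos.2 (NeZero.pos q)
  have h1 := resAvg_le hf h4 a hB z
  have hle := Gamma_le_kGroup N q
  have h2 : resAvg N f q a z = (Gamma (N * q)).relIndex (kGroup N q) *
      ∑ κ : SL(2, ℤ) ⧸ kGroup N q, resG f q a ((Quotient.out κ)⁻¹ • z) := by
    unfold resAvg
    refine sum_quotient_le hle (fun g ↦ resG f q a (g⁻¹ • z)) ?_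
    intro g k hk
    rw [mul_inv_rev, mul_smul, resG_kGroup hf h4 _ (inv_mem hk)]
  have h3 : ((Gamma (N * q)).index : ℝ) =
      (Gamma (N * q)).relIndex (kGroup N q) *
        ((kGroup N q).relIndex (Gamma0 (N * q)) * (Gamma0 (N * q)).index) := by
    have hk0 : kGroup N q ≤ Gamma0 (N * q) := inf_le_left
    rw [← Nat.cast_mul, ← Nat.cast_mul, Subgroup.relIndex_mul_index hk0,
      Subgroup.relIndex_mul_index hle]
  have h5 : (0 : ℝ) < (Gamma (N * q)).relIndex (kGroup N q) := by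
    have : (Gamma (N * q)).relIndex (kGroup N q) ≠ 0 := by
      have hfin : ((Gamma (N * q)).subgroupOf (kGroup N q)).FiniteIndex := inferInstance
      exact hfin.index_ne_zero
    exact_mod_cast Nat.pos_of_ne_zero this
  have h6 : ((kGroup N q).relIndex (Gamma0 (N * q)) : ℝ) ≤ Nat.totient q := by
    exact_mod_cast relIndex_kGroup_le N q
  rw [h2, h3] at h1
  set S := ∑ κ : SL(2, ℤ) ⧸ kGroup N q, resG f q a ((Quotient.out κ)⁻¹ • z) with hS
  have h7 : (Nat.totient q * (Gamma (N * q)).relIndex (kGroup N q) : ℝ) * S ≤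
      (Nat.totient q * (Gamma (N * q)).relIndex (kGroup N q) : ℝ) *
        (rootCount q * ((q : ℝ) ^ (7 / 2 : ℝ) * B * (Gamma0 (N * q)).index)) := by
    calc (Nat.totient q * (Gamma (N * q)).relIndex (kGroup N q) : ℝ) * S
        = Nat.totient q * ((Gamma (N * q)).relIndex (kGroup N q) * S) := by ring
      _ ≤ _ := h1
      _ ≤ rootCount q * ((q : ℝ) ^ (7 / 2 : ℝ) * B * ((Gamma (N * q)).relIndex (kGroup N q) *
          (Nat.totient q * (Gamma0 (N * q)).index))) := by gcongr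
      _ = _ := by ring
  exact le_of_mul_le_mul_left h7 (by positivity)

theorem res_case [NeZero N] (hf : IsCuspForm N χ f) (h4 : 4 ∣ N) {q : ℕ} [NeZero q]
    (a : (ZMod q)ˣ) {B : ℝ}
    (hB : ∀ w : ℍ, w.im ^ (3 / 2 : ℝ) * ‖f w‖ ^ 2 ≤ B) {Y : ℝ} (hY : 0 < Y)
    (s : Finset ℕ) (hs : ∀ n ∈ s, (n : ZMod q) = a ∧ (n : ℝ) ≤ q * Y) :
    (q : ℝ) ^ 2 * Real.exp (-(8 * Real.pi)) / Real.sqrt (2 * Y) *
      ∑ n ∈ s, ‖fourierCoeff f n‖ ^ 2 ≤
      rootCount q * ((q : ℝ) ^ (7 / 2 : ℝ) * B * (Gamma0 (N * q)).index) *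
        (8 * Y / (q ^ 2 * N) + 18 * Real.sqrt Y / q + 2) := by
  have hB0 : 0 ≤ B := by
    refine le_trans ?_ (hB UpperHalfPlane.I)
    have := (UpperHalfPlane.I).im_pos
    positivity
  have hG : Measurable fun z ↦ ENNReal.ofReal (resG f q a z) :=
    (continuous_resG hf q a).measurable.ennreal_ofReal
  have hK : ∀ k ∈ kGroup N q, ∀ z : ℍ,
      ENNReal.ofReal (resG f q a (k • z)) = ENNReal.ofReal (resG f q a z) := by
    intro k hk z
    rw [resG_kGroup hf h4 _ hk]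
  have h1 := strip_lower_res hf q a hY s hs
  have h2 := unfold_le (kGroup N q) hG hK (measurableSet_strip Y)
  set A : ℝ := rootCount q * ((q : ℝ) ^ (7 / 2 : ℝ) * B * (Gamma0 (N * q)).index) with hA
  have hA0 : 0 ≤ A := by rw [hA]; positivity
  have hN : 0 < N := NeZero.pos N
  have hq : 0 < q := NeZero.pos q
  have h3 : ∫⁻ z in ModularGroup.fd, ∑ κ : SL(2, ℤ) ⧸ kGroup N q,
      ENNReal.ofReal (resG f q a ((Quotient.out κ)⁻¹ • z)) *
      ∑' k : kGroup N q, (strip Y).indicator 1 ((k : SL(2, ℤ))⁻¹ • (Quotient.out κ)⁻¹ • z) ≤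
      ∫⁻ z in ModularGroup.fd, ENNReal.ofReal A * ENNReal.ofReal (cBound N q Y z.im) := by
    refine setLIntegral_mono' ModularGroup.isClosed_fd.measurableSet fun z hz ↦ ?_
    have hzim : 1 / 2 ≤ z.im := by
      have := ModularGroup.three_le_four_mul_im_sq_of_mem_fd hz
      have hp := z.im_pos
      nlinarith
    calc ∑ κ : SL(2, ℤ) ⧸ kGroup N q,
        ENNReal.ofReal (resG f q a ((Quotient.out κ)⁻¹ • z)) *
        ∑' k : kGroup N q, (strip Y).indicator 1 ((k : SL(2, ℤ))⁻¹ • (Quotient.out κ)⁻¹ • z)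
        ≤ ∑ κ : SL(2, ℤ) ⧸ kGroup N q,
        ENNReal.ofReal (resG f q a ((Quotient.out κ)⁻¹ • z)) *
          ENNReal.ofReal (cBound N q Y z.im) := by
          refine Finset.sum_le_sum fun κ _ ↦ ?_
          gcongr
          exact tsum_strip_res_le hN hq hY _ hzim
      _ = ENNReal.ofReal (∑ κ : SL(2, ℤ) ⧸ kGroup N q,
          resG f q a ((Quotient.out κ)⁻¹ • z)) * ENNReal.ofReal (cBound N q Y z.im) := by
          rw [← Finset.sum_mul, ENNReal.ofReal_sum_of_nonneg fun κ _ ↦ resG_nonneg f q _ _]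
      _ ≤ _ := by
          gcongr
          exact sum_resG_kGroup_le hf h4 a hB z
  have h4' : ∫⁻ z in (ModularGroup.fd : Set ℍ), ENNReal.ofReal A *
      ENNReal.ofReal (cBound N q Y z.im) ≤
      ENNReal.ofReal (A * (8 * Y / (q ^ 2 * N) + 18 * Real.sqrt Y / q + 2)) := by
    rw [lintegral_const_mul' _ _ ENNReal.ofReal_ne_top, ENNReal.ofReal_mul hA0]
    gcongr
    exact lintegral_cBound_le N q hY
  have h5 := ((h1.trans h2).trans h3).trans h4'
  refine (ENNReal.ofReal_le_ofReal_iff (mul_nonneg hA0 ?_)).1 h5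
  positivity

end

/-- the constant. -/
def cRes : ℝ := 2916 * Real.sqrt 2 * Real.exp (8 * Real.pi)

lemma cRes_pos : 0 < cRes := by unfold cRes; positivity

theorem res_24p {p : ℕ} (hp : p.Prime) {χ : DirichletCharacter ℂ (24 * p)} {f : ℍ → ℂ}
    (hf : IsCuspForm (24 * p) χ f) {q : ℕ} [NeZero q] (a : (ZMod q)ˣ)
    {B : ℝ} (hB : ∀ w : ℍ, w.im ^ (3 / 2 : ℝ) * ‖f w‖ ^ 2 ≤ B) {X : ℝ} (hX : 0 < X)
    (s : Finset ℕ) (hs : ∀ n ∈ s, (n : ZMod q) = a ∧ (n : ℝ) ≤ X) :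
    ∑ n ∈ s, ‖fourierCoeff f n‖ ^ 2 ≤
      cRes * B * (rootCount q * ∏ l ∈ q.primeFactors, (1 + 1 / (l : ℝ))) * Real.sqrt X *
        (X / q + p * Real.sqrt (X * q) + p * q ^ 2) := by
  have : NeZero (24 * p) := ⟨by have := hp.pos; omega⟩
  have hp0 : (0 : ℝ) < p := by exact_mod_cast hp.pos
  have hqp : (0 : ℝ) < q := Nat.cast_pos.2 (NeZero.pos q)
  have hB0 : 0 ≤ B := by
    refine le_trans ?_ (hB UpperHalfPlane.I)
    have := (UpperHalfPlane.I).im_pos
    positivity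
  have h4 : 4 ∣ 24 * p := ⟨6 * p, by ring⟩
  set Y : ℝ := X / q with hYdef
  have hY : 0 < Y := by positivity
  have hXY : X = q * Y := by rw [hYdef]; field_simp
  have h1 := res_case hf h4 a hB hY s (fun n hn ↦ ⟨(hs n hn).1, by rw [← hXY]; exact (hs n hn).2⟩)
  set Pr : ℝ := ∏ l ∈ q.primeFactors, (1 + 1 / (l : ℝ)) with hPr
  have hPr0 : 0 ≤ Pr := Finset.prod_nonneg fun l _ ↦ by positivity
  have hidx : ((Gamma0 (24 * p * q)).index : ℝ) ≤ 162 * p * (q * Pr) := by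
    have h2 := index_Gamma0_mul_general (24 * p) q (by have := hp.pos; omega) (NeZero.ne q)
    have h3 : ((Gamma0 (24 * p)).index : ℝ) ≤ 162 * p := by exact_mod_cast index_Gamma0_24p_le p hp
    refine h2.trans ?_
    gcongr
  set S : ℝ := ∑ n ∈ s, ‖fourierCoeff f n‖ ^ 2 with hS
  have hq72 : (q : ℝ) ^ (7 / 2 : ℝ) = q ^ 3 * Real.sqrt q := by
    rw [Real.sqrt_eq_rpow, ← Real.rpow_natCast, ← Real.rpow_add hqp]; norm_num
  have hcast : ((24 * p : ℕ) : ℝ) = 24 * p := by push_cast; ring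
  rw [hq72, hcast] at h1
  set r : ℝ := (rootCount q : ℝ) with hr
  have hr0 : 0 ≤ r := by rw [hr]; positivity
  have h2 : (q : ℝ) ^ 2 * Real.exp (-(8 * Real.pi)) / Real.sqrt (2 * Y) * S ≤
      r * (q ^ 3 * Real.sqrt q * B * (162 * p * (q * Pr))) *
        (8 * Y / (q ^ 2 * (24 * p)) + 18 * Real.sqrt Y / q + 2) := by
    refine h1.trans ?_
    gcongr
  have hexp : Real.exp (-(8 * Real.pi)) * Real.exp (8 * Real.pi) = 1 := by
    rw [← Real.exp_add]; simp
  have hs2Y : 0 < Real.sqrt (2 * Y) := by positivity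
  have h3 : S ≤ Real.exp (8 * Real.pi) * Real.sqrt (2 * Y) / q ^ 2 *
      (r * (q ^ 3 * Real.sqrt q * B * (162 * p * (q * Pr))) *
        (8 * Y / (q ^ 2 * (24 * p)) + 18 * Real.sqrt Y / q + 2)) := by
    have hk : 0 ≤ Real.exp (8 * Real.pi) * Real.sqrt (2 * Y) / q ^ 2 := by positivity
    have h4 := mul_le_mul_of_nonneg_left h2 hk
    refine le_trans (le_of_eq ?_) h4
    field_simp
    linear_combination (-S) * hexp
  refine h3.trans ?_
  have e1 : Real.sqrt (2 * Y) = Real.sqrt 2 * Real.sqrt Y := Real.sqrt_mul (by norm_num) _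
  have e2 : Real.sqrt X = Real.sqrt q * Real.sqrt Y := by rw [hXY, Real.sqrt_mul (by positivity)]
  have e3 : Real.sqrt (X * q) = q * Real.sqrt Y := by
    rw [hXY, show (q : ℝ) * Y * q = q ^ 2 * Y by ring, Real.sqrt_mul (by positivity),
      Real.sqrt_sq hqp.le]
  rw [e1, e2, e3]
  have hkey : Real.exp (8 * Real.pi) * (Real.sqrt 2 * Real.sqrt Y) / q ^ 2 *
      (r * (q ^ 3 * Real.sqrt q * B * (162 * p * (q * Pr))) *
        (8 * Y / (q ^ 2 * (24 * p)) + 18 * Real.sqrt Y / q + 2)) =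
      cRes * B * (r * Pr) * (Real.sqrt q * Real.sqrt Y) *
        (1 / 54 * Y + p * (q * Real.sqrt Y) + 1 / 9 * (p * q ^ 2)) := by
    unfold cRes
    field_simp
    ring
  rw [hkey]
  have hc := cRes_pos
  have h5 : 1 / 54 * Y ≤ Y := by linarith
  have h6 : 1 / 9 * (p * (q : ℝ) ^ 2) ≤ p * q ^ 2 := by
    have : 0 ≤ p * (q : ℝ) ^ 2 := by positivity
    linarith
  gcongr

end

end Pool.Agent.Work.MP_af11aa_nt
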